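import Mathlib
import Pool.Agent.Run7.h337.MK.Tree

/-!
# Project MK, piece LOC (helper337), part 18: translated trees of primes, the combinatorial part

Vertex 0 of the tree is m, vertex j + 1 hangs on vertex par j <= j with difference z j (i j); the vertex j + 1 is required to
be a prime after translation by t (j + 1).
-/

set_option autoImplicit false

namespace Run7.h337.MK

open Finset

variable {ι : Type}

/-- The number of the (m, i_0, .., i_(r-1)) with m in P and i_j in s_j for which the vertices x_0 = m,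
x_(j+1) = x_(par j) + z_j(i_j) of the tree, except x_0, are strictly between u and v and all x_(j+1) + t_(j+1) are
primes. -/
noncomputable def treeCountT (u v r : ℕ) (par : ℕ → ℕ) (z : ℕ → ι → ℤ) (s : ℕ → Finset ι) (t : ℕ → ℤ)
    (P : Finset ℕ) : ℕ :=
  open Classical in
  ∑ m ∈ P, ((Fintype.piFinset fun j : Fin r => s j).filter fun i => ∃ x : ℕ → ℤ, x 0 = m ∧
    ∀ j : Fin r, x (j + 1) = x (par j) + z j (i j) ∧ (u : ℤ) < x (j + 1) ∧ x (j + 1) < v ∧
      (x (j + 1) + t (j + 1)).toNat.Prime).card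

lemma treeCountT_zero (u v : ℕ) (par : ℕ → ℕ) (z : ℕ → ι → ℤ) (s : ℕ → Finset ι) (t : ℕ → ℤ) (P : Finset ℕ) :
    treeCountT u v 0 par z s t P = P.card := by
  classical
  rw [treeCountT, card_eq_sum_ones]
  refine sum_congr rfl fun m _ => ?_
  rw [card_eq_one]
  refine ⟨fun j => j.elim0, ?_⟩
  ext i
  rw [mem_filter, mem_singleton, Fintype.mem_piFinset]
  constructor
  · intro _
    funext j
    exact j.elim0
  · intro _
    exact ⟨fun j => j.elim0, fun _ => m, rfl, fun j => j.elim0⟩

/-- One more vertex. -/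
theorem tree_stepT (u v : ℕ) (par : ℕ → ℕ) (hpar : ∀ j, par j ≤ j) (z : ℕ → ι → ℤ) (s : ℕ → Finset ι) (t : ℕ → ℤ) (P : Finset ℕ)
    (hP : P ⊆ Ioo u v) (r : ℕ) (φ δ : ℝ) (hδ : 0 ≤ δ)
    (C : ℕ → Prop) (hCP : par r = 0 → ∀ m ∈ P, C m)
    (hCp : ∀ k, par r = k + 1 → ∀ p ∈ Ioo u v, ((p : ℤ) + t (k + 1)).toNat.Prime → C p)
    (e : ℝ) (he : 0 ≤ e) (F : Finset ℕ) (hF : (F.card : ℝ) ≤ φ)
    (hN : ∀ m ∈ Ioo u v, m ∉ F → C m →
      |((((s r).filter fun c => (u : ℤ) < m + z r c ∧ (m : ℤ) + z r c < v ∧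
        ((m : ℤ) + z r c + t (r + 1)).toNat.Prime).card : ℕ) : ℝ) - e| ≤ δ * e) :
    |(treeCountT u v (r + 1) par z s t P : ℝ) - e * treeCountT u v r par z s t P| ≤
      δ * (e * treeCountT u v r par z s t P) + φ * (∏ j ∈ range r, ((s j).card : ℝ)) * ((s r).card + e) := by
  classical
  choose pos hpos0 hpos using fun (m : ℤ) (i : Fin r → ι) => pos_exists par hpar m r (fun j => z j (i j))
  obtain ⟨G, hG⟩ : ∃ G : ℤ → Finset (Fin r → ι), G = fun m => (Fintype.piFinset fun j : Fin r => s j).filter fun i =>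
    ∃ x : ℕ → ℤ, x 0 = m ∧ ∀ j : Fin r, x (j + 1) = x (par j) + z j (i j) ∧ (u : ℤ) < x (j + 1) ∧ x (j + 1) < v ∧
      (x (j + 1) + t (j + 1)).toNat.Prime := ⟨_, rfl⟩
  obtain ⟨N, hNd⟩ : ∃ N : ℤ → Finset ι, N = fun x => (s r).filter fun c => (u : ℤ) < x + z r c ∧ x + z r c < v ∧
    (x + z r c + t (r + 1)).toNat.Prime := ⟨_, rfl⟩
  have hTr : (treeCountT u v r par z s t P : ℝ) = ∑ m ∈ P, ∑ i ∈ G m, (1 : ℝ) := by
    rw [treeCountT]
    push_cast
    refine sum_congr rfl fun m _ => ?_
    rw [sum_const, nsmul_eq_mul, mul_one, hG]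
  -- the step for one root
  have hstep : ∀ m : ℤ, ((Fintype.piFinset fun j : Fin (r + 1) => s j).filter fun i => ∃ x : ℕ → ℤ, x 0 = m ∧
      ∀ j : Fin (r + 1), x (j + 1) = x (par j) + z j (i j) ∧ (u : ℤ) < x (j + 1) ∧ x (j + 1) < v ∧
      (x (j + 1) + t (j + 1)).toNat.Prime).card = ∑ i ∈ G m, (N (pos m i (par r))).card := by
    intro m
    rw [← card_sigma]
    refine card_bij' (fun (i : Fin (r + 1) → ι) _ => (⟨fun j => i j.castSucc, i (Fin.last r)⟩ : (_ : Fin r → ι) × ι))
      (fun (w : (_ : Fin r → ι) × ι) _ => (Fin.snoc (α := fun _ => ι) w.1 w.2 : Fin (r + 1) → ι)) ?_ ?_ ?_ ?_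
    · intro i hi
      rw [mem_filter, Fintype.mem_piFinset] at hi
      obtain ⟨h1, x, hx0, hx⟩ := hi
      rw [mem_sigma, hG, hNd]
      have hx1 : ∀ j : Fin r, x (j + 1) = x (par j) + z j (i j.castSucc) := fun j => by
        have := (hx j.castSucc).1
        simpa only [Fin.val_castSucc] using this
      have hxp : x (par r) = pos m (fun j => i j.castSucc) (par r) :=
        pos_unique par hpar r (fun j => z j (i j.castSucc)) x _ (by rw [hx0, hpos0]) hx1 (hpos m _) (par r) (hpar r)
      refine ⟨?_, ?_⟩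
      · rw [mem_filter, Fintype.mem_piFinset]
        refine ⟨fun j => h1 j.castSucc, x, hx0, fun j => ⟨hx1 j, ?_⟩⟩
        have := (hx j.castSucc).2
        simpa only [Fin.val_castSucc] using this
      · have h2 := hx (Fin.last r)
        simp only [Fin.val_last] at h2
        rw [mem_filter]
        refine ⟨h1 (Fin.last r), ?_⟩
        simp only
        rw [← hxp, ← h2.1]
        exact h2.2
    · intro w hw
      rw [mem_sigma, hG, hNd, mem_filter, mem_filter, Fintype.mem_piFinset] at hw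
      obtain ⟨⟨h1, x, hx0, hx⟩, h2, h3⟩ := hw
      rw [mem_filter, Fintype.mem_piFinset]
      have hxp : x (par r) = pos m w.1 (par r) :=
        pos_unique par hpar r (fun j => z j (w.1 j)) x _ (by rw [hx0, hpos0]) (fun j => (hx j).1) (hpos m _) (par r)
          (hpar r)
      refine ⟨fun j => ?_, Function.update x (r + 1) (x (par r) + z r w.2), ?_, fun j => ?_⟩
      · rcases Fin.eq_castSucc_or_eq_last j with ⟨k, rfl⟩ | rfl
        · rw [Fin.snoc_castSucc]
          exact h1 k
        · rw [Fin.snoc_last]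
          exact h2
      · rw [Function.update_of_ne (by omega)]
        exact hx0
      · rcases Fin.eq_castSucc_or_eq_last j with ⟨k, rfl⟩ | rfl
        · have h4 := hpar k
          have h5 := k.2
          simp only [Fin.val_castSucc, Fin.snoc_castSucc]
          rw [Function.update_of_ne (by omega), Function.update_of_ne (by omega)]
          exact hx k
        · have h4 := hpar r
          simp only [Fin.val_last, Fin.snoc_last]
          rw [Function.update_self, Function.update_of_ne (by omega)]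
          refine ⟨rfl, ?_⟩
          rw [hxp]
          exact h3
    · intro i _
      funext j
      rcases Fin.eq_castSucc_or_eq_last j with ⟨k, rfl⟩ | rfl
      · rw [Fin.snoc_castSucc]
      · rw [Fin.snoc_last]
    · intro w _
      obtain ⟨w1, w2⟩ := w
      simp only [Fin.snoc_castSucc, Fin.snoc_last]
  have hTs : (treeCountT u v (r + 1) par z s t P : ℝ) = ∑ m ∈ P, ∑ i ∈ G m, ((N (pos m i (par r))).card : ℝ) := by
    rw [treeCountT]
    push_cast
    refine sum_congr rfl fun m _ => ?_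
    rw [hstep]
    push_cast
    rfl
  obtain ⟨B, hB⟩ : ∃ B : ℤ → (Fin r → ι) → Prop, B = fun m i => ∃ n ∈ F, pos m i (par r) = (n : ℤ) := ⟨_, rfl⟩
  have hterm : ∀ m ∈ P, ∀ i ∈ G m, |((N (pos m i (par r))).card : ℝ) - e| ≤
      δ * e + (if B m i then ((s r).card + e : ℝ) else 0) := by
    intro m hm i hi
    have hnat : ∃ n ∈ Ioo u v, C n ∧ pos m i (par r) = (n : ℤ) := by
      rw [hG, mem_filter] at hi
      obtain ⟨_, x, hx0, hx⟩ := hi
      have hxp : x (par r) = pos m i (par r) :=
        pos_unique par hpar r (fun j => z j (i j)) x _ (by rw [hx0, hpos0]) (fun j => (hx j).1) (hpos m _) (par r)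
          (hpar r)
      rw [← hxp]
      rcases Nat.eq_zero_or_pos (par r) with h0 | h0
      · refine ⟨m, hP hm, hCP h0 m hm, ?_⟩
        rw [h0, hx0]
      · obtain ⟨k, hk⟩ : ∃ k, par r = k + 1 := ⟨par r - 1, by omega⟩
        have hkr : k < r := by
          have := hpar r
          omega
        obtain ⟨_, h2, h3, h4⟩ := hx ⟨k, hkr⟩
        simp only at h2 h3 h4
        rw [hk]
        have h5 : ((x (k + 1)).toNat : ℤ) = x (k + 1) := Int.toNat_of_nonneg (by omega)
        have h6 : (x (k + 1)).toNat ∈ Ioo u v := by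
          rw [mem_Ioo]
          omega
        exact ⟨(x (k + 1)).toNat, h6, hCp k hk _ h6 (by rw [h5]; exact h4), h5.symm⟩
    obtain ⟨n, hn, hCn, hpn⟩ := hnat
    by_cases hb : B m i
    · rw [if_pos hb]
      have h7 : ((N (pos m i (par r))).card : ℝ) ≤ (s r).card := by
        rw [hNd]
        exact_mod_cast card_filter_le _ _
      have h8 : (0 : ℝ) ≤ ((N (pos m i (par r))).card : ℝ) := Nat.cast_nonneg _
      rw [abs_le]
      constructor
      · nlinarith
      · nlinarith
    · rw [if_neg hb, add_zero]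
      have hnF : n ∉ F := fun h => hb (by rw [hB]; exact ⟨n, h, hpn⟩)
      have := hN n hn hnF hCn
      rw [hNd, hpn]
      exact this
  have hbad : ∑ m ∈ P, ∑ i ∈ G m, (if B m i then ((s r).card + e : ℝ) else 0) ≤
      φ * (∏ j ∈ range r, ((s j).card : ℝ)) * ((s r).card + e) := by
    have h9 : ∑ m ∈ P, ∑ i ∈ G m, (if B m i then ((s r).card + e : ℝ) else 0) ≤
        ∑ m ∈ P, ∑ i ∈ (Fintype.piFinset fun j : Fin r => s j), (if B m i then ((s r).card + e : ℝ) else 0) := by
      apply sum_le_sum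
      intro m _
      apply sum_le_sum_of_subset_of_nonneg
      · rw [hG]
        exact filter_subset _ _
      · intro i _ _
        split_ifs
        · positivity
        · exact le_refl _
    rw [sum_comm] at h9
    refine h9.trans ?_
    have h10 : ∀ i ∈ (Fintype.piFinset fun j : Fin r => s j),
        ∑ m ∈ P, (if B m i then ((s r).card + e : ℝ) else 0) ≤ φ * ((s r).card + e) := by
      intro i _
      rw [← sum_filter, sum_const, nsmul_eq_mul]
      apply mul_le_mul_of_nonneg_right _ (by positivity)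
      refine le_trans ?_ hF
      have h11 : (P.filter fun m : ℕ => B m i).card ≤ F.card := by
        have htr : ∀ m : ℤ, pos m i (par r) = m + pos 0 i (par r) := by
          intro m
          apply pos_unique par hpar r (fun j => z j (i j)) (pos m i) (fun k => m + pos 0 i k) _ (hpos m i) _ (par r)
            (hpar r)
          · rw [hpos0, hpos0, add_zero]
          · intro j
            rw [hpos 0 i j]
            ring
        apply card_le_card_of_injOn (fun m : ℕ => (pos m i (par r)).toNat)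
        · intro m hm
          rw [mem_coe, mem_filter, hB] at hm
          obtain ⟨n, hn, hpn⟩ := hm.2
          simp only
          rw [hpn, Int.toNat_natCast]
          exact hn
        · intro m hm m' hm' hmm
          rw [mem_coe, mem_filter, hB] at hm hm'
          obtain ⟨n, hn, hpn⟩ := hm.2
          obtain ⟨n', hn', hpn'⟩ := hm'.2
          simp only at hmm
          rw [hpn, hpn', Int.toNat_natCast, Int.toNat_natCast] at hmm
          rw [htr] at hpn hpn'
          have : (m : ℤ) = m' := by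
            rw [hmm] at hpn
            linarith
          exact_mod_cast this
      exact_mod_cast h11
    refine (sum_le_sum h10).trans ?_
    rw [sum_const, nsmul_eq_mul, Fintype.card_piFinset]
    push_cast
    rw [Finset.prod_range fun j => ((s j).card : ℝ)]
    apply le_of_eq
    ring
  rw [hTs, hTr, mul_sum, ← sum_sub_distrib]
  calc |∑ m ∈ P, (∑ i ∈ G m, ((N (pos m i (par r))).card : ℝ) - e * ∑ i ∈ G m, (1 : ℝ))|
      = |∑ m ∈ P, ∑ i ∈ G m, (((N (pos m i (par r))).card : ℝ) - e)| := by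
        congr 1
        refine sum_congr rfl fun m _ => ?_
        rw [sum_sub_distrib, mul_sum]
        simp only [mul_one]
    _ ≤ ∑ m ∈ P, ∑ i ∈ G m, |((N (pos m i (par r))).card : ℝ) - e| := by
        refine (abs_sum_le_sum_abs _ _).trans ?_
        exact sum_le_sum fun m _ => abs_sum_le_sum_abs _ _
    _ ≤ ∑ m ∈ P, ∑ i ∈ G m, (δ * e + (if B m i then ((s r).card + e : ℝ) else 0)) := by
        apply sum_le_sum
        intro m hm
        exact sum_le_sum fun i hi => hterm m hm i hi
    _ = δ * (∑ m ∈ P, e * ∑ i ∈ G m, (1 : ℝ)) + ∑ m ∈ P, ∑ i ∈ G m, (if B m i then ((s r).card + e : ℝ) else 0) := by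
        rw [mul_sum, ← sum_add_distrib]
        refine sum_congr rfl fun m _ => ?_
        rw [sum_add_distrib, sum_const, sum_const, nsmul_eq_mul, nsmul_eq_mul]
        ring
    _ ≤ _ := by
        linarith

/-- The tree law with explicit errors. -/
theorem tree_lawT (u v : ℕ) (par : ℕ → ℕ) (hpar : ∀ j, par j ≤ j) (z : ℕ → ι → ℤ) (s : ℕ → Finset ι) (t : ℕ → ℤ) (P : Finset ℕ)
    (hP : P ⊆ Ioo u v) (φ δ : ℝ) (hδ : 0 ≤ δ) (hφ : 0 ≤ φ) (C : ℕ → ℕ → Prop) (e : ℕ → ℝ) (F : ℕ → Finset ℕ) (r : ℕ)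
    (hCP : ∀ j < r, par j = 0 → ∀ m ∈ P, C j m)
    (hCp : ∀ j < r, ∀ k, par j = k + 1 → ∀ p ∈ Ioo u v, ((p : ℤ) + t (k + 1)).toNat.Prime → C j p)
    (he : ∀ j < r, 0 ≤ e j) (hF : ∀ j < r, ((F j).card : ℝ) ≤ φ)
    (hN : ∀ j < r, ∀ m ∈ Ioo u v, m ∉ F j → C j m →
      |((((s j).filter fun c => (u : ℤ) < m + z j c ∧ (m : ℤ) + z j c < v ∧
        ((m : ℤ) + z j c + t (j + 1)).toNat.Prime).card : ℕ) : ℝ) - e j| ≤ δ * e j) :
    |(treeCountT u v r par z s t P : ℝ) - P.card * ∏ j ∈ range r, e j| ≤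
      ((1 + δ) ^ r - 1) * (P.card * ∏ j ∈ range r, e j) +
      φ * r * (1 + δ) ^ r * ∏ j ∈ range r, ((s j).card + e j) := by
  induction r with
  | zero =>
    rw [treeCountT_zero]
    simp
  | succ r ih =>
    have ih' := ih (fun j hj => hCP j (by omega)) (fun j hj => hCp j (by omega)) (fun j hj => he j (by omega))
      (fun j hj => hF j (by omega)) (fun j hj => hN j (by omega))
    have hs := tree_stepT u v par hpar z s t P hP r φ δ hδ (C r) (hCP r (by omega)) (hCp r (by omega)) (e r)
      (he r (by omega)) (F r) (hF r (by omega)) (hN r (by omega))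
    have her := he r (by omega)
    obtain ⟨T, hT⟩ : ∃ T : ℝ, T = (treeCountT u v r par z s t P : ℝ) := ⟨_, rfl⟩
    obtain ⟨T', hT'⟩ : ∃ T' : ℝ, T' = (treeCountT u v (r + 1) par z s t P : ℝ) := ⟨_, rfl⟩
    obtain ⟨A, hA⟩ : ∃ A : ℝ, A = P.card * ∏ j ∈ range r, e j := ⟨_, rfl⟩
    obtain ⟨Q, hQ⟩ : ∃ Q : ℝ, Q = ∏ j ∈ range r, ((s j).card + e j) := ⟨_, rfl⟩
    obtain ⟨S, hS⟩ : ∃ S : ℝ, S = ∏ j ∈ range r, ((s j).card : ℝ) := ⟨_, rfl⟩
    obtain ⟨c, hc⟩ : ∃ c : ℝ, c = ((s r).card : ℝ) := ⟨_, rfl⟩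
    have hc0 : 0 ≤ c := by rw [hc]; exact Nat.cast_nonneg _
    have hA0 : 0 ≤ A := by
      rw [hA]
      exact mul_nonneg (Nat.cast_nonneg _) (prod_nonneg fun j hj => he j (by rw [mem_range] at hj; omega))
    have hS0 : 0 ≤ S := by
      rw [hS]
      exact prod_nonneg fun j _ => Nat.cast_nonneg _
    have hSQ : S ≤ Q := by
      rw [hS, hQ]
      apply Finset.prod_le_prod
      · intro j _
        exact Nat.cast_nonneg _
      · intro j hj
        have := he j (by rw [mem_range] at hj; omega)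
        linarith
    rw [prod_range_succ, prod_range_succ, ← hQ, ← hT', ← hc]
    rw [← hT, ← hA, ← hQ] at ih'
    rw [← hT, ← hT', ← hS, ← hc] at hs
    rw [show (P.card : ℝ) * ((∏ x ∈ range r, e x) * e r) = e r * A by rw [hA]; ring]
    have hd1 : 1 ≤ (1 + δ) ^ r := one_le_pow₀ (by linarith)
    have hd2 : (1 + δ) ^ (r + 1) = (1 + δ) ^ r * (1 + δ) := pow_succ _ _
    obtain ⟨D, hD⟩ : ∃ D : ℝ, D = (1 + δ) ^ r := ⟨_, rfl⟩
    rw [hd2, ← hD]
    rw [← hD] at ih' hd1
    have h1 : |T' - e r * A| ≤ |T' - e r * T| + e r * |T - A| := by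
      calc |T' - e r * A| = |(T' - e r * T) + e r * (T - A)| := by ring_nf
        _ ≤ |T' - e r * T| + |e r * (T - A)| := abs_add_le _ _
        _ = _ := by rw [abs_mul, abs_of_nonneg her]
    have h2 : T ≤ A + |T - A| := by
      have := le_abs_self (T - A)
      linarith
    have h3 : δ * (e r * T) ≤ δ * (e r * (A + |T - A|)) := by
      apply mul_le_mul_of_nonneg_left _ hδ
      exact mul_le_mul_of_nonneg_left h2 her
    have h4 : (1 + δ) * (e r * |T - A|) ≤ (1 + δ) * (e r * ((D - 1) * A + φ * r * D * Q)) := by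
      apply mul_le_mul_of_nonneg_left _ (by linarith)
      exact mul_le_mul_of_nonneg_left ih' her
    have h5 : φ * S * (c + e r) ≤ φ * (D * (1 + δ)) * (Q * (c + e r)) := by
      have h6 : S * (c + e r) ≤ Q * (c + e r) := mul_le_mul_of_nonneg_right hSQ (by linarith)
      have h7 : (1 : ℝ) ≤ D * (1 + δ) := by nlinarith
      have h8 : 0 ≤ Q * (c + e r) := le_trans (mul_nonneg hS0 (by linarith)) h6
      calc φ * S * (c + e r) = φ * (S * (c + e r)) := by ring
        _ ≤ φ * (Q * (c + e r)) := mul_le_mul_of_nonneg_left h6 hφ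
        _ ≤ φ * ((D * (1 + δ)) * (Q * (c + e r))) := by
            apply mul_le_mul_of_nonneg_left _ hφ
            exact le_mul_of_one_le_left h8 h7
        _ = _ := by ring
    have h9 : (1 + δ) * (e r * (φ * r * D * Q)) ≤ φ * r * (D * (1 + δ)) * (Q * (c + e r)) := by
      have h10 : e r * Q ≤ Q * (c + e r) := by
        have : 0 ≤ Q * c := mul_nonneg (le_trans hS0 hSQ) hc0
        linarith
      have h11 : 0 ≤ φ * r * (D * (1 + δ)) := by positivity
      calc (1 + δ) * (e r * (φ * r * D * Q)) = φ * r * (D * (1 + δ)) * (e r * Q) := by ring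
        _ ≤ _ := mul_le_mul_of_nonneg_left h10 h11
    push_cast
    nlinarith

end Run7.h337.MK
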