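import Mathlib
import Pool.Agent.Run7.h337.MK.AaL

/-!
# Project MK, piece LOC (helper337), part 5: blocks, families
-/

set_option autoImplicit false

namespace Run7.h337.MK

open Finset Filter
open Pool.Agent.H807R2.Dav (ee norm_ee ee_add ee_zero ee_int ee_add_int)
open Pool.Agent.H373R2.T7 (orth)
open Pool.Agent.Run7.h794.MK
open Pool.Agent.N384.MQ (Sm Flat ev_log_pow ev_log_ge)

lemma sm_unif (q : ℕ) (hq : 1 ≤ q) (η : ℝ) (hη : 0 ≤ η) : Sm q η (fun _ => ((1 / q : ℝ) : ℂ)) := by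
  have hq0 : (q : ℂ) ≠ 0 := by exact_mod_cast (by omega : q ≠ 0)
  refine ⟨hq, ?_, fun h hh => ?_⟩
  · rw [sum_const, card_range, nsmul_eq_mul]
    push_cast
    rw [mul_one_div_cancel hq0, norm_one]
  · have h1 := orth q hq h
    rw [if_neg hh] at h1
    have h2 : ∑ v ∈ range q, ((1 / q : ℝ) : ℂ) * ee ((h : ℝ) * v / q) = 0 := by
      rw [← mul_sum]
      have : ∑ v ∈ range q, ee ((h : ℝ) * v / q) = ∑ r ∈ range q, ee ((r : ℝ) * ((h : ℝ) / q)) := by
        apply sum_congr rfl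
        intro v _
        congr 1
        ring
      rw [this, h1, mul_zero]
    rw [h2, norm_zero]
    exact hη

/-- shifting an interval changes the number of the primes by at most the length of the shift -/
lemma shift_count (u l v q : ℕ) (hv : v ≤ q) :
    |(((Ioc u (u + l)).filter fun m => (m + v).Prime).card : ℝ) - (((Ioc u (u + l)).filter Nat.Prime).card : ℝ)| ≤ q := by
  have h1 : ((Ioc u (u + l)).filter fun m => (m + v).Prime).card ≤ ((Ioc u (u + l)).filter Nat.Prime).card + q := by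
    have h2 : ((Ioc u (u + l)).filter fun m => (m + v).Prime).card =
        (((Ioc u (u + l)).filter fun m => (m + v).Prime).image (fun m => m + v)).card :=
      (card_image_of_injective _ (fun a b h => by simpa using h)).symm
    rw [h2]
    have h3 : ((Ioc u (u + l)).filter fun m => (m + v).Prime).image (fun m => m + v) ⊆
        (Ioc u (u + l)).filter Nat.Prime ∪ Ioc (u + l) (u + l + v) := by
      intro m hm
      rw [mem_image] at hm
      obtain ⟨a, ha, rfl⟩ := hm
      rw [mem_filter, mem_Ioc] at ha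
      rw [mem_union, mem_filter, mem_Ioc, mem_Ioc]
      by_cases h : a + v ≤ u + l
      · left
        exact ⟨by omega, ha.2⟩
      · right
        omega
    refine (card_le_card h3).trans ((card_union_le _ _).trans ?_)
    rw [Nat.card_Ioc]
    omega
  have h4 : ((Ioc u (u + l)).filter Nat.Prime).card ≤ ((Ioc u (u + l)).filter fun m => (m + v).Prime).card + q := by
    have h5 : (Ioc u (u + l)).filter Nat.Prime ⊆
        ((Ioc u (u + l)).filter fun m => (m + v).Prime).image (fun m => m + v) ∪ Ioc u (u + v) := by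
      intro m hm
      rw [mem_filter, mem_Ioc] at hm
      rw [mem_union, mem_image, mem_Ioc]
      by_cases h : m ≤ u + v
      · right
        omega
      · left
        refine ⟨m - v, ?_, by omega⟩
        rw [mem_filter, mem_Ioc]
        have : m - v + v = m := by omega
        rw [this]
        exact ⟨by omega, hm.2⟩
    refine (card_le_card h5).trans ((card_union_le _ _).trans ?_)
    rw [Nat.card_Ioc]
    have := card_image_le (s := (Ioc u (u + l)).filter fun m => (m + v).Prime) (f := fun m => m + v)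
    omega
  have h6 : (((Ioc u (u + l)).filter fun m => (m + v).Prime).card : ℝ) ≤ ((Ioc u (u + l)).filter Nat.Prime).card + q := by
    exact_mod_cast h1
  have h7 : (((Ioc u (u + l)).filter Nat.Prime).card : ℝ) ≤ ((Ioc u (u + l)).filter fun m => (m + v).Prime).card + q := by
    exact_mod_cast h4
  rw [abs_le]
  constructor <;> linarith

lemma sum_cnt_unif (u l q : ℕ) (hq : 1 ≤ q) :
    |∑ m ∈ Ioc u (u + l), cnt q (fun _ => 1 / (q : ℝ)) 1 0 m - (((Ioc u (u + l)).filter Nat.Prime).card : ℝ)| ≤ q := by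
  have hq0 : (0 : ℝ) < q := by exact_mod_cast hq
  have h1 : ∑ m ∈ Ioc u (u + l), cnt q (fun _ => 1 / (q : ℝ)) 1 0 m =
      ∑ v ∈ range q, 1 / (q : ℝ) * (((Ioc u (u + l)).filter fun m => (m + v).Prime).card : ℝ) := by
    unfold cnt
    rw [sum_comm]
    apply sum_congr rfl
    intro v _
    rw [← mul_sum]
    congr 1
    rw [card_filter]
    push_cast
    apply sum_congr rfl
    intro m _
    have : ((m : ℤ) + (0 + 1 * (v : ℕ))).toNat = m + v := by omega
    rw [this]
  have h2 : (((Ioc u (u + l)).filter Nat.Prime).card : ℝ) =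
      ∑ v ∈ range q, 1 / (q : ℝ) * (((Ioc u (u + l)).filter Nat.Prime).card : ℝ) := by
    rw [sum_const, card_range, nsmul_eq_mul]
    field_simp
  rw [h1, h2, ← sum_sub_distrib]
  refine (abs_sum_le_sum_abs _ _).trans ?_
  calc ∑ v ∈ range q, |1 / (q : ℝ) * (((Ioc u (u + l)).filter fun m => (m + v).Prime).card : ℝ) -
      1 / (q : ℝ) * (((Ioc u (u + l)).filter Nat.Prime).card : ℝ)| ≤ ∑ v ∈ range q, 1 / (q : ℝ) * q := by
        apply sum_le_sum
        intro v hv
        rw [mem_range] at hv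
        rw [← mul_sub, abs_mul, abs_of_pos (by positivity)]
        exact mul_le_mul_of_nonneg_left (shift_count u l v q hv.le) (by positivity)
    _ = q := by
        rw [sum_const, card_range, nsmul_eq_mul]
        field_simp

/-- **LOC**: almost all short blocks contain the right number of primes, and almost all translates of EVERY short flat
family inside of them too -/
theorem loc_all (hMAJ : S_MAJ1) (T U : ℕ) (ε : ℝ) (hε : 0 < ε) : ∃ V C W X₀ : ℕ, ∀ X : ℕ, X₀ ≤ X →
    ∀ {α : Type} (J : Finset α) (u ℓ : α → ℕ), (∀ j ∈ J, u j + ℓ j ≤ X) → (∀ j ∈ J, (X : ℝ) ≤ u j * Real.log X ^ T) →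
    (∀ j ∈ J, (X : ℝ) ^ (1 / 3 : ℝ) * Real.log X ^ (C + W + 1) ≤ ℓ j) →
    (∀ m : ℕ, ((J.filter fun j => u j < m ∧ m ≤ u j + ℓ j).card : ℝ) ≤ Real.log X ^ T) →
    ∃ Bad : Finset α, Bad ⊆ J ∧ ∑ j ∈ Bad, (ℓ j : ℝ) ≤ X / Real.log X ^ U ∧ ∀ j ∈ J, j ∉ Bad →
    |(((Ioc (u j) (u j + ℓ j)).filter Nat.Prime).card : ℝ) - ℓ j / Real.log X| ≤ ε * (ℓ j / Real.log X) ∧
    ∀ (q : ℕ) [NeZero q], (X : ℝ) ^ (1 / 3 : ℝ) * Real.log X ^ C ≤ q → (q : ℝ) * Real.log X ^ W ≤ ℓ j →
    ∀ {ι : Type} (s : Finset ι) (y : ι → ZMod q), s.Nonempty → Flat q (1 / Real.log X ^ V) s y →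
    ∀ κ : ℤ, κ ≠ 0 → (κ.natAbs : ℝ) ≤ Real.log X ^ T → ∃ E : Finset ℕ, (E.card : ℝ) ≤ ℓ j / Real.log X ^ U ∧
      ∀ m : ℕ, u j < m → m ≤ u j + ℓ j → m ∉ E →
        (∀ i, (u j : ℤ) < m + κ * ((y i).val : ℕ) ∧ m + κ * ((y i).val : ℕ) ≤ u j + ℓ j) ∧ (IsCoprime (m : ℤ) κ →
        |((s.filter fun i => ((m : ℤ) + κ * ((y i).val : ℕ)).toNat.Prime).card : ℝ) -
          κ.natAbs / (Nat.totient κ.natAbs : ℝ) * (s.card / Real.log X)| ≤
          ε * (κ.natAbs / (Nat.totient κ.natAbs : ℝ) * (s.card / Real.log X))) := by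
  classical
  obtain ⟨V, C, W, X₁, h⟩ := aa_loc hMAJ T (U + 2) (ε / 4) (by positivity)
  obtain ⟨X₂, hev⟩ := eventually_atTop.1 ((ev_log_ge 4).and (ev_log_ge (16 / ε)))
  refine ⟨V, C, W + 2, max X₁ (max X₂ 1), fun X hX α J u ℓ hJX hJu hℓ hmul => ?_⟩
  obtain ⟨l1, l2⟩ := hev X (le_trans (le_trans (le_max_left _ _) (le_max_right _ _)) hX)
  have hX1 : 1 ≤ X := le_trans (le_trans (le_max_right _ _) (le_max_right _ _)) hX
  have hX1r : (1 : ℝ) ≤ X := by exact_mod_cast hX1
  obtain ⟨Bad, hBJ, hBs, hgood⟩ := h X (le_trans (le_max_left _ _) hX) J u ℓ hJX hJu hmul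
  obtain ⟨L, hL⟩ : ∃ L, L = Real.log X := ⟨_, rfl⟩
  rw [← hL] at l1 l2 hBs hgood hℓ ⊢
  have hL0 : 0 < L := by linarith
  have hL1 : 1 ≤ L := by linarith
  have hX3 : 1 ≤ (X : ℝ) ^ (1 / 3 : ℝ) := Real.one_le_rpow hX1r (by norm_num)
  have hpow : ∀ e : ℕ, 1 ≤ L ^ e := fun e => one_le_pow₀ hL1
  refine ⟨Bad, hBJ, hBs.trans ?_, fun j hj hjB => ?_⟩
  · apply div_le_div_of_nonneg_left (by linarith) (by have := hpow U; linarith)
    exact pow_le_pow_right₀ hL1 (by omega)
  have hg := hgood j hj hjB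
  have hlj := hℓ j hj
  obtain ⟨l, hl⟩ : ∃ l, l = ℓ j := ⟨_, rfl⟩
  obtain ⟨u', hu'⟩ : ∃ u', u' = u j := ⟨_, rfl⟩
  rw [← hl, ← hu'] at hg
  rw [← hl] at hlj
  rw [← hl, ← hu']
  constructor
  · obtain ⟨q, hq⟩ : ∃ q : ℕ, q = ⌈(X : ℝ) ^ (1 / 3 : ℝ) * L ^ C⌉₊ := ⟨_, rfl⟩
    have hXC : 1 ≤ (X : ℝ) ^ (1 / 3 : ℝ) * L ^ C := by
      have := hpow C
      nlinarith
    have hq1 : (X : ℝ) ^ (1 / 3 : ℝ) * L ^ C ≤ q := by rw [hq]; exact Nat.le_ceil _
    have hq2 : (q : ℝ) ≤ 2 * ((X : ℝ) ^ (1 / 3 : ℝ) * L ^ C) := by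
      rw [hq]
      have := (Nat.ceil_lt_add_one (by linarith : 0 ≤ (X : ℝ) ^ (1 / 3 : ℝ) * L ^ C)).le
      linarith
    have hq3 : (q : ℝ) * L ^ (W + 2) ≤ l := by
      refine le_trans ?_ hlj
      calc (q : ℝ) * L ^ (W + 2) ≤ 2 * ((X : ℝ) ^ (1 / 3 : ℝ) * L ^ C) * L ^ (W + 2) :=
            mul_le_mul_of_nonneg_right hq2 (by positivity)
        _ ≤ L * ((X : ℝ) ^ (1 / 3 : ℝ) * L ^ C) * L ^ (W + 2) := by
            apply mul_le_mul_of_nonneg_right _ (by positivity)
            apply mul_le_mul_of_nonneg_right _ (by positivity)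
            linarith
        _ = (X : ℝ) ^ (1 / 3 : ℝ) * L ^ (C + (W + 2) + 1) := by
            rw [pow_succ, pow_add]
            ring
    have hqr : (1 : ℝ) ≤ q := hXC.trans hq1
    have hqn : 1 ≤ q := by exact_mod_cast hqr
    have hq0 : (0 : ℝ) < q := by linarith
    have hl0 : (0 : ℝ) < l := by
      have : 0 < (q : ℝ) * L ^ (W + 2) := by positivity
      linarith
    have hqW : (q : ℝ) * L ^ W ≤ l := by
      refine le_trans ?_ hq3
      apply mul_le_mul_of_nonneg_left _ hq0.le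
      exact pow_le_pow_right₀ hL1 (by omega)
    have hp1 : ∑ _v ∈ range q, (1 / (q : ℝ)) = 1 := by
      rw [sum_const, card_range, nsmul_eq_mul]
      field_simp
    have h1T : ((Int.natAbs 1 : ℕ) : ℝ) ≤ L ^ T := by
      rw [Int.natAbs_one, Nat.cast_one]
      exact hpow T
    obtain ⟨E, hE1, hE2⟩ := hg q (fun _ => 1 / (q : ℝ)) hq1 hqW (fun _ => by positivity) hp1
      (sm_unif q hqn _ (by have := hpow V; positivity)) 1 one_ne_zero h1T
    have hG : ((Int.natAbs 1 : ℕ) : ℝ) / (Nat.totient (Int.natAbs 1) : ℝ) / L = 1 / L := by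
      rw [Int.natAbs_one, Nat.totient_one, Nat.cast_one, div_one]
    rw [hG] at hE2
    have h3 := sum_core q (fun _ => 1 / (q : ℝ)) (fun _ => by positivity) hp1 1 0 (1 / L) (ε / 4) (by positivity)
      (by positivity) E (Ioc u' (u' + l)) (fun m hm hmE => by
        rw [mem_Ioc] at hm
        exact (hE2 m hm.1 hm.2 hmE).2 isCoprime_one_right)
    rw [Nat.card_Ioc, Nat.add_sub_cancel_left] at h3
    have h4 := sum_cnt_unif u' l q hqn
    have h5 : (q : ℝ) ≤ ε / 4 * (l / L) := by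
      have e1 : (q : ℝ) * L ^ 2 ≤ l := by
        refine le_trans ?_ hq3
        apply mul_le_mul_of_nonneg_left _ hq0.le
        exact pow_le_pow_right₀ hL1 (by omega)
      have e2 : ε / 4 * (l / L) = (ε * l) / (4 * L) := by field_simp
      rw [e2, le_div_iff₀ (by positivity)]
      rw [div_le_iff₀ hε] at l2
      have e3 : 4 ≤ L * ε := by linarith
      have e4 : (0 : ℝ) ≤ q * L := by positivity
      calc (q : ℝ) * (4 * L) = 4 * (q * L) := by ring
        _ ≤ (L * ε) * (q * L) := mul_le_mul_of_nonneg_right e3 e4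
        _ = ε * (q * L ^ 2) := by ring
        _ ≤ ε * l := mul_le_mul_of_nonneg_left e1 hε.le
    have h6 : (E.card : ℝ) * (1 + 1 / L) ≤ ε / 4 * (l / L) := by
      have e1 : 1 / L ≤ 1 := by rw [div_le_one hL0]; exact hL1
      have e2 : (E.card : ℝ) ≤ l / L ^ 2 := by
        refine hE1.trans ?_
        apply div_le_div_of_nonneg_left hl0.le (by positivity)
        exact pow_le_pow_right₀ hL1 (by omega)
      have e3 : (l : ℝ) / L ^ 2 * 2 ≤ ε / 4 * (l / L) := by
        have e4 : (l : ℝ) / L ^ 2 * 2 = (l / L) * (2 / L) := by field_simp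
        rw [e4]
        have e5 : 2 / L ≤ ε / 4 := by
          rw [div_le_iff₀ hL0]
          rw [div_le_iff₀ hε] at l2
          linarith
        calc (l / L) * (2 / L) ≤ (l / L) * (ε / 4) := mul_le_mul_of_nonneg_left e5 (by positivity)
          _ = ε / 4 * (l / L) := by ring
      calc (E.card : ℝ) * (1 + 1 / L) ≤ l / L ^ 2 * 2 := by
            apply mul_le_mul e2 (by linarith) (by positivity) (by positivity)
        _ ≤ _ := e3
    have h7 : (l : ℝ) * (1 / L) = l / L := by ring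
    rw [h7] at h3
    have a3 := abs_le.1 h3
    have a4 := abs_le.1 h4
    have h8 : 0 ≤ ε * (l / L) := by positivity
    rw [abs_le]
    constructor <;> linarith [a3.1, a3.2, a4.1, a4.2]
  · intro q _ hqC hqW ι s y hs hf κ hκ hκT
    have hp1 : ∑ v ∈ range q, dis s y v = 1 := by
      have h3 := dis_sum_real s y q le_rfl (fun _ => 1)
      have hs0 : (0 : ℝ) < s.card := by exact_mod_cast hs.card_pos
      simp only [mul_one, sum_const, nsmul_eq_mul] at h3
      rw [h3, div_self hs0.ne']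
    have hqW' : (q : ℝ) * L ^ W ≤ l := by
      refine le_trans ?_ hqW
      apply mul_le_mul_of_nonneg_left _ (Nat.cast_nonneg _)
      exact pow_le_pow_right₀ hL1 (by omega)
    obtain ⟨E, hE1, hE2⟩ := hg q (dis s y) hqC hqW' (dis_nonneg s y) hp1 (sm_dis hs hf) κ hκ hκT
    refine ⟨E, hE1.trans ?_, fun m hm1 hm2 hmE => ?_⟩
    · apply div_le_div_of_nonneg_left (Nat.cast_nonneg _) (by have := hpow U; linarith)
      exact pow_le_pow_right₀ hL1 (by omega)
    · obtain ⟨b1, b2⟩ := hE2 m hm1 hm2 hmE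
      refine ⟨fun i => b1 _ (ZMod.val_lt _), fun hcop => ?_⟩
      have b3 := b2 hcop
      have hs0 : (0 : ℝ) < s.card := by exact_mod_cast hs.card_pos
      have b4 := cnt_dis s y hs κ 0 m
      have b5 : ((s.filter fun i => ((m : ℤ) + κ * ((y i).val : ℕ)).toNat.Prime).card : ℝ) =
          s.card * cnt q (dis s y) κ 0 m := by
        rw [b4]
        congr 2
        apply filter_congr
        intro i _
        rw [zero_add]
      rw [b5]
      obtain ⟨g, hg⟩ : ∃ g : ℝ, g = κ.natAbs / (Nat.totient κ.natAbs : ℝ) := ⟨_, rfl⟩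
      rw [← hg] at b3 ⊢
      have hg0 : 0 ≤ g := by rw [hg]; positivity
      have e1 : (s.card : ℝ) * cnt q (dis s y) κ 0 m - g * (s.card / L) =
          s.card * (cnt q (dis s y) κ 0 m - g / L) := by ring
      rw [e1, abs_mul, abs_of_pos hs0]
      calc (s.card : ℝ) * |cnt q (dis s y) κ 0 m - g / L| ≤ s.card * (ε / 4 * (g / L)) :=
            mul_le_mul_of_nonneg_left b3 hs0.le
        _ ≤ s.card * (ε * (g / L)) := by
            apply mul_le_mul_of_nonneg_left _ hs0.le
            apply mul_le_mul_of_nonneg_right _ (by positivity)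
            linarith
        _ = ε * (g * (s.card / L)) := by ring

end Run7.h337.MK
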