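import Mathlib
import Pool.Agent.Run7.h337.MK.Blk

/-!
# Project MK, piece LOC (helper337), part 6: the intervals between consecutive powers
-/

set_option autoImplicit false

namespace Run7.h337.MK

open Finset Filter
open Pool.Agent.Run7.h794.MK
open Pool.Agent.N384.MQ (Flat ev_log_pow ev_log_ge)

lemma pow_lower (d n : ℕ) : n ^ (d + 1) + (d + 1) * n ^ d ≤ (n + 1) ^ (d + 1) := by
  induction d with
  | zero => simp
  | succ d ih =>
    calc n ^ (d + 1 + 1) + (d + 1 + 1) * n ^ (d + 1) ≤ (n ^ (d + 1) + (d + 1) * n ^ d) * (n + 1) := by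
          have : (n ^ (d + 1) + (d + 1) * n ^ d) * (n + 1) =
              n ^ (d + 1 + 1) + (d + 1 + 1) * n ^ (d + 1) + (d + 1) * n ^ d := by ring
          rw [this]
          exact Nat.le_add_right _ _
      _ ≤ (n + 1) ^ (d + 1) * (n + 1) := Nat.mul_le_mul_right _ ih
      _ = (n + 1) ^ (d + 1 + 1) := (pow_succ _ _).symm

lemma pow_upper (d n : ℕ) : (n + 1) ^ (d + 1) ≤ n ^ (d + 1) + (d + 1) * (n + 1) ^ d := by
  induction d with
  | zero => simp
  | succ d ih =>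
    have h0 : n ^ (d + 1) ≤ (n + 1) ^ (d + 1) := Nat.pow_le_pow_left (Nat.le_succ n) _
    calc (n + 1) ^ (d + 1 + 1) = (n + 1) ^ (d + 1) * (n + 1) := pow_succ _ _
      _ ≤ (n ^ (d + 1) + (d + 1) * (n + 1) ^ d) * (n + 1) := Nat.mul_le_mul_right _ ih
      _ = n ^ (d + 1 + 1) + n ^ (d + 1) + (d + 1) * (n + 1) ^ (d + 1) := by ring
      _ ≤ n ^ (d + 1 + 1) + (n + 1) ^ (d + 1) + (d + 1) * (n + 1) ^ (d + 1) := by omega
      _ = n ^ (d + 1 + 1) + (d + 1 + 1) * (n + 1) ^ (d + 1) := by ring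

lemma ev_ratio (d : ℕ) (δ : ℝ) (hδ : 0 < δ) : ∃ n₀ : ℕ, 1 ≤ n₀ ∧ ∀ n : ℕ, n₀ ≤ n →
    ((n : ℝ) + 1) ^ d ≤ (1 + δ) * (n : ℝ) ^ d ∧ 1 ≤ δ * n := by
  have h1 : Tendsto (fun n : ℕ => (1 + 1 / (n : ℝ)) ^ d) atTop (nhds ((1 + 0) ^ d)) :=
    (tendsto_const_nhds.add tendsto_one_div_atTop_nhds_zero_nat).pow d
  rw [add_zero, one_pow] at h1
  have h2 := h1.eventually (gt_mem_nhds (show (1 : ℝ) < 1 + δ by linarith))
  have h3 := (tendsto_natCast_atTop_atTop (R := ℝ)).eventually_ge_atTop (1 / δ)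
  obtain ⟨n₀, h⟩ := eventually_atTop.1 (h2.and h3)
  refine ⟨max n₀ 1, le_max_right _ _, fun n hn => ?_⟩
  obtain ⟨h4, h5⟩ := h n (le_trans (le_max_left _ _) hn)
  have hn1 : 1 ≤ n := le_trans (le_max_right _ _) hn
  have hn0 : (0 : ℝ) < n := by exact_mod_cast hn1
  constructor
  · have e1 : (n : ℝ) + 1 = (1 + 1 / (n : ℝ)) * n := by field_simp
    rw [e1, mul_pow]
    exact mul_le_mul_of_nonneg_right h4.le (by positivity)
  · rw [div_le_iff₀ hδ] at h5
    linarith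

lemma conv (a G Lz Ln ε : ℝ) (hLn : 0 < Ln) (hLnz : Ln ≤ Lz) (hr : (1 - ε / 4) * Lz ≤ Ln) (hG : 0 ≤ G) (hε : 0 < ε)
    (h : |a - G / Lz| ≤ ε / 4 * (G / Lz)) : |a - G / Ln| ≤ ε * (G / Ln) := by
  have hLz : 0 < Lz := by linarith
  have h1 : G / Lz ≤ G / Ln := div_le_div_of_nonneg_left hG hLn hLnz
  have h2 : (1 - ε / 4) * (G / Ln) ≤ G / Lz := by
    rw [mul_div_assoc', div_le_div_iff₀ hLn hLz]
    calc (1 - ε / 4) * G * Lz = G * ((1 - ε / 4) * Lz) := by ring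
      _ ≤ G * Ln := mul_le_mul_of_nonneg_left hr hG
  have h0 : 0 ≤ G / Ln := by positivity
  have h3 := abs_le.1 h
  have h4 : ε / 4 * (G / Lz) ≤ ε / 4 * (G / Ln) := mul_le_mul_of_nonneg_left h1 (by positivity)
  have h5 : 0 ≤ ε * (G / Ln) := by positivity
  rw [abs_le]
  constructor <;> nlinarith [h3.1, h3.2]

lemma ev_pw (A : ℕ) (c : ℝ) : ∀ᶠ X : ℕ in atTop, c * Real.log X ^ A ≤ (X : ℝ) ^ (1 / 3 : ℝ) := by
  filter_upwards [ev_log_pow (3 * A) (|c| ^ 3), ev_log_ge 0] with X h1 h2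
  have h3 : (|c| * Real.log X ^ A) ^ (3 : ℕ) ≤ X := by
    rw [mul_pow, ← pow_mul, mul_comm A 3]
    exact h1
  have h4 : 0 ≤ |c| * Real.log X ^ A := mul_nonneg (abs_nonneg _) (pow_nonneg h2 _)
  calc c * Real.log X ^ A ≤ |c| * Real.log X ^ A := mul_le_mul_of_nonneg_right (le_abs_self c) (pow_nonneg h2 _)
    _ = ((|c| * Real.log X ^ A) ^ (3 : ℕ)) ^ (1 / 3 : ℝ) := by
        rw [← Real.rpow_natCast (|c| * Real.log X ^ A) 3, ← Real.rpow_mul h4]
        norm_num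
    _ ≤ (X : ℝ) ^ (1 / 3 : ℝ) := Real.rpow_le_rpow (by positivity) h3 (by norm_num)

lemma ev_lnz (d A : ℕ) (δ : ℝ) (hδ : 0 < δ) (hδ1 : δ < 1) : ∀ᶠ X : ℕ in atTop,
    (1 - δ) * Real.log (((X + 1) ^ (d + 1) : ℕ) : ℝ) ≤ (d + 1) * Real.log (X / Real.log X ^ A) := by
  filter_upwards [ev_sub A 1 (δ / 2) (by positivity), ev_log_ge (2 / δ), ev_log_ge 1, eventually_ge_atTop 1] with X h1 h2 h3 h4
  have hX : (1 : ℝ) ≤ X := by exact_mod_cast h4
  have hL : 0 < Real.log X := by linarith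
  have e1 : Real.log (((X + 1) ^ (d + 1) : ℕ) : ℝ) = (d + 1) * Real.log ((X : ℝ) + 1) := by
    push_cast
    rw [Real.log_pow]
    push_cast
    ring
  have e2 : Real.log ((X : ℝ) + 1) ≤ Real.log X + 1 := by
    have h5 : Real.log ((X : ℝ) + 1) ≤ Real.log (X * Real.exp 1) := by
      apply Real.log_le_log (by linarith)
      have := Real.add_one_le_exp (1 : ℝ)
      nlinarith
    rw [Real.log_mul (by linarith) (Real.exp_pos 1).ne', Real.log_exp] at h5
    exact h5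
  have e3 : Real.log (X / Real.log X ^ A) = Real.log X - A * Real.log (Real.log X) := by
    rw [Real.log_div (by linarith) (by positivity), Real.log_pow]
  rw [e1, e3]
  have e4 : (1 - δ) * (Real.log X + 1) ≤ Real.log X - A * Real.log (Real.log X) := by
    rw [div_le_iff₀ hδ] at h2
    nlinarith
  calc (1 - δ) * ((d + 1) * Real.log ((X : ℝ) + 1)) = (d + 1) * ((1 - δ) * Real.log ((X : ℝ) + 1)) := by ring
    _ ≤ (d + 1) * ((1 - δ) * (Real.log X + 1)) := by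
        apply mul_le_mul_of_nonneg_left _ (by positivity)
        apply mul_le_mul_of_nonneg_left e2 (by linarith)
    _ ≤ _ := mul_le_mul_of_nonneg_left e4 (by positivity)

theorem pow_all (hMAJ : S_MAJ1) (d : ℕ) (hd : 1 ≤ d) (T U : ℕ) (ε : ℝ) (hε : 0 < ε) (hε1 : ε ≤ 1) :
    ∃ V C D X₀ : ℕ, ∀ X : ℕ, X₀ ≤ X →
    ∃ E : Finset ℕ, (E.card : ℝ) ≤ X / Real.log X ^ U ∧ ∀ n : ℕ, 1 ≤ n → n ≤ X → n ∉ E →
    ((X : ℝ) ≤ n * Real.log X ^ (U + 1) ∧ 1 ≤ Real.log n) ∧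
    |(((Ioo (n ^ (d + 1)) ((n + 1) ^ (d + 1))).filter Nat.Prime).card : ℝ) - (n : ℝ) ^ d / Real.log n| ≤
      ε * ((n : ℝ) ^ d / Real.log n) ∧
    ∀ (q : ℕ) [NeZero q], (X : ℝ) ^ (((d + 1 : ℕ) : ℝ) / 3) * Real.log X ^ C ≤ q → (q : ℝ) * Real.log X ^ D ≤ (n : ℝ) ^ d →
    ∀ {ι : Type} (s : Finset ι) (y : ι → ZMod q), s.Nonempty → Flat q (1 / Real.log X ^ V) s y →
    ∀ κ : ℤ, κ ≠ 0 → (κ.natAbs : ℝ) ≤ Real.log X ^ T → ∃ F : Finset ℕ, (F.card : ℝ) ≤ (n : ℝ) ^ d / Real.log X ^ U ∧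
      ∀ m ∈ Ioo (n ^ (d + 1)) ((n + 1) ^ (d + 1)), m ∉ F →
        (∀ i, ((n ^ (d + 1) : ℕ) : ℤ) < m + κ * ((y i).val : ℕ) ∧ m + κ * ((y i).val : ℕ) < (((n + 1) ^ (d + 1) : ℕ) : ℤ)) ∧
        (IsCoprime (m : ℤ) κ →
        |((s.filter fun i => ((m : ℤ) + κ * ((y i).val : ℕ)).toNat.Prime).card : ℝ) -
          κ.natAbs / (Nat.totient κ.natAbs : ℝ) * (s.card / ((d + 1) * Real.log n))| ≤
          ε * (κ.natAbs / (Nat.totient κ.natAbs : ℝ) * (s.card / ((d + 1) * Real.log n)))) := by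
  classical
  obtain ⟨a, ha⟩ : ∃ a, a = U + 1 := ⟨_, rfl⟩
  obtain ⟨T₁, hT₁⟩ : ∃ T₁, T₁ = T + a * (d + 1) + 1 := ⟨_, rfl⟩
  obtain ⟨U₁, hU₁⟩ : ∃ U₁, U₁ = a * (d + 1) + 1 := ⟨_, rfl⟩
  obtain ⟨V, C, W, Z₀, h⟩ := loc_all hMAJ T₁ U₁ (ε / 12) (by positivity)
  obtain ⟨n₀, hn₀1, hn₀⟩ := ev_ratio d (ε / 24) (by positivity)
  obtain ⟨c, hc⟩ : ∃ c : ℝ, c = 4 * ((d : ℝ) + 1) * 2 ^ (d + 1) * (2 * ((d : ℝ) + 1)) ^ (V + C + W + 1) := ⟨_, rfl⟩
  obtain ⟨X₁, hev⟩ := eventually_atTop.1 (((ev_log_ge c).and (ev_pw (C + W + 1 + a * d) c)).and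
    ((ev_lnz d a (ε / 4) (by positivity) (by linarith)).and ((ev_log_pow a (n₀ + 3)).and (ev_log_ge 2))))
  refine ⟨V + 1, C + 1, W + 1, max X₁ (max Z₀ 2), fun X hX => ?_⟩
  obtain ⟨⟨l1, l2⟩, l3, l4, l5⟩ := hev X (le_trans (le_max_left _ _) hX)
  have hX2 : 2 ≤ X := le_trans (le_trans (le_max_right _ _) (le_max_right _ _)) hX
  have hXZ₀ : Z₀ ≤ X := le_trans (le_trans (le_max_left _ _) (le_max_right _ _)) hX
  have hX2r : (2 : ℝ) ≤ X := by exact_mod_cast hX2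
  have hX0 : (0 : ℝ) < X := by linarith
  obtain ⟨Z, hZ⟩ : ∃ Z : ℕ, Z = (X + 1) ^ (d + 1) := ⟨_, rfl⟩
  obtain ⟨L, hL⟩ : ∃ L, L = Real.log X := ⟨_, rfl⟩
  obtain ⟨M, hM⟩ : ∃ M, M = Real.log Z := ⟨_, rfl⟩
  rw [← hZ, ← hM] at l3
  rw [← hL] at l1 l2 l3 l4 l5 ⊢
  have hd0 : (0 : ℝ) ≤ d := Nat.cast_nonneg _
  have h2d : (1 : ℝ) ≤ 2 * ((d : ℝ) + 1) := by linarith
  have h2p : (1 : ℝ) ≤ 2 ^ (d + 1) := one_le_pow₀ (by norm_num)
  have hcc : ∀ e : ℕ, e ≤ V + C + W + 1 → 4 * ((d : ℝ) + 1) * 2 ^ (d + 1) * (2 * ((d : ℝ) + 1)) ^ e ≤ c := by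
    intro e he
    rw [hc]
    apply mul_le_mul_of_nonneg_left _ (by positivity)
    exact pow_le_pow_right₀ h2d he
  have hc1 : 4 * ((d : ℝ) + 1) * 2 ^ (d + 1) ≤ c := by
    have := hcc 0 (by omega)
    rwa [pow_zero, mul_one] at this
  have hL0 : 0 < L := by linarith
  have hL1 : 1 ≤ L := by linarith
  have hpow : ∀ e : ℕ, 1 ≤ L ^ e := fun e => one_le_pow₀ hL1
  have hXZ : X ≤ Z := by
    rw [hZ, pow_succ]
    calc X ≤ X + 1 := Nat.le_succ _
      _ ≤ (X + 1) ^ d * (X + 1) := Nat.le_mul_of_pos_left _ (by positivity)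
  have hZ0 : (0 : ℝ) < Z := by
    have : (X : ℝ) ≤ Z := by exact_mod_cast hXZ
    linarith
  have hZle : (Z : ℝ) ≤ 2 ^ (d + 1) * (X : ℝ) ^ (d + 1) := by
    rw [hZ, ← mul_pow]
    push_cast
    apply pow_le_pow_left₀ (by positivity)
    linarith
  have hLM : L ≤ M := by
    rw [hL, hM]
    exact Real.log_le_log hX0 (by exact_mod_cast hXZ)
  have hML : M ≤ 2 * ((d : ℝ) + 1) * L := by
    rw [hM, hL, hZ]
    push_cast
    rw [Real.log_pow]
    push_cast
    have h1 : Real.log ((X : ℝ) + 1) ≤ 2 * Real.log X := by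
      rw [two_mul, ← Real.log_mul hX0.ne' hX0.ne']
      apply Real.log_le_log (by linarith)
      nlinarith
    nlinarith [mul_le_mul_of_nonneg_left h1 (by positivity : (0 : ℝ) ≤ (d : ℝ) + 1)]
  have hM0 : 0 < M := by linarith
  have hMp : ∀ e : ℕ, M ^ e ≤ (2 * ((d : ℝ) + 1)) ^ e * L ^ e := by
    intro e
    rw [← mul_pow]
    exact pow_le_pow_left₀ hM0.le hML e
  have hMp' : ∀ e : ℕ, e ≤ V + C + W + 1 → 4 * ((d : ℝ) + 1) * 2 ^ (d + 1) * M ^ e ≤ L ^ (e + 1) := by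
    intro e he
    calc 4 * ((d : ℝ) + 1) * 2 ^ (d + 1) * M ^ e ≤
        4 * ((d : ℝ) + 1) * 2 ^ (d + 1) * ((2 * ((d : ℝ) + 1)) ^ e * L ^ e) :=
          mul_le_mul_of_nonneg_left (hMp e) (by positivity)
      _ = (4 * ((d : ℝ) + 1) * 2 ^ (d + 1) * (2 * ((d : ℝ) + 1)) ^ e) * L ^ e := by ring
      _ ≤ L * L ^ e := mul_le_mul_of_nonneg_right ((hcc e he).trans l1) (by positivity)
      _ = L ^ (e + 1) := by rw [pow_succ, mul_comm]
  have hMp1 : ∀ e : ℕ, e ≤ V + C + W + 1 → M ^ e ≤ L ^ (e + 1) := by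
    intro e he
    refine le_trans ?_ (hMp' e he)
    have h1 : (1 : ℝ) ≤ 4 * ((d : ℝ) + 1) * 2 ^ (d + 1) := by nlinarith
    have h2 : 0 ≤ M ^ e := by positivity
    nlinarith
  -- the blocks
  obtain ⟨J, hJ⟩ : ∃ J : Finset ℕ, J = (Icc 1 X).filter (fun n : ℕ => (X : ℝ) ≤ n * L ^ a) := ⟨_, rfl⟩
  have hJm : ∀ n ∈ J, 1 ≤ n ∧ n ≤ X ∧ (X : ℝ) ≤ n * L ^ a := by
    intro n hn
    rw [hJ, mem_filter, mem_Icc] at hn
    exact ⟨hn.1.1, hn.1.2, hn.2⟩
  obtain ⟨u, hu⟩ : ∃ u : ℕ → ℕ, u = fun n => n ^ (d + 1) := ⟨_, rfl⟩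
  obtain ⟨ℓ, hℓ⟩ : ∃ ℓ : ℕ → ℕ, ℓ = fun n => (n + 1) ^ (d + 1) - 1 - n ^ (d + 1) := ⟨_, rfl⟩
  have hun : ∀ n, u n = n ^ (d + 1) := fun n => by rw [hu]
  have hℓn : ∀ n, ℓ n = (n + 1) ^ (d + 1) - 1 - n ^ (d + 1) := fun n => by rw [hℓ]
  have hlow : ∀ n, 1 ≤ n → n ^ (d + 1) + n ^ d + 1 ≤ (n + 1) ^ (d + 1) := by
    intro n hn
    have h1 := pow_lower d n
    have h2 : 1 ≤ n ^ d := Nat.one_le_pow _ _ hn
    have h3 : (d + 1) * n ^ d = d * n ^ d + n ^ d := by ring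
    have h4 : n ^ d ≤ d * n ^ d := Nat.le_mul_of_pos_left _ hd
    omega
  have hul : ∀ n, 1 ≤ n → u n + ℓ n + 1 = (n + 1) ^ (d + 1) := by
    intro n hn
    rw [hun, hℓn]
    have := hlow n hn
    omega
  have hℓlow : ∀ n, 1 ≤ n → n ^ d ≤ ℓ n := by
    intro n hn
    rw [hℓn]
    have := hlow n hn
    omega
  have hℓup : ∀ n, 1 ≤ n → ℓ n ≤ (d + 1) * 2 ^ d * n ^ d := by
    intro n hn
    have h1 := pow_upper d n
    have h2 : (n + 1) ^ d ≤ (2 * n) ^ d := Nat.pow_le_pow_left (by omega) _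
    have h3 : (d + 1) * (n + 1) ^ d ≤ (d + 1) * 2 ^ d * n ^ d := by
      rw [mul_assoc, ← mul_pow]
      exact Nat.mul_le_mul_left _ h2
    rw [hℓn]
    omega
  have hblk : ∀ n, 1 ≤ n → Ioc (u n) (u n + ℓ n) = Ioo (n ^ (d + 1)) ((n + 1) ^ (d + 1)) := by
    intro n hn
    ext m
    have h1 := hul n hn
    have h2 := hun n
    rw [mem_Ioc, mem_Ioo]
    omega
  -- powers of n
  have hnd : ∀ n ∈ J, (X : ℝ) ^ d ≤ (n : ℝ) ^ d * L ^ (a * d) := by
    intro n hn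
    obtain ⟨b1, b2, b3⟩ := hJm n hn
    calc (X : ℝ) ^ d ≤ (n * L ^ a) ^ d := pow_le_pow_left₀ hX0.le b3 d
      _ = _ := by rw [mul_pow, ← pow_mul]
  have hmain := h Z (hXZ₀.trans hXZ) J u ℓ
    (fun n hn => by
      obtain ⟨b1, b2, b3⟩ := hJm n hn
      have h1 := hul n b1
      have h2 : (n + 1) ^ (d + 1) ≤ Z := by
        rw [hZ]
        exact Nat.pow_le_pow_left (by omega) _
      omega)
    (fun n hn => by
      obtain ⟨b1, b2, b3⟩ := hJm n hn
      rw [← hM, hun]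
      push_cast
      calc (Z : ℝ) ≤ 2 ^ (d + 1) * (X : ℝ) ^ (d + 1) := hZle
        _ ≤ 2 ^ (d + 1) * (n * L ^ a) ^ (d + 1) := by gcongr
        _ = (n : ℝ) ^ (d + 1) * (2 ^ (d + 1) * L ^ (a * (d + 1))) := by
            rw [mul_pow, ← pow_mul]
            ring
        _ ≤ (n : ℝ) ^ (d + 1) * (L * L ^ (a * (d + 1))) := by
            apply mul_le_mul_of_nonneg_left _ (by positivity)
            apply mul_le_mul_of_nonneg_right _ (by positivity)
            have : (2 : ℝ) ^ (d + 1) ≤ 4 * ((d : ℝ) + 1) * 2 ^ (d + 1) := by nlinarith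
            linarith
        _ = (n : ℝ) ^ (d + 1) * L ^ (a * (d + 1) + 1) := by rw [pow_succ]; ring
        _ ≤ (n : ℝ) ^ (d + 1) * M ^ T₁ := by
            apply mul_le_mul_of_nonneg_left _ (by positivity)
            refine (pow_le_pow_left₀ hL0.le hLM _).trans ?_
            exact pow_le_pow_right₀ (by linarith) (by omega))
    (fun n hn => by
      obtain ⟨b1, b2, b3⟩ := hJm n hn
      rw [← hM]
      have h1 : ((n ^ d : ℕ) : ℝ) ≤ ℓ n := by exact_mod_cast hℓlow n b1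
      refine le_trans ?_ h1
      push_cast
      have h2 : (Z : ℝ) ^ (1 / 3 : ℝ) ≤ 2 ^ (d + 1) * (X : ℝ) ^ (((d + 1 : ℕ) : ℝ) / 3) := by
        calc (Z : ℝ) ^ (1 / 3 : ℝ) ≤ (2 ^ (d + 1) * (X : ℝ) ^ (d + 1)) ^ (1 / 3 : ℝ) :=
              Real.rpow_le_rpow hZ0.le hZle (by norm_num)
          _ = (2 ^ (d + 1)) ^ (1 / 3 : ℝ) * ((X : ℝ) ^ (d + 1)) ^ (1 / 3 : ℝ) :=
              Real.mul_rpow (by positivity) (by positivity)
          _ ≤ 2 ^ (d + 1) * (X : ℝ) ^ (((d + 1 : ℕ) : ℝ) / 3) := by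
              apply mul_le_mul
              · calc ((2 : ℝ) ^ (d + 1)) ^ (1 / 3 : ℝ) ≤ ((2 : ℝ) ^ (d + 1)) ^ (1 : ℝ) :=
                      Real.rpow_le_rpow_of_exponent_le h2p (by norm_num)
                  _ = _ := Real.rpow_one _
              · rw [← Real.rpow_natCast, ← Real.rpow_mul hX0.le]
                apply le_of_eq
                congr 1
                ring
              · positivity
              · positivity
      have h3 : (X : ℝ) ^ (((d + 1 : ℕ) : ℝ) / 3) * (X : ℝ) ^ (1 / 3 : ℝ) ≤ (X : ℝ) ^ d := by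
        rw [← Real.rpow_add hX0, ← Real.rpow_natCast (X : ℝ) d]
        apply Real.rpow_le_rpow_of_exponent_le (by linarith)
        push_cast
        have : (1 : ℝ) ≤ d := by exact_mod_cast hd
        linarith
      have h4 := hMp (C + W + 1)
      have h5 : 2 ^ (d + 1) * (2 * ((d : ℝ) + 1)) ^ (C + W + 1) ≤ c := by
        refine le_trans ?_ (hcc (C + W + 1) (by omega))
        have : (0 : ℝ) ≤ 2 ^ (d + 1) * (2 * ((d : ℝ) + 1)) ^ (C + W + 1) := by positivity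
        nlinarith
      have h6 : 0 < (X : ℝ) ^ (((d + 1 : ℕ) : ℝ) / 3) := by positivity
      have h7 : (Z : ℝ) ^ (1 / 3 : ℝ) * M ^ (C + W + 1) * L ^ (a * d) ≤ (n : ℝ) ^ d * L ^ (a * d) := by
        calc (Z : ℝ) ^ (1 / 3 : ℝ) * M ^ (C + W + 1) * L ^ (a * d) ≤
            (2 ^ (d + 1) * (X : ℝ) ^ (((d + 1 : ℕ) : ℝ) / 3)) *
              ((2 * ((d : ℝ) + 1)) ^ (C + W + 1) * L ^ (C + W + 1)) * L ^ (a * d) := by gcongr
          _ = (X : ℝ) ^ (((d + 1 : ℕ) : ℝ) / 3) * ((2 ^ (d + 1) * (2 * ((d : ℝ) + 1)) ^ (C + W + 1)) *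
              L ^ (C + W + 1 + a * d)) := by rw [pow_add L (C + W + 1) (a * d)]; ring
          _ ≤ (X : ℝ) ^ (((d + 1 : ℕ) : ℝ) / 3) * (c * L ^ (C + W + 1 + a * d)) := by
              apply mul_le_mul_of_nonneg_left _ h6.le
              exact mul_le_mul_of_nonneg_right h5 (by positivity)
          _ ≤ (X : ℝ) ^ (((d + 1 : ℕ) : ℝ) / 3) * (X : ℝ) ^ (1 / 3 : ℝ) := mul_le_mul_of_nonneg_left l2 h6.le
          _ ≤ (X : ℝ) ^ d := h3
          _ ≤ _ := hnd n hn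
      exact le_of_mul_le_mul_right h7 (by positivity))
    (fun m => by
      have h1 : (J.filter fun n => u n < m ∧ m ≤ u n + ℓ n).card ≤ 1 := by
        rw [card_le_one]
        intro x hx y hy
        rw [mem_filter] at hx hy
        obtain ⟨bx, -, -⟩ := hJm x hx.1
        obtain ⟨by', -, -⟩ := hJm y hy.1
        have h1 := hul x bx
        have h2 := hul y by'
        have h3 := hun x
        have h4 := hun y
        by_contra hne
        rcases lt_or_gt_of_ne hne with hlt | hlt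
        · have : (x + 1) ^ (d + 1) ≤ y ^ (d + 1) := Nat.pow_le_pow_left hlt _
          omega
        · have : (y + 1) ^ (d + 1) ≤ x ^ (d + 1) := Nat.pow_le_pow_left hlt _
          omega
      rw [← hM]
      have h2 : (1 : ℝ) ≤ M ^ T₁ := one_le_pow₀ (by linarith)
      have h3 : ((J.filter fun n => u n < m ∧ m ≤ u n + ℓ n).card : ℝ) ≤ 1 := by exact_mod_cast h1
      linarith)
  obtain ⟨Bad, hBJ, hBs, hgood⟩ := hmain
  rw [← hM] at hBs hgood
  obtain ⟨S, hS⟩ : ∃ S : Finset ℕ, S = (Icc 1 X).filter (fun n : ℕ => (n : ℝ) * L ^ a < X) := ⟨_, rfl⟩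
  refine ⟨Bad ∪ S, ?_, fun n hn1 hnX hnE => ?_⟩
  · have hBc : (Bad.card : ℝ) ≤ X / L ^ a := by
      have h1 : ∀ n ∈ Bad, (X : ℝ) ^ d / L ^ (a * d) ≤ ℓ n := by
        intro n hn
        obtain ⟨b1, b2, b3⟩ := hJm n (hBJ hn)
        rw [div_le_iff₀ (by positivity)]
        refine (hnd n (hBJ hn)).trans ?_
        apply mul_le_mul_of_nonneg_right _ (by positivity)
        exact_mod_cast hℓlow n b1
      have h2 := sum_le_sum h1
      rw [sum_const, nsmul_eq_mul] at h2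
      have h3 := h2.trans hBs
      have h4 : (Z : ℝ) / M ^ U₁ ≤ 2 ^ (d + 1) * (X : ℝ) ^ (d + 1) / L ^ U₁ := by
        apply div_le_div₀ (by positivity) hZle (by positivity)
        exact pow_le_pow_left₀ hL0.le hLM _
      have h5 := h3.trans h4
      rw [le_div_iff₀ (by positivity)]
      rw [mul_div_assoc', div_le_div_iff₀ (by positivity) (by positivity)] at h5
      have h6 : L ^ U₁ = L ^ (a * d) * L ^ a * L := by
        rw [hU₁, ← pow_add, ← pow_succ]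
        congr 1
      have h7 : (2 : ℝ) ^ (d + 1) ≤ L := by
        have : (2 : ℝ) ^ (d + 1) ≤ 4 * ((d : ℝ) + 1) * 2 ^ (d + 1) := by nlinarith
        linarith
      have h8 : (Bad.card : ℝ) * L ^ a * ((X : ℝ) ^ d * L ^ (a * d) * L) ≤ X * ((X : ℝ) ^ d * L ^ (a * d) * L) := by
        calc (Bad.card : ℝ) * L ^ a * ((X : ℝ) ^ d * L ^ (a * d) * L) = Bad.card * (X : ℝ) ^ d * L ^ U₁ := by
              rw [h6]; ring
          _ ≤ 2 ^ (d + 1) * (X : ℝ) ^ (d + 1) * L ^ (a * d) := h5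
          _ ≤ L * (X : ℝ) ^ (d + 1) * L ^ (a * d) := by gcongr
          _ = X * ((X : ℝ) ^ d * L ^ (a * d) * L) := by rw [pow_succ]; ring
      exact le_of_mul_le_mul_right h8 (by positivity)
    have hSc : (S.card : ℝ) ≤ X / L ^ a := by
      have h1 : S ⊆ Icc 1 ⌊(X : ℝ) / L ^ a⌋₊ := by
        intro n hn
        rw [hS, mem_filter, mem_Icc] at hn
        rw [mem_Icc]
        refine ⟨hn.1.1, Nat.le_floor ?_⟩
        rw [le_div_iff₀ (by positivity)]
        exact hn.2.le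
      have h2 := card_le_card h1
      rw [Nat.card_Icc, Nat.add_sub_cancel] at h2
      exact le_trans (by exact_mod_cast h2) (Nat.floor_le (by positivity))
    have h1 : ((Bad ∪ S).card : ℝ) ≤ Bad.card + S.card := by exact_mod_cast card_union_le _ _
    refine h1.trans ((add_le_add hBc hSc).trans ?_)
    rw [ha, pow_succ, ← two_mul, mul_div_assoc', div_le_div_iff₀ (by positivity) (by positivity)]
    have h2 : 0 ≤ (X : ℝ) * L ^ U := by positivity
    nlinarith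
  · rw [mem_union, not_or] at hnE
    obtain ⟨hnB, hnS⟩ := hnE
    have hnL : (X : ℝ) ≤ n * L ^ a := by
      by_contra hlt
      apply hnS
      rw [hS, mem_filter, mem_Icc]
      exact ⟨⟨hn1, hnX⟩, not_le.1 hlt⟩
    have hnJ : n ∈ J := by
      rw [hJ, mem_filter, mem_Icc]
      exact ⟨⟨hn1, hnX⟩, hnL⟩
    obtain ⟨g1, g2⟩ := hgood n hnJ hnB
    have hnr : (0 : ℝ) < n := by exact_mod_cast hn1
    -- n is large
    have hnn₀ : (n₀ : ℝ) + 3 ≤ n := by
      have h1 : ((n₀ : ℝ) + 3) * L ^ a ≤ n * L ^ a := l4.trans hnL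
      exact le_of_mul_le_mul_right h1 (by positivity)
    obtain ⟨r1, r2⟩ := hn₀ n (by
      have : (n₀ : ℝ) ≤ n := by linarith
      exact_mod_cast this)
    have hlogn : 1 ≤ Real.log n := by
      rw [Real.le_log_iff_exp_le hnr]
      have h1 := Real.exp_one_lt_d9
      have h2 : (0 : ℝ) ≤ n₀ := Nat.cast_nonneg _
      linarith
    obtain ⟨Ln, hLn⟩ : ∃ Ln, Ln = ((d : ℝ) + 1) * Real.log n := ⟨_, rfl⟩
    have hLn0 : 0 < Ln := by rw [hLn]; positivity
    have hLnM : Ln ≤ M := by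
      rw [hLn, hM, hZ]
      push_cast
      rw [Real.log_pow]
      push_cast
      apply mul_le_mul_of_nonneg_left _ (by positivity)
      apply Real.log_le_log hnr
      have : (n : ℝ) ≤ X := by exact_mod_cast hnX
      linarith
    have hMLn : (1 - ε / 4) * M ≤ Ln := by
      refine l3.trans ?_
      rw [hLn]
      apply mul_le_mul_of_nonneg_left _ (by positivity)
      apply Real.log_le_log (by positivity)
      rw [div_le_iff₀ (by positivity)]
      exact hnL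
    rw [hblk n hn1] at g1
    refine ⟨⟨by rw [← ha]; exact hnL, hlogn⟩, ?_, ?_⟩
    · -- the number of the primes
      obtain ⟨G, hG⟩ : ∃ G : ℝ, G = ((d : ℝ) + 1) * (n : ℝ) ^ d := ⟨_, rfl⟩
      have hG0 : 0 < G := by rw [hG]; positivity
      have hGe : (n : ℝ) ^ d / Real.log n = G / Ln := by
        rw [hG, hLn, mul_div_mul_left _ _ (by positivity)]
      have hℓr : (ℓ n : ℝ) + 1 + (n : ℝ) ^ (d + 1) = ((n : ℝ) + 1) ^ (d + 1) := by
        have h1 := hul n hn1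
        rw [hun] at h1
        have h2 : ((n ^ (d + 1) + ℓ n + 1 : ℕ) : ℝ) = (((n + 1) ^ (d + 1) : ℕ) : ℝ) := by rw [h1]
        push_cast at h2
        linarith
      have h1 : G ≤ ℓ n + 1 := by
        have h2 : ((n ^ (d + 1) + (d + 1) * n ^ d : ℕ) : ℝ) ≤ (((n + 1) ^ (d + 1) : ℕ) : ℝ) := by
          exact_mod_cast pow_lower d n
        push_cast at h2
        rw [hG]
        linarith
      have h2 : (ℓ n : ℝ) + 1 ≤ (1 + ε / 24) * G := by
        have h3 : (((n + 1) ^ (d + 1) : ℕ) : ℝ) ≤ ((n ^ (d + 1) + (d + 1) * (n + 1) ^ d : ℕ) : ℝ) := by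
          exact_mod_cast pow_upper d n
        push_cast at h3
        have h4 := mul_le_mul_of_nonneg_left r1 (by positivity : (0 : ℝ) ≤ (d : ℝ) + 1)
        rw [hG]
        linarith
      have h3 : 1 ≤ ε / 24 * G := by
        have h4 : (n : ℝ) ≤ (n : ℝ) ^ d := le_self_pow₀ (by exact_mod_cast hn1) (by omega)
        have h5 : (n : ℝ) ^ d ≤ G := by
          rw [hG]
          have : (0 : ℝ) < (n : ℝ) ^ d := by positivity
          nlinarith
        have h6 : ε / 24 * n ≤ ε / 24 * G := mul_le_mul_of_nonneg_left (h4.trans h5) (by positivity)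
        linarith
      have h4 : |(ℓ n : ℝ) / M - G / M| ≤ ε / 24 * (G / M) := by
        rw [← sub_div, abs_div, abs_of_pos hM0, mul_div_assoc']
        apply div_le_div_of_nonneg_right _ hM0.le
        rw [abs_le]
        constructor <;> linarith
      rw [hGe]
      apply conv _ G M Ln ε hLn0 hLnM hMLn hG0.le hε
      have h5 : (ℓ n : ℝ) / M ≤ (1 + ε / 24) * (G / M) := by
        have := (abs_le.1 h4).2
        linarith
      have h6 : 0 < G / M := by positivity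
      have h7 : ε / 12 * ((ℓ n : ℝ) / M) ≤ ε / 12 * ((1 + ε / 24) * (G / M)) :=
        mul_le_mul_of_nonneg_left h5 (by positivity)
      have h8 : ε / 12 * ((1 + ε / 24) * (G / M)) ≤ ε / 6 * (G / M) := by
        have : 1 + ε / 24 ≤ 2 := by linarith
        calc ε / 12 * ((1 + ε / 24) * (G / M)) ≤ ε / 12 * (2 * (G / M)) := by gcongr
          _ = _ := by ring
      have h9 := abs_le.1 h4
      have h10 := abs_le.1 g1
      have h11 : 0 < ε * (G / M) := by positivity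
      rw [abs_le]
      constructor <;> linarith [h9.1, h9.2, h10.1, h10.2]
    · intro q _ hqC hqD ι s y hs hf κ hκ hκT
      have hq0 : (0 : ℝ) ≤ q := Nat.cast_nonneg _
      have c1 : (Z : ℝ) ^ (1 / 3 : ℝ) * M ^ C ≤ q := by
        refine le_trans ?_ hqC
        have h2 : (Z : ℝ) ^ (1 / 3 : ℝ) ≤ 2 ^ (d + 1) * (X : ℝ) ^ (((d + 1 : ℕ) : ℝ) / 3) := by
          calc (Z : ℝ) ^ (1 / 3 : ℝ) ≤ (2 ^ (d + 1) * (X : ℝ) ^ (d + 1)) ^ (1 / 3 : ℝ) :=
                Real.rpow_le_rpow hZ0.le hZle (by norm_num)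
            _ = (2 ^ (d + 1)) ^ (1 / 3 : ℝ) * ((X : ℝ) ^ (d + 1)) ^ (1 / 3 : ℝ) :=
                Real.mul_rpow (by positivity) (by positivity)
            _ ≤ 2 ^ (d + 1) * (X : ℝ) ^ (((d + 1 : ℕ) : ℝ) / 3) := by
                apply mul_le_mul
                · calc ((2 : ℝ) ^ (d + 1)) ^ (1 / 3 : ℝ) ≤ ((2 : ℝ) ^ (d + 1)) ^ (1 : ℝ) :=
                        Real.rpow_le_rpow_of_exponent_le h2p (by norm_num)
                    _ = _ := Real.rpow_one _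
                · rw [← Real.rpow_natCast, ← Real.rpow_mul hX0.le]
                  apply le_of_eq
                  congr 1
                  ring
                · positivity
                · positivity
        have h3 := hMp' C (by omega)
        have h6 : 0 < (X : ℝ) ^ (((d + 1 : ℕ) : ℝ) / 3) := by positivity
        calc (Z : ℝ) ^ (1 / 3 : ℝ) * M ^ C ≤ (2 ^ (d + 1) * (X : ℝ) ^ (((d + 1 : ℕ) : ℝ) / 3)) * M ^ C := by gcongr
          _ = (X : ℝ) ^ (((d + 1 : ℕ) : ℝ) / 3) * (2 ^ (d + 1) * M ^ C) := by ring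
          _ ≤ (X : ℝ) ^ (((d + 1 : ℕ) : ℝ) / 3) * L ^ (C + 1) := by
              apply mul_le_mul_of_nonneg_left _ h6.le
              refine le_trans ?_ h3
              have : (0 : ℝ) ≤ 2 ^ (d + 1) * M ^ C := by positivity
              nlinarith
      have c2 : (q : ℝ) * M ^ W ≤ ℓ n := by
        have h1 : ((n ^ d : ℕ) : ℝ) ≤ ℓ n := by exact_mod_cast hℓlow n hn1
        push_cast at h1
        refine le_trans (le_trans ?_ hqD) h1
        exact mul_le_mul_of_nonneg_left (hMp1 W (by omega)) hq0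
      have c3 : Flat q (1 / M ^ V) s y := by
        intro k hk
        refine (hf k hk).trans ?_
        apply mul_le_mul_of_nonneg_right _ (Nat.cast_nonneg _)
        exact one_div_le_one_div_of_le (by positivity) (hMp1 V (by omega))
      have c4 : (κ.natAbs : ℝ) ≤ M ^ T₁ := by
        refine hκT.trans ((pow_le_pow_left₀ hL0.le hLM _).trans ?_)
        exact pow_le_pow_right₀ (by linarith) (by omega)
      obtain ⟨F, hF1, hF2⟩ := g2 q c1 c2 s y hs c3 κ hκ c4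
      refine ⟨F, hF1.trans ?_, fun m hm hmF => ?_⟩
      · have h1 : (ℓ n : ℝ) ≤ ((d : ℝ) + 1) * 2 ^ d * (n : ℝ) ^ d := by exact_mod_cast hℓup n hn1
        rw [div_le_div_iff₀ (by positivity) (by positivity)]
        have h2 : ((d : ℝ) + 1) * 2 ^ d ≤ L := by
          have : ((d : ℝ) + 1) * 2 ^ d ≤ 4 * ((d : ℝ) + 1) * 2 ^ (d + 1) := by
            rw [pow_succ]
            have : (0 : ℝ) < ((d : ℝ) + 1) * 2 ^ d := by positivity
            nlinarith
          linarith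
        have h3 : L * L ^ U ≤ M ^ U₁ := by
          calc L * L ^ U = L ^ (U + 1) := by rw [pow_succ, mul_comm]
            _ ≤ M ^ (U + 1) := pow_le_pow_left₀ hL0.le hLM _
            _ ≤ M ^ U₁ := by
                apply pow_le_pow_right₀ (by linarith)
                rw [hU₁, ha]
                nlinarith
        calc (ℓ n : ℝ) * L ^ U ≤ (((d : ℝ) + 1) * 2 ^ d * (n : ℝ) ^ d) * L ^ U := by gcongr
          _ = (n : ℝ) ^ d * ((((d : ℝ) + 1) * 2 ^ d) * L ^ U) := by ring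
          _ ≤ (n : ℝ) ^ d * (L * L ^ U) := by gcongr
          _ ≤ (n : ℝ) ^ d * M ^ U₁ := by gcongr
      · have hm' : m ∈ Ioc (u n) (u n + ℓ n) := by rw [hblk n hn1]; exact hm
        rw [mem_Ioc] at hm'
        obtain ⟨f1, f2⟩ := hF2 m hm'.1 hm'.2 hmF
        have h1 := hul n hn1
        have h2 := hun n
        refine ⟨fun i => ?_, fun hcop => ?_⟩
        · have h3 := f1 i
          rw [← h2, ← h1]
          push_cast
          constructor
          · exact h3.1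
          · linarith [h3.2]
        · have h3 := f2 hcop
          rw [mul_div_assoc'] at h3
          rw [← hLn, mul_div_assoc']
          apply conv _ _ M Ln ε hLn0 hLnM hMLn (by positivity) hε
          refine h3.trans ?_
          apply mul_le_mul_of_nonneg_right _ (by positivity)
          linarith

end Run7.h337.MK
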