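import Mathlib
import Pool.Agent.Run7.h337.MK.Pow

/-!
# Project MK, piece LOC (helper337), part 7: pairs of primes between consecutive powers
-/

set_option autoImplicit false

namespace Run7.h337.MK

open Finset Filter
open Pool.Agent.Run7.h794.MK
open Pool.Agent.N384.MQ (Flat ev_log_pow ev_log_ge)

/-- The number of pairs (m, i) with m in P and i in s for which m + kappa y_i is a prime strictly between
a and b. -/
noncomputable def pairCount {ι : Type} {q : ℕ} (a b : ℕ) (κ : ℤ) (y : ι → ZMod q) (s : Finset ι) (P : Finset ℕ) : ℕ :=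
  ((P ×ˢ s).filter fun x => (a : ℤ) < (x.1 : ℤ) + κ * ((y x.2).val : ℕ) ∧ (x.1 : ℤ) + κ * ((y x.2).val : ℕ) < b ∧
    ((x.1 : ℤ) + κ * ((y x.2).val : ℕ)).toNat.Prime).card

/-- The primes strictly between a and b. -/
def primesBetween (a b : ℕ) : Finset ℕ := (Ioo a b).filter Nat.Prime

lemma pairCount_sum {ι : Type} {q : ℕ} (a b : ℕ) (κ : ℤ) (y : ι → ZMod q) (s : Finset ι) (P : Finset ℕ) :
    (pairCount a b κ y s P : ℝ) = ∑ m ∈ P, ((s.filter fun i => (a : ℤ) < (m : ℤ) + κ * ((y i).val : ℕ) ∧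
      (m : ℤ) + κ * ((y i).val : ℕ) < b ∧ ((m : ℤ) + κ * ((y i).val : ℕ)).toNat.Prime).card : ℝ) := by
  classical
  rw [pairCount]
  rw [← Nat.cast_sum]
  congr 1
  rw [card_filter, sum_product]
  refine sum_congr rfl fun m _ => ?_
  rw [card_filter]

lemma pairs_of {ι : Type} {q : ℕ} (a b : ℕ) (κ : ℤ) (y : ι → ZMod q) (s : Finset ι) (P F : Finset ℕ) (g L ε : ℝ)
    (hL : 0 < L) (hg : 0 ≤ g) (hε : 0 < ε) (hPI : P ⊆ Ioo a b) (hP : ∀ m ∈ P, IsCoprime (m : ℤ) κ)
    (hF : ∀ m ∈ Ioo a b, m ∉ F →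
        (∀ i, (a : ℤ) < m + κ * ((y i).val : ℕ) ∧ m + κ * ((y i).val : ℕ) < (b : ℤ)) ∧
        (IsCoprime (m : ℤ) κ →
        |((s.filter fun i => ((m : ℤ) + κ * ((y i).val : ℕ)).toNat.Prime).card : ℝ) - g * (s.card / L)| ≤
          ε / 2 * (g * (s.card / L))))
    (hFc : (F.card : ℝ) * (L + g) ≤ ε / 2 * (g * P.card)) :
    |(pairCount a b κ y s P : ℝ) - g * (P.card * s.card / L)| ≤ ε * (g * (P.card * s.card / L)) := by
  classical
  rw [pairCount_sum]
  have h1 : g * (P.card * s.card / L) = ∑ m ∈ P, g * (s.card / L) := by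
    rw [sum_const, nsmul_eq_mul]
    ring
  have hs0 : (0 : ℝ) ≤ s.card := Nat.cast_nonneg _
  have hG : 0 ≤ g * (s.card / L) := by positivity
  have h2 : ∀ m ∈ P, |((s.filter fun i => (a : ℤ) < (m : ℤ) + κ * ((y i).val : ℕ) ∧
      (m : ℤ) + κ * ((y i).val : ℕ) < b ∧ ((m : ℤ) + κ * ((y i).val : ℕ)).toNat.Prime).card : ℝ) - g * (s.card / L)| ≤
      ε / 2 * (g * (s.card / L)) + (if m ∈ F then (s.card + g * (s.card / L) : ℝ) else 0) := by
    intro m hm
    by_cases hmF : m ∈ F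
    · rw [if_pos hmF]
      have h3 : ((s.filter fun i => (a : ℤ) < (m : ℤ) + κ * ((y i).val : ℕ) ∧
        (m : ℤ) + κ * ((y i).val : ℕ) < b ∧ ((m : ℤ) + κ * ((y i).val : ℕ)).toNat.Prime).card : ℝ) ≤ s.card := by
        exact_mod_cast card_filter_le _ _
      have h4 : (0 : ℝ) ≤ ((s.filter fun i => (a : ℤ) < (m : ℤ) + κ * ((y i).val : ℕ) ∧
        (m : ℤ) + κ * ((y i).val : ℕ) < b ∧ ((m : ℤ) + κ * ((y i).val : ℕ)).toNat.Prime).card : ℝ) := Nat.cast_nonneg _
      have h5 : 0 ≤ ε / 2 * (g * (s.card / L)) := by positivity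
      rw [abs_le]
      constructor <;> linarith
    · rw [if_neg hmF, add_zero]
      obtain ⟨h3, h4⟩ := hF m (hPI hm) hmF
      have h5 : (s.filter fun i => (a : ℤ) < (m : ℤ) + κ * ((y i).val : ℕ) ∧
        (m : ℤ) + κ * ((y i).val : ℕ) < b ∧ ((m : ℤ) + κ * ((y i).val : ℕ)).toNat.Prime) =
        s.filter fun i => ((m : ℤ) + κ * ((y i).val : ℕ)).toNat.Prime := by
        apply filter_congr
        intro i _
        constructor
        · exact fun h => h.2.2
        · exact fun h => ⟨(h3 i).1, (h3 i).2, h⟩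
      rw [h5]
      exact h4 (hP m hm)
  rw [h1, ← sum_sub_distrib]
  have h6 : ∑ m ∈ P, (if m ∈ F then (s.card + g * (s.card / L) : ℝ) else 0) ≤ F.card * (s.card + g * (s.card / L)) := by
    rw [← sum_filter, sum_const, nsmul_eq_mul]
    apply mul_le_mul_of_nonneg_right _ (by positivity)
    have : (P.filter fun m => m ∈ F).card ≤ F.card := by
      apply card_le_card
      intro m hm
      exact (mem_filter.1 hm).2
    exact_mod_cast this
  have h7 : (F.card : ℝ) * (s.card + g * (s.card / L)) = (s.card / L) * (F.card * (L + g)) := by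
    field_simp
  calc |∑ m ∈ P, (((s.filter fun i => (a : ℤ) < (m : ℤ) + κ * ((y i).val : ℕ) ∧
      (m : ℤ) + κ * ((y i).val : ℕ) < b ∧ ((m : ℤ) + κ * ((y i).val : ℕ)).toNat.Prime).card : ℝ) - g * (s.card / L))|
      ≤ ∑ m ∈ P, |((s.filter fun i => (a : ℤ) < (m : ℤ) + κ * ((y i).val : ℕ) ∧
      (m : ℤ) + κ * ((y i).val : ℕ) < b ∧ ((m : ℤ) + κ * ((y i).val : ℕ)).toNat.Prime).card : ℝ) - g * (s.card / L)| :=
        abs_sum_le_sum_abs _ _
    _ ≤ ∑ m ∈ P, (ε / 2 * (g * (s.card / L)) + (if m ∈ F then (s.card + g * (s.card / L) : ℝ) else 0)) := sum_le_sum h2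
    _ = ε / 2 * (∑ m ∈ P, g * (s.card / L)) + ∑ m ∈ P, (if m ∈ F then (s.card + g * (s.card / L) : ℝ) else 0) := by
        rw [sum_add_distrib, mul_sum]
    _ ≤ ε / 2 * (∑ m ∈ P, g * (s.card / L)) + (s.card / L) * (F.card * (L + g)) := by
        rw [← h7]
        linarith
    _ ≤ ε / 2 * (∑ m ∈ P, g * (s.card / L)) + (s.card / L) * (ε / 2 * (g * P.card)) := by
        have : (s.card / L : ℝ) * (F.card * (L + g)) ≤ (s.card / L) * (ε / 2 * (g * P.card)) :=
          mul_le_mul_of_nonneg_left hFc (by positivity)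
        linarith
    _ = ε * (∑ m ∈ P, g * (s.card / L)) := by
        rw [sum_const, nsmul_eq_mul]
        ring

lemma g_ge_one (κ : ℤ) (hκ : κ ≠ 0) : (1 : ℝ) ≤ κ.natAbs / (Nat.totient κ.natAbs : ℝ) := by
  have h1 : 0 < κ.natAbs := Int.natAbs_pos.2 hκ
  have h2 : 0 < Nat.totient κ.natAbs := Nat.totient_pos.2 h1
  rw [le_div_iff₀ (by exact_mod_cast h2), one_mul]
  exact_mod_cast Nat.totient_le _

/-- Pairs between consecutive powers: the first member from any set, and both members prime. -/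
theorem pow_pairs (hMAJ : S_MAJ1) (d : ℕ) (hd : 1 ≤ d) (T U : ℕ) (ε : ℝ) (hε : 0 < ε) (hε1 : ε ≤ 1) :
    ∃ V C D X₀ : ℕ, ∀ X : ℕ, X₀ ≤ X →
    ∃ E : Finset ℕ, (E.card : ℝ) ≤ X / Real.log X ^ U ∧ ∀ n : ℕ, 1 ≤ n → n ≤ X → n ∉ E →
    ∀ (q : ℕ) [NeZero q], (X : ℝ) ^ (((d + 1 : ℕ) : ℝ) / 3) * Real.log X ^ C ≤ q → (q : ℝ) * Real.log X ^ D ≤ (n : ℝ) ^ d →
    ∀ {ι : Type} (s : Finset ι) (y : ι → ZMod q), s.Nonempty → Flat q (1 / Real.log X ^ V) s y →
    ∀ κ : ℤ, κ ≠ 0 → (κ.natAbs : ℝ) ≤ Real.log X ^ T →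
      (∃ F : Finset ℕ, (F.card : ℝ) ≤ (n : ℝ) ^ d / Real.log X ^ U ∧
      ∀ m ∈ Ioo (n ^ (d + 1)) ((n + 1) ^ (d + 1)), m ∉ F →
        (∀ i, ((n ^ (d + 1) : ℕ) : ℤ) < m + κ * ((y i).val : ℕ) ∧ m + κ * ((y i).val : ℕ) < (((n + 1) ^ (d + 1) : ℕ) : ℤ)) ∧
        (IsCoprime (m : ℤ) κ →
        |((s.filter fun i => ((m : ℤ) + κ * ((y i).val : ℕ)).toNat.Prime).card : ℝ) -
          κ.natAbs / (Nat.totient κ.natAbs : ℝ) * (s.card / ((d + 1) * Real.log n))| ≤
          ε * (κ.natAbs / (Nat.totient κ.natAbs : ℝ) * (s.card / ((d + 1) * Real.log n))))) ∧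
      (∀ P ⊆ Ioo (n ^ (d + 1)) ((n + 1) ^ (d + 1)), (∀ m ∈ P, IsCoprime (m : ℤ) κ) →
        (n : ℝ) ^ d / Real.log X ^ T ≤ P.card →
        |(pairCount (n ^ (d + 1)) ((n + 1) ^ (d + 1)) κ y s P : ℝ) -
          κ.natAbs / (Nat.totient κ.natAbs : ℝ) * (P.card * s.card / ((d + 1) * Real.log n))| ≤
          ε * (κ.natAbs / (Nat.totient κ.natAbs : ℝ) * (P.card * s.card / ((d + 1) * Real.log n)))) ∧
      |(pairCount (n ^ (d + 1)) ((n + 1) ^ (d + 1)) κ y s (primesBetween (n ^ (d + 1)) ((n + 1) ^ (d + 1))) : ℝ) -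
          κ.natAbs / (Nat.totient κ.natAbs : ℝ) * (s.card * (n : ℝ) ^ d / ((d + 1) * Real.log n ^ 2))| ≤
          ε * (κ.natAbs / (Nat.totient κ.natAbs : ℝ) * (s.card * (n : ℝ) ^ d / ((d + 1) * Real.log n ^ 2))) := by
  classical
  obtain ⟨V, C, D, X₀, h⟩ := pow_all hMAJ d hd (T + 1) (U + T + 4) (ε / 4) (by positivity) (by linarith)
  obtain ⟨X₁, hev⟩ := eventually_atTop.1 (((ev_log_ge (8 * ((d : ℝ) + 2) / ε)).and (ev_log_ge 2)).and
    (ev_log_pow (U + 2 * T + 6) 1))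
  refine ⟨V, C, D, max (max X₀ X₁) 3, fun X hX => ?_⟩
  have hX0' : X₀ ≤ X := le_trans (le_trans (le_max_left _ _) (le_max_left _ _)) hX
  have hX1' : X₁ ≤ X := le_trans (le_trans (le_max_right _ _) (le_max_left _ _)) hX
  have hX3 : 3 ≤ X := le_trans (le_max_right _ _) hX
  obtain ⟨⟨l1, l2⟩, l3⟩ := hev X hX1'
  obtain ⟨E, hE, hE2⟩ := h X hX0'
  have hXr : (3 : ℝ) ≤ X := by exact_mod_cast hX3
  obtain ⟨L, hL⟩ : ∃ L, L = Real.log X := ⟨_, rfl⟩
  rw [← hL] at l1 l2 l3 hE hE2 ⊢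
  have hL0 : 0 < L := by linarith
  have hL1 : 1 ≤ L := by linarith
  refine ⟨E, hE.trans ?_, fun n hn1 hnX hnE q _ hq1 hq2 ι s y hs hy κ hκ hκT => ?_⟩
  · apply div_le_div_of_nonneg_left (by linarith) (by positivity)
    exact pow_le_pow_right₀ hL1 (by omega)
  obtain ⟨⟨n1, n2⟩, n3, n4⟩ := hE2 n hn1 hnX hnE
  have hn0 : (0 : ℝ) < n := by exact_mod_cast hn1
  have hln : Real.log n ≤ L := by
    rw [hL]
    exact Real.log_le_log hn0 (by exact_mod_cast hnX)
  have hln0 : 0 < Real.log n := by linarith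
  have hd0 : (0 : ℝ) ≤ d := Nat.cast_nonneg _
  have hκT' : (κ.natAbs : ℝ) ≤ L ^ (T + 1) := hκT.trans (pow_le_pow_right₀ hL1 (by omega))
  obtain ⟨F, hF1, hF2⟩ := n4 q hq1 hq2 s y hs hy κ hκ hκT'
  have hg1 := g_ge_one κ hκ
  obtain ⟨g, hg⟩ : ∃ g : ℝ, g = κ.natAbs / (Nat.totient κ.natAbs : ℝ) := ⟨_, rfl⟩
  rw [← hg] at hg1 hF2 ⊢
  have hg0 : 0 ≤ g := by linarith
  obtain ⟨M, hM⟩ : ∃ M : ℝ, M = (d + 1) * Real.log n := ⟨_, rfl⟩
  rw [← hM] at hF2 ⊢
  have hM0 : 0 < M := by rw [hM]; positivity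
  have hML : M ≤ (d + 1) * L := by
    rw [hM]
    exact mul_le_mul_of_nonneg_left hln (by positivity)
  have hMg : M + g ≤ g * ((d + 2) * L) := by
    have e1 : g ≤ g * L := le_mul_of_one_le_right hg0 hL1
    have e2 : (d + 1) * L ≤ g * ((d + 1) * L) := le_mul_of_one_le_left (by positivity) hg1
    nlinarith
  have hnd : (0 : ℝ) < (n : ℝ) ^ d := by positivity
  -- the bound for exceptional m
  have hFc : ∀ P : Finset ℕ, (n : ℝ) ^ d / L ^ (T + 2) ≤ P.card → (F.card : ℝ) * (M + g) ≤ ε / 4 / 2 * (g * P.card) := by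
    intro P hP
    have e3 : (F.card : ℝ) * (M + g) ≤ (n : ℝ) ^ d / L ^ (U + T + 4) * (g * ((d + 2) * L)) :=
      mul_le_mul hF1 hMg (by linarith) (by positivity)
    have e4 : (n : ℝ) ^ d / L ^ (U + T + 4) * (g * ((d + 2) * L)) ≤ (n : ℝ) ^ d / L ^ (T + 4) * (g * ((d + 2) * L)) := by
      apply mul_le_mul_of_nonneg_right _ (by positivity)
      apply div_le_div_of_nonneg_left hnd.le (by positivity)
      exact pow_le_pow_right₀ hL1 (by omega)
    have e5 : (n : ℝ) ^ d / L ^ (T + 4) * (g * ((d + 2) * L)) = (n : ℝ) ^ d / L ^ (T + 2) * g * ((d + 2) / L) := by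
      have : L ^ (T + 4) = L ^ (T + 2) * L ^ 2 := by ring
      rw [this]
      field_simp
    have e6 : (d + 2) / L ≤ ε / 8 := by
      rw [div_le_iff₀ hL0]
      rw [div_le_iff₀ hε] at l1
      linarith
    calc (F.card : ℝ) * (M + g) ≤ (n : ℝ) ^ d / L ^ (T + 2) * g * ((d + 2) / L) := by linarith
      _ ≤ (P.card : ℝ) * g * (ε / 8) := by
          apply mul_le_mul _ e6 (by positivity) (by positivity)
          exact mul_le_mul_of_nonneg_right hP hg0
      _ = ε / 4 / 2 * (g * P.card) := by ring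
  refine ⟨⟨F, hF1.trans ?_, fun m hm hmF => ⟨(hF2 m hm hmF).1, fun hc => ((hF2 m hm hmF).2 hc).trans ?_⟩⟩, ?_, ?_⟩
  · apply div_le_div_of_nonneg_left hnd.le (by positivity)
    exact pow_le_pow_right₀ hL1 (by omega)
  · apply mul_le_mul_of_nonneg_right (by linarith)
    have : (0 : ℝ) ≤ s.card := Nat.cast_nonneg _
    positivity
  · intro P hPI hPc hPn
    have hPn' : (n : ℝ) ^ d / L ^ (T + 2) ≤ P.card := by
      refine le_trans ?_ hPn
      apply div_le_div_of_nonneg_left hnd.le (by positivity)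
      exact pow_le_pow_right₀ hL1 (by omega)
    have h1 := hFc P hPn'
    have h2 := pairs_of (n ^ (d + 1)) ((n + 1) ^ (d + 1)) κ y s P F g M (ε / 2) hM0 hg0 (by positivity) hPI hPc
      (fun m hm hmF => ⟨(hF2 m hm hmF).1, fun hc => by
        have := (hF2 m hm hmF).2 hc
        rw [show ε / 2 / 2 = ε / 4 by ring]
        exact this⟩) (by
        refine h1.trans ?_
        exact mul_le_mul_of_nonneg_right (by linarith) (by positivity))
    refine h2.trans ?_
    apply mul_le_mul_of_nonneg_right (by linarith)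
    positivity
  · -- prime pairs
    have hPI : primesBetween (n ^ (d + 1)) ((n + 1) ^ (d + 1)) ⊆ Ioo (n ^ (d + 1)) ((n + 1) ^ (d + 1)) := filter_subset _ _
    obtain ⟨P, hP⟩ : ∃ P, P = primesBetween (n ^ (d + 1)) ((n + 1) ^ (d + 1)) := ⟨_, rfl⟩
    have hPcard : |(P.card : ℝ) - (n : ℝ) ^ d / Real.log n| ≤ ε / 4 * ((n : ℝ) ^ d / Real.log n) := by
      rw [hP]
      exact n3
    rw [← hP] at hPI ⊢
    have e7 := abs_le.1 hPcard
    have e8 : 0 < (n : ℝ) ^ d / Real.log n := by positivity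
    have hPn' : (n : ℝ) ^ d / L ^ (T + 2) ≤ P.card := by
      have e9 : (n : ℝ) ^ d / L ≤ (n : ℝ) ^ d / Real.log n := div_le_div_of_nonneg_left hnd.le hln0 hln
      have e10 : (n : ℝ) ^ d / L ^ (T + 2) ≤ (n : ℝ) ^ d / L / 2 := by
        rw [div_div]
        apply div_le_div_of_nonneg_left hnd.le (by positivity)
        calc L * 2 ≤ L * L := mul_le_mul_of_nonneg_left l2 hL0.le
          _ = L ^ 2 := (sq L).symm
          _ ≤ L ^ (T + 2) := pow_le_pow_right₀ hL1 (by omega)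
      nlinarith
    have hPc : ∀ m ∈ P, IsCoprime (m : ℤ) κ := by
      intro m hm
      rw [hP, primesBetween, mem_filter, mem_Ioo] at hm
      rw [Int.isCoprime_iff_gcd_eq_one]
      have hmp := hm.2
      have h11 : κ.natAbs < m := by
        have h12 : (κ.natAbs : ℝ) < ((n ^ (d + 1) : ℕ) : ℝ) := by
          have h13 : L ^ (T + 1) ≤ n := by
            have h15 : L ^ (T + 1) * L ^ (U + T + 5) ≤ n * L ^ (U + T + 5) := by
              calc L ^ (T + 1) * L ^ (U + T + 5) = 1 * L ^ (U + 2 * T + 6) := by ring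
                _ ≤ X := l3
                _ ≤ n * L ^ (U + T + 4 + 1) := n1
                _ = n * L ^ (U + T + 5) := by ring
            exact le_of_mul_le_mul_right h15 (by positivity)
          have h16 : L ^ T < L ^ (T + 1) := by
            rw [pow_succ]
            have : 0 < L ^ T := by positivity
            nlinarith
          have h17 : (n : ℝ) ≤ ((n ^ (d + 1) : ℕ) : ℝ) := by
            exact_mod_cast Nat.le_self_pow (by omega) n
          linarith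
        exact lt_trans (by exact_mod_cast h12) hm.1.1
      have h14 : Int.gcd (m : ℤ) κ = Nat.gcd m κ.natAbs := by
        rw [Int.gcd_def]
        simp
      rw [h14]
      exact (Nat.Prime.coprime_iff_not_dvd hmp).2 fun hdvd =>
        absurd (Nat.le_of_dvd (Int.natAbs_pos.2 hκ) hdvd) (by omega)
    have h1 := hFc P hPn'
    have h2 := pairs_of (n ^ (d + 1)) ((n + 1) ^ (d + 1)) κ y s P F g M (ε / 2) hM0 hg0 (by positivity) hPI hPc
      (fun m hm hmF => ⟨(hF2 m hm hmF).1, fun hc => by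
        have := (hF2 m hm hmF).2 hc
        rw [show ε / 2 / 2 = ε / 4 by ring]
        exact this⟩) (by
        refine h1.trans ?_
        exact mul_le_mul_of_nonneg_right (by linarith) (by positivity))
    obtain ⟨R, hR⟩ : ∃ R : ℝ, R = g * (s.card / M) := ⟨_, rfl⟩
    have hs0 : (0 : ℝ) ≤ s.card := Nat.cast_nonneg _
    have hR0 : 0 ≤ R := by rw [hR]; positivity
    obtain ⟨Q, hQ⟩ : ∃ Q : ℝ, Q = (n : ℝ) ^ d / Real.log n := ⟨_, rfl⟩
    rw [← hQ] at e7 e8
    have h3 : g * (P.card * s.card / M) = R * P.card := by rw [hR]; ring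
    have h4 : g * (s.card * (n : ℝ) ^ d / ((d + 1) * Real.log n ^ 2)) = R * Q := by
      rw [hR, hQ, hM]
      field_simp
    rw [h3] at h2
    rw [h4]
    have h5 := abs_le.1 h2
    have h6 : R * P.card ≤ R * ((1 + ε / 4) * Q) := mul_le_mul_of_nonneg_left (by linarith) hR0
    have h7 : R * ((1 - ε / 4) * Q) ≤ R * P.card := mul_le_mul_of_nonneg_left (by linarith) hR0
    have h8 : 0 ≤ R * Q := by positivity
    have h9 : ε * ε * (R * Q) ≤ ε * (R * Q) := by
      apply mul_le_mul_of_nonneg_right _ h8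
      nlinarith
    have h10 : ε / 2 * (R * P.card) ≤ ε / 2 * (R * ((1 + ε / 4) * Q)) := mul_le_mul_of_nonneg_left h6 (by positivity)
    rw [abs_le]
    constructor
    · nlinarith [h5.1]
    · nlinarith [h5.2]

end Run7.h337.MK
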