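import Mathlib
import Pool.Agent.Run7.h337.MK.Pairs

/-!
# Project MK, piece LOC (helper337), part 9: two numbers with a fixed sum between consecutive squares
-/

set_option autoImplicit false

namespace Run7.h337.MK

open Finset Filter
open Pool.Agent.Run7.h794.MK
open Pool.Agent.N384.MQ (Flat ev_log_pow ev_log_ge)

/-- The number of i in s for which a + kappa y_i is a prime strictly between N^2 and (N+1)^2. -/
noncomputable def near {ι : Type} {q : ℕ} (N : ℕ) (a κ : ℤ) (y : ι → ZMod q) (s : Finset ι) : ℕ :=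
  (s.filter fun i => ((N ^ 2 : ℕ) : ℤ) < a + κ * ((y i).val : ℕ) ∧ a + κ * ((y i).val : ℕ) < (((N + 1) ^ 2 : ℕ) : ℤ) ∧
    (a + κ * ((y i).val : ℕ)).toNat.Prime).card

/-- The expected number of primes among the a + kappa y_i, for a prime to kappa near N^2. -/
noncomputable def expd {ι : Type} (N : ℕ) (κ : ℤ) (s : Finset ι) : ℝ :=
  κ.natAbs / (Nat.totient κ.natAbs : ℝ) * (s.card / (2 * Real.log N))

lemma near_le {ι : Type} {q : ℕ} (N : ℕ) (a κ : ℤ) (y : ι → ZMod q) (s : Finset ι) : (near N a κ y s : ℝ) ≤ s.card := by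
  rw [near]
  exact_mod_cast card_filter_le _ _

lemma expd_nonneg {ι : Type} (N : ℕ) (κ : ℤ) (s : Finset ι) (h : 0 < Real.log N) : 0 ≤ expd N κ s := by
  rw [expd]
  exact mul_nonneg (div_nonneg (Nat.cast_nonneg _) (Nat.cast_nonneg _)) (div_nonneg (Nat.cast_nonneg _) (by linarith))

lemma card_le_expd {ι : Type} (N : ℕ) (κ : ℤ) (s : Finset ι) (L : ℝ) (hκ : κ ≠ 0) (h : 0 < Real.log N)
    (hL : Real.log N ≤ L) : (s.card : ℝ) ≤ expd N κ s * (2 * L) := by
  have hg := g_ge_one κ hκ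
  rw [expd]
  obtain ⟨g, hg'⟩ : ∃ g : ℝ, g = κ.natAbs / (Nat.totient κ.natAbs : ℝ) := ⟨_, rfl⟩
  rw [← hg'] at hg ⊢
  have h0 : (0 : ℝ) ≤ s.card := Nat.cast_nonneg _
  have h2 : 0 ≤ (s.card : ℝ) / (2 * Real.log N) := div_nonneg h0 (by linarith)
  calc (s.card : ℝ) = s.card / (2 * Real.log N) * (2 * Real.log N) := (div_mul_cancel₀ _ (by linarith)).symm
    _ ≤ (g * (s.card / (2 * Real.log N))) * (2 * L) := by
        apply mul_le_mul _ (by linarith) (by linarith) (mul_nonneg (by linarith) h2)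
        exact le_mul_of_one_le_left h2 hg

lemma two_approx (x₁ x₂ G₁ G₂ δ : ℝ) (hδ : 0 ≤ δ) (hδ1 : δ ≤ 1) (h1 : |x₁ - G₁| ≤ δ * G₁) (h2 : |x₂ - G₂| ≤ δ * G₂)
    (hG1 : 0 ≤ G₁) (hG2 : 0 ≤ G₂) : |x₁ * x₂ - G₁ * G₂| ≤ 3 * δ * (G₁ * G₂) := by
  have e1 : x₁ * x₂ - G₁ * G₂ = (x₁ - G₁) * (x₂ - G₂) + (x₁ - G₁) * G₂ + G₁ * (x₂ - G₂) := by ring
  have e2 : |(x₁ - G₁) * (x₂ - G₂)| ≤ (δ * G₁) * (δ * G₂) := by
    rw [abs_mul]
    exact mul_le_mul h1 h2 (abs_nonneg _) (by positivity)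
  have e3 : |(x₁ - G₁) * G₂| ≤ δ * G₁ * G₂ := by
    rw [abs_mul, abs_of_nonneg hG2]
    exact mul_le_mul_of_nonneg_right h1 hG2
  have e4 : |G₁ * (x₂ - G₂)| ≤ G₁ * (δ * G₂) := by
    rw [abs_mul, abs_of_nonneg hG1]
    exact mul_le_mul_of_nonneg_left h2 hG1
  have e5 : (δ * G₁) * (δ * G₂) ≤ δ * (G₁ * G₂) := by
    have : δ * δ ≤ δ := by nlinarith
    calc (δ * G₁) * (δ * G₂) = (δ * δ) * (G₁ * G₂) := by ring
      _ ≤ δ * (G₁ * G₂) := mul_le_mul_of_nonneg_right this (by positivity)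
  rw [e1]
  calc |(x₁ - G₁) * (x₂ - G₂) + (x₁ - G₁) * G₂ + G₁ * (x₂ - G₂)| ≤
      |(x₁ - G₁) * (x₂ - G₂)| + |(x₁ - G₁) * G₂| + |G₁ * (x₂ - G₂)| := abs_add_three _ _ _
    _ ≤ 3 * δ * (G₁ * G₂) := by linarith

lemma sum_approx (K F : Finset ℕ) (x : ℕ → ℝ) (G S ε : ℝ) (hε : 0 < ε) (hG : 0 ≤ G) (hS : 0 ≤ S)
    (h0 : ∀ k ∈ K, 0 ≤ x k ∧ x k ≤ S) (h1 : ∀ k ∈ K, k ∉ F → |x k - G| ≤ ε / 2 * G)
    (hF : (F.card : ℝ) * (S + G) ≤ ε / 2 * (K.card * G)) :
    |∑ k ∈ K, x k - K.card * G| ≤ ε * (K.card * G) := by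
  classical
  have e1 : (K.card : ℝ) * G = ∑ k ∈ K, G := by rw [sum_const, nsmul_eq_mul]
  have e2 : ∀ k ∈ K, |x k - G| ≤ ε / 2 * G + (if k ∈ F then S + G else 0) := by
    intro k hk
    by_cases hkF : k ∈ F
    · rw [if_pos hkF]
      have h5 : 0 ≤ ε / 2 * G := by positivity
      have := h0 k hk
      rw [abs_le]
      constructor <;> linarith [this.1, this.2]
    · rw [if_neg hkF, add_zero]
      exact h1 k hk hkF
  have h6 : ∑ k ∈ K, (if k ∈ F then S + G else 0) ≤ F.card * (S + G) := by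
    rw [← sum_filter, sum_const, nsmul_eq_mul]
    apply mul_le_mul_of_nonneg_right _ (by positivity)
    have : (K.filter fun k => k ∈ F).card ≤ F.card := by
      apply card_le_card
      intro m hm
      exact (mem_filter.1 hm).2
    exact_mod_cast this
  calc |∑ k ∈ K, x k - K.card * G| = |∑ k ∈ K, (x k - G)| := by rw [e1, sum_sub_distrib]
    _ ≤ ∑ k ∈ K, |x k - G| := abs_sum_le_sum_abs _ _
    _ ≤ ∑ k ∈ K, (ε / 2 * G + (if k ∈ F then S + G else 0)) := sum_le_sum e2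
    _ = ε / 2 * (K.card * G) + ∑ k ∈ K, (if k ∈ F then S + G else 0) := by
        rw [sum_add_distrib, sum_const, nsmul_eq_mul]
        ring
    _ ≤ ε / 2 * (K.card * G) + ε / 2 * (K.card * G) := by linarith
    _ = ε * (K.card * G) := by ring

/-- the exceptional k -/
lemma exc_card (N : ℕ) (F₁ F₂ : Finset ℕ) :
    (((Icc 2 (2 * N)).filter fun k => N ^ 2 + k + 1 ∈ F₁ ∨ (N + 1) ^ 2 - k ∈ F₂ ∨ k = 2 * N).card : ℝ) ≤
      F₁.card + F₂.card + 1 := by
  classical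
  have h1 : ((Icc 2 (2 * N)).filter fun k => N ^ 2 + k + 1 ∈ F₁ ∨ (N + 1) ^ 2 - k ∈ F₂ ∨ k = 2 * N) ⊆
      ((Icc 2 (2 * N)).filter fun k => N ^ 2 + k + 1 ∈ F₁) ∪ (((Icc 2 (2 * N)).filter fun k => (N + 1) ^ 2 - k ∈ F₂) ∪
        {2 * N}) := by
    intro k hk
    rw [mem_filter] at hk
    rw [mem_union, mem_union, mem_filter, mem_filter, mem_singleton]
    tauto
  have h2 : ((Icc 2 (2 * N)).filter fun k => N ^ 2 + k + 1 ∈ F₁).card ≤ F₁.card := by
    apply card_le_card_of_injOn (fun k => N ^ 2 + k + 1)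
    · intro k hk
      exact (mem_filter.1 hk).2
    · intro a _ b _ hab
      simp only at hab
      omega
  have h3 : ((Icc 2 (2 * N)).filter fun k => (N + 1) ^ 2 - k ∈ F₂).card ≤ F₂.card := by
    apply card_le_card_of_injOn (fun k => (N + 1) ^ 2 - k)
    · intro k hk
      exact (mem_filter.1 hk).2
    · intro a ha b hb hab
      have ha' := mem_Icc.1 (mem_filter.1 ha).1
      have hb' := mem_Icc.1 (mem_filter.1 hb).1
      have h4 : 2 * N ≤ (N + 1) ^ 2 := by nlinarith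
      simp only at hab
      omega
  have h4 := card_le_card h1
  have h5 := card_union_le ((Icc 2 (2 * N)).filter fun k => N ^ 2 + k + 1 ∈ F₁)
    (((Icc 2 (2 * N)).filter fun k => (N + 1) ^ 2 - k ∈ F₂) ∪ {2 * N})
  have h6 := card_union_le ((Icc 2 (2 * N)).filter fun k => (N + 1) ^ 2 - k ∈ F₂) {2 * N}
  rw [card_singleton] at h6
  have h7 : ((Icc 2 (2 * N)).filter fun k => N ^ 2 + k + 1 ∈ F₁ ∨ (N + 1) ^ 2 - k ∈ F₂ ∨ k = 2 * N).card ≤
      F₁.card + F₂.card + 1 := by omega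
  exact_mod_cast h7

/-- the primes N^2+k+1 with 2 ≤ k ≤ 2N are the primes between the squares, up to two -/
lemma primes_k (N : ℕ) (hN : 1 ≤ N) :
    ((((Ioo (N ^ 2) ((N + 1) ^ 2)).filter Nat.Prime).card : ℝ) - 2 ≤
      ((Icc 2 (2 * N)).filter fun k => (N ^ 2 + k + 1).Prime).card) ∧
    (((Icc 2 (2 * N)).filter fun k => (N ^ 2 + k + 1).Prime).card : ℝ) ≤
      ((Ioo (N ^ 2) ((N + 1) ^ 2)).filter Nat.Prime).card := by
  classical
  have hsq : (N + 1) ^ 2 = N ^ 2 + 2 * N + 1 := by ring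
  have hnp : ¬ (N ^ 2 + 2 * N + 1).Prime := by
    rw [← hsq]
    exact Nat.Prime.not_prime_pow (le_refl 2)
  constructor
  · have h1 : (Ioo (N ^ 2) ((N + 1) ^ 2)).filter Nat.Prime ⊆
        (((Icc 2 (2 * N)).filter fun k => (N ^ 2 + k + 1).Prime).image fun k => N ^ 2 + k + 1) ∪
          {N ^ 2 + 1, N ^ 2 + 2} := by
      intro p hp
      rw [mem_filter, mem_Ioo] at hp
      rw [mem_union, mem_image, mem_insert, mem_singleton]
      by_cases h : p ≤ N ^ 2 + 2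
      · right
        omega
      · left
        refine ⟨p - N ^ 2 - 1, ?_, by omega⟩
        rw [mem_filter, mem_Icc]
        refine ⟨by omega, ?_⟩
        rw [show N ^ 2 + (p - N ^ 2 - 1) + 1 = p by omega]
        exact hp.2
    have h2 := card_le_card h1
    have h3 := card_union_le (((Icc 2 (2 * N)).filter fun k => (N ^ 2 + k + 1).Prime).image fun k => N ^ 2 + k + 1)
      {N ^ 2 + 1, N ^ 2 + 2}
    have h4 := card_image_le (s := (Icc 2 (2 * N)).filter fun k => (N ^ 2 + k + 1).Prime) (f := fun k => N ^ 2 + k + 1)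
    have h5 : ({N ^ 2 + 1, N ^ 2 + 2} : Finset ℕ).card ≤ 2 := card_le_two
    have h6 : ((Ioo (N ^ 2) ((N + 1) ^ 2)).filter Nat.Prime).card ≤
      ((Icc 2 (2 * N)).filter fun k => (N ^ 2 + k + 1).Prime).card + 2 := by omega
    have h7 : (((Ioo (N ^ 2) ((N + 1) ^ 2)).filter Nat.Prime).card : ℝ) ≤
      ((Icc 2 (2 * N)).filter fun k => (N ^ 2 + k + 1).Prime).card + 2 := by exact_mod_cast h6
    linarith
  · have h1 : ((Icc 2 (2 * N)).filter fun k => (N ^ 2 + k + 1).Prime).card ≤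
        ((Ioo (N ^ 2) ((N + 1) ^ 2)).filter Nat.Prime).card := by
      apply card_le_card_of_injOn (fun k => N ^ 2 + k + 1)
      · intro k hk
        have hk' := mem_filter.1 hk
        have hk2 := mem_Icc.1 hk'.1
        apply mem_filter.2
        have h3 : k ≠ 2 * N := by
          intro h
          rw [h] at hk'
          exact hnp hk'.2
        refine ⟨mem_Ioo.2 ⟨?_, ?_⟩, hk'.2⟩
        · change N ^ 2 < N ^ 2 + k + 1
          omega
        · change N ^ 2 + k + 1 < (N + 1) ^ 2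
          rw [hsq]
          omega
      · intro a _ b _ hab
        simp only at hab
        omega
    exact_mod_cast h1

/-- Two numbers with the sum 2N^2+2N+2 between consecutive squares, both moved into the primes by flat families. -/
theorem reflect_all (hMAJ : S_MAJ1) (T U : ℕ) (ε : ℝ) (hε : 0 < ε) (hε1 : ε ≤ 1) :
    ∃ V C D X₀ : ℕ, ∀ X : ℕ, X₀ ≤ X →
    ∃ E : Finset ℕ, (E.card : ℝ) ≤ X / Real.log X ^ U ∧ ∀ N : ℕ, 1 ≤ N → N ≤ X → N ∉ E →
    ∀ (q q' : ℕ) [NeZero q] [NeZero q'], (X : ℝ) ^ (2 / 3 : ℝ) * Real.log X ^ C ≤ q → (q : ℝ) * Real.log X ^ D ≤ N →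
    (X : ℝ) ^ (2 / 3 : ℝ) * Real.log X ^ C ≤ q' → (q' : ℝ) * Real.log X ^ D ≤ N →
    ∀ {ι ι' : Type} (s : Finset ι) (y : ι → ZMod q) (t : Finset ι') (z : ι' → ZMod q'), s.Nonempty → t.Nonempty →
    Flat q (1 / Real.log X ^ V) s y → Flat q' (1 / Real.log X ^ V) t z →
    ∀ κ μ : ℤ, κ ≠ 0 → (κ.natAbs : ℝ) ≤ Real.log X ^ T → μ ≠ 0 → (μ.natAbs : ℝ) ≤ Real.log X ^ T →
      (∃ F : Finset ℕ, (F.card : ℝ) ≤ N / Real.log X ^ U ∧ ∀ k ∈ Icc 2 (2 * N), k ∉ F →
        IsCoprime ((N : ℤ) ^ 2 + k + 1) κ → IsCoprime (((N : ℤ) + 1) ^ 2 - k) μ →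
        |(near N ((N : ℤ) ^ 2 + k + 1) κ y s : ℝ) * near N (((N : ℤ) + 1) ^ 2 - k) μ z t - expd N κ s * expd N μ t| ≤
          ε * (expd N κ s * expd N μ t)) ∧
      (∀ K ⊆ Icc 2 (2 * N), (N : ℝ) / Real.log X ^ T ≤ K.card →
        (∀ k ∈ K, IsCoprime ((N : ℤ) ^ 2 + k + 1) κ ∧ IsCoprime (((N : ℤ) + 1) ^ 2 - k) μ) →
        |(∑ k ∈ K, (near N ((N : ℤ) ^ 2 + k + 1) κ y s : ℝ) * near N (((N : ℤ) + 1) ^ 2 - k) μ z t) -
          K.card * (expd N κ s * expd N μ t)| ≤ ε * (K.card * (expd N κ s * expd N μ t))) ∧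
      (μ.natAbs = 1 →
        |(∑ k ∈ (Icc 2 (2 * N)).filter (fun k => (N ^ 2 + k + 1).Prime), (near N (((N : ℤ) + 1) ^ 2 - k) μ z t : ℝ)) -
          t.card * (N / (2 * Real.log N ^ 2))| ≤ ε * (t.card * (N / (2 * Real.log N ^ 2)))) := by
  classical
  obtain ⟨V, C, D, X₀, h⟩ := pow_all hMAJ 1 (le_refl 1) (T + 1) (U + T + 5) (ε / 24) (by positivity) (by linarith)
  obtain ⟨X₁, hev⟩ := eventually_atTop.1 (((ev_log_ge (144 / ε)).and (ev_log_ge 3)).and
    (ev_log_pow (2 * U + 2 * T + 12) 1))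
  refine ⟨V, C, D, max (max X₀ X₁) 3, fun X hX => ?_⟩
  have hX0' : X₀ ≤ X := le_trans (le_trans (le_max_left _ _) (le_max_left _ _)) hX
  have hX1' : X₁ ≤ X := le_trans (le_trans (le_max_right _ _) (le_max_left _ _)) hX
  have hX3 : 3 ≤ X := le_trans (le_max_right _ _) hX
  obtain ⟨⟨l1, l2⟩, l3⟩ := hev X hX1'
  obtain ⟨E, hE, hE2⟩ := h X hX0'
  have hXr : (3 : ℝ) ≤ X := by exact_mod_cast hX3
  obtain ⟨L, hL⟩ : ∃ L, L = Real.log X := ⟨_, rfl⟩
  rw [← hL] at l1 l2 l3 hE hE2 ⊢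
  have hL0 : 0 < L := by linarith
  have hL1 : 1 ≤ L := by linarith
  refine ⟨E, hE.trans ?_, fun N hn1 hnX hnE q q' _ _ hq1 hq2 hq1' hq2' ι ι' s y t z hs ht hy hz κ μ hκ hκT hμ hμT => ?_⟩
  · apply div_le_div_of_nonneg_left (by linarith) (by positivity)
    exact pow_le_pow_right₀ hL1 (by omega)
  obtain ⟨⟨n1, n2⟩, n3, n4⟩ := hE2 N hn1 hnX hnE
  rw [pow_one] at n3
  have hn0 : (0 : ℝ) < N := by exact_mod_cast hn1
  have hln : Real.log N ≤ L := by
    rw [hL]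
    exact Real.log_le_log hn0 (by exact_mod_cast hnX)
  have hln0 : 0 < Real.log N := by linarith
  have hκT' : (κ.natAbs : ℝ) ≤ L ^ (T + 1) := hκT.trans (pow_le_pow_right₀ hL1 (by omega))
  have hμT' : (μ.natAbs : ℝ) ≤ L ^ (T + 1) := hμT.trans (pow_le_pow_right₀ hL1 (by omega))
  have e23 : (((1 + 1 : ℕ) : ℝ) / 3) = 2 / 3 := by norm_num
  have e11 : (((1 : ℕ) : ℝ) + 1) = 2 := by norm_num
  rw [e23] at n4
  obtain ⟨F₁, hF1, hF2⟩ := n4 q hq1 (by rw [pow_one]; exact hq2) s y hs hy κ hκ hκT'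
  obtain ⟨F₂, hG1, hG2⟩ := n4 q' hq1' (by rw [pow_one]; exact hq2') t z ht hz μ hμ hμT'
  rw [pow_one] at hF1 hG1
  rw [e11] at hF2 hG2
  have hsq : (N + 1) ^ 2 = N ^ 2 + 2 * N + 1 := by ring
  have hgκ := g_ge_one κ hκ
  have hgμ := g_ge_one μ hμ
  obtain ⟨F, hF⟩ : ∃ F : Finset ℕ, F = (Icc 2 (2 * N)).filter fun k => N ^ 2 + k + 1 ∈ F₁ ∨ (N + 1) ^ 2 - k ∈ F₂ ∨ k = 2 * N :=
    ⟨_, rfl⟩
  have hNL : L ^ (U + T + 5) ≤ N := by
    have h15 : L ^ (U + T + 5) * L ^ (U + T + 6) ≤ N * L ^ (U + T + 6) := by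
      calc L ^ (U + T + 5) * L ^ (U + T + 6) = 1 * L ^ (2 * U + 2 * T + 11) := by ring
        _ ≤ 1 * L ^ (2 * U + 2 * T + 12) := by
            rw [one_mul, one_mul]
            exact pow_le_pow_right₀ hL1 (by omega)
        _ ≤ X := l3
        _ ≤ N * L ^ (U + T + 5 + 1) := n1
        _ = N * L ^ (U + T + 6) := by ring
    exact le_of_mul_le_mul_right h15 (by positivity)
  have hFc : (F.card : ℝ) ≤ 3 * (N / L ^ (U + T + 5)) := by
    have h1 := exc_card N F₁ F₂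
    rw [← hF] at h1
    have h2 : 1 ≤ (N : ℝ) / L ^ (U + T + 5) := by
      rw [le_div_iff₀ (by positivity), one_mul]
      exact hNL
    linarith
  have hFc2 : (F.card : ℝ) ≤ N / L ^ (U + T + 4) := by
    refine hFc.trans ?_
    have e1 : L ^ (U + T + 5) = L ^ (U + T + 4) * L := by ring
    rw [e1, ← div_div, mul_div_assoc', div_le_iff₀ hL0]
    have : 0 ≤ (N : ℝ) / L ^ (U + T + 4) := by positivity
    nlinarith
  -- the two counts
  have c1 : ∀ k ∈ Icc 2 (2 * N), k ∉ F → IsCoprime ((N : ℤ) ^ 2 + k + 1) κ →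
      |(near N ((N : ℤ) ^ 2 + k + 1) κ y s : ℝ) - expd N κ s| ≤ ε / 24 * expd N κ s := by
    intro k hk hkF hc
    have hk2 := mem_Icc.1 hk
    have hkF' : N ^ 2 + k + 1 ∉ F₁ ∧ (N + 1) ^ 2 - k ∉ F₂ ∧ k ≠ 2 * N := by
      rw [hF, mem_filter] at hkF
      tauto
    have hm : N ^ 2 + k + 1 ∈ Ioo (N ^ (1 + 1)) ((N + 1) ^ (1 + 1)) := by
      rw [mem_Ioo]
      have h1 : N ^ (1 + 1) = N ^ 2 := rfl
      have h2 : (N + 1) ^ (1 + 1) = N ^ 2 + 2 * N + 1 := by ring
      rw [h1, h2]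
      omega
    obtain ⟨h3, h4⟩ := hF2 (N ^ 2 + k + 1) hm hkF'.1
    have e2 : (((N ^ 2 + k + 1 : ℕ)) : ℤ) = (N : ℤ) ^ 2 + k + 1 := by push_cast; ring
    rw [e2] at h3 h4
    have h5 := h4 hc
    rw [near, expd]
    have h6 : (s.filter fun i => ((N ^ 2 : ℕ) : ℤ) < (N : ℤ) ^ 2 + k + 1 + κ * ((y i).val : ℕ) ∧
      (N : ℤ) ^ 2 + k + 1 + κ * ((y i).val : ℕ) < (((N + 1) ^ 2 : ℕ) : ℤ) ∧
      ((N : ℤ) ^ 2 + k + 1 + κ * ((y i).val : ℕ)).toNat.Prime) =
      s.filter fun i => ((N : ℤ) ^ 2 + k + 1 + κ * ((y i).val : ℕ)).toNat.Prime := by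
      apply filter_congr
      intro i _
      constructor
      · exact fun h => h.2.2
      · exact fun h => ⟨(h3 i).1, (h3 i).2, h⟩
    rw [h6]
    exact h5
  have c2 : ∀ k ∈ Icc 2 (2 * N), k ∉ F → IsCoprime (((N : ℤ) + 1) ^ 2 - k) μ →
      |(near N (((N : ℤ) + 1) ^ 2 - k) μ z t : ℝ) - expd N μ t| ≤ ε / 24 * expd N μ t := by
    intro k hk hkF hc
    have hk2 := mem_Icc.1 hk
    have hkF' : N ^ 2 + k + 1 ∉ F₁ ∧ (N + 1) ^ 2 - k ∉ F₂ ∧ k ≠ 2 * N := by
      rw [hF, mem_filter] at hkF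
      tauto
    have hm : (N + 1) ^ 2 - k ∈ Ioo (N ^ (1 + 1)) ((N + 1) ^ (1 + 1)) := by
      rw [mem_Ioo]
      have h1 : N ^ (1 + 1) = N ^ 2 := rfl
      have h2 : (N + 1) ^ (1 + 1) = N ^ 2 + 2 * N + 1 := by ring
      rw [h1, h2]
      omega
    obtain ⟨h3, h4⟩ := hG2 ((N + 1) ^ 2 - k) hm hkF'.2.1
    have e2 : ((((N + 1) ^ 2 - k : ℕ)) : ℤ) = ((N : ℤ) + 1) ^ 2 - k := by
      rw [Nat.cast_sub (by rw [hsq]; omega)]
      push_cast
      ring
    rw [e2] at h3 h4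
    have h5 := h4 hc
    rw [near, expd]
    have h6 : (t.filter fun i => ((N ^ 2 : ℕ) : ℤ) < ((N : ℤ) + 1) ^ 2 - k + μ * ((z i).val : ℕ) ∧
      ((N : ℤ) + 1) ^ 2 - k + μ * ((z i).val : ℕ) < (((N + 1) ^ 2 : ℕ) : ℤ) ∧
      (((N : ℤ) + 1) ^ 2 - k + μ * ((z i).val : ℕ)).toNat.Prime) =
      t.filter fun i => (((N : ℤ) + 1) ^ 2 - k + μ * ((z i).val : ℕ)).toNat.Prime := by
      apply filter_congr
      intro i _
      constructor
      · exact fun h => h.2.2
      · exact fun h => ⟨(h3 i).1, (h3 i).2, h⟩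
    rw [h6]
    exact h5
  have hκe : 0 ≤ expd N κ s := expd_nonneg N κ s hln0
  have hμe : 0 ≤ expd N μ t := expd_nonneg N μ t hln0
  have b1 : (s.card : ℝ) ≤ expd N κ s * (2 * L) := card_le_expd N κ s L hκ hln0 hln
  have b2 : (t.card : ℝ) ≤ expd N μ t * (2 * L) := card_le_expd N μ t L hμ hln0 hln
  have h3δ : 3 * (ε / 24) = ε / 4 / 2 := by ring
  have both : ∀ k ∈ Icc 2 (2 * N), k ∉ F → IsCoprime ((N : ℤ) ^ 2 + k + 1) κ → IsCoprime (((N : ℤ) + 1) ^ 2 - k) μ →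
      |(near N ((N : ℤ) ^ 2 + k + 1) κ y s : ℝ) * near N (((N : ℤ) + 1) ^ 2 - k) μ z t - expd N κ s * expd N μ t| ≤
        ε / 4 / 2 * (expd N κ s * expd N μ t) := by
    intro k hk hkF hc1 hc2
    have := two_approx _ _ _ _ (ε / 24) (by positivity) (by linarith) (c1 k hk hkF hc1) (c2 k hk hkF hc2) hκe hμe
    rw [h3δ] at this
    exact this
  refine ⟨⟨F, hFc2.trans ?_, fun k hk hkF hc1 hc2 => (both k hk hkF hc1 hc2).trans ?_⟩, ?_, ?_⟩
  · apply div_le_div_of_nonneg_left hn0.le (by positivity)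
    exact pow_le_pow_right₀ hL1 (by omega)
  · apply mul_le_mul_of_nonneg_right (by linarith) (by positivity)
  · intro K hK hKT hc
    refine (sum_approx K F (fun k => (near N ((N : ℤ) ^ 2 + k + 1) κ y s : ℝ) * near N (((N : ℤ) + 1) ^ 2 - k) μ z t)
      (expd N κ s * expd N μ t) (s.card * t.card) (ε / 4) (by positivity) (by positivity) (by positivity) ?_ ?_ ?_).trans ?_
    · intro k hk
      refine ⟨by positivity, ?_⟩
      exact mul_le_mul (near_le _ _ _ _ _) (near_le _ _ _ _ _) (Nat.cast_nonneg _) (Nat.cast_nonneg _)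
    · intro k hk hkF
      exact both k (hK hk) hkF (hc k hk).1 (hc k hk).2
    · obtain ⟨R, hR⟩ : ∃ R : ℝ, R = expd N κ s * expd N μ t := ⟨_, rfl⟩
      have hR0 : 0 ≤ R := by rw [hR]; positivity
      have e4 : (s.card : ℝ) * t.card ≤ R * (4 * L ^ 2) := by
        calc (s.card : ℝ) * t.card ≤ (expd N κ s * (2 * L)) * (expd N μ t * (2 * L)) :=
              mul_le_mul b1 b2 (Nat.cast_nonneg _) (by positivity)
          _ = R * (4 * L ^ 2) := by rw [hR]; ring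
      rw [← hR]
      have e5 : (s.card : ℝ) * t.card + R ≤ R * (5 * L ^ 2) := by
        have : R ≤ R * L ^ 2 := le_mul_of_one_le_right hR0 (one_le_pow₀ hL1)
        linarith
      calc (F.card : ℝ) * (s.card * t.card + R) ≤ (N / L ^ (U + T + 4)) * (R * (5 * L ^ 2)) :=
            mul_le_mul hFc2 e5 (by positivity) (by positivity)
        _ ≤ (N / L ^ (T + 3)) * (R * (5 * L ^ 2)) := by
            apply mul_le_mul_of_nonneg_right _ (by positivity)
            apply div_le_div_of_nonneg_left hn0.le (by positivity)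
            exact pow_le_pow_right₀ hL1 (by omega)
        _ = (N / L ^ T) * R * (5 / L) := by
            have : L ^ (T + 3) = L ^ T * L ^ 2 * L := by ring
            rw [this]
            field_simp
        _ ≤ (K.card : ℝ) * R * (ε / 8) := by
            apply mul_le_mul _ _ (by positivity) (by positivity)
            · exact mul_le_mul_of_nonneg_right hKT hR0
            · rw [div_le_iff₀ hL0]
              rw [div_le_iff₀ hε] at l1
              linarith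
        _ = ε / 4 / 2 * (K.card * R) := by ring
    · apply mul_le_mul_of_nonneg_right (by linarith) (by positivity)
  · intro hμ1
    obtain ⟨K, hK⟩ : ∃ K : Finset ℕ, K = (Icc 2 (2 * N)).filter (fun k => Nat.Prime (N ^ 2 + k + 1)) := ⟨_, rfl⟩
    rw [← hK]
    obtain ⟨Q, hQ⟩ : ∃ Q : ℝ, Q = N / Real.log N := ⟨_, rfl⟩
    have hQ0 : 0 < Q := by rw [hQ]; positivity
    obtain ⟨p1, p2⟩ := primes_k N hn1
    rw [← hK] at p1 p2
    rw [← hQ] at n3
    have n3' := abs_le.1 n3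
    have hQ2 : 2 ≤ ε / 24 * Q := by
      have h1 : (N : ℝ) / L ≤ Q := by
        rw [hQ]
        exact div_le_div_of_nonneg_left hn0.le hln0 hln
      have h2 : L ≤ N / L := by
        rw [le_div_iff₀ hL0]
        calc L * L = L ^ 2 := (sq L).symm
          _ ≤ L ^ (U + T + 5) := pow_le_pow_right₀ hL1 (by omega)
          _ ≤ N := hNL
      rw [div_le_iff₀ hε] at l1
      have h3 : ε / 24 * L ≤ ε / 24 * Q := mul_le_mul_of_nonneg_left (by linarith) (by positivity)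
      linarith
    have hKc : |(K.card : ℝ) - Q| ≤ ε / 12 * Q := by
      have n3a : (((Ioo (N ^ 2) ((N + 1) ^ 2)).filter Nat.Prime).card : ℝ) ≤ Q + ε / 24 * Q := by
        have := n3'.2
        have e6 : (((Ioo (N ^ (1 + 1)) ((N + 1) ^ (1 + 1))).filter Nat.Prime).card : ℝ) =
          (((Ioo (N ^ 2) ((N + 1) ^ 2)).filter Nat.Prime).card : ℝ) := rfl
        rw [e6] at this
        linarith
      have n3b : Q - ε / 24 * Q ≤ (((Ioo (N ^ 2) ((N + 1) ^ 2)).filter Nat.Prime).card : ℝ) := by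
        have := n3'.1
        have e6 : (((Ioo (N ^ (1 + 1)) ((N + 1) ^ (1 + 1))).filter Nat.Prime).card : ℝ) =
          (((Ioo (N ^ 2) ((N + 1) ^ 2)).filter Nat.Prime).card : ℝ) := rfl
        rw [e6] at this
        linarith
      rw [abs_le]
      constructor <;> linarith
    have hcop : ∀ a : ℤ, IsCoprime a μ := by
      intro a
      rw [Int.isCoprime_iff_gcd_eq_one, Int.gcd_def, hμ1]
      simp
    have he : expd N μ t = t.card / (2 * Real.log N) := by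
      rw [expd, hμ1]
      simp
    have hKQ : N / L ^ 2 ≤ K.card := by
      have h1 := (abs_le.1 hKc).1
      have h2 : (N : ℝ) / L ≤ Q := by
        rw [hQ]
        exact div_le_div_of_nonneg_left hn0.le hln0 hln
      have h3 : (N : ℝ) / L ^ 2 ≤ N / L / 3 := by
        rw [div_div]
        apply div_le_div_of_nonneg_left hn0.le (by positivity)
        nlinarith
      have h4 : 0 ≤ (N : ℝ) / L := by positivity
      nlinarith
    have hs := sum_approx K F (fun k => (near N (((N : ℤ) + 1) ^ 2 - k) μ z t : ℝ))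
      (expd N μ t) t.card (ε / 4) (by positivity) hμe (by positivity) (fun k hk => ⟨by positivity, near_le _ _ _ _ _⟩)
      (fun k hk hkF => by
        have hk' : k ∈ Icc 2 (2 * N) := by
          rw [hK] at hk
          exact (mem_filter.1 hk).1
        refine (c2 k hk' hkF (hcop _)).trans ?_
        exact mul_le_mul_of_nonneg_right (by linarith) hμe) (by
        have e5 : (t.card : ℝ) + expd N μ t ≤ expd N μ t * (3 * L) := by nlinarith
        calc (F.card : ℝ) * (t.card + expd N μ t) ≤ (N / L ^ (U + T + 4)) * (expd N μ t * (3 * L)) :=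
              mul_le_mul hFc2 e5 (by positivity) (by positivity)
          _ ≤ (N / L ^ 4) * (expd N μ t * (3 * L)) := by
              apply mul_le_mul_of_nonneg_right _ (by positivity)
              apply div_le_div_of_nonneg_left hn0.le (by positivity)
              exact pow_le_pow_right₀ hL1 (by omega)
          _ = (N / L ^ 2) * expd N μ t * (3 / L) := by
              field_simp
          _ ≤ (K.card : ℝ) * expd N μ t * (ε / 8) := by
              apply mul_le_mul _ _ (by positivity) (by positivity)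
              · exact mul_le_mul_of_nonneg_right hKQ hμe
              · rw [div_le_iff₀ hL0]
                rw [div_le_iff₀ hε] at l1
                linarith
          _ = ε / 4 / 2 * (K.card * expd N μ t) := by ring)
    obtain ⟨R, hR⟩ : ∃ R : ℝ, R = expd N μ t := ⟨_, rfl⟩
    have e7 : (t.card : ℝ) * (N / (2 * Real.log N ^ 2)) = Q * R := by
      rw [hR, he, hQ]
      field_simp
    rw [e7]
    rw [← hR] at hs hμe
    have h5 := abs_le.1 hs
    have hKc' := abs_le.1 hKc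
    have h6 : R * K.card ≤ R * ((1 + ε / 12) * Q) := mul_le_mul_of_nonneg_left (by linarith) hμe
    have h7 : R * ((1 - ε / 12) * Q) ≤ R * K.card := mul_le_mul_of_nonneg_left (by linarith) hμe
    have h8 : 0 ≤ R * Q := by positivity
    have h9 : ε * ε * (R * Q) ≤ ε * (R * Q) := by
      apply mul_le_mul_of_nonneg_right _ h8
      nlinarith
    have h10 : ε / 4 * (R * K.card) ≤ ε / 4 * (R * ((1 + ε / 12) * Q)) := mul_le_mul_of_nonneg_left h6 (by positivity)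
    rw [abs_le]
    constructor
    · nlinarith [h5.1]
    · nlinarith [h5.2]

end Run7.h337.MK
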