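import Mathlib
import Pool.Agent.Run7.h337.MK.Pairs

/-!
# Project MK, piece LOC (helper337), part 8: tuples of primes between consecutive powers
-/

set_option autoImplicit false

namespace Run7.h337.MK

open Finset Filter
open Pool.Agent.Run7.h794.MK
open Pool.Agent.N384.MQ (Flat ev_log_pow ev_log_ge)

/-- The number of the (m, i_1, .., i_r) with m in P and i_j in s_j for which all m + kappa_j y_j(i_j) are primes
strictly between a and b. -/
noncomputable def tupleCount {r : ℕ} {ι : Fin r → Type} {q : Fin r → ℕ} (a b : ℕ) (κ : Fin r → ℤ)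
    (y : ∀ j, ι j → ZMod (q j)) (s : ∀ j, Finset (ι j)) (P : Finset ℕ) : ℕ :=
  ∑ m ∈ P, ((Fintype.piFinset s).filter fun i => ∀ j, (a : ℤ) < (m : ℤ) + κ j * ((y j (i j)).val : ℕ) ∧
    (m : ℤ) + κ j * ((y j (i j)).val : ℕ) < b ∧ ((m : ℤ) + κ j * ((y j (i j)).val : ℕ)).toNat.Prime).card

lemma tuple_prod {r : ℕ} {ι : Fin r → Type} {q : Fin r → ℕ} (a b : ℕ) (κ : Fin r → ℤ)
    (y : ∀ j, ι j → ZMod (q j)) (s : ∀ j, Finset (ι j)) (m : ℕ) :
    ((Fintype.piFinset s).filter fun i => ∀ j, (a : ℤ) < (m : ℤ) + κ j * ((y j (i j)).val : ℕ) ∧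
    (m : ℤ) + κ j * ((y j (i j)).val : ℕ) < b ∧ ((m : ℤ) + κ j * ((y j (i j)).val : ℕ)).toNat.Prime).card =
    ∏ j, ((s j).filter fun i => (a : ℤ) < (m : ℤ) + κ j * ((y j i).val : ℕ) ∧
    (m : ℤ) + κ j * ((y j i).val : ℕ) < b ∧ ((m : ℤ) + κ j * ((y j i).val : ℕ)).toNat.Prime).card := by
  classical
  rw [← Fintype.card_piFinset]
  congr 1
  ext f
  simp only [mem_filter, Fintype.mem_piFinset]
  constructor
  · exact fun h j => ⟨h.1 j, h.2 j⟩
  · exact fun h => ⟨fun j => (h j).1, fun j => (h j).2⟩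

lemma prod_approx {r : ℕ} (x G : Fin r → ℝ) (δ η : ℝ) (hδ : 0 ≤ δ) (hδ1 : δ ≤ 1) (hG : ∀ j, 0 ≤ G j)
    (h1 : (1 + δ) ^ r ≤ 1 + η) (h2 : 1 - η ≤ (1 - δ) ^ r) (h : ∀ j, |x j - G j| ≤ δ * G j) :
    |∏ j, x j - ∏ j, G j| ≤ η * ∏ j, G j := by
  have hP : 0 ≤ ∏ j, G j := prod_nonneg fun j _ => hG j
  have hx : ∀ j, (1 - δ) * G j ≤ x j ∧ x j ≤ (1 + δ) * G j := fun j => by
    have := abs_le.1 (h j)
    constructor <;> linarith [this.1, this.2]
  have h3 : ∏ j, x j ≤ (1 + δ) ^ r * ∏ j, G j := by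
    calc ∏ j, x j ≤ ∏ j, ((1 + δ) * G j) := by
          apply Finset.prod_le_prod
          · intro j _
            exact le_trans (mul_nonneg (by linarith) (hG j)) (hx j).1
          · intro j _
            exact (hx j).2
      _ = (1 + δ) ^ r * ∏ j, G j := by
          rw [prod_mul_distrib, prod_const, card_univ, Fintype.card_fin]
  have h4 : (1 - δ) ^ r * ∏ j, G j ≤ ∏ j, x j := by
    calc (1 - δ) ^ r * ∏ j, G j = ∏ j, ((1 - δ) * G j) := by
          rw [prod_mul_distrib, prod_const, card_univ, Fintype.card_fin]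
      _ ≤ ∏ j, x j := by
          apply Finset.prod_le_prod
          · intro j _
            exact mul_nonneg (by linarith) (hG j)
          · intro j _
            exact (hx j).1
  have h5 : (1 + δ) ^ r * ∏ j, G j ≤ (1 + η) * ∏ j, G j := mul_le_mul_of_nonneg_right h1 hP
  have h6 : (1 - η) * ∏ j, G j ≤ (1 - δ) ^ r * ∏ j, G j := mul_le_mul_of_nonneg_right h2 hP
  rw [abs_le]
  constructor <;> linarith

lemma delta_exists (r : ℕ) (η : ℝ) (hη : 0 < η) : ∃ δ : ℝ, 0 < δ ∧ δ ≤ 1 ∧ (1 + δ) ^ r ≤ 1 + η ∧ 1 - η ≤ (1 - δ) ^ r := by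
  have h1 : Tendsto (fun δ : ℝ => (1 + δ) ^ r) (nhds 0) (nhds ((1 + 0) ^ r)) :=
    (continuous_const.add continuous_id).pow r |>.tendsto 0
  have h2 : Tendsto (fun δ : ℝ => (1 - δ) ^ r) (nhds 0) (nhds ((1 - 0) ^ r)) :=
    (continuous_const.sub continuous_id).pow r |>.tendsto 0
  rw [add_zero, one_pow] at h1
  rw [sub_zero, one_pow] at h2
  have h3 := h1.eventually (gt_mem_nhds (show (1 : ℝ) < 1 + η by linarith))
  have h4 := h2.eventually (lt_mem_nhds (show 1 - η < (1 : ℝ) by linarith))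
  obtain ⟨ρ, hρ, h5⟩ := Metric.eventually_nhds_iff.1 (h3.and h4)
  have h6 := @h5 (min (ρ / 2) 1) (by
    rw [Real.dist_eq, sub_zero, abs_of_pos (by positivity)]
    exact lt_of_le_of_lt (min_le_left _ _) (by linarith))
  exact ⟨min (ρ / 2) 1, by positivity, min_le_right _ _, h6.1.le, h6.2.le⟩

lemma tuples_of {r : ℕ} {ι : Fin r → Type} {q : Fin r → ℕ} (a b : ℕ) (κ : Fin r → ℤ)
    (y : ∀ j, ι j → ZMod (q j)) (s : ∀ j, Finset (ι j)) (P : Finset ℕ) (F : Fin r → Finset ℕ) (g : Fin r → ℝ)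
    (L δ ε : ℝ) (hL : 0 < L) (hg : ∀ j, 0 ≤ g j) (hε : 0 < ε) (hδ : 0 ≤ δ) (hδ1 : δ ≤ 1)
    (h1 : (1 + δ) ^ r ≤ 1 + ε / 2) (h2 : 1 - ε / 2 ≤ (1 - δ) ^ r)
    (hPI : P ⊆ Ioo a b) (hP : ∀ m ∈ P, ∀ j, IsCoprime (m : ℤ) (κ j))
    (hF : ∀ j, ∀ m ∈ Ioo a b, m ∉ F j →
        (∀ i, (a : ℤ) < m + κ j * ((y j i).val : ℕ) ∧ m + κ j * ((y j i).val : ℕ) < (b : ℤ)) ∧
        (IsCoprime (m : ℤ) (κ j) →
        |(((s j).filter fun i => ((m : ℤ) + κ j * ((y j i).val : ℕ)).toNat.Prime).card : ℝ) - g j * ((s j).card / L)| ≤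
          δ * (g j * ((s j).card / L))))
    (hFc : (∑ j, ((F j).card : ℝ)) * (1 + ∏ j, (g j / L)) ≤ ε / 2 * (P.card * ∏ j, (g j / L))) :
    |(tupleCount a b κ y s P : ℝ) - P.card * ∏ j, (g j * ((s j).card / L))| ≤
      ε * (P.card * ∏ j, (g j * ((s j).card / L))) := by
  classical
  obtain ⟨G, hG⟩ : ∃ G : ℝ, G = ∏ j, (g j * ((s j).card / L)) := ⟨_, rfl⟩
  obtain ⟨S, hS⟩ : ∃ S : ℝ, S = ∏ j, ((s j).card : ℝ) := ⟨_, rfl⟩
  obtain ⟨K, hK⟩ : ∃ K : ℝ, K = ∏ j, (g j / L) := ⟨_, rfl⟩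
  rw [← hK] at hFc
  have hGSK : G = S * K := by
    rw [hG, hS, hK, ← prod_mul_distrib]
    refine prod_congr rfl fun j _ => ?_
    ring
  have hG0 : 0 ≤ G := by
    rw [hG]
    exact prod_nonneg fun j _ => mul_nonneg (hg j) (div_nonneg (Nat.cast_nonneg _) hL.le)
  have hS0 : 0 ≤ S := by
    rw [hS]
    exact prod_nonneg fun j _ => Nat.cast_nonneg _
  rw [← hG, tupleCount]
  push_cast
  have e1 : (P.card : ℝ) * G = ∑ m ∈ P, G := by rw [sum_const, nsmul_eq_mul]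
  obtain ⟨F', hF'⟩ : ∃ F' : Finset ℕ, F' = univ.biUnion F := ⟨_, rfl⟩
  have hFcard : (F'.card : ℝ) ≤ ∑ j, ((F j).card : ℝ) := by
    rw [hF']
    exact_mod_cast card_biUnion_le
  have e2 : ∀ m ∈ P, |((((Fintype.piFinset s).filter fun i => ∀ j, (a : ℤ) < (m : ℤ) + κ j * ((y j (i j)).val : ℕ) ∧
    (m : ℤ) + κ j * ((y j (i j)).val : ℕ) < b ∧ ((m : ℤ) + κ j * ((y j (i j)).val : ℕ)).toNat.Prime).card : ℕ) : ℝ) - G| ≤
      ε / 2 * G + (if m ∈ F' then S + G else 0) := by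
    intro m hm
    by_cases hmF : m ∈ F'
    · rw [if_pos hmF]
      have h3 : ((((Fintype.piFinset s).filter fun i => ∀ j, (a : ℤ) < (m : ℤ) + κ j * ((y j (i j)).val : ℕ) ∧
        (m : ℤ) + κ j * ((y j (i j)).val : ℕ) < b ∧ ((m : ℤ) + κ j * ((y j (i j)).val : ℕ)).toNat.Prime).card : ℕ) : ℝ) ≤
          S := by
        have h4 : ((((Fintype.piFinset s).filter fun i => ∀ j, (a : ℤ) < (m : ℤ) + κ j * ((y j (i j)).val : ℕ) ∧
        (m : ℤ) + κ j * ((y j (i j)).val : ℕ) < b ∧ ((m : ℤ) + κ j * ((y j (i j)).val : ℕ)).toNat.Prime).card : ℕ) : ℝ) ≤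
          ((Fintype.piFinset s).card : ℝ) := by exact_mod_cast card_filter_le _ _
        rw [Fintype.card_piFinset] at h4
        rw [hS]
        exact_mod_cast h4
      have h5 : (0 : ℝ) ≤ ((((Fintype.piFinset s).filter fun i => ∀ j, (a : ℤ) < (m : ℤ) + κ j * ((y j (i j)).val : ℕ) ∧
        (m : ℤ) + κ j * ((y j (i j)).val : ℕ) < b ∧ ((m : ℤ) + κ j * ((y j (i j)).val : ℕ)).toNat.Prime).card : ℕ) : ℝ) :=
        Nat.cast_nonneg _
      have h6 : 0 ≤ ε / 2 * G := by positivity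
      rw [abs_le]
      constructor <;> linarith
    · rw [if_neg hmF, add_zero, tuple_prod]
      push_cast
      rw [hG]
      apply prod_approx _ _ δ (ε / 2) hδ hδ1 (fun j => mul_nonneg (hg j) (div_nonneg (Nat.cast_nonneg _) hL.le)) h1 h2
      intro j
      have hmFj : m ∉ F j := by
        intro h
        apply hmF
        rw [hF']
        exact mem_biUnion.2 ⟨j, mem_univ _, h⟩
      obtain ⟨h3, h4⟩ := hF j m (hPI hm) hmFj
      have h5 : ((s j).filter fun i => (a : ℤ) < (m : ℤ) + κ j * ((y j i).val : ℕ) ∧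
        (m : ℤ) + κ j * ((y j i).val : ℕ) < b ∧ ((m : ℤ) + κ j * ((y j i).val : ℕ)).toNat.Prime) =
        (s j).filter fun i => ((m : ℤ) + κ j * ((y j i).val : ℕ)).toNat.Prime := by
        apply filter_congr
        intro i _
        constructor
        · exact fun h => h.2.2
        · exact fun h => ⟨(h3 i).1, (h3 i).2, h⟩
      rw [h5]
      exact h4 (hP m hm j)
  rw [e1, ← sum_sub_distrib]
  have h6 : ∑ m ∈ P, (if m ∈ F' then S + G else 0) ≤ F'.card * (S + G) := by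
    rw [← sum_filter, sum_const, nsmul_eq_mul]
    apply mul_le_mul_of_nonneg_right _ (by positivity)
    have : (P.filter fun m => m ∈ F').card ≤ F'.card := by
      apply card_le_card
      intro m hm
      exact (mem_filter.1 hm).2
    exact_mod_cast this
  have h7 : (F'.card : ℝ) * (S + G) ≤ ε / 2 * (P.card * G) := by
    calc (F'.card : ℝ) * (S + G) = S * (F'.card * (1 + K)) := by rw [hGSK]; ring
      _ ≤ S * ((∑ j, ((F j).card : ℝ)) * (1 + K)) := by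
          apply mul_le_mul_of_nonneg_left _ hS0
          apply mul_le_mul_of_nonneg_right hFcard
          have : 0 ≤ K := by
            rw [hK]
            exact prod_nonneg fun j _ => div_nonneg (hg j) hL.le
          linarith
      _ ≤ S * (ε / 2 * (P.card * K)) := mul_le_mul_of_nonneg_left hFc hS0
      _ = ε / 2 * (P.card * G) := by rw [hGSK]; ring
  calc |∑ m ∈ P, (((((Fintype.piFinset s).filter fun i => ∀ j, (a : ℤ) < (m : ℤ) + κ j * ((y j (i j)).val : ℕ) ∧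
    (m : ℤ) + κ j * ((y j (i j)).val : ℕ) < b ∧ ((m : ℤ) + κ j * ((y j (i j)).val : ℕ)).toNat.Prime).card : ℕ) : ℝ) - G)|
      ≤ ∑ m ∈ P, |((((Fintype.piFinset s).filter fun i => ∀ j, (a : ℤ) < (m : ℤ) + κ j * ((y j (i j)).val : ℕ) ∧
    (m : ℤ) + κ j * ((y j (i j)).val : ℕ) < b ∧ ((m : ℤ) + κ j * ((y j (i j)).val : ℕ)).toNat.Prime).card : ℕ) : ℝ) - G| :=
        abs_sum_le_sum_abs _ _
    _ ≤ ∑ m ∈ P, (ε / 2 * G + (if m ∈ F' then S + G else 0)) := sum_le_sum e2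
    _ = ε / 2 * (P.card * G) + ∑ m ∈ P, (if m ∈ F' then S + G else 0) := by
        rw [sum_add_distrib, sum_const, nsmul_eq_mul]
        ring
    _ ≤ ε / 2 * (P.card * G) + ε / 2 * (P.card * G) := by linarith
    _ = ε * (∑ m ∈ P, G) := by
        rw [sum_const, nsmul_eq_mul]
        ring

/-- Tuples between consecutive powers: for almost all m, for the m of any set, and for all prime m. -/
theorem pow_tuples (hMAJ : S_MAJ1) (d : ℕ) (hd : 1 ≤ d) (r T U : ℕ) (ε : ℝ) (hε : 0 < ε) (hε1 : ε ≤ 1) :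
    ∃ V C D X₀ : ℕ, ∀ X : ℕ, X₀ ≤ X →
    ∃ E : Finset ℕ, (E.card : ℝ) ≤ X / Real.log X ^ U ∧ ∀ n : ℕ, 1 ≤ n → n ≤ X → n ∉ E →
    ∀ (q : Fin r → ℕ) [∀ j, NeZero (q j)],
    (∀ j, (X : ℝ) ^ (((d + 1 : ℕ) : ℝ) / 3) * Real.log X ^ C ≤ q j ∧ (q j : ℝ) * Real.log X ^ D ≤ (n : ℝ) ^ d) →
    ∀ {ι : Fin r → Type} (s : ∀ j, Finset (ι j)) (y : ∀ j, ι j → ZMod (q j)),
    (∀ j, (s j).Nonempty ∧ Flat (q j) (1 / Real.log X ^ V) (s j) (y j)) →
    ∀ κ : Fin r → ℤ, (∀ j, κ j ≠ 0 ∧ ((κ j).natAbs : ℝ) ≤ Real.log X ^ T) →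
      (∃ F : Finset ℕ, (F.card : ℝ) ≤ (n : ℝ) ^ d / Real.log X ^ U ∧
        ∀ m ∈ Ioo (n ^ (d + 1)) ((n + 1) ^ (d + 1)), m ∉ F → (∀ j, IsCoprime (m : ℤ) (κ j)) →
        |(tupleCount (n ^ (d + 1)) ((n + 1) ^ (d + 1)) κ y s {m} : ℝ) -
          ∏ j, ((κ j).natAbs / (Nat.totient (κ j).natAbs : ℝ) * ((s j).card / ((d + 1) * Real.log n)))| ≤
          ε * ∏ j, ((κ j).natAbs / (Nat.totient (κ j).natAbs : ℝ) * ((s j).card / ((d + 1) * Real.log n)))) ∧
      (∀ P ⊆ Ioo (n ^ (d + 1)) ((n + 1) ^ (d + 1)), (∀ m ∈ P, ∀ j, IsCoprime (m : ℤ) (κ j)) →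
        (n : ℝ) ^ d / Real.log X ^ T ≤ P.card →
        |(tupleCount (n ^ (d + 1)) ((n + 1) ^ (d + 1)) κ y s P : ℝ) -
          P.card * ∏ j, ((κ j).natAbs / (Nat.totient (κ j).natAbs : ℝ) * ((s j).card / ((d + 1) * Real.log n)))| ≤
          ε * (P.card * ∏ j, ((κ j).natAbs / (Nat.totient (κ j).natAbs : ℝ) * ((s j).card / ((d + 1) * Real.log n))))) ∧
      |(tupleCount (n ^ (d + 1)) ((n + 1) ^ (d + 1)) κ y s (primesBetween (n ^ (d + 1)) ((n + 1) ^ (d + 1))) : ℝ) -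
          (n : ℝ) ^ d / Real.log n *
          ∏ j, ((κ j).natAbs / (Nat.totient (κ j).natAbs : ℝ) * ((s j).card / ((d + 1) * Real.log n)))| ≤
          ε * ((n : ℝ) ^ d / Real.log n *
          ∏ j, ((κ j).natAbs / (Nat.totient (κ j).natAbs : ℝ) * ((s j).card / ((d + 1) * Real.log n)))) := by
  classical
  obtain ⟨δ₀, hδ₀, hδ₀1, hδ₀2, hδ₀3⟩ := delta_exists r (ε / 4) (by positivity)
  obtain ⟨δ, hδeq⟩ : ∃ δ : ℝ, δ = min δ₀ (ε / 4) := ⟨_, rfl⟩
  have hδ : 0 < δ := by rw [hδeq]; positivity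
  have hδ1 : δ ≤ 1 := by rw [hδeq]; exact (min_le_left _ _).trans hδ₀1
  have hδε : δ ≤ ε / 4 := by rw [hδeq]; exact min_le_right _ _
  have hδδ : δ ≤ δ₀ := by rw [hδeq]; exact min_le_left _ _
  have hδ2 : (1 + δ) ^ r ≤ 1 + ε / 4 := (pow_le_pow_left₀ (by linarith) (by linarith) r).trans hδ₀2
  have hδ3 : 1 - ε / 4 ≤ (1 - δ) ^ r := hδ₀3.trans (pow_le_pow_left₀ (by linarith) (by linarith) r)
  obtain ⟨V, C, D, X₀, h⟩ := pow_all hMAJ d hd (T + 1) (U + T + r + 4) δ hδ hδ1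
  obtain ⟨X₁, hev⟩ := eventually_atTop.1 (((ev_log_ge (8 * r * ((d : ℝ) + 1) ^ r / ε)).and (ev_log_ge (2 + r))).and
    (ev_log_pow (U + 2 * T + r + 6) 1))
  refine ⟨V, C, D, max (max X₀ X₁) 3, fun X hX => ?_⟩
  have hX0' : X₀ ≤ X := le_trans (le_trans (le_max_left _ _) (le_max_left _ _)) hX
  have hX1' : X₁ ≤ X := le_trans (le_trans (le_max_right _ _) (le_max_left _ _)) hX
  have hX3 : 3 ≤ X := le_trans (le_max_right _ _) hX
  obtain ⟨⟨l1, l2⟩, l3⟩ := hev X hX1'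
  obtain ⟨E, hE, hE2⟩ := h X hX0'
  have hXr : (3 : ℝ) ≤ X := by exact_mod_cast hX3
  obtain ⟨L, hL⟩ : ∃ L, L = Real.log X := ⟨_, rfl⟩
  rw [← hL] at l1 l2 l3 hE hE2 ⊢
  have hr0 : (0 : ℝ) ≤ r := Nat.cast_nonneg _
  have hL0 : 0 < L := by linarith
  have hL1 : 1 ≤ L := by linarith
  have hL2 : 2 ≤ L := by linarith
  refine ⟨E, hE.trans ?_, fun n hn1 hnX hnE q _ hq ι s y hsy κ hκ => ?_⟩
  · apply div_le_div_of_nonneg_left (by linarith) (by positivity)
    exact pow_le_pow_right₀ hL1 (by omega)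
  obtain ⟨⟨n1, n2⟩, n3, n4⟩ := hE2 n hn1 hnX hnE
  have hn0 : (0 : ℝ) < n := by exact_mod_cast hn1
  have hln : Real.log n ≤ L := by
    rw [hL]
    exact Real.log_le_log hn0 (by exact_mod_cast hnX)
  have hln0 : 0 < Real.log n := by linarith
  have hd0 : (0 : ℝ) ≤ d := Nat.cast_nonneg _
  have hκT' : ∀ j, ((κ j).natAbs : ℝ) ≤ L ^ (T + 1) := fun j => (hκ j).2.trans (pow_le_pow_right₀ hL1 (by omega))
  choose F hF1 hF2 using fun j => n4 (q j) (hq j).1 (hq j).2 (s j) (y j) (hsy j).1 (hsy j).2 (κ j) (hκ j).1 (hκT' j)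
  obtain ⟨g, hg⟩ : ∃ g : Fin r → ℝ, g = fun j => (κ j).natAbs / (Nat.totient (κ j).natAbs : ℝ) := ⟨_, rfl⟩
  have hgj : ∀ j, (κ j).natAbs / (Nat.totient (κ j).natAbs : ℝ) = g j := fun j => by rw [hg]
  have hg1 : ∀ j, 1 ≤ g j := fun j => by
    rw [← hgj j]
    exact g_ge_one (κ j) (hκ j).1
  obtain ⟨M, hM⟩ : ∃ M : ℝ, M = (d + 1) * Real.log n := ⟨_, rfl⟩
  simp only [hgj, ← hM] at hF2 ⊢
  have hg0 : ∀ j, 0 ≤ g j := fun j => by linarith [hg1 j]
  have hM0 : 0 < M := by rw [hM]; positivity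
  have hM1 : 1 ≤ M := by
    rw [hM]
    nlinarith
  have hML : M ≤ (d + 1) * L := by
    rw [hM]
    exact mul_le_mul_of_nonneg_left hln (by positivity)
  obtain ⟨K, hK⟩ : ∃ K : ℝ, K = ∏ j, (g j / M) := ⟨_, rfl⟩
  have hK1 : 1 ≤ K * ((d + 1) * L) ^ r := by
    have e1 : ∏ j : Fin r, (1 / M) ≤ K := by
      rw [hK]
      apply Finset.prod_le_prod
      · intro j _
        positivity
      · intro j _
        exact div_le_div_of_nonneg_right (hg1 j) hM0.le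
    rw [prod_const, card_univ, Fintype.card_fin] at e1
    have e2 : (1 / M) ^ r * M ^ r = 1 := by
      rw [← mul_pow]
      rw [one_div_mul_cancel hM0.ne', one_pow]
    calc (1 : ℝ) = (1 / M) ^ r * M ^ r := e2.symm
      _ ≤ K * ((d + 1) * L) ^ r := by
          apply mul_le_mul e1 (pow_le_pow_left₀ hM0.le hML r) (by positivity)
          exact le_trans (by positivity) e1
  have hK0 : 0 ≤ K := by
    rw [hK]
    exact prod_nonneg fun j _ => div_nonneg (hg0 j) hM0.le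
  have hnd : (0 : ℝ) < (n : ℝ) ^ d := by positivity
  have hFs : ∑ j, ((F j).card : ℝ) ≤ r * ((n : ℝ) ^ d / L ^ (U + T + r + 4)) := by
    calc ∑ j, ((F j).card : ℝ) ≤ ∑ j : Fin r, ((n : ℝ) ^ d / L ^ (U + T + r + 4)) := sum_le_sum fun j _ => hF1 j
      _ = r * ((n : ℝ) ^ d / L ^ (U + T + r + 4)) := by
          rw [sum_const, card_univ, Fintype.card_fin, nsmul_eq_mul]
  -- the bound for exceptional m
  have hFc : ∀ P : Finset ℕ, (n : ℝ) ^ d / L ^ (T + 2) ≤ P.card →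
      (∑ j, ((F j).card : ℝ)) * (1 + K) ≤ ε / 2 / 2 * (P.card * K) := by
    intro P hP
    have e3 : 1 + K ≤ K * (2 * ((d + 1) * L) ^ r) := by
      have : K ≤ K * ((d + 1) * L) ^ r := by
        apply le_mul_of_one_le_right hK0
        apply one_le_pow₀
        nlinarith
      linarith
    have e4 : (n : ℝ) ^ d / L ^ (U + T + r + 4) ≤ (n : ℝ) ^ d / L ^ (T + r + 3) := by
      apply div_le_div_of_nonneg_left hnd.le (by positivity)
      exact pow_le_pow_right₀ hL1 (by omega)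
    have e5 : r * (2 * ((d : ℝ) + 1) ^ r) / L ≤ ε / 4 := by
      rw [div_le_iff₀ hL0]
      rw [div_le_iff₀ hε] at l1
      linarith
    calc (∑ j, ((F j).card : ℝ)) * (1 + K)
        ≤ (r * ((n : ℝ) ^ d / L ^ (T + r + 3))) * (K * (2 * ((d + 1) * L) ^ r)) := by
          apply mul_le_mul _ e3 (by positivity) (by positivity)
          exact hFs.trans (mul_le_mul_of_nonneg_left e4 hr0)
      _ = (n : ℝ) ^ d / L ^ (T + 2) * K * (r * (2 * ((d : ℝ) + 1) ^ r) / L) := by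
          have : L ^ (T + r + 3) = L ^ (T + 2) * L ^ r * L := by ring
          rw [this, mul_pow]
          field_simp
      _ ≤ (P.card : ℝ) * K * (ε / 4) := by
          apply mul_le_mul _ e5 (by positivity) (by positivity)
          exact mul_le_mul_of_nonneg_right hP hK0
      _ = ε / 2 / 2 * (P.card * K) := by ring
  have hF2' : ∀ j, ∀ m ∈ Ioo (n ^ (d + 1)) ((n + 1) ^ (d + 1)), m ∉ F j →
        (∀ i, ((n ^ (d + 1) : ℕ) : ℤ) < m + κ j * ((y j i).val : ℕ) ∧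
          m + κ j * ((y j i).val : ℕ) < (((n + 1) ^ (d + 1) : ℕ) : ℤ)) ∧
        (IsCoprime (m : ℤ) (κ j) →
        |(((s j).filter fun i => ((m : ℤ) + κ j * ((y j i).val : ℕ)).toNat.Prime).card : ℝ) - g j * ((s j).card / M)| ≤
          δ * (g j * ((s j).card / M))) := hF2
  have htup : ∀ P ⊆ Ioo (n ^ (d + 1)) ((n + 1) ^ (d + 1)), (∀ m ∈ P, ∀ j, IsCoprime (m : ℤ) (κ j)) →
        (n : ℝ) ^ d / L ^ (T + 2) ≤ P.card →
        |(tupleCount (n ^ (d + 1)) ((n + 1) ^ (d + 1)) κ y s P : ℝ) - P.card * ∏ j, (g j * ((s j).card / M))| ≤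
          ε / 2 * (P.card * ∏ j, (g j * ((s j).card / M))) := by
    intro P hPI hPc hPn
    apply tuples_of (n ^ (d + 1)) ((n + 1) ^ (d + 1)) κ y s P F g M δ (ε / 2) hM0 hg0 (by positivity) hδ.le hδ1
      (by rw [show ε / 2 / 2 = ε / 4 by ring]; exact hδ2) (by rw [show ε / 2 / 2 = ε / 4 by ring]; exact hδ3) hPI hPc hF2'
    rw [← hK]
    exact hFc P hPn
  have hGnn : 0 ≤ ∏ j, (g j * ((s j).card / M)) :=
    prod_nonneg fun j _ => mul_nonneg (hg0 j) (div_nonneg (Nat.cast_nonneg _) hM0.le)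
  refine ⟨⟨univ.biUnion F, ?_, ?_⟩, ?_, ?_⟩
  · have e6 : ((univ.biUnion F).card : ℝ) ≤ ∑ j, ((F j).card : ℝ) := by exact_mod_cast card_biUnion_le
    refine e6.trans (hFs.trans ?_)
    have e7 : L ^ (U + T + r + 4) = L ^ U * L ^ (T + r + 4) := by ring
    rw [e7, ← div_div]
    have e8 : (r : ℝ) ≤ L ^ (T + r + 4) := by
      calc (r : ℝ) ≤ L := by linarith
        _ = L ^ 1 := (pow_one L).symm
        _ ≤ L ^ (T + r + 4) := pow_le_pow_right₀ hL1 (by omega)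
    rw [mul_div_assoc', div_le_iff₀ (by positivity)]
    have e9 : 0 ≤ (n : ℝ) ^ d / L ^ U := by positivity
    nlinarith
  · intro m hm hmF hmc
    rw [tupleCount, sum_singleton, tuple_prod]
    push_cast
    apply prod_approx _ _ δ ε hδ.le hδ1 (fun j => mul_nonneg (hg0 j) (div_nonneg (Nat.cast_nonneg _) hM0.le))
      (by linarith) (by linarith)
    intro j
    have hmFj : m ∉ F j := fun h' => hmF (mem_biUnion.2 ⟨j, mem_univ _, h'⟩)
    obtain ⟨h3, h4⟩ := hF2' j m hm hmFj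
    have h5 : ((s j).filter fun i => ((n ^ (d + 1) : ℕ) : ℤ) < (m : ℤ) + κ j * ((y j i).val : ℕ) ∧
        (m : ℤ) + κ j * ((y j i).val : ℕ) < (((n + 1) ^ (d + 1) : ℕ) : ℤ) ∧ ((m : ℤ) + κ j * ((y j i).val : ℕ)).toNat.Prime) =
        (s j).filter fun i => ((m : ℤ) + κ j * ((y j i).val : ℕ)).toNat.Prime := by
      apply filter_congr
      intro i _
      constructor
      · exact fun h => h.2.2
      · exact fun h => ⟨(h3 i).1, (h3 i).2, h⟩
    have h6 := h4 (hmc j)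
    rw [← h5] at h6
    push_cast at h6 ⊢
    exact h6
  · intro P hPI hPc hPn
    have hPn' : (n : ℝ) ^ d / L ^ (T + 2) ≤ P.card := by
      refine le_trans ?_ hPn
      apply div_le_div_of_nonneg_left hnd.le (by positivity)
      exact pow_le_pow_right₀ hL1 (by omega)
    refine (htup P hPI hPc hPn').trans ?_
    apply mul_le_mul_of_nonneg_right (by linarith)
    positivity
  · -- prime m
    have hPI : primesBetween (n ^ (d + 1)) ((n + 1) ^ (d + 1)) ⊆ Ioo (n ^ (d + 1)) ((n + 1) ^ (d + 1)) := filter_subset _ _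
    obtain ⟨P, hP⟩ : ∃ P, P = primesBetween (n ^ (d + 1)) ((n + 1) ^ (d + 1)) := ⟨_, rfl⟩
    have hPcard : |(P.card : ℝ) - (n : ℝ) ^ d / Real.log n| ≤ δ * ((n : ℝ) ^ d / Real.log n) := by
      rw [hP]
      exact n3
    rw [← hP] at hPI ⊢
    have e7 := abs_le.1 hPcard
    have e8 : 0 < (n : ℝ) ^ d / Real.log n := by positivity
    have hPn' : (n : ℝ) ^ d / L ^ (T + 2) ≤ P.card := by
      have e9 : (n : ℝ) ^ d / L ≤ (n : ℝ) ^ d / Real.log n := div_le_div_of_nonneg_left hnd.le hln0 hln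
      have e10 : (n : ℝ) ^ d / L ^ (T + 2) ≤ (n : ℝ) ^ d / L / 2 := by
        rw [div_div]
        apply div_le_div_of_nonneg_left hnd.le (by positivity)
        calc L * 2 ≤ L * L := mul_le_mul_of_nonneg_left hL2 hL0.le
          _ = L ^ 2 := (sq L).symm
          _ ≤ L ^ (T + 2) := pow_le_pow_right₀ hL1 (by omega)
      nlinarith
    have hPc : ∀ m ∈ P, ∀ j, IsCoprime (m : ℤ) (κ j) := by
      intro m hm j
      rw [hP, primesBetween, mem_filter, mem_Ioo] at hm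
      rw [Int.isCoprime_iff_gcd_eq_one]
      have hmp := hm.2
      have h11 : (κ j).natAbs < m := by
        have h12 : ((κ j).natAbs : ℝ) < ((n ^ (d + 1) : ℕ) : ℝ) := by
          have h13 : L ^ (T + 1) ≤ n := by
            have h15 : L ^ (T + 1) * L ^ (U + T + r + 5) ≤ n * L ^ (U + T + r + 5) := by
              calc L ^ (T + 1) * L ^ (U + T + r + 5) = 1 * L ^ (U + 2 * T + r + 6) := by ring
                _ ≤ X := l3
                _ ≤ n * L ^ (U + T + r + 4 + 1) := n1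
                _ = n * L ^ (U + T + r + 5) := by ring
            exact le_of_mul_le_mul_right h15 (by positivity)
          have h16 : L ^ T < L ^ (T + 1) := by
            rw [pow_succ]
            have : 0 < L ^ T := by positivity
            nlinarith
          have h17 : (n : ℝ) ≤ ((n ^ (d + 1) : ℕ) : ℝ) := by
            exact_mod_cast Nat.le_self_pow (by omega) n
          have h18 := (hκ j).2
          linarith
        exact lt_trans (by exact_mod_cast h12) hm.1.1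
      have h14 : Int.gcd (m : ℤ) (κ j) = Nat.gcd m (κ j).natAbs := by
        rw [Int.gcd_def]
        simp
      rw [h14]
      exact (Nat.Prime.coprime_iff_not_dvd hmp).2 fun hdvd =>
        absurd (Nat.le_of_dvd (Int.natAbs_pos.2 (hκ j).1) hdvd) (by omega)
    have h2 := htup P hPI hPc hPn'
    obtain ⟨R, hR⟩ : ∃ R : ℝ, R = ∏ j, (g j * ((s j).card / M)) := ⟨_, rfl⟩
    obtain ⟨Q, hQ⟩ : ∃ Q : ℝ, Q = (n : ℝ) ^ d / Real.log n := ⟨_, rfl⟩
    rw [← hR] at hGnn h2 ⊢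
    rw [← hQ] at e7 e8 ⊢
    have h5 := abs_le.1 h2
    have hδQ : δ * Q ≤ ε / 4 * Q := mul_le_mul_of_nonneg_right hδε e8.le
    have h6 : R * P.card ≤ R * ((1 + ε / 4) * Q) := mul_le_mul_of_nonneg_left (by linarith) hGnn
    have h7 : R * ((1 - ε / 4) * Q) ≤ R * P.card := mul_le_mul_of_nonneg_left (by linarith) hGnn
    have h8 : 0 ≤ R * Q := by positivity
    have h9 : ε * ε * (R * Q) ≤ ε * (R * Q) := by
      apply mul_le_mul_of_nonneg_right _ h8
      nlinarith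
    have h10 : ε / 2 * (R * P.card) ≤ ε / 2 * (R * ((1 + ε / 4) * Q)) := mul_le_mul_of_nonneg_left h6 (by positivity)
    rw [abs_le]
    constructor
    · nlinarith [h5.1]
    · nlinarith [h5.2]

end Run7.h337.MK
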