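import Mathlib
import Pool.Agent.Run7.h337.MK.Tuples
import Pool.Agent.Run7.h337.MK.Reflect

/-!
# Project MK, piece LOC (helper337), part 12: all intervals inside of short chains of consecutive powers
-/

set_option autoImplicit false

namespace Run7.h337.MK

open Finset Filter
open Pool.Agent.Run7.h794.MK
open Pool.Agent.N384.MQ (Flat ev_log_pow ev_log_ge)

/-- translates of an interval contain nearly the same number of primes -/
lemma slide_one (u v i : ℕ) :
    ((Ioo u v).filter fun m => (m + i).Prime).card ≤ ((Ioo u v).filter Nat.Prime).card + i ∧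
    ((Ioo u v).filter Nat.Prime).card ≤ ((Ioo u v).filter fun m => (m + i).Prime).card + i := by
  classical
  constructor
  · have h1 : ((Ioo u v).filter fun m => (m + i).Prime).image (fun m => m + i) ⊆ (Ioo u v).filter Nat.Prime ∪ Ico v (v + i) := by
      intro p hp
      obtain ⟨m, hm, rfl⟩ := mem_image.1 hp
      rw [mem_filter, mem_Ioo] at hm
      rw [mem_union, mem_filter, mem_Ioo, mem_Ico]
      by_cases h : m + i < v
      · left
        exact ⟨⟨by omega, h⟩, hm.2⟩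
      · right
        omega
    have h2 := card_le_card h1
    rw [card_image_of_injective _ (fun x y h => by simpa using h)] at h2
    have h3 := card_union_le ((Ioo u v).filter Nat.Prime) (Ico v (v + i))
    rw [Nat.card_Ico] at h3
    omega
  · have h1 : (Ioo u v).filter Nat.Prime ⊆ (((Ioo u v).filter fun m => (m + i).Prime).image (fun m => m + i)) ∪ Ioc u (u + i) := by
      intro p hp
      rw [mem_filter, mem_Ioo] at hp
      rw [mem_union, mem_image, mem_Ioc]
      by_cases h : p ≤ u + i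
      · right
        exact ⟨hp.1.1, h⟩
      · left
        refine ⟨p - i, ?_, by omega⟩
        rw [mem_filter, mem_Ioo, show p - i + i = p by omega]
        exact ⟨⟨by omega, by omega⟩, hp.2⟩
    have h2 := card_le_card h1
    have h3 := card_union_le (((Ioo u v).filter fun m => (m + i).Prime).image (fun m => m + i)) (Ioc u (u + i))
    rw [Nat.card_Ioc] at h3
    have h4 := card_image_le (s := (Ioo u v).filter fun m => (m + i).Prime) (f := fun m => m + i)
    omega

lemma slide_sum (u v q : ℕ) :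
    |(∑ m ∈ Ioo u v, (((range q).filter fun i => (m + i).Prime).card : ℝ)) - q * (((Ioo u v).filter Nat.Prime).card : ℝ)| ≤
      (q : ℝ) * q := by
  classical
  have h1 : (∑ m ∈ Ioo u v, (((range q).filter fun i => (m + i).Prime).card : ℝ)) =
      ∑ i ∈ range q, (((Ioo u v).filter fun m => (m + i).Prime).card : ℝ) := by
    simp only [card_filter]
    push_cast
    rw [sum_comm]
  have h2 : (q : ℝ) * (((Ioo u v).filter Nat.Prime).card : ℝ) = ∑ i ∈ range q, (((Ioo u v).filter Nat.Prime).card : ℝ) := by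
    rw [sum_const, card_range, nsmul_eq_mul]
  rw [h1, h2, ← sum_sub_distrib]
  calc |∑ i ∈ range q, ((((Ioo u v).filter fun m => (m + i).Prime).card : ℝ) - (((Ioo u v).filter Nat.Prime).card : ℝ))|
      ≤ ∑ i ∈ range q, |(((Ioo u v).filter fun m => (m + i).Prime).card : ℝ) - (((Ioo u v).filter Nat.Prime).card : ℝ)| :=
        abs_sum_le_sum_abs _ _
    _ ≤ ∑ i ∈ range q, (q : ℝ) := by
        apply sum_le_sum
        intro i hi
        rw [mem_range] at hi
        obtain ⟨h3, h4⟩ := slide_one u v i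
        have h3' : (((Ioo u v).filter fun m => (m + i).Prime).card : ℝ) ≤ (((Ioo u v).filter Nat.Prime).card : ℝ) + i := by
          exact_mod_cast h3
        have h4' : (((Ioo u v).filter Nat.Prime).card : ℝ) ≤ (((Ioo u v).filter fun m => (m + i).Prime).card : ℝ) + i := by
          exact_mod_cast h4
        have h5 : (i : ℝ) ≤ q := by exact_mod_cast hi.le
        rw [abs_le]
        constructor <;> linarith
    _ = (q : ℝ) * q := by rw [sum_const, card_range, nsmul_eq_mul]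

/-- the whole residue ring is a flat family -/
lemma flat_full (q : ℕ) [NeZero q] (η : ℝ) (hη : 0 ≤ η) : Flat q η (range q) (fun i : ℕ => (i : ZMod q)) := by
  intro h hh
  have h1 : ∑ i ∈ range q, (ZMod.stdAddChar (h * ((i : ℕ) : ZMod q)) : ℂ) = ∑ x : ZMod q, (ZMod.stdAddChar (h * x) : ℂ) := by
    symm
    apply sum_nbij' (fun x : ZMod q => x.val) (fun i : ℕ => (i : ZMod q))
    · intro x _
      exact mem_range.2 (ZMod.val_lt x)
    · intro i _
      exact mem_univ _
    · intro x _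
      exact ZMod.natCast_zmod_val x
    · intro i hi
      exact ZMod.val_cast_of_lt (mem_range.1 hi)
    · intro x _
      rw [ZMod.natCast_zmod_val]
  rw [h1]
  have h2 : ∑ x : ZMod q, (ZMod.stdAddChar (h * x) : ℂ) = 0 := by
    have h3 := AddChar.sum_mulShift (R := ZMod q) h (ZMod.isPrimitive_stdAddChar q)
    rw [if_neg hh, Nat.cast_zero] at h3
    rw [← h3]
    refine sum_congr rfl fun x _ => ?_
    rw [mul_comm]
  rw [h2, norm_zero]
  positivity

lemma conv2 (c G Ln Lx δ : ℝ) (hLn : 0 < Ln) (h1 : Ln ≤ Lx) (h2 : Lx ≤ (1 + δ) * Ln) (hG : 0 ≤ G) (hδ : 0 ≤ δ) (hδ1 : δ ≤ 1)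
    (h : |c - G / Ln| ≤ δ * (G / Ln)) : |c - G / Lx| ≤ 3 * δ * (G / Lx) := by
  have hLx : 0 < Lx := by linarith
  have e1 : G / Ln ≤ (1 + δ) * (G / Lx) := by
    rw [mul_div_assoc', div_le_div_iff₀ hLn hLx]
    calc G * Lx ≤ G * ((1 + δ) * Ln) := mul_le_mul_of_nonneg_left h2 hG
      _ = (1 + δ) * G * Ln := by ring
  have e2 : G / Lx ≤ G / Ln := div_le_div_of_nonneg_left hG hLn h1
  have e3 : 0 ≤ G / Lx := by positivity
  have e4 := abs_le.1 h
  have e5 : δ * (G / Ln) ≤ δ * ((1 + δ) * (G / Lx)) := mul_le_mul_of_nonneg_left e1 hδ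
  have e6 : δ * ((1 + δ) * (G / Lx)) ≤ 2 * δ * (G / Lx) := by
    have : δ * δ ≤ δ := by nlinarith
    calc δ * ((1 + δ) * (G / Lx)) = (δ + δ * δ) * (G / Lx) := by ring
      _ ≤ 2 * δ * (G / Lx) := mul_le_mul_of_nonneg_right (by linarith) e3
  rw [abs_le]
  constructor <;> linarith [e4.1, e4.2]

lemma find_block (e a b m : ℕ) (hab : a ≤ b) (h1 : a ^ e ≤ m) (h2 : m < b ^ e) :
    ∃ n, a ≤ n ∧ n < b ∧ n ^ e ≤ m ∧ m < (n + 1) ^ e := by
  induction b, hab using Nat.le_induction with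
  | base => omega
  | succ b hb ih =>
    by_cases h : m < b ^ e
    · obtain ⟨n, e1, e2, e3, e4⟩ := ih h
      exact ⟨n, e1, by omega, e3, e4⟩
    · exact ⟨b, hb, by omega, by omega, h2⟩

/-- All intervals inside of short chains of blocks: the number of primes, and flat families. -/
theorem sub_all (hMAJ : S_MAJ1) (d : ℕ) (hd : 1 ≤ d) (T U : ℕ) (ε : ℝ) (hε : 0 < ε) (hε1 : ε ≤ 1) :
    ∃ V C D X₀ : ℕ, ∀ X : ℕ, X₀ ≤ X →
    ∃ E : Finset ℕ, (E.card : ℝ) ≤ X / Real.log X ^ U ∧ ∀ a b : ℕ, 1 ≤ a → a < b → b ≤ X + 1 →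
    (b : ℝ) ≤ a + Real.log X ^ T → (∀ n, a ≤ n → n < b → n ∉ E) →
    (X : ℝ) ≤ a * Real.log X ^ (U + 2 * T + 7) ∧
    ∀ u v : ℕ, a ^ (d + 1) ≤ u → v ≤ b ^ (d + 1) → (u : ℝ) + (X : ℝ) ^ d / Real.log X ^ T ≤ v →
    |(((Ioo u v).filter Nat.Prime).card : ℝ) - ((v : ℝ) - u) / ((d + 1) * Real.log X)| ≤
      ε * (((v : ℝ) - u) / ((d + 1) * Real.log X)) ∧
    ∀ (q : ℕ) [NeZero q], (X : ℝ) ^ (((d + 1 : ℕ) : ℝ) / 3) * Real.log X ^ C ≤ q → (q : ℝ) * Real.log X ^ D ≤ (X : ℝ) ^ d →
    ∀ {ι : Type} (s : Finset ι) (y : ι → ZMod q), s.Nonempty → Flat q (1 / Real.log X ^ V) s y →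
    ∀ κ : ℤ, κ ≠ 0 → (κ.natAbs : ℝ) ≤ Real.log X ^ T → ∃ F : Finset ℕ, (F.card : ℝ) ≤ (X : ℝ) ^ d / Real.log X ^ U ∧
      ∀ m ∈ Ioo u v, m ∉ F →
        (∀ i, (u : ℤ) < m + κ * ((y i).val : ℕ) ∧ m + κ * ((y i).val : ℕ) < (v : ℤ)) ∧
        (IsCoprime (m : ℤ) κ →
        |((s.filter fun i => ((m : ℤ) + κ * ((y i).val : ℕ)).toNat.Prime).card : ℝ) -
          κ.natAbs / (Nat.totient κ.natAbs : ℝ) * (s.card / ((d + 1) * Real.log X))| ≤
          ε * (κ.natAbs / (Nat.totient κ.natAbs : ℝ) * (s.card / ((d + 1) * Real.log X)))) := by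
  classical
  obtain ⟨A, hA⟩ : ∃ A, A = U + 2 * T + 7 := ⟨_, rfl⟩
  obtain ⟨V, C, D₀, X₀, h⟩ := pow_all hMAJ d hd T (U + 2 * T + 6) (ε / 24) (by positivity) (by linarith)
  obtain ⟨D, hD⟩ : ∃ D, D = D₀ + d * A + U + 2 * T + 6 := ⟨_, rfl⟩
  obtain ⟨c, hc⟩ : ∃ c : ℝ, c = 4 * 2 ^ d + 48 * ((d : ℝ) + 1) / ε := ⟨_, rfl⟩
  obtain ⟨X₁, hev⟩ := eventually_atTop.1 (((ev_log_ge c).and (ev_pw (C + D + 2) 4)).and
    (((ev_log_ge 4).and (ev_sub A 0 (ε / 48) (by positivity))).and (ev_log_pow (A + T + 1) c)))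
  refine ⟨V, C, D, max (max X₀ X₁) 3, fun X hX => ?_⟩
  have hX0' : X₀ ≤ X := le_trans (le_trans (le_max_left _ _) (le_max_left _ _)) hX
  have hX1' : X₁ ≤ X := le_trans (le_trans (le_max_right _ _) (le_max_left _ _)) hX
  have hX3 : 3 ≤ X := le_trans (le_max_right _ _) hX
  obtain ⟨⟨l1, l2⟩, ⟨l3, l4⟩, l5⟩ := hev X hX1'
  obtain ⟨E, hE, hE2⟩ := h X hX0'
  have hXr : (3 : ℝ) ≤ X := by exact_mod_cast hX3
  have hX0 : (0 : ℝ) < X := by linarith
  obtain ⟨L, hL⟩ : ∃ L, L = Real.log X := ⟨_, rfl⟩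
  rw [← hL] at l1 l2 l3 l4 l5 hE hE2 ⊢
  have hL0 : 0 < L := by linarith
  have hL1 : 1 ≤ L := by linarith
  have hd0 : (0 : ℝ) ≤ d := Nat.cast_nonneg _
  have hpow : ∀ e : ℕ, 1 ≤ L ^ e := fun e => one_le_pow₀ hL1
  have hmono : ∀ e f : ℕ, e ≤ f → L ^ e ≤ L ^ f := fun e f hef => pow_le_pow_right₀ hL1 hef
  have hc1 : 4 * (2 : ℝ) ^ d ≤ c := by
    rw [hc]
    have : 0 ≤ 48 * ((d : ℝ) + 1) / ε := by positivity
    linarith
  have hc2 : 48 * ((d : ℝ) + 1) / ε ≤ c := by
    rw [hc]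
    have : (0 : ℝ) ≤ 4 * 2 ^ d := by positivity
    linarith
  have hcL : 48 * ((d : ℝ) + 1) ≤ ε * L := by
    have h1 := hc2.trans l1
    rw [div_le_iff₀ hε] at h1
    linarith
  refine ⟨E, hE.trans ?_, fun a b ha1 hab hbX hbT hgood => ?_⟩
  · apply div_le_div_of_nonneg_left hX0.le (by positivity)
    exact hmono _ _ (by omega)
  -- the blocks are good
  have hn : ∀ n, a ≤ n → n < b → ((X : ℝ) ≤ n * L ^ A ∧ 1 ≤ Real.log n) := by
    intro n h1 h2
    have := (hE2 n (by omega) (by omega) (hgood n h1 h2)).1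
    rw [hA]
    exact this
  have ha := hn a (le_refl a) hab
  refine ⟨by rw [← hA]; exact ha.1, fun u v hu hv huv => ?_⟩
  obtain ⟨Lx, hLx⟩ : ∃ Lx : ℝ, Lx = (d + 1) * L := ⟨_, rfl⟩
  rw [← hLx]
  have hLx0 : 0 < Lx := by rw [hLx]; positivity
  have hLx1 : 1 ≤ Lx := by rw [hLx]; nlinarith
  have hlog : ∀ n, a ≤ n → n < b → 0 < (d + 1) * Real.log n ∧ (d + 1) * Real.log n ≤ Lx ∧
      Lx ≤ (1 + ε / 24) * ((d + 1) * Real.log n) := by
    intro n h1 h2
    obtain ⟨h3, h4⟩ := hn n h1 h2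
    have hn0 : (0 : ℝ) < n := by
      have : 0 < n := by omega
      exact_mod_cast this
    have h5 : Real.log n ≤ L := by
      rw [hL]
      apply Real.log_le_log hn0
      have : n ≤ X := by omega
      exact_mod_cast this
    have h6 : L ≤ Real.log n + A * Real.log L := by
      rw [hL, ← hL]
      have h7 := Real.log_le_log hX0 h3
      rw [Real.log_mul hn0.ne' (by positivity), Real.log_pow, ← hL] at h7
      exact h7
    have h8 : (1 - ε / 48) * L ≤ Real.log n := by linarith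
    have h9 : L ≤ (1 + ε / 24) * Real.log n := by
      have h10 : (1 + ε / 24) * ((1 - ε / 48) * L) ≤ (1 + ε / 24) * Real.log n :=
        mul_le_mul_of_nonneg_left h8 (by positivity)
      have h11 : L ≤ (1 + ε / 24) * ((1 - ε / 48) * L) := by
        have h12 : 1 ≤ (1 + ε / 24) * (1 - ε / 48) := by nlinarith
        calc L = 1 * L := (one_mul L).symm
          _ ≤ ((1 + ε / 24) * (1 - ε / 48)) * L := mul_le_mul_of_nonneg_right h12 hL0.le
          _ = _ := by ring
      linarith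
    refine ⟨by positivity, ?_, ?_⟩
    · rw [hLx]
      exact mul_le_mul_of_nonneg_left h5 (by positivity)
    · rw [hLx]
      calc ((d : ℝ) + 1) * L ≤ (d + 1) * ((1 + ε / 24) * Real.log n) := mul_le_mul_of_nonneg_left h9 (by positivity)
        _ = _ := by ring
  obtain ⟨Y, hY⟩ : ∃ Y : ℝ, Y = (X : ℝ) ^ d := ⟨_, rfl⟩
  rw [← hY] at huv ⊢
  have hY0 : 0 < Y := by rw [hY]; positivity
  have hYX : (X : ℝ) ≤ Y := by
    rw [hY]
    exact le_self_pow₀ (by linarith) (by omega)
  have hnY : ∀ n, a ≤ n → n < b → Y ≤ (n : ℝ) ^ d * L ^ (d * A) := by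
    intro n h1 h2
    rw [hY]
    calc (X : ℝ) ^ d ≤ (n * L ^ A) ^ d := pow_le_pow_left₀ hX0.le (hn n h1 h2).1 d
      _ = (n : ℝ) ^ d * L ^ (d * A) := by rw [mul_pow, ← pow_mul, mul_comm A d]
  have hnY2 : ∀ n, n < b → (n : ℝ) ^ d ≤ Y := by
    intro n h2
    rw [hY]
    apply pow_le_pow_left₀ (Nat.cast_nonneg _)
    have : n ≤ X := by omega
    exact_mod_cast this
  -- flat families, without the inside property for the interval
  have fam : ∀ (q : ℕ) [NeZero q], (X : ℝ) ^ (((d + 1 : ℕ) : ℝ) / 3) * L ^ C ≤ q → (q : ℝ) * L ^ D ≤ Y →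
      ∀ {ι : Type} (s : Finset ι) (y : ι → ZMod q), s.Nonempty → Flat q (1 / L ^ V) s y →
      ∀ κ : ℤ, κ ≠ 0 → (κ.natAbs : ℝ) ≤ L ^ T → ∃ F : Finset ℕ, (F.card : ℝ) ≤ Y / L ^ (U + T + 5) ∧
        ∀ m ∈ Ioo u v, m ∉ F → (IsCoprime (m : ℤ) κ →
          |((s.filter fun i => ((m : ℤ) + κ * ((y i).val : ℕ)).toNat.Prime).card : ℝ) -
            κ.natAbs / (Nat.totient κ.natAbs : ℝ) * (s.card / Lx)| ≤
            ε / 8 * (κ.natAbs / (Nat.totient κ.natAbs : ℝ) * (s.card / Lx))) := by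
    intro q _ hq1 hq2 ι s y hs hy κ hκ hκT
    have hqn : ∀ n, a ≤ n → n < b → (q : ℝ) * L ^ D₀ ≤ (n : ℝ) ^ d := by
      intro n h1 h2
      have h3 : ((q : ℝ) * L ^ D₀) * L ^ (d * A) ≤ (n : ℝ) ^ d * L ^ (d * A) := by
        calc ((q : ℝ) * L ^ D₀) * L ^ (d * A) = q * L ^ (D₀ + d * A) := by rw [pow_add]; ring
          _ ≤ q * L ^ D := mul_le_mul_of_nonneg_left (hmono _ _ (by omega)) (Nat.cast_nonneg _)
          _ ≤ Y := hq2
          _ ≤ _ := hnY n h1 h2
      exact le_of_mul_le_mul_right h3 (by positivity)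
    have hF : ∀ n : ℕ, ∃ F : Finset ℕ, a ≤ n → n < b → ((F.card : ℝ) ≤ (n : ℝ) ^ d / L ^ (U + 2 * T + 6) ∧
      ∀ m ∈ Ioo (n ^ (d + 1)) ((n + 1) ^ (d + 1)), m ∉ F →
        (∀ i, ((n ^ (d + 1) : ℕ) : ℤ) < m + κ * ((y i).val : ℕ) ∧ m + κ * ((y i).val : ℕ) < (((n + 1) ^ (d + 1) : ℕ) : ℤ)) ∧
        (IsCoprime (m : ℤ) κ →
        |((s.filter fun i => ((m : ℤ) + κ * ((y i).val : ℕ)).toNat.Prime).card : ℝ) -
          κ.natAbs / (Nat.totient κ.natAbs : ℝ) * (s.card / ((d + 1) * Real.log n))| ≤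
          ε / 24 * (κ.natAbs / (Nat.totient κ.natAbs : ℝ) * (s.card / ((d + 1) * Real.log n))))) := by
      intro n
      by_cases hnab : a ≤ n ∧ n < b
      · obtain ⟨F, hF1, hF2⟩ := (hE2 n (by omega) (by omega) (hgood n hnab.1 hnab.2)).2.2 q hq1 (hqn n hnab.1 hnab.2)
          s y hs hy κ hκ hκT
        exact ⟨F, fun _ _ => ⟨hF1, hF2⟩⟩
      · exact ⟨∅, fun h1 h2 => absurd ⟨h1, h2⟩ hnab⟩
    choose F hF using hF
    refine ⟨(Ico a b).biUnion F ∪ (Ico a b).image (fun n => n ^ (d + 1)), ?_, ?_⟩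
    · have h1 : ((((Ico a b).biUnion F ∪ (Ico a b).image (fun n => n ^ (d + 1))).card : ℕ) : ℝ) ≤
          (∑ n ∈ Ico a b, ((F n).card : ℝ)) + (b - a : ℝ) := by
        have h2 := card_union_le ((Ico a b).biUnion F) ((Ico a b).image (fun n => n ^ (d + 1)))
        have h3 := card_biUnion_le (s := Ico a b) (t := F)
        have h4 := card_image_le (s := Ico a b) (f := fun n => n ^ (d + 1))
        rw [Nat.card_Ico] at h4
        have h5 : ((b - a : ℕ) : ℝ) = (b : ℝ) - a := Nat.cast_sub hab.le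
        have h6 : ((((Ico a b).biUnion F ∪ (Ico a b).image (fun n => n ^ (d + 1))).card : ℕ) : ℝ) ≤
          ((∑ n ∈ Ico a b, (F n).card : ℕ) : ℝ) + ((b - a : ℕ) : ℝ) := by
          exact_mod_cast (by omega)
        rw [h5] at h6
        push_cast at h6
        exact h6
      have h7 : ∑ n ∈ Ico a b, ((F n).card : ℝ) ≤ (b - a : ℝ) * (Y / L ^ (U + 2 * T + 6)) := by
        calc ∑ n ∈ Ico a b, ((F n).card : ℝ) ≤ ∑ n ∈ Ico a b, (Y / L ^ (U + 2 * T + 6)) := by
              apply sum_le_sum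
              intro n hnI
              rw [mem_Ico] at hnI
              refine (hF n hnI.1 hnI.2).1.trans ?_
              exact div_le_div_of_nonneg_right (hnY2 n hnI.2) (by positivity)
          _ = (b - a : ℝ) * (Y / L ^ (U + 2 * T + 6)) := by
              rw [sum_const, Nat.card_Ico, nsmul_eq_mul, Nat.cast_sub hab.le]
      have h8 : 1 ≤ Y / L ^ (U + 2 * T + 6) := by
        rw [le_div_iff₀ (by positivity), one_mul]
        refine le_trans ?_ hYX
        calc L ^ (U + 2 * T + 6) ≤ L ^ (A + T + 1) := hmono _ _ (by omega)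
          _ ≤ c * L ^ (A + T + 1) := by
              apply le_mul_of_one_le_left (by positivity)
              have : (1 : ℝ) ≤ 2 ^ d := one_le_pow₀ (by norm_num)
              linarith
          _ ≤ X := l5
      have h9 : (b : ℝ) - a ≤ L ^ T := by linarith
      have h9' : (0 : ℝ) ≤ (b : ℝ) - a := by
        have : (a : ℝ) ≤ b := by exact_mod_cast hab.le
        linarith
      calc ((((Ico a b).biUnion F ∪ (Ico a b).image (fun n => n ^ (d + 1))).card : ℕ) : ℝ)
          ≤ (b - a : ℝ) * (Y / L ^ (U + 2 * T + 6)) + (b - a : ℝ) := by linarith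
        _ ≤ L ^ T * (2 * (Y / L ^ (U + 2 * T + 6))) := by nlinarith
        _ = Y / L ^ (U + T + 5) * (2 / L) := by
            have : L ^ (U + 2 * T + 6) = L ^ T * L ^ (U + T + 5) * L := by ring
            rw [this]
            field_simp
        _ ≤ Y / L ^ (U + T + 5) * 1 := by
            apply mul_le_mul_of_nonneg_left _ (by positivity)
            rw [div_le_one hL0]
            linarith
        _ = Y / L ^ (U + T + 5) := mul_one _
    · intro m hm hmF hco
      rw [mem_union, not_or, mem_biUnion, mem_image] at hmF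
      rw [mem_Ioo] at hm
      obtain ⟨n, k1, k2, k3, k4⟩ := find_block (d + 1) a b m hab.le (by omega) (by omega)
      have k5 : m ≠ n ^ (d + 1) := by
        intro h'
        exact hmF.2 ⟨n, mem_Ico.2 ⟨k1, k2⟩, h'.symm⟩
      have k6 : m ∉ F n := fun h' => hmF.1 ⟨n, mem_Ico.2 ⟨k1, k2⟩, h'⟩
      obtain ⟨-, k7⟩ := hF n k1 k2
      have k8 := (k7 m (mem_Ioo.2 ⟨by omega, k4⟩) k6).2 hco
      obtain ⟨g, hg⟩ : ∃ g : ℝ, g = κ.natAbs / (Nat.totient κ.natAbs : ℝ) := ⟨_, rfl⟩
      rw [← hg] at k8 ⊢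
      have hg0 : 0 ≤ g := by
        have := g_ge_one κ hκ
        rw [← hg] at this
        linarith
      obtain ⟨m1, m2, m3⟩ := hlog n k1 k2
      have e1 : g * (s.card / ((d + 1) * Real.log n)) = (g * s.card) / ((d + 1) * Real.log n) := by ring
      have e2 : g * (s.card / Lx) = (g * s.card) / Lx := by ring
      rw [e1] at k8
      rw [e2]
      have k9 := conv2 _ (g * s.card) _ Lx (ε / 24) m1 m2 m3 (mul_nonneg hg0 (Nat.cast_nonneg _)) (by positivity)
        (by linarith) k8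
      rw [show 3 * (ε / 24) = ε / 8 by ring] at k9
      exact k9
  -- the number of primes
  have hWlen : (u : ℝ) < v := by
    have : 0 < Y / L ^ T := by positivity
    linarith
  have hWn : u < v := by exact_mod_cast hWlen
  have hWcard : ((Ioo u v).card : ℝ) = (v : ℝ) - u - 1 := by
    rw [Nat.card_Ioo, Nat.cast_sub (by omega), Nat.cast_sub (by omega)]
    push_cast
    ring
  have hYT : 2 * L ^ (T + 1) ≤ Y := by
    refine le_trans ?_ hYX
    calc 2 * L ^ (T + 1) ≤ c * L ^ (A + T + 1) := by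
          apply mul_le_mul _ (hmono _ _ (by omega)) (by positivity) _
          · have : (1 : ℝ) ≤ 2 ^ d := one_le_pow₀ (by norm_num)
            linarith
          · have : (1 : ℝ) ≤ 2 ^ d := one_le_pow₀ (by norm_num)
            linarith
      _ ≤ X := l5
  obtain ⟨w, hw⟩ : ∃ w : ℝ, w = (v : ℝ) - u := ⟨_, rfl⟩
  have hwY : Y / L ^ T ≤ w := by rw [hw]; linarith
  have hw2 : 2 ≤ w := by
    refine le_trans ?_ hwY
    rw [le_div_iff₀ (by positivity)]
    calc 2 * L ^ T ≤ 2 * L ^ (T + 1) := by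
          have := hmono T (T + 1) (by omega)
          linarith
      _ ≤ Y := hYT
  rw [← hw] at hWcard ⊢
  have hXd : (X : ℝ) ^ (((d + 1 : ℕ) : ℝ) / 3) * (X : ℝ) ^ (1 / 3 : ℝ) ≤ Y := by
    rw [hY, ← Real.rpow_add hX0, ← Real.rpow_natCast (X : ℝ) d]
    apply Real.rpow_le_rpow_of_exponent_le (by linarith)
    push_cast
    have : (1 : ℝ) ≤ d := by exact_mod_cast hd
    linarith
  have hprimes : |(((Ioo u v).filter Nat.Prime).card : ℝ) - w / Lx| ≤ ε * (w / Lx) := by
    obtain ⟨Q, hQ⟩ : ∃ Q : ℝ, Q = (X : ℝ) ^ (((d + 1 : ℕ) : ℝ) / 3) * L ^ C := ⟨_, rfl⟩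
    have hQ1 : 1 ≤ Q := by
      rw [hQ]
      have h1 : 1 ≤ (X : ℝ) ^ (((d + 1 : ℕ) : ℝ) / 3) := Real.one_le_rpow (by linarith) (by positivity)
      have h2 := hpow C
      nlinarith
    obtain ⟨q, hq⟩ : ∃ q : ℕ, q = ⌈Q⌉₊ := ⟨_, rfl⟩
    have hqQ : Q ≤ q := by rw [hq]; exact Nat.le_ceil _
    have hqQ2 : (q : ℝ) ≤ 2 * Q := by
      have := Nat.ceil_lt_add_one (show 0 ≤ Q by linarith)
      rw [← hq] at this
      linarith
    have hq1 : (1 : ℝ) ≤ q := by linarith
    have hqne : NeZero q := ⟨by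
      intro h0
      rw [h0] at hq1
      norm_num at hq1⟩
    have hqL : (q : ℝ) * L ^ (D + 2) * 2 ≤ Y := by
      calc (q : ℝ) * L ^ (D + 2) * 2 ≤ (2 * Q) * L ^ (D + 2) * 2 := by gcongr
        _ = (X : ℝ) ^ (((d + 1 : ℕ) : ℝ) / 3) * (4 * L ^ (C + D + 2)) := by
            rw [hQ]
            rw [show C + D + 2 = C + (D + 2) by ring, pow_add L C (D + 2)]
            ring
        _ ≤ (X : ℝ) ^ (((d + 1 : ℕ) : ℝ) / 3) * (X : ℝ) ^ (1 / 3 : ℝ) :=
            mul_le_mul_of_nonneg_left l2 (by positivity)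
        _ ≤ Y := hXd
    have hqD : (q : ℝ) * L ^ D ≤ Y := by
      have h1 : (q : ℝ) * L ^ D ≤ q * L ^ (D + 2) := mul_le_mul_of_nonneg_left (hmono _ _ (by omega)) (by linarith)
      have h2 : 0 ≤ (q : ℝ) * L ^ (D + 2) := by positivity
      linarith
    obtain ⟨F, hF1, hF2⟩ := fam q (by rw [← hQ]; exact hqQ) hqD (range q) (fun i : ℕ => (i : ZMod q))
      ⟨0, mem_range.2 (by exact_mod_cast hq1)⟩ (flat_full q _ (by positivity)) 1 one_ne_zero (by
        rw [Int.natAbs_one, Nat.cast_one]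
        exact hpow T)
    have hF3 : ∀ m ∈ Ioo u v, m ∉ F → |(((range q).filter fun i => (m + i).Prime).card : ℝ) - q / Lx| ≤
        ε / 4 / 2 * (q / Lx) := by
      intro m hm hmF
      have h1 := hF2 m hm hmF isCoprime_one_right
      rw [Int.natAbs_one, Nat.totient_one, Nat.cast_one, div_one, one_mul, card_range] at h1
      have h2 : ((range q).filter fun i : ℕ => ((m : ℤ) + 1 * ((((i : ℕ) : ZMod q)).val : ℕ)).toNat.Prime) =
          (range q).filter fun i => (m + i).Prime := by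
        apply filter_congr
        intro i hi
        rw [ZMod.val_cast_of_lt (mem_range.1 hi), one_mul]
        rw [show ((m : ℤ) + (i : ℕ)) = ((m + i : ℕ) : ℤ) by push_cast; rfl, Int.toNat_natCast]
      rw [h2] at h1
      rw [show ε / 4 / 2 = ε / 8 by ring]
      exact h1
    have hFb : (F.card : ℝ) * (q + q / Lx) ≤ ε / 4 / 2 * ((Ioo u v).card * (q / Lx)) := by
      rw [hWcard]
      have h1 : (F.card : ℝ) * (q + q / Lx) = q * (F.card * (1 + 1 / Lx)) := by ring
      have h2 : ε / 4 / 2 * ((w - 1) * (q / Lx)) = q * (ε / 8 * ((w - 1) / Lx)) := by ring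
      rw [h1, h2]
      apply mul_le_mul_of_nonneg_left _ (by linarith)
      have h3 : 1 + 1 / Lx ≤ 2 := by
        have : 1 / Lx ≤ 1 := by
          rw [div_le_one hLx0]
          exact hLx1
        linarith
      have h4 : w / 2 ≤ w - 1 := by linarith
      have h5 : Y / L ^ T / 2 ≤ w - 1 := by linarith
      calc (F.card : ℝ) * (1 + 1 / Lx) ≤ Y / L ^ (U + T + 5) * 2 := by
            apply mul_le_mul hF1 h3 (by positivity) (by positivity)
        _ ≤ Y / L ^ (T + 2) * 2 := by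
            apply mul_le_mul_of_nonneg_right _ (by norm_num)
            exact div_le_div_of_nonneg_left hY0.le (by positivity) (hmono _ _ (by omega))
        _ = Y / L ^ T / Lx * (2 * (d + 1) / L) := by
            rw [hLx, show L ^ (T + 2) = L ^ T * L * L by ring]
            field_simp
        _ ≤ Y / L ^ T / Lx * (ε / 16) := by
            apply mul_le_mul_of_nonneg_left _ (by positivity)
            rw [div_le_iff₀ hL0]
            linarith
        _ = ε / 8 * ((Y / L ^ T / 2) / Lx) := by ring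
        _ ≤ ε / 8 * ((w - 1) / Lx) := by
            apply mul_le_mul_of_nonneg_left _ (by positivity)
            exact div_le_div_of_nonneg_right h5 hLx0.le
    have hsum := sum_approx (Ioo u v) F (fun m => (((range q).filter fun i => (m + i).Prime).card : ℝ)) (q / Lx) q (ε / 4)
      (by positivity) (by positivity) (by linarith) (fun m _ => ⟨Nat.cast_nonneg _, by
        have := card_filter_le (range q) fun i => (m + i).Prime
        rw [card_range] at this
        exact_mod_cast this⟩) hF3 hFb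
    have hsl := slide_sum u v q
    obtain ⟨S, hS⟩ : ∃ S : ℝ, S = ∑ m ∈ Ioo u v, (((range q).filter fun i => (m + i).Prime).card : ℝ) := ⟨_, rfl⟩
    obtain ⟨Pi, hPi⟩ : ∃ P : ℝ, P = (((Ioo u v).filter Nat.Prime).card : ℝ) := ⟨_, rfl⟩
    rw [← hS] at hsum hsl
    rw [← hPi] at hsl ⊢
    rw [hWcard] at hsum
    have s1 := abs_le.1 hsum
    have s2 := abs_le.1 hsl
    have hq0 : (0 : ℝ) < q := by linarith
    -- divide by q
    have t1 : q * Pi ≤ q * ((1 + ε / 4) * ((w - 1) / Lx) + q) := by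
      have e1 : (w - 1) * (q / Lx) = q * ((w - 1) / Lx) := by ring
      rw [e1] at s1
      nlinarith [s1.2, s2.1]
    have t2 : q * ((1 - ε / 4) * ((w - 1) / Lx) - q) ≤ q * Pi := by
      have e1 : (w - 1) * (q / Lx) = q * ((w - 1) / Lx) := by ring
      rw [e1] at s1
      nlinarith [s1.1, s2.2]
    have t3 := le_of_mul_le_mul_left t1 hq0
    have t4 := le_of_mul_le_mul_left t2 hq0
    have t5 : (w - 1) / Lx = w / Lx - 1 / Lx := by ring
    have t6 : 1 / Lx ≤ 1 := by
      rw [div_le_one hLx0]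
      exact hLx1
    have t6' : 0 ≤ 1 / Lx := by positivity
    have t7 : (q : ℝ) + 1 ≤ ε / 2 * (w / Lx) := by
      have e2 : (q : ℝ) + 1 ≤ Y / L ^ (D + 2) := by
        rw [le_div_iff₀ (by positivity)]
        have e3 : (0 : ℝ) < L ^ (D + 2) := by positivity
        nlinarith
      calc (q : ℝ) + 1 ≤ Y / L ^ (D + 2) := e2
        _ ≤ Y / L ^ (T + 2) := div_le_div_of_nonneg_left hY0.le (by positivity) (hmono _ _ (by omega))
        _ = Y / L ^ T / Lx * ((d + 1) / L) := by
            rw [hLx, show L ^ (T + 2) = L ^ T * L * L by ring]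
            field_simp
        _ ≤ Y / L ^ T / Lx * (ε / 2) := by
            apply mul_le_mul_of_nonneg_left _ (by positivity)
            rw [div_le_iff₀ hL0]
            nlinarith
        _ = ε / 2 * ((Y / L ^ T) / Lx) := by ring
        _ ≤ ε / 2 * (w / Lx) := by
            apply mul_le_mul_of_nonneg_left _ (by positivity)
            exact div_le_div_of_nonneg_right hwY hLx0.le
    have t8 : 0 ≤ w / Lx := by positivity
    rw [t5] at t3 t4
    rw [abs_le]
    constructor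
    · nlinarith
    · nlinarith
  refine ⟨hprimes, ?_⟩
  intro q _ hq1 hq2 ι s y hs hy κ hκ hκT
  obtain ⟨F, hF1, hF2⟩ := fam q hq1 hq2 s y hs hy κ hκ hκT
  obtain ⟨R, hR⟩ : ∃ R : ℕ, R = κ.natAbs * q := ⟨_, rfl⟩
  have hRr : (R : ℝ) ≤ Y / L ^ (U + T + 5) := by
    rw [le_div_iff₀ (by positivity), hR]
    push_cast
    calc ((κ.natAbs : ℝ) * q) * L ^ (U + T + 5) ≤ (L ^ T * q) * L ^ (U + T + 5) := by
          apply mul_le_mul_of_nonneg_right _ (by positivity)
          exact mul_le_mul_of_nonneg_right hκT (Nat.cast_nonneg _)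
      _ = q * L ^ (U + 2 * T + 5) := by ring
      _ ≤ q * L ^ D := mul_le_mul_of_nonneg_left (hmono _ _ (by omega)) (Nat.cast_nonneg _)
      _ ≤ Y := hq2
  refine ⟨F ∪ (Ioc u (u + R) ∪ Ico (v - R) v), ?_, ?_⟩
  · have h1 := card_union_le F (Ioc u (u + R) ∪ Ico (v - R) v)
    have h2 := card_union_le (Ioc u (u + R)) (Ico (v - R) v)
    rw [Nat.card_Ioc, Nat.card_Ico] at h2
    have h3 : (F ∪ (Ioc u (u + R) ∪ Ico (v - R) v)).card ≤ F.card + R + R := by omega
    have h4 : ((F ∪ (Ioc u (u + R) ∪ Ico (v - R) v)).card : ℝ) ≤ F.card + R + R := by exact_mod_cast h3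
    calc ((F ∪ (Ioc u (u + R) ∪ Ico (v - R) v)).card : ℝ) ≤ 3 * (Y / L ^ (U + T + 5)) := by linarith
      _ = Y / L ^ U * (3 / L ^ (T + 5)) := by
          rw [show U + T + 5 = U + (T + 5) by ring, pow_add]
          field_simp
      _ ≤ Y / L ^ U * 1 := by
          apply mul_le_mul_of_nonneg_left _ (by positivity)
          rw [div_le_one (by positivity)]
          have : L ^ 1 ≤ L ^ (T + 5) := hmono _ _ (by omega)
          rw [pow_one] at this
          linarith
      _ = Y / L ^ U := mul_one _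
  · intro m hm hmF
    rw [mem_union, not_or, mem_union, not_or, mem_Ioc, mem_Ico] at hmF
    refine ⟨fun i => ?_, fun hco => ?_⟩
    · rw [mem_Ioo] at hm
      have h1 : ((y i).val : ℤ) < q := by exact_mod_cast ZMod.val_lt (y i)
      have h2 : |κ * ((y i).val : ℕ)| ≤ (R : ℤ) := by
        rw [abs_mul, hR]
        push_cast
        rw [Int.abs_eq_natAbs κ]
        apply mul_le_mul_of_nonneg_left _ (by positivity)
        rw [abs_of_nonneg (by positivity)]
        linarith
      have h3 := abs_le.1 h2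
      have h4 : u + R < m := by omega
      have h5 : m + R < v := by omega
      have h4' : (u : ℤ) + R < m := by exact_mod_cast h4
      have h5' : (m : ℤ) + R < v := by exact_mod_cast h5
      constructor <;> linarith [h3.1, h3.2]
    · refine (hF2 m hm hmF.1 hco).trans ?_
      apply mul_le_mul_of_nonneg_right (by linarith)
      have := g_ge_one κ hκ
      exact mul_nonneg (by linarith) (by positivity)

end Run7.h337.MK
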