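import Mathlib
import Pool.Agent.Run7.h337.MK.Sub

/-!
# Project MK, piece LOC (helper337), part 13: tuples of primes in all intervals inside of short chains of blocks
-/

set_option autoImplicit false

namespace Run7.h337.MK

open Finset Filter
open Pool.Agent.Run7.h794.MK
open Pool.Agent.N384.MQ (Flat ev_log_pow ev_log_ge)

/-- The expected number of the (i_1, .., i_r) with m + kappa_j y_j(i_j) prime for all j, for m near X^(d+1) prime to all
kappa_j. -/
noncomputable def expect {r : ℕ} {ι : Fin r → Type} (d X : ℕ) (κ : Fin r → ℤ) (s : ∀ j, Finset (ι j)) : ℝ :=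
  ∏ j, ((κ j).natAbs / (Nat.totient (κ j).natAbs : ℝ) * ((s j).card / ((d + 1) * Real.log X)))

/-- The four conclusions for the interval (u, v) and r families: for almost all m, for the m of an arbitrary set, and for
all prime m. -/
def TupleLaw {r : ℕ} {ι : Fin r → Type} {q : Fin r → ℕ} (d T U X : ℕ) (ε : ℝ) (u v : ℕ) (κ : Fin r → ℤ)
    (y : ∀ j, ι j → ZMod (q j)) (s : ∀ j, Finset (ι j)) : Prop :=
  (∃ F : Finset ℕ, (F.card : ℝ) ≤ ((v : ℝ) - u) / Real.log X ^ U ∧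
    ∀ m ∈ Ioo u v, m ∉ F → (∀ j, IsCoprime (m : ℤ) (κ j)) →
    |(tupleCount u v κ y s {m} : ℝ) - expect d X κ s| ≤ ε * expect d X κ s) ∧
  (∀ P ⊆ Ioo u v, (∀ m ∈ P, ∀ j, IsCoprime (m : ℤ) (κ j)) → ((v : ℝ) - u) / Real.log X ^ T ≤ P.card →
    |(tupleCount u v κ y s P : ℝ) - P.card * expect d X κ s| ≤ ε * (P.card * expect d X κ s)) ∧
  |(tupleCount u v κ y s (primesBetween u v) : ℝ) - ((v : ℝ) - u) / ((d + 1) * Real.log X) * expect d X κ s| ≤
    ε * (((v : ℝ) - u) / ((d + 1) * Real.log X) * expect d X κ s)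

/-- The intervals (u, v) of length at least X^d / log^T X between a^(d+1) and b^(d+1), where b is at most a + log^T X: the
number of the primes, and the tuple law for all r flat families. -/
theorem sub_tuples (hMAJ : S_MAJ1) (d : ℕ) (hd : 1 ≤ d) (r T U : ℕ) (ε : ℝ) (hε : 0 < ε) (hε1 : ε ≤ 1) :
    ∃ V C D X₀ : ℕ, ∀ X : ℕ, X₀ ≤ X →
    ∃ E : Finset ℕ, (E.card : ℝ) ≤ X / Real.log X ^ U ∧ ∀ a b : ℕ, 1 ≤ a → a < b → b ≤ X + 1 →
    (b : ℝ) ≤ a + Real.log X ^ T → (∀ n, a ≤ n → n < b → n ∉ E) →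
    ∀ u v : ℕ, a ^ (d + 1) ≤ u → v ≤ b ^ (d + 1) → (u : ℝ) + (X : ℝ) ^ d / Real.log X ^ T ≤ v →
    |(((Ioo u v).filter Nat.Prime).card : ℝ) - ((v : ℝ) - u) / ((d + 1) * Real.log X)| ≤
      ε * (((v : ℝ) - u) / ((d + 1) * Real.log X)) ∧
    ∀ (q : Fin r → ℕ) [∀ j, NeZero (q j)],
    (∀ j, (X : ℝ) ^ (((d + 1 : ℕ) : ℝ) / 3) * Real.log X ^ C ≤ q j ∧ (q j : ℝ) * Real.log X ^ D ≤ (X : ℝ) ^ d) →
    ∀ {ι : Fin r → Type} (s : ∀ j, Finset (ι j)) (y : ∀ j, ι j → ZMod (q j)),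
    (∀ j, (s j).Nonempty ∧ Flat (q j) (1 / Real.log X ^ V) (s j) (y j)) →
    ∀ κ : Fin r → ℤ, (∀ j, κ j ≠ 0 ∧ ((κ j).natAbs : ℝ) ≤ Real.log X ^ T) → TupleLaw d T U X ε u v κ y s := by
  classical
  obtain ⟨δ₀, hδ₀, hδ₀1, hδ₀2, hδ₀3⟩ := delta_exists r (ε / 4) (by positivity)
  obtain ⟨δ, hδeq⟩ : ∃ δ : ℝ, δ = min δ₀ (ε / 4) := ⟨_, rfl⟩
  have hδ : 0 < δ := by rw [hδeq]; positivity
  have hδ1 : δ ≤ 1 := by rw [hδeq]; exact (min_le_left _ _).trans hδ₀1
  have hδε : δ ≤ ε / 4 := by rw [hδeq]; exact min_le_right _ _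
  have hδδ : δ ≤ δ₀ := by rw [hδeq]; exact min_le_left _ _
  have hδ2 : (1 + δ) ^ r ≤ 1 + ε / 4 := (pow_le_pow_left₀ (by linarith) (by linarith) r).trans hδ₀2
  have hδ3 : 1 - ε / 4 ≤ (1 - δ) ^ r := hδ₀3.trans (pow_le_pow_left₀ (by linarith) (by linarith) r)
  obtain ⟨V, C, D, X₀, h⟩ := sub_all hMAJ d hd T (U + 2 * T + r + 5) δ hδ hδ1
  obtain ⟨X₁, hev⟩ := eventually_atTop.1 (((ev_log_ge (8 * (r + 1) * ((d : ℝ) + 1) ^ (r + 1) / ε)).and
    (ev_log_ge (4 + r))).and (ev_log_pow (U + 5 * T + r + 13) 1))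
  refine ⟨V, C, D, max (max X₀ X₁) 3, fun X hX => ?_⟩
  have hX0' : X₀ ≤ X := le_trans (le_trans (le_max_left _ _) (le_max_left _ _)) hX
  have hX1' : X₁ ≤ X := le_trans (le_trans (le_max_right _ _) (le_max_left _ _)) hX
  have hX3 : 3 ≤ X := le_trans (le_max_right _ _) hX
  obtain ⟨⟨l1, l2⟩, l3⟩ := hev X hX1'
  obtain ⟨E, hE, hE2⟩ := h X hX0'
  have hXr : (3 : ℝ) ≤ X := by exact_mod_cast hX3
  have hX0 : (0 : ℝ) < X := by linarith
  obtain ⟨L, hL⟩ : ∃ L, L = Real.log X := ⟨_, rfl⟩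
  have hexp : ∀ {ι : Fin r → Type} (κ : Fin r → ℤ) (s : ∀ j, Finset (ι j)), expect d X κ s =
      ∏ j, ((κ j).natAbs / (Nat.totient (κ j).natAbs : ℝ) * ((s j).card / ((d + 1) * L))) := by
    intro ι κ s
    rw [expect, hL]
  simp only [TupleLaw, ← hL]
  rw [← hL] at l1 l2 l3 hE hE2
  have hr0 : (0 : ℝ) ≤ r := Nat.cast_nonneg _
  have hL0 : 0 < L := by linarith
  have hL1 : 1 ≤ L := by linarith
  have hL2 : 2 ≤ L := by linarith
  have hmono : ∀ e f : ℕ, e ≤ f → L ^ e ≤ L ^ f := fun e f hef => pow_le_pow_right₀ hL1 hef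
  refine ⟨E, hE.trans ?_, fun a b ha1 hab hbX hbT hgood => ?_⟩
  · exact div_le_div_of_nonneg_left hX0.le (by positivity) (hmono _ _ (by omega))
  obtain ⟨ha2, hE3⟩ := hE2 a b ha1 hab hbX hbT hgood
  intro u v hu hv huv
  obtain ⟨n3, n4⟩ := hE3 u v hu hv huv
  obtain ⟨w, hw⟩ : ∃ w : ℝ, w = (v : ℝ) - u := ⟨_, rfl⟩
  obtain ⟨Y, hY⟩ : ∃ Y : ℝ, Y = (X : ℝ) ^ d := ⟨_, rfl⟩
  rw [← hY] at huv n4 ⊢
  rw [← hw] at n3 ⊢
  have hd0 : (0 : ℝ) ≤ d := Nat.cast_nonneg _
  obtain ⟨M, hM⟩ : ∃ M : ℝ, M = (d + 1) * L := ⟨_, rfl⟩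
  rw [← hM] at n3 n4 ⊢
  have hM0 : 0 < M := by rw [hM]; positivity
  have hM1 : 1 ≤ M := by rw [hM]; nlinarith
  have hY0 : 0 < Y := by rw [hY]; positivity
  have hwY : Y / L ^ T ≤ w := by rw [hw]; linarith
  have hw0 : 0 < w := lt_of_lt_of_le (by positivity) hwY
  have hYw : ∀ e : ℕ, Y / L ^ (T + e) ≤ w / L ^ e := by
    intro e
    rw [pow_add, ← div_div]
    exact div_le_div_of_nonneg_right hwY (by positivity)
  refine ⟨n3.trans (mul_le_mul_of_nonneg_right (by linarith) (by positivity)), ?_⟩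
  intro q _ hq ι s y hsy κ hκ
  choose F hF1 hF2 using fun j => n4 (q j) (hq j).1 (hq j).2 (s j) (y j) (hsy j).1 (hsy j).2 (κ j) (hκ j).1 (hκ j).2
  obtain ⟨g, hg⟩ : ∃ g : Fin r → ℝ, g = fun j => (κ j).natAbs / (Nat.totient (κ j).natAbs : ℝ) := ⟨_, rfl⟩
  have hgj : ∀ j, (κ j).natAbs / (Nat.totient (κ j).natAbs : ℝ) = g j := fun j => by rw [hg]
  have hg1 : ∀ j, 1 ≤ g j := fun j => by
    rw [← hgj j]
    exact g_ge_one (κ j) (hκ j).1
  have hexp2 : expect d X κ s = ∏ j, (g j * ((s j).card / M)) := by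
    rw [hexp, hM]
    exact prod_congr rfl fun j _ => by rw [hgj j]
  rw [hexp2]
  simp only [hgj] at hF2
  have hg0 : ∀ j, 0 ≤ g j := fun j => by linarith [hg1 j]
  obtain ⟨K, hK⟩ : ∃ K : ℝ, K = ∏ j, (g j / M) := ⟨_, rfl⟩
  have hK1 : 1 ≤ K * M ^ r := by
    have e1 : ∏ j : Fin r, (1 / M) ≤ K := by
      rw [hK]
      apply Finset.prod_le_prod
      · intro j _
        positivity
      · intro j _
        exact div_le_div_of_nonneg_right (hg1 j) hM0.le
    rw [prod_const, card_univ, Fintype.card_fin] at e1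
    have e2 : (1 / M) ^ r * M ^ r = 1 := by
      rw [← mul_pow]
      rw [one_div_mul_cancel hM0.ne', one_pow]
    calc (1 : ℝ) = (1 / M) ^ r * M ^ r := e2.symm
      _ ≤ K * M ^ r := mul_le_mul_of_nonneg_right e1 (by positivity)
  have hK0 : 0 ≤ K := by
    rw [hK]
    exact prod_nonneg fun j _ => div_nonneg (hg0 j) hM0.le
  have hFs : ∑ j, ((F j).card : ℝ) ≤ r * (w / L ^ (U + T + r + 5)) := by
    calc ∑ j, ((F j).card : ℝ) ≤ ∑ j : Fin r, (w / L ^ (U + T + r + 5)) := by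
          apply sum_le_sum
          intro j _
          refine (hF1 j).trans ?_
          have := hYw (U + T + r + 5)
          rw [show T + (U + T + r + 5) = U + 2 * T + r + 5 by ring] at this
          exact this
      _ = r * (w / L ^ (U + T + r + 5)) := by
          rw [sum_const, card_univ, Fintype.card_fin, nsmul_eq_mul]
  -- the bound for exceptional m
  have hFc : ∀ P : Finset ℕ, w / L ^ (T + 2) ≤ P.card →
      (∑ j, ((F j).card : ℝ)) * (1 + K) ≤ ε / 2 / 2 * (P.card * K) := by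
    intro P hP
    have e3 : 1 + K ≤ K * (2 * M ^ r) := by
      have : K ≤ K * M ^ r := by
        apply le_mul_of_one_le_right hK0
        exact one_le_pow₀ hM1
      linarith
    have e4 : w / L ^ (U + T + r + 5) ≤ w / L ^ (T + r + 3) :=
      div_le_div_of_nonneg_left hw0.le (by positivity) (hmono _ _ (by omega))
    have e5 : r * (2 * ((d : ℝ) + 1) ^ r) / L ≤ ε / 4 := by
      rw [div_le_iff₀ hL0]
      rw [div_le_iff₀ hε] at l1
      have e6 : ((d : ℝ) + 1) ^ r ≤ (d + 1) ^ (r + 1) := pow_le_pow_right₀ (by linarith) (by omega)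
      have e7 : r * ((d : ℝ) + 1) ^ r ≤ (r + 1) * (d + 1) ^ (r + 1) := by
        apply mul_le_mul (by linarith) e6 (by positivity) (by linarith)
      nlinarith
    calc (∑ j, ((F j).card : ℝ)) * (1 + K)
        ≤ (r * (w / L ^ (T + r + 3))) * (K * (2 * M ^ r)) := by
          apply mul_le_mul _ e3 (by positivity) (by positivity)
          exact hFs.trans (mul_le_mul_of_nonneg_left e4 hr0)
      _ = w / L ^ (T + 2) * K * (r * (2 * ((d : ℝ) + 1) ^ r) / L) := by
          have : L ^ (T + r + 3) = L ^ (T + 2) * L ^ r * L := by ring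
          rw [this, hM, mul_pow]
          field_simp
      _ ≤ (P.card : ℝ) * K * (ε / 4) := by
          apply mul_le_mul _ e5 (by positivity) (by positivity)
          exact mul_le_mul_of_nonneg_right hP hK0
      _ = ε / 2 / 2 * (P.card * K) := by ring
  have htup : ∀ P ⊆ Ioo u v, (∀ m ∈ P, ∀ j, IsCoprime (m : ℤ) (κ j)) → w / L ^ (T + 2) ≤ P.card →
        |(tupleCount u v κ y s P : ℝ) - P.card * ∏ j, (g j * ((s j).card / M))| ≤
          ε / 2 * (P.card * ∏ j, (g j * ((s j).card / M))) := by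
    intro P hPI hPc hPn
    apply tuples_of u v κ y s P F g M δ (ε / 2) hM0 hg0 (by positivity) hδ.le hδ1
      (by rw [show ε / 2 / 2 = ε / 4 by ring]; exact hδ2) (by rw [show ε / 2 / 2 = ε / 4 by ring]; exact hδ3) hPI hPc hF2
    rw [← hK]
    exact hFc P hPn
  have hGnn : 0 ≤ ∏ j, (g j * ((s j).card / M)) :=
    prod_nonneg fun j _ => mul_nonneg (hg0 j) (div_nonneg (Nat.cast_nonneg _) hM0.le)
  refine ⟨⟨univ.biUnion F, ?_, ?_⟩, ?_, ?_⟩
  · have e6 : ((univ.biUnion F).card : ℝ) ≤ ∑ j, ((F j).card : ℝ) := by exact_mod_cast card_biUnion_le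
    refine e6.trans (hFs.trans ?_)
    have e7 : L ^ (U + T + r + 5) = L ^ U * L ^ (T + r + 5) := by ring
    rw [e7, ← div_div]
    have e8 : (r : ℝ) ≤ L ^ (T + r + 5) := by
      calc (r : ℝ) ≤ L := by linarith
        _ = L ^ 1 := (pow_one L).symm
        _ ≤ L ^ (T + r + 5) := hmono _ _ (by omega)
    rw [mul_div_assoc', div_le_iff₀ (by positivity)]
    have e9 : 0 ≤ w / L ^ U := by positivity
    nlinarith
  · intro m hm hmF hmc
    rw [tupleCount, sum_singleton, tuple_prod]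
    push_cast
    apply prod_approx _ _ δ ε hδ.le hδ1 (fun j => mul_nonneg (hg0 j) (div_nonneg (Nat.cast_nonneg _) hM0.le))
      (by linarith) (by linarith)
    intro j
    have hmFj : m ∉ F j := fun h' => hmF (mem_biUnion.2 ⟨j, mem_univ _, h'⟩)
    obtain ⟨h3, h4⟩ := hF2 j m hm hmFj
    have h5 : ((s j).filter fun i => (u : ℤ) < (m : ℤ) + κ j * ((y j i).val : ℕ) ∧
        (m : ℤ) + κ j * ((y j i).val : ℕ) < (v : ℤ) ∧ ((m : ℤ) + κ j * ((y j i).val : ℕ)).toNat.Prime) =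
        (s j).filter fun i => ((m : ℤ) + κ j * ((y j i).val : ℕ)).toNat.Prime := by
      apply filter_congr
      intro i _
      constructor
      · exact fun h => h.2.2
      · exact fun h => ⟨(h3 i).1, (h3 i).2, h⟩
    rw [h5]
    exact h4 (hmc j)
  · intro P hPI hPc hPn
    have hPn' : w / L ^ (T + 2) ≤ P.card := by
      refine le_trans ?_ hPn
      exact div_le_div_of_nonneg_left hw0.le (by positivity) (hmono _ _ (by omega))
    refine (htup P hPI hPc hPn').trans ?_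
    exact mul_le_mul_of_nonneg_right (by linarith) (mul_nonneg (Nat.cast_nonneg _) hGnn)
  · -- prime m
    have hPI : primesBetween u v ⊆ Ioo u v := filter_subset _ _
    obtain ⟨P, hP⟩ : ∃ P, P = primesBetween u v := ⟨_, rfl⟩
    have hPcard : |(P.card : ℝ) - w / M| ≤ δ * (w / M) := by
      rw [hP]
      exact n3
    rw [← hP] at hPI ⊢
    have e7 := abs_le.1 hPcard
    have e8 : 0 < w / M := by positivity
    have hPn' : w / L ^ (T + 2) ≤ P.card := by
      have e9 : w / L ^ (T + 2) ≤ w / M / 2 := by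
        rw [div_div]
        apply div_le_div_of_nonneg_left hw0.le (by positivity)
        have e10 : M * 2 ≤ L * L := by
          rw [hM]
          have e11 : 8 * ((r : ℝ) + 1) * ((d : ℝ) + 1) ^ (r + 1) ≤ L * ε := by
            rw [div_le_iff₀ hε] at l1
            exact l1
          have e12 : ((d : ℝ) + 1) ≤ ((d : ℝ) + 1) ^ (r + 1) := le_self_pow₀ (by linarith) (by omega)
          have e13 : ((d : ℝ) + 1) ^ (r + 1) ≤ ((r : ℝ) + 1) * ((d : ℝ) + 1) ^ (r + 1) :=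
            le_mul_of_one_le_left (by positivity) (by linarith)
          have e14 : 8 * ((d : ℝ) + 1) ≤ L := by nlinarith
          nlinarith
        calc M * 2 ≤ L * L := e10
          _ = L ^ 2 := (sq L).symm
          _ ≤ L ^ (T + 2) := hmono _ _ (by omega)
      nlinarith
    have hPc : ∀ m ∈ P, ∀ j, IsCoprime (m : ℤ) (κ j) := by
      intro m hm j
      rw [hP, primesBetween, mem_filter, mem_Ioo] at hm
      rw [Int.isCoprime_iff_gcd_eq_one]
      have hmp := hm.2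
      have h11 : (κ j).natAbs < m := by
        have h12 : ((κ j).natAbs : ℝ) < u := by
          have h13 : L ^ (T + 1) ≤ a := by
            have h15 : L ^ (T + 1) * L ^ (U + 2 * T + r + 5 + 2 * T + 7) ≤ a * L ^ (U + 2 * T + r + 5 + 2 * T + 7) := by
              calc L ^ (T + 1) * L ^ (U + 2 * T + r + 5 + 2 * T + 7) = 1 * L ^ (U + 5 * T + r + 13) := by ring
                _ ≤ X := l3
                _ ≤ a * L ^ (U + 2 * T + r + 5 + 2 * T + 7) := ha2
            exact le_of_mul_le_mul_right h15 (by positivity)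
          have h16 : L ^ T < L ^ (T + 1) := by
            rw [pow_succ]
            have : 0 < L ^ T := by positivity
            nlinarith
          have h17 : (a : ℝ) ≤ u := by
            have h19 : a ≤ u := le_trans (Nat.le_self_pow (by omega) a) hu
            exact_mod_cast h19
          have h18 := (hκ j).2
          linarith
        exact lt_trans (by exact_mod_cast h12) hm.1.1
      have h14 : Int.gcd (m : ℤ) (κ j) = Nat.gcd m (κ j).natAbs := by
        rw [Int.gcd_def]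
        simp
      rw [h14]
      exact (Nat.Prime.coprime_iff_not_dvd hmp).2 fun hdvd =>
        absurd (Nat.le_of_dvd (Int.natAbs_pos.2 (hκ j).1) hdvd) (by omega)
    have h2 := htup P hPI hPc hPn'
    obtain ⟨R, hR⟩ : ∃ R : ℝ, R = ∏ j, (g j * ((s j).card / M)) := ⟨_, rfl⟩
    obtain ⟨Q, hQ⟩ : ∃ Q : ℝ, Q = w / M := ⟨_, rfl⟩
    rw [← hR] at hGnn h2 ⊢
    rw [← hQ] at e7 e8 ⊢
    have h5 := abs_le.1 h2
    have hδQ : δ * Q ≤ ε / 4 * Q := mul_le_mul_of_nonneg_right hδε e8.le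
    have h6 : R * P.card ≤ R * ((1 + ε / 4) * Q) := mul_le_mul_of_nonneg_left (by linarith) hGnn
    have h7 : R * ((1 - ε / 4) * Q) ≤ R * P.card := mul_le_mul_of_nonneg_left (by linarith) hGnn
    have h8 : 0 ≤ R * Q := by positivity
    have h9 : ε * ε * (R * Q) ≤ ε * (R * Q) := by
      apply mul_le_mul_of_nonneg_right _ h8
      nlinarith
    have h10 : ε / 2 * (R * P.card) ≤ ε / 2 * (R * ((1 + ε / 4) * Q)) := mul_le_mul_of_nonneg_left h6 (by positivity)
    rw [abs_le]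
    constructor
    · nlinarith [h5.1]
    · nlinarith [h5.2]

end Run7.h337.MK
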