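import Mathlib
import Pool.Agent.Run7.h337.MK.SubTup
import Pool.Agent.Run7.h880.MK.Maj1
import Pool.Agent.Run7.h794.MK.SiaAll

/-!
# Project MK, piece LOC (helper337), part 14: the theorem on all sub-intervals, unconditional
-/

set_option autoImplicit false

namespace Run7.h337.MK

open Finset Filter
open Pool.Agent.N384.MQ (Flat ev_log_pow ev_log_ge)

/-- The tuple law holds in (u, v) for all r flat families whose moduli q_j satisfy X^((d+1)/3) log^C X <= q_j and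
q_j log^D X <= X^d, and all nonzero kappa_j of absolute value at most log^T X. -/
def AllFlat (d r T U V C D X : ℕ) (ε : ℝ) (u v : ℕ) : Prop :=
  ∀ (q : Fin r → ℕ) [∀ j, NeZero (q j)],
    (∀ j, (X : ℝ) ^ (((d + 1 : ℕ) : ℝ) / 3) * Real.log X ^ C ≤ q j ∧ (q j : ℝ) * Real.log X ^ D ≤ (X : ℝ) ^ d) →
    ∀ {ι : Fin r → Type} (s : ∀ j, Finset (ι j)) (y : ∀ j, ι j → ZMod (q j)),
    (∀ j, (s j).Nonempty ∧ Flat (q j) (1 / Real.log X ^ V) (s j) (y j)) →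
    ∀ κ : Fin r → ℤ, (∀ j, κ j ≠ 0 ∧ ((κ j).natAbs : ℝ) ≤ Real.log X ^ T) → TupleLaw d T U X ε u v κ y s

/-- The interval (u, v) contains (1 +- eps) (v - u) / ((d + 1) log X) primes. -/
def PrimeLaw (d X : ℕ) (ε : ℝ) (u v : ℕ) : Prop :=
  |(((Ioo u v).filter Nat.Prime).card : ℝ) - ((v : ℝ) - u) / ((d + 1) * Real.log X)| ≤
    ε * (((v : ℝ) - u) / ((d + 1) * Real.log X))

lemma allFlat_mono {d r T U T' U' V C D X : ℕ} {ε : ℝ} {u v : ℕ} (hT : T ≤ T') (hU : U ≤ U') (hL : 1 ≤ Real.log X)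
    (huv : (u : ℝ) ≤ v) (h : AllFlat d r T' U' V C D X ε u v) : AllFlat d r T U V C D X ε u v := by
  intro q _ hq ι s y hsy κ hκ
  have hm : ∀ e f : ℕ, e ≤ f → Real.log X ^ e ≤ Real.log X ^ f := fun e f hef => pow_le_pow_right₀ hL hef
  have hd : ∀ e f : ℕ, e ≤ f → ((v : ℝ) - u) / Real.log X ^ f ≤ ((v : ℝ) - u) / Real.log X ^ e := fun e f hef =>
    div_le_div_of_nonneg_left (by linarith) (by positivity) (hm e f hef)
  obtain ⟨⟨F, h1, h2⟩, h3, h4⟩ := h q hq s y hsy κ (fun j => ⟨(hκ j).1, (hκ j).2.trans (hm _ _ hT)⟩)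
  exact ⟨⟨F, h1.trans (hd _ _ hU), h2⟩, fun P hP hPc hPn => h3 P hP hPc ((hd _ _ hT).trans hPn), h4⟩

/-- The theorem on sub-intervals, unconditional. The moduli may be as large as X^d / log^D X; also a is at least
X / log^(U+1) X. -/
theorem sub_unc (d : ℕ) (hd : 1 ≤ d) (r T U : ℕ) (ε : ℝ) (hε : 0 < ε) (hε1 : ε ≤ 1) :
    ∃ V C D X₀ : ℕ, ∀ X : ℕ, X₀ ≤ X → 4 ≤ Real.log X ∧
    ∃ E : Finset ℕ, (E.card : ℝ) ≤ X / Real.log X ^ U ∧ ∀ a b : ℕ, 1 ≤ a → a < b → b ≤ X + 1 →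
    (b : ℝ) ≤ a + Real.log X ^ T → (∀ n, a ≤ n → n < b → n ∉ E) → (X : ℝ) ≤ a * Real.log X ^ (U + 1) ∧
    ∀ u v : ℕ, a ^ (d + 1) ≤ u → v ≤ b ^ (d + 1) → (u : ℝ) + (X : ℝ) ^ d / Real.log X ^ T ≤ v →
    PrimeLaw d X ε u v ∧ AllFlat d r T U V C D X ε u v := by
  classical
  obtain ⟨V, C, D, X₀, h⟩ := sub_tuples (Pool.Agent.Run7.h880.MK.t_MAJ1 Pool.Agent.Run7.h794.MK.sia_all) d hd r T (U + 1)
    ε hε hε1
  obtain ⟨X₁, hev⟩ := eventually_atTop.1 ((ev_log_ge 4).and (ev_log_pow (U + 1) 1))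
  refine ⟨V, C, D, max (max X₀ X₁) 3, fun X hX => ?_⟩
  obtain ⟨hL4, hLX⟩ := hev X (le_trans (le_trans (le_max_right _ _) (le_max_left _ _)) hX)
  refine ⟨hL4, ?_⟩
  obtain ⟨E, hE, h2⟩ := h X (le_trans (le_trans (le_max_left _ _) (le_max_left _ _)) hX)
  have hX3 : 3 ≤ X := le_trans (le_max_right _ _) hX
  have hX0 : (0 : ℝ) < X := by
    have : (3 : ℝ) ≤ X := by exact_mod_cast hX3
    linarith
  obtain ⟨L, hL⟩ : ∃ L, L = Real.log X := ⟨_, rfl⟩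
  have hL4' : 4 ≤ L := by rw [hL]; exact hL4
  rw [← hL] at hLX hE
  refine ⟨E ∪ (range (⌊(X : ℝ) / L ^ (U + 1)⌋₊ + 1)), ?_, fun a b h3 h4 h5 h6 h7 => ?_⟩
  · rw [← hL]
    have h8 : ((E ∪ (range (⌊(X : ℝ) / L ^ (U + 1)⌋₊ + 1))).card : ℝ) ≤ E.card + (⌊(X : ℝ) / L ^ (U + 1)⌋₊ + 1) := by
      have := card_union_le E (range (⌊(X : ℝ) / L ^ (U + 1)⌋₊ + 1))
      rw [card_range] at this
      exact_mod_cast this
    have h9 : (⌊(X : ℝ) / L ^ (U + 1)⌋₊ : ℝ) ≤ X / L ^ (U + 1) := Nat.floor_le (by positivity)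
    have h10 : 1 ≤ (X : ℝ) / L ^ (U + 1) := by
      rw [le_div_iff₀ (by positivity)]
      exact hLX
    have h11 : 3 * ((X : ℝ) / L ^ (U + 1)) ≤ X / L ^ U := by
      rw [pow_succ, ← div_div, mul_div_assoc', div_le_iff₀ (by linarith)]
      have : 0 ≤ (X : ℝ) / L ^ U := by positivity
      nlinarith
    linarith
  · obtain h12 := h2 a b h3 h4 h5 h6 (fun n hn1 hn2 hn3 => h7 n hn1 hn2 (mem_union_left _ hn3))
    have h13 : (X : ℝ) ≤ a * L ^ (U + 1) := by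
      have h14 := h7 a (le_refl a) h4
      rw [mem_union, not_or, mem_range, not_lt] at h14
      have h15 : (X : ℝ) / L ^ (U + 1) ≤ a := by
        have h16 := Nat.lt_floor_add_one ((X : ℝ) / L ^ (U + 1))
        have h17 : ((⌊(X : ℝ) / L ^ (U + 1)⌋₊ + 1 : ℕ) : ℝ) ≤ a := by exact_mod_cast h14.2
        push_cast at h17
        linarith
      rwa [div_le_iff₀ (by positivity)] at h15
    refine ⟨by rw [← hL]; exact h13, fun u v h18 h19 h20 => ?_⟩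
    obtain ⟨h21, h22⟩ := h12 u v h18 h19 h20
    refine ⟨h21, ?_⟩
    have huv : (u : ℝ) ≤ v := by
      have : 0 ≤ (X : ℝ) ^ d / Real.log X ^ T := by
        rw [← hL]
        positivity
      linarith
    apply allFlat_mono (le_refl T) (Nat.le_succ U) (by linarith) huv
    intro q _ hq ι s y hsy κ hκ
    exact h22 q hq s y hsy κ hκ

end Run7.h337.MK
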