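import Mathlib
import Pool.Agent.Run7.h337.MK.SubU
import Pool.Agent.Run7.h337.MK.Tree

/-!
# Project MK, piece LOC (helper337), part 17: trees of primes in all sub-intervals
-/

set_option autoImplicit false

namespace Run7.h337.MK

open Finset Filter
open Pool.Agent.N384.MQ (Flat ev_log_pow ev_log_ge)

/-- The expected number of the (i_0, .., i_(r-1)) for which all vertices of a tree with r edges are primes. -/
noncomputable def treeExpect {ι : Type} (d X r : ℕ) (κ : ℕ → ℤ) (s : ℕ → Finset ι) : ℝ :=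
  ∏ j ∈ range r, ((κ j).natAbs / (Nat.totient (κ j).natAbs : ℝ) * ((s j).card / ((d + 1) * Real.log X)))

/-- The tree law in the interval (u, v): for roots from an arbitrary set, and for prime roots. -/
def TreeLaw {ι : Type} {q : ℕ → ℕ} (d r T X : ℕ) (ε : ℝ) (u v : ℕ) (par : ℕ → ℕ) (κ : ℕ → ℤ)
    (y : ∀ j, ι → ZMod (q j)) (s : ℕ → Finset ι) : Prop :=
  (∀ P ⊆ Ioo u v, (∀ m ∈ P, ∀ j < r, IsCoprime (m : ℤ) (κ j)) → ((v : ℝ) - u) / Real.log X ^ T ≤ P.card →
    |(treeCount u v r par (fun j t => κ j * ((y j t).val : ℕ)) s P : ℝ) - P.card * treeExpect d X r κ s| ≤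
      ε * (P.card * treeExpect d X r κ s)) ∧
  |(treeCount u v r par (fun j t => κ j * ((y j t).val : ℕ)) s (primesBetween u v) : ℝ) -
    ((v : ℝ) - u) / ((d + 1) * Real.log X) * treeExpect d X r κ s| ≤
    ε * (((v : ℝ) - u) / ((d + 1) * Real.log X) * treeExpect d X r κ s)

/-- The tree law holds in (u, v) for all trees with r edges, all flat families whose moduli q_j satisfy
X^((d+1)/3) log^C X <= q_j and q_j log^D X <= X^d, and all nonzero kappa_j of absolute value at most log^T X. -/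
def AllTrees (d r T V C D X : ℕ) (ε : ℝ) (u v : ℕ) : Prop :=
  ∀ par : ℕ → ℕ, (∀ j, par j ≤ j) → ∀ (q : ℕ → ℕ) [∀ j, NeZero (q j)],
    (∀ j < r, (X : ℝ) ^ (((d + 1 : ℕ) : ℝ) / 3) * Real.log X ^ C ≤ q j ∧ (q j : ℝ) * Real.log X ^ D ≤ (X : ℝ) ^ d) →
    ∀ {ι : Type} (s : ℕ → Finset ι) (y : ∀ j, ι → ZMod (q j)),
    (∀ j < r, (s j).Nonempty ∧ Flat (q j) (1 / Real.log X ^ V) (s j) (y j)) →
    ∀ κ : ℕ → ℤ, (∀ j < r, κ j ≠ 0 ∧ ((κ j).natAbs : ℝ) ≤ Real.log X ^ T) → TreeLaw d r T X ε u v par κ y s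

lemma coprime_prime_lt (p : ℕ) (κ : ℤ) (hp : p.Prime) (hκ : κ ≠ 0) (h : κ.natAbs < p) : IsCoprime (p : ℤ) κ := by
  rw [Int.isCoprime_iff_gcd_eq_one]
  have h14 : Int.gcd (p : ℤ) κ = Nat.gcd p κ.natAbs := by
    rw [Int.gcd_def]
    simp
  rw [h14]
  exact (Nat.Prime.coprime_iff_not_dvd hp).2 fun hdvd =>
    absurd (Nat.le_of_dvd (Int.natAbs_pos.2 hκ) hdvd) (by omega)

theorem trees_of (d r T U V C D X : ℕ) (ε δ : ℝ) (u v : ℕ) (hε : 0 < ε) (hε1 : ε ≤ 1) (hδ : 0 < δ) (hδ1 : δ ≤ 1)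
    (hδε : δ ≤ ε / 4) (hδr : (1 + δ) ^ r ≤ 1 + ε / 4) (hL4 : 4 ≤ Real.log X)
    (hLd : 2 * ((d : ℝ) + 1) * Real.log X ≤ Real.log X ^ 2)
    (hLr : 4 * (2 * r * (2 * ((d : ℝ) + 1)) ^ r) ≤ ε * Real.log X) (hU : T + r + 3 ≤ U) (huv : (u : ℝ) < v)
    (hu : Real.log X ^ T ≤ u) (hP : PrimeLaw d X δ u v) (hA : AllFlat d 1 T U V C D X δ u v) :
    AllTrees d r T V C D X ε u v := by
  classical
  intro par hpar q _ hq ι s y hsy κ hκ
  obtain ⟨L, hL⟩ : ∃ L, L = Real.log X := ⟨_, rfl⟩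
  obtain ⟨w, hw⟩ : ∃ w : ℝ, w = (v : ℝ) - u := ⟨_, rfl⟩
  obtain ⟨M, hM⟩ : ∃ M : ℝ, M = ((d : ℝ) + 1) * L := ⟨_, rfl⟩
  obtain ⟨e, he⟩ : ∃ e : ℕ → ℝ, e = fun j => (κ j).natAbs / (Nat.totient (κ j).natAbs : ℝ) * ((s j).card / M) :=
    ⟨_, rfl⟩
  have hTE : treeExpect d X r κ s = ∏ j ∈ range r, e j := by
    rw [treeExpect, he, hM, hL]
  have hd0 : (0 : ℝ) ≤ d := Nat.cast_nonneg _
  have hr0 : (0 : ℝ) ≤ r := Nat.cast_nonneg _
  rw [← hL] at hL4 hLd hLr hu
  have hL0 : 0 < L := by linarith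
  have hL1 : 1 ≤ L := by linarith
  have hM0 : 0 < M := by rw [hM]; positivity
  have hM1 : 1 ≤ M := by rw [hM]; nlinarith
  have hw0 : 0 < w := by rw [hw]; linarith
  have hmono : ∀ e f : ℕ, e ≤ f → L ^ e ≤ L ^ f := fun e f hef => pow_le_pow_right₀ hL1 hef
  have hN : ∀ j, ∃ F : Finset ℕ, j < r → ((F.card : ℝ) ≤ w / L ^ U ∧ ∀ m ∈ Ioo u v, m ∉ F → IsCoprime (m : ℤ) (κ j) →
      |((((s j).filter fun t => (u : ℤ) < m + κ j * ((y j t).val : ℕ) ∧ (m : ℤ) + κ j * ((y j t).val : ℕ) < v ∧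
        ((m : ℤ) + κ j * ((y j t).val : ℕ)).toNat.Prime).card : ℕ) : ℝ) - e j| ≤ δ * e j) := by
    intro j
    by_cases hj : j < r
    · obtain ⟨⟨F, h1, h2⟩, _, _⟩ := @hA (fun _ : Fin 1 => q j) (fun _ => inferInstance) (fun _ => hq j hj)
        (fun _ => ι) (fun _ => s j) (fun _ => y j) (fun _ => hsy j hj) (fun _ => κ j) (fun _ => hκ j hj)
      rw [← hw, ← hL] at h1
      refine ⟨F, fun _ => ⟨h1, fun m hm hmF hc => ?_⟩⟩
      have h3 := h2 m hm hmF (fun _ => hc)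
      rw [tupleCount, sum_singleton, tuple_prod, expect, univ_unique, prod_singleton, prod_singleton, ← hL, ← hM] at h3
      rw [he]
      exact h3
    · exact ⟨∅, fun h => absurd h hj⟩
  choose F hF using hN
  have heM : ∀ j < r, ((s j).card : ℝ) ≤ M * e j := by
    intro j hj
    have h1 := g_ge_one (κ j) (hκ j hj).1
    have h2 : M * e j = (κ j).natAbs / (Nat.totient (κ j).natAbs : ℝ) * (s j).card := by
      rw [he]
      simp only
      field_simp
    rw [h2]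
    exact le_mul_of_one_le_left (Nat.cast_nonneg _) h1
  have he0 : ∀ j < r, 0 ≤ e j := by
    intro j hj
    have h1 := heM j hj
    have h2 : (0 : ℝ) ≤ (s j).card := Nat.cast_nonneg _
    by_contra h3
    nlinarith
  obtain ⟨R, hR⟩ : ∃ R : ℝ, R = ∏ j ∈ range r, e j := ⟨_, rfl⟩
  have hR0 : 0 ≤ R := by
    rw [hR]
    exact prod_nonneg fun j hj => he0 j (by rw [mem_range] at hj; exact hj)
  have hprod : ∏ j ∈ range r, ((s j).card + e j) ≤ (2 * M) ^ r * R := by
    calc ∏ j ∈ range r, ((s j).card + e j) ≤ ∏ j ∈ range r, (2 * M * e j) := by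
          apply Finset.prod_le_prod
          · intro j hj
            have := he0 j (by rw [mem_range] at hj; exact hj)
            positivity
          · intro j hj
            have h1 := he0 j (by rw [mem_range] at hj; exact hj)
            have h2 := heM j (by rw [mem_range] at hj; exact hj)
            nlinarith
      _ = (2 * M) ^ r * R := by
          rw [prod_mul_distrib, prod_const, card_range, hR]
  have hpc : ∀ p ∈ Ioo u v, p.Prime → ∀ j < r, IsCoprime (p : ℤ) (κ j) := by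
    intro p hp hpp j hj
    apply coprime_prime_lt p (κ j) hpp (hκ j hj).1
    have h1 : ((κ j).natAbs : ℝ) ≤ u := by
      have := (hκ j hj).2
      rw [← hL] at this
      linarith
    have h2 : (κ j).natAbs ≤ u := by exact_mod_cast h1
    have h3 := (mem_Ioo.1 hp).1
    omega
  have hgen : ∀ P ⊆ Ioo u v, (∀ m ∈ P, ∀ j < r, IsCoprime (m : ℤ) (κ j)) → w / L ^ (T + 2) ≤ P.card →
      |(treeCount u v r par (fun j t => κ j * ((y j t).val : ℕ)) s P : ℝ) - P.card * R| ≤ ε / 2 * (P.card * R) := by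
    intro P hPI hPc hPn
    have h1 := tree_law u v par hpar (fun j t => κ j * ((y j t).val : ℕ)) s P hPI (w / L ^ U) δ hδ.le
      (by positivity) (fun j m => IsCoprime (m : ℤ) (κ j)) e F r (fun j hj m hm => hPc m hm j hj)
      (fun j hj p hp hpp => hpc p hp hpp j hj) he0 (fun j hj => (hF j hj).1) (fun j hj => (hF j hj).2)
    rw [← hR] at h1
    refine h1.trans ?_
    have h2 : ((1 + δ) ^ r - 1) * (P.card * R) ≤ ε / 4 * (P.card * R) :=
      mul_le_mul_of_nonneg_right (by linarith) (mul_nonneg (Nat.cast_nonneg _) hR0)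
    have h3 : w / L ^ U * r * (1 + δ) ^ r * ∏ j ∈ range r, ((s j).card + e j) ≤ ε / 4 * (P.card * R) := by
      have h4 : w / L ^ U ≤ w / L ^ (T + 2) / (L ^ r * L) := by
        rw [div_div]
        apply div_le_div_of_nonneg_left hw0.le (by positivity)
        calc L ^ (T + 2) * (L ^ r * L) = L ^ (T + r + 3) := by ring
          _ ≤ L ^ U := hmono _ _ hU
      have h5 : w / L ^ U * r * (1 + δ) ^ r ≤ w / L ^ (T + 2) / (L ^ r * L) * r * 2 := by
        apply mul_le_mul _ (by linarith) (by positivity) (by positivity)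
        exact mul_le_mul_of_nonneg_right h4 hr0
      have h0 : 0 ≤ (2 * M) ^ r * R := by positivity
      calc w / L ^ U * r * (1 + δ) ^ r * ∏ j ∈ range r, ((s j).card + e j)
          ≤ (w / L ^ (T + 2) / (L ^ r * L) * r * 2) * ((2 * M) ^ r * R) := by
            apply mul_le_mul h5 hprod _ (by positivity)
            exact prod_nonneg fun j hj => by
              have := he0 j (by rw [mem_range] at hj; exact hj)
              positivity
        _ = w / L ^ (T + 2) * R * (2 * r * (2 * ((d : ℝ) + 1)) ^ r / L) := by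
            rw [hM, show (2 * (((d : ℝ) + 1) * L)) ^ r = (2 * ((d : ℝ) + 1)) ^ r * L ^ r by rw [← mul_pow]; ring_nf]
            field_simp
        _ ≤ P.card * R * (ε / 4) := by
            apply mul_le_mul
            · exact mul_le_mul_of_nonneg_right hPn hR0
            · rw [div_le_iff₀ hL0]
              linarith
            · positivity
            · exact mul_nonneg (Nat.cast_nonneg _) hR0
        _ = ε / 4 * (P.card * R) := by ring
    linarith
  have hL2 : ∀ P : Finset ℕ, w / L ^ T ≤ P.card → w / L ^ (T + 2) ≤ P.card := by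
    intro P hP
    refine le_trans ?_ hP
    exact div_le_div_of_nonneg_left hw0.le (by positivity) (hmono _ _ (by omega))
  rw [TreeLaw, hTE, ← hR, ← hL, ← hM, ← hw]
  refine ⟨fun P hPI hPc hPn => ?_, ?_⟩
  · refine (hgen P hPI hPc (hL2 P hPn)).trans ?_
    exact mul_le_mul_of_nonneg_right (by linarith) (mul_nonneg (Nat.cast_nonneg _) hR0)
  · have hPI : primesBetween u v ⊆ Ioo u v := filter_subset _ _
    obtain ⟨P, hPd⟩ : ∃ P, P = primesBetween u v := ⟨_, rfl⟩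
    have hPcard : |(P.card : ℝ) - w / M| ≤ δ * (w / M) := by
      rw [hPd, hw, hM, hL]
      exact hP
    rw [← hPd] at hPI ⊢
    have e7 := abs_le.1 hPcard
    obtain ⟨Q, hQ⟩ : ∃ Q : ℝ, Q = w / M := ⟨_, rfl⟩
    have e8 : 0 < w / M := by positivity
    have hPn' : w / L ^ (T + 2) ≤ P.card := by
      have e9 : w / L ^ (T + 2) ≤ w / M / 2 := by
        rw [div_div]
        apply div_le_div_of_nonneg_left hw0.le (by positivity)
        calc M * 2 ≤ L ^ 2 := by
              rw [hM]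
              linarith
          _ ≤ L ^ (T + 2) := hmono _ _ (by omega)
      nlinarith
    have hPc : ∀ m ∈ P, ∀ j < r, IsCoprime (m : ℤ) (κ j) := by
      intro m hm
      rw [hPd, primesBetween, mem_filter] at hm
      exact hpc m hm.1 hm.2
    have h2 := hgen P hPI hPc hPn'
    rw [← hQ] at e7 e8 ⊢
    have h5 := abs_le.1 h2
    have hδQ : δ * Q ≤ ε / 4 * Q := mul_le_mul_of_nonneg_right hδε e8.le
    have h6 : R * P.card ≤ R * ((1 + ε / 4) * Q) := mul_le_mul_of_nonneg_left (by linarith) hR0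
    have h7 : R * ((1 - ε / 4) * Q) ≤ R * P.card := mul_le_mul_of_nonneg_left (by linarith) hR0
    have h8 : 0 ≤ R * Q := by positivity
    have h9 : ε * ε * (R * Q) ≤ ε * (R * Q) := by
      apply mul_le_mul_of_nonneg_right _ h8
      nlinarith
    have h10 : ε / 2 * (R * P.card) ≤ ε / 2 * (R * ((1 + ε / 4) * Q)) := mul_le_mul_of_nonneg_left h6 (by positivity)
    rw [abs_le]
    constructor
    · nlinarith [h5.1]
    · nlinarith [h5.2]

lemma allTrees_mono {d r T T' V C D X : ℕ} {ε : ℝ} {u v : ℕ} (hT : T ≤ T') (hL : 1 ≤ Real.log X) (huv : (u : ℝ) ≤ v)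
    (h : AllTrees d r T' V C D X ε u v) : AllTrees d r T V C D X ε u v := by
  intro par hpar q _ hq ι s y hsy κ hκ
  have hm : ∀ e f : ℕ, e ≤ f → Real.log X ^ e ≤ Real.log X ^ f := fun e f hef => pow_le_pow_right₀ hL hef
  have hd : ((v : ℝ) - u) / Real.log X ^ T' ≤ ((v : ℝ) - u) / Real.log X ^ T :=
    div_le_div_of_nonneg_left (by linarith) (by positivity) (hm _ _ hT)
  obtain ⟨h3, h4⟩ := h par hpar q hq s y hsy κ (fun j hj => ⟨(hκ j hj).1, (hκ j hj).2.trans (hm _ _ hT)⟩)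
  exact ⟨fun P hP hPc hPn => h3 P hP hPc (hd.trans hPn), h4⟩

/-- Trees of primes in all sub-intervals, unconditional. -/
theorem tree_unc (d : ℕ) (hd : 1 ≤ d) (r T U : ℕ) (ε : ℝ) (hε : 0 < ε) (hε1 : ε ≤ 1) :
    ∃ V C D X₀ : ℕ, ∀ X : ℕ, X₀ ≤ X → 4 ≤ Real.log X ∧
    ∃ E : Finset ℕ, (E.card : ℝ) ≤ X / Real.log X ^ U ∧ ∀ a b : ℕ, 1 ≤ a → a < b → b ≤ X + 1 →
    (b : ℝ) ≤ a + Real.log X ^ T → (∀ n, a ≤ n → n < b → n ∉ E) → (X : ℝ) ≤ a * Real.log X ^ (U + 1) ∧
    ∀ u v : ℕ, a ^ (d + 1) ≤ u → v ≤ b ^ (d + 1) → (u : ℝ) + (X : ℝ) ^ d / Real.log X ^ T ≤ v →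
    PrimeLaw d X ε u v ∧ AllTrees d r T V C D X ε u v := by
  classical
  obtain ⟨δ₀, hδ₀, hδ₀1, hδ₀2, _⟩ := delta_exists r (ε / 4) (by positivity)
  obtain ⟨δ, hδeq⟩ : ∃ δ : ℝ, δ = min δ₀ (ε / 4) := ⟨_, rfl⟩
  have hδ : 0 < δ := by rw [hδeq]; positivity
  have hδ1 : δ ≤ 1 := by rw [hδeq]; exact (min_le_left _ _).trans hδ₀1
  have hδε : δ ≤ ε / 4 := by rw [hδeq]; exact min_le_right _ _
  have hδδ : δ ≤ δ₀ := by rw [hδeq]; exact min_le_left _ _
  have hδ2 : (1 + δ) ^ r ≤ 1 + ε / 4 := (pow_le_pow_left₀ (by linarith) (by linarith) r).trans hδ₀2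
  obtain ⟨V, C, D, X₀, h⟩ := sub_unc d hd 1 T (U + T + r + 3) δ hδ hδ1
  obtain ⟨X₁, hev⟩ := eventually_atTop.1 (((ev_log_ge (2 * ((d : ℝ) + 1))).and
    (ev_log_ge (4 * (2 * r * (2 * ((d : ℝ) + 1)) ^ r) / ε))).and (ev_log_pow (U + T + r + 4 + T) 1))
  refine ⟨V, C, D, max (max X₀ X₁) 3, fun X hX => ?_⟩
  have hX0' : X₀ ≤ X := le_trans (le_trans (le_max_left _ _) (le_max_left _ _)) hX
  have hX1' : X₁ ≤ X := le_trans (le_trans (le_max_right _ _) (le_max_left _ _)) hX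
  have hX3 : 3 ≤ X := le_trans (le_max_right _ _) hX
  have hX0 : (0 : ℝ) < X := by
    have : (3 : ℝ) ≤ X := by exact_mod_cast hX3
    linarith
  obtain ⟨⟨l1, l2⟩, l3⟩ := hev X hX1'
  obtain ⟨hL4, E, hE, h2⟩ := h X hX0'
  have hL1 : 1 ≤ Real.log X := by linarith
  have hL0 : 0 < Real.log X := by linarith
  refine ⟨hL4, E ∪ (range (⌊(X : ℝ) / Real.log X ^ (U + 1)⌋₊ + 1)), ?_, fun a b ha hab hbX hbT hgood => ?_⟩
  · have h8 : ((E ∪ (range (⌊(X : ℝ) / Real.log X ^ (U + 1)⌋₊ + 1))).card : ℝ) ≤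
        E.card + (⌊(X : ℝ) / Real.log X ^ (U + 1)⌋₊ + 1) := by
      have := card_union_le E (range (⌊(X : ℝ) / Real.log X ^ (U + 1)⌋₊ + 1))
      rw [card_range] at this
      exact_mod_cast this
    have h9 : (⌊(X : ℝ) / Real.log X ^ (U + 1)⌋₊ : ℝ) ≤ X / Real.log X ^ (U + 1) := Nat.floor_le (by positivity)
    have h10 : 1 ≤ (X : ℝ) / Real.log X ^ (U + 1) := by
      rw [le_div_iff₀ (by positivity)]
      refine le_trans ?_ l3
      exact mul_le_mul_of_nonneg_left (pow_le_pow_right₀ hL1 (by omega)) (by norm_num)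
    have h11 : 3 * ((X : ℝ) / Real.log X ^ (U + 1)) ≤ X / Real.log X ^ U := by
      rw [pow_succ, ← div_div, mul_div_assoc', div_le_iff₀ hL0]
      have : 0 ≤ (X : ℝ) / Real.log X ^ U := by positivity
      nlinarith
    have h12 : (E.card : ℝ) ≤ X / Real.log X ^ (U + 1) :=
      hE.trans (div_le_div_of_nonneg_left hX0.le (by positivity) (pow_le_pow_right₀ hL1 (by omega)))
    linarith
  obtain ⟨h3, h4⟩ := h2 a b ha hab hbX hbT (fun n hn1 hn2 hn3 => hgood n hn1 hn2 (mem_union_left _ hn3))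
  have h13 : (X : ℝ) ≤ a * Real.log X ^ (U + 1) := by
    have h14 := hgood a (le_refl a) hab
    rw [mem_union, not_or, mem_range, not_lt] at h14
    have h15 : (X : ℝ) / Real.log X ^ (U + 1) ≤ a := by
      have h16 := Nat.lt_floor_add_one ((X : ℝ) / Real.log X ^ (U + 1))
      have h17 : ((⌊(X : ℝ) / Real.log X ^ (U + 1)⌋₊ + 1 : ℕ) : ℝ) ≤ a := by exact_mod_cast h14.2
      push_cast at h17
      linarith
    rwa [div_le_iff₀ (by positivity)] at h15
  refine ⟨h13, fun u v hu hv huv => ?_⟩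
  obtain ⟨h5, h6⟩ := h4 u v hu hv huv
  have h7 : PrimeLaw d X ε u v := by
    rw [PrimeLaw] at h5 ⊢
    refine h5.trans (mul_le_mul_of_nonneg_right (by linarith) ?_)
    have h8 : 0 ≤ (X : ℝ) ^ d / Real.log X ^ T := by positivity
    apply div_nonneg (by linarith) (by positivity)
  refine ⟨h7, ?_⟩
  have h9 : 0 < (X : ℝ) ^ d / Real.log X ^ T := by positivity
  apply trees_of d r T (U + T + r + 3) V C D X ε δ u v hε hε1 hδ hδ1 hδε hδ2 hL4 _ _ (by omega) (by linarith) _ h5 h6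
  · rw [sq]
    exact mul_le_mul_of_nonneg_right l1 (by linarith)
  · rw [div_le_iff₀ hε] at l2
    linarith
  · have h10 : Real.log X ^ T ≤ a := by
      have h11 : Real.log X ^ T * Real.log X ^ (U + T + r + 4) ≤ a * Real.log X ^ (U + T + r + 4) := by
        calc Real.log X ^ T * Real.log X ^ (U + T + r + 4) = 1 * Real.log X ^ (U + T + r + 4 + T) := by ring
          _ ≤ X := l3
          _ ≤ _ := h3
      exact le_of_mul_le_mul_right h11 (by positivity)
    have h12 : (a : ℝ) ≤ u := by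
      have h13 : a ≤ u := le_trans (Nat.le_self_pow (by omega) a) hu
      exact_mod_cast h13
    linarith

end Run7.h337.MK
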