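import Mathlib
import Pool.Agent.Run7.h337.MK.TreeU
import Pool.Agent.Run7.h337.MK.TreeT

/-!
# Project MK, piece LOC (helper337), part 19: translated trees of primes in short chains of blocks
-/

set_option autoImplicit false

namespace Run7.h337.MK

open Finset Filter
open Pool.Agent.N384.MQ (Flat ev_log_pow ev_log_ge)

/-- The tree law in the interval (u, v) with translations t: for roots from an arbitrary set, and for prime roots. -/
def TreeLawT {ι : Type} {q : ℕ → ℕ} (d r T X : ℕ) (ε : ℝ) (u v : ℕ) (t : ℕ → ℤ) (par : ℕ → ℕ) (κ : ℕ → ℤ)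
    (y : ∀ j, ι → ZMod (q j)) (s : ℕ → Finset ι) : Prop :=
  (∀ P ⊆ Ioo u v, (∀ m ∈ P, ∀ j < r, par j = 0 → IsCoprime (m : ℤ) (κ j)) →
    ((v : ℝ) - u) / Real.log X ^ T ≤ P.card →
    |(treeCountT u v r par (fun j c => κ j * ((y j c).val : ℕ)) s t P : ℝ) - P.card * treeExpect d X r κ s| ≤
      ε * (P.card * treeExpect d X r κ s)) ∧
  |(treeCountT u v r par (fun j c => κ j * ((y j c).val : ℕ)) s t (primesBetween u v) : ℝ) -
    ((v : ℝ) - u) / ((d + 1) * Real.log X) * treeExpect d X r κ s| ≤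
    ε * (((v : ℝ) - u) / ((d + 1) * Real.log X) * treeExpect d X r κ s)

/-- The translated tree law between lo and hi: for all intervals (u, v) of length at least X^d / log^T X, all translations
t_0 = 0, t_1, .., t_r for which all (u + t_j, v + t_j) are contained in (lo, hi), all trees with r edges, all flat families
whose moduli q_j satisfy X^((d+1)/3) log^C X <= q_j and q_j log^D X <= X^d, and all nonzero kappa_j of absolute value at most
log^T X which divide t_(j+1) - t_(par j). -/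
def AllTreesT (d r T V C D X : ℕ) (ε : ℝ) (lo hi : ℕ) : Prop :=
  ∀ u v : ℕ, (u : ℝ) + (X : ℝ) ^ d / Real.log X ^ T ≤ v → ∀ t : ℕ → ℤ, t 0 = 0 →
    (∀ j ≤ r, (lo : ℤ) ≤ u + t j ∧ (v : ℤ) + t j ≤ hi) →
    ∀ par : ℕ → ℕ, (∀ j, par j ≤ j) → ∀ (q : ℕ → ℕ) [∀ j, NeZero (q j)],
    (∀ j < r, (X : ℝ) ^ (((d + 1 : ℕ) : ℝ) / 3) * Real.log X ^ C ≤ q j ∧ (q j : ℝ) * Real.log X ^ D ≤ (X : ℝ) ^ d) →
    ∀ {ι : Type} (s : ℕ → Finset ι) (y : ∀ j, ι → ZMod (q j)),
    (∀ j < r, (s j).Nonempty ∧ Flat (q j) (1 / Real.log X ^ V) (s j) (y j)) →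
    ∀ κ : ℕ → ℤ, (∀ j < r, κ j ≠ 0 ∧ ((κ j).natAbs : ℝ) ≤ Real.log X ^ T ∧ κ j ∣ t (j + 1) - t (par j)) →
    TreeLawT d r T X ε u v t par κ y s

theorem treesT_of (d r T U V C D X : ℕ) (ε δ : ℝ) (lo hi : ℕ) (hε : 0 < ε) (hε1 : ε ≤ 1) (hδ : 0 < δ) (hδ1 : δ ≤ 1)
    (hδε : δ ≤ ε / 4) (hδr : (1 + δ) ^ r ≤ 1 + ε / 4) (hL4 : 4 ≤ Real.log X) (hX : 0 < X)
    (hLd : 2 * ((d : ℝ) + 1) * Real.log X ≤ Real.log X ^ 2)
    (hLr : 4 * (2 * r * (2 * ((d : ℝ) + 1)) ^ r) ≤ ε * Real.log X) (hU : T + r + 3 ≤ U)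
    (hlo : Real.log X ^ T ≤ lo)
    (hall : ∀ u v : ℕ, lo ≤ u → v ≤ hi → (u : ℝ) + (X : ℝ) ^ d / Real.log X ^ T ≤ v →
      PrimeLaw d X δ u v ∧ AllFlat d 1 T U V C D X δ u v) :
    AllTreesT d r T V C D X ε lo hi := by
  classical
  intro u v huv' t ht0 ht par hpar q _ hq ι s y hsy κ hκ
  obtain ⟨L, hL⟩ : ∃ L, L = Real.log X := ⟨_, rfl⟩
  obtain ⟨w, hw⟩ : ∃ w : ℝ, w = (v : ℝ) - u := ⟨_, rfl⟩
  obtain ⟨M, hM⟩ : ∃ M : ℝ, M = ((d : ℝ) + 1) * L := ⟨_, rfl⟩
  obtain ⟨e, he⟩ : ∃ e : ℕ → ℝ, e = fun j => (κ j).natAbs / (Nat.totient (κ j).natAbs : ℝ) * ((s j).card / M) :=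
    ⟨_, rfl⟩
  have hTE : treeExpect d X r κ s = ∏ j ∈ range r, e j := by
    rw [treeExpect, he, hM, hL]
  have hd0 : (0 : ℝ) ≤ d := Nat.cast_nonneg _
  have hr0 : (0 : ℝ) ≤ r := Nat.cast_nonneg _
  rw [← hL] at hL4 hLd hLr hlo huv'
  have hL0 : 0 < L := by linarith
  have hL1 : 1 ≤ L := by linarith
  have hM0 : 0 < M := by rw [hM]; positivity
  have hM1 : 1 ≤ M := by rw [hM]; nlinarith
  have hX0 : (0 : ℝ) < X := by exact_mod_cast hX
  have hw0 : 0 < w := by
    have : 0 < (X : ℝ) ^ d / L ^ T := by positivity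
    rw [hw]
    linarith
  have hmono : ∀ e f : ℕ, e ≤ f → L ^ e ≤ L ^ f := fun e f hef => pow_le_pow_right₀ hL1 hef
  have hN : ∀ j, ∃ F : Finset ℕ, j < r → ((F.card : ℝ) ≤ w / L ^ U ∧ ∀ m ∈ Ioo u v, m ∉ F →
      IsCoprime ((m : ℤ) + t (par j)) (κ j) →
      |((((s j).filter fun c => (u : ℤ) < m + κ j * ((y j c).val : ℕ) ∧ (m : ℤ) + κ j * ((y j c).val : ℕ) < v ∧
        ((m : ℤ) + κ j * ((y j c).val : ℕ) + t (j + 1)).toNat.Prime).card : ℕ) : ℝ) - e j| ≤ δ * e j) := by
    intro j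
    by_cases hj : j < r
    · obtain ⟨b1, b2⟩ := ht (j + 1) hj
      obtain ⟨u', hu'⟩ : ∃ u' : ℕ, (u' : ℤ) = u + t (j + 1) := ⟨(u + t (j + 1)).toNat, Int.toNat_of_nonneg (by omega)⟩
      have huvN : (u : ℤ) ≤ v := by
        have h1 : (u : ℝ) ≤ v := by linarith
        exact_mod_cast h1
      obtain ⟨v', hv'⟩ : ∃ v' : ℕ, (v' : ℤ) = v + t (j + 1) := ⟨(v + t (j + 1)).toNat, Int.toNat_of_nonneg (by omega)⟩
      have hwr : (v' : ℝ) - u' = v - u := by
        have h1 : (v' : ℤ) - u' = v - u := by omega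
        exact_mod_cast h1
      obtain ⟨_, hA⟩ := hall u' v' (by omega) (by omega) (by rw [← hL]; linarith)
      obtain ⟨⟨F, h1, h2⟩, _, _⟩ := @hA (fun _ : Fin 1 => q j) (fun _ => inferInstance) (fun _ => hq j hj)
        (fun _ => ι) (fun _ => s j) (fun _ => y j) (fun _ => hsy j hj) (fun _ => κ j)
        (fun _ => ⟨(hκ j hj).1, (hκ j hj).2.1⟩)
      rw [hwr, ← hw, ← hL] at h1
      refine ⟨(Ioo u v).filter fun m : ℕ => ((m : ℤ) + t (j + 1)).toNat ∈ F, fun _ => ⟨le_trans ?_ h1, ?_⟩⟩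
      · have h3 : ((Ioo u v).filter fun m : ℕ => ((m : ℤ) + t (j + 1)).toNat ∈ F).card ≤ F.card := by
          apply card_le_card_of_injOn (fun m : ℕ => ((m : ℤ) + t (j + 1)).toNat)
          · intro m hm
            rw [mem_coe, mem_filter] at hm
            exact hm.2
          · intro m hm m' hm' hmm
            rw [mem_coe, mem_filter, mem_Ioo] at hm hm'
            simp only at hmm
            omega
        exact_mod_cast h3
      · intro m hm hmF hc
        rw [mem_Ioo] at hm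
        obtain ⟨m', hm'⟩ : ∃ m' : ℕ, (m' : ℤ) = m + t (j + 1) :=
          ⟨((m : ℤ) + t (j + 1)).toNat, Int.toNat_of_nonneg (by omega)⟩
        have hmI : m' ∈ Ioo u' v' := by
          rw [mem_Ioo]
          omega
        have hmF' : m' ∉ F := by
          intro h4
          apply hmF
          rw [mem_filter, mem_Ioo]
          refine ⟨hm, ?_⟩
          rw [← hm', Int.toNat_natCast]
          exact h4
        have hcop : IsCoprime (m' : ℤ) (κ j) := by
          obtain ⟨k, hk⟩ := (hκ j hj).2.2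
          have h5 : (m' : ℤ) = (m + t (par j)) + κ j * k := by
            rw [hm', ← hk]
            ring
          rw [h5]
          exact IsCoprime.add_mul_left_left hc k
        have h3 := h2 m' hmI hmF' (fun _ => hcop)
        rw [tupleCount, sum_singleton, tuple_prod, expect, univ_unique, prod_singleton, prod_singleton, ← hL, ← hM]
          at h3
        rw [he]
        have h6 : ((s j).filter fun c => (u : ℤ) < m + κ j * ((y j c).val : ℕ) ∧ (m : ℤ) + κ j * ((y j c).val : ℕ) < v ∧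
            ((m : ℤ) + κ j * ((y j c).val : ℕ) + t (j + 1)).toNat.Prime) =
            (s j).filter fun c => (u' : ℤ) < m' + κ j * ((y j c).val : ℕ) ∧
              (m' : ℤ) + κ j * ((y j c).val : ℕ) < v' ∧ ((m' : ℤ) + κ j * ((y j c).val : ℕ)).toNat.Prime := by
          apply filter_congr
          intro c _
          have h7 : (m : ℤ) + κ j * ((y j c).val : ℕ) + t (j + 1) = m' + κ j * ((y j c).val : ℕ) := by
            rw [hm']
            ring
          rw [h7, hm', hu', hv']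
          constructor
          · rintro ⟨a1, a2, a3⟩
            exact ⟨by linarith, by linarith, a3⟩
          · rintro ⟨a1, a2, a3⟩
            exact ⟨by linarith, by linarith, a3⟩
        rw [h6]
        exact h3
    · exact ⟨∅, fun h => absurd h hj⟩
  choose F hF using hN
  have heM : ∀ j < r, ((s j).card : ℝ) ≤ M * e j := by
    intro j hj
    have h1 := g_ge_one (κ j) (hκ j hj).1
    have h2 : M * e j = (κ j).natAbs / (Nat.totient (κ j).natAbs : ℝ) * (s j).card := by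
      rw [he]
      simp only
      field_simp
    rw [h2]
    exact le_mul_of_one_le_left (Nat.cast_nonneg _) h1
  have he0 : ∀ j < r, 0 ≤ e j := by
    intro j hj
    have h1 := heM j hj
    have h2 : (0 : ℝ) ≤ (s j).card := Nat.cast_nonneg _
    by_contra h3
    nlinarith
  obtain ⟨R, hR⟩ : ∃ R : ℝ, R = ∏ j ∈ range r, e j := ⟨_, rfl⟩
  have hR0 : 0 ≤ R := by
    rw [hR]
    exact prod_nonneg fun j hj => he0 j (by rw [mem_range] at hj; exact hj)
  have hprod : ∏ j ∈ range r, ((s j).card + e j) ≤ (2 * M) ^ r * R := by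
    calc ∏ j ∈ range r, ((s j).card + e j) ≤ ∏ j ∈ range r, (2 * M * e j) := by
          apply Finset.prod_le_prod
          · intro j hj
            have := he0 j (by rw [mem_range] at hj; exact hj)
            positivity
          · intro j hj
            have h1 := he0 j (by rw [mem_range] at hj; exact hj)
            have h2 := heM j (by rw [mem_range] at hj; exact hj)
            nlinarith
      _ = (2 * M) ^ r * R := by
          rw [prod_mul_distrib, prod_const, card_range, hR]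
  have hκlo : ∀ j < r, (κ j).natAbs ≤ lo := by
    intro j hj
    have h1 := (hκ j hj).2.1
    rw [← hL] at h1
    have h2 : ((κ j).natAbs : ℝ) ≤ lo := by linarith
    exact_mod_cast h2
  have hgen : ∀ P ⊆ Ioo u v, (∀ m ∈ P, ∀ j < r, par j = 0 → IsCoprime (m : ℤ) (κ j)) → w / L ^ (T + 2) ≤ P.card →
      |(treeCountT u v r par (fun j c => κ j * ((y j c).val : ℕ)) s t P : ℝ) - P.card * R| ≤ ε / 2 * (P.card * R) := by
    intro P hPI hPc hPn
    have h1 := tree_lawT u v par hpar (fun j c => κ j * ((y j c).val : ℕ)) s t P hPI (w / L ^ U) δ hδ.le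
      (by positivity) (fun j m => IsCoprime ((m : ℤ) + t (par j)) (κ j)) e F r
      (fun j hj hj0 m hm => by
        rw [hj0, ht0, add_zero]
        exact hPc m hm j hj hj0)
      (fun j hj k hjk p hp hpp => by
        rw [hjk]
        have hk : k + 1 ≤ r := by
          have := hpar j
          omega
        obtain ⟨b1, b2⟩ := ht (k + 1) hk
        have hp' := mem_Ioo.1 hp
        have h3 : (((p : ℤ) + t (k + 1)).toNat : ℤ) = p + t (k + 1) := Int.toNat_of_nonneg (by omega)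
        rw [← h3]
        apply coprime_prime_lt _ (κ j) hpp (hκ j hj).1
        have h4 := hκlo j hj
        omega)
      he0 (fun j hj => (hF j hj).1) (fun j hj => (hF j hj).2)
    rw [← hR] at h1
    refine h1.trans ?_
    have h2 : ((1 + δ) ^ r - 1) * (P.card * R) ≤ ε / 4 * (P.card * R) :=
      mul_le_mul_of_nonneg_right (by linarith) (mul_nonneg (Nat.cast_nonneg _) hR0)
    have h3 : w / L ^ U * r * (1 + δ) ^ r * ∏ j ∈ range r, ((s j).card + e j) ≤ ε / 4 * (P.card * R) := by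
      have h4 : w / L ^ U ≤ w / L ^ (T + 2) / (L ^ r * L) := by
        rw [div_div]
        apply div_le_div_of_nonneg_left hw0.le (by positivity)
        calc L ^ (T + 2) * (L ^ r * L) = L ^ (T + r + 3) := by ring
          _ ≤ L ^ U := hmono _ _ hU
      have h5 : w / L ^ U * r * (1 + δ) ^ r ≤ w / L ^ (T + 2) / (L ^ r * L) * r * 2 := by
        apply mul_le_mul _ (by linarith) (by positivity) (by positivity)
        exact mul_le_mul_of_nonneg_right h4 hr0
      have h0 : 0 ≤ (2 * M) ^ r * R := by positivity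
      calc w / L ^ U * r * (1 + δ) ^ r * ∏ j ∈ range r, ((s j).card + e j)
          ≤ (w / L ^ (T + 2) / (L ^ r * L) * r * 2) * ((2 * M) ^ r * R) := by
            apply mul_le_mul h5 hprod _ (by positivity)
            exact prod_nonneg fun j hj => by
              have := he0 j (by rw [mem_range] at hj; exact hj)
              positivity
        _ = w / L ^ (T + 2) * R * (2 * r * (2 * ((d : ℝ) + 1)) ^ r / L) := by
            rw [hM, show (2 * (((d : ℝ) + 1) * L)) ^ r = (2 * ((d : ℝ) + 1)) ^ r * L ^ r by rw [← mul_pow]; ring_nf]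
            field_simp
        _ ≤ P.card * R * (ε / 4) := by
            apply mul_le_mul
            · exact mul_le_mul_of_nonneg_right hPn hR0
            · rw [div_le_iff₀ hL0]
              linarith
            · positivity
            · exact mul_nonneg (Nat.cast_nonneg _) hR0
        _ = ε / 4 * (P.card * R) := by ring
    linarith
  have hL2 : ∀ P : Finset ℕ, w / L ^ T ≤ P.card → w / L ^ (T + 2) ≤ P.card := by
    intro P hP
    refine le_trans ?_ hP
    exact div_le_div_of_nonneg_left hw0.le (by positivity) (hmono _ _ (by omega))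
  rw [TreeLawT, hTE, ← hR, ← hL, ← hM, ← hw]
  refine ⟨fun P hPI hPc hPn => ?_, ?_⟩
  · refine (hgen P hPI hPc (hL2 P hPn)).trans ?_
    exact mul_le_mul_of_nonneg_right (by linarith) (mul_nonneg (Nat.cast_nonneg _) hR0)
  · have hPI : primesBetween u v ⊆ Ioo u v := filter_subset _ _
    obtain ⟨P, hPd⟩ : ∃ P, P = primesBetween u v := ⟨_, rfl⟩
    obtain ⟨b1, b2⟩ := ht 0 (Nat.zero_le _)
    rw [ht0, add_zero] at b1 b2
    obtain ⟨hP, _⟩ := hall u v (by omega) (by omega) (by rw [← hL]; exact huv')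
    have hPcard : |(P.card : ℝ) - w / M| ≤ δ * (w / M) := by
      rw [hPd, hw, hM, hL]
      exact hP
    rw [← hPd] at hPI ⊢
    have e7 := abs_le.1 hPcard
    obtain ⟨Q, hQ⟩ : ∃ Q : ℝ, Q = w / M := ⟨_, rfl⟩
    have e8 : 0 < w / M := by positivity
    have hPn' : w / L ^ (T + 2) ≤ P.card := by
      have e9 : w / L ^ (T + 2) ≤ w / M / 2 := by
        rw [div_div]
        apply div_le_div_of_nonneg_left hw0.le (by positivity)
        calc M * 2 ≤ L ^ 2 := by
              rw [hM]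
              linarith
          _ ≤ L ^ (T + 2) := hmono _ _ (by omega)
      nlinarith
    have hPc : ∀ m ∈ P, ∀ j < r, par j = 0 → IsCoprime (m : ℤ) (κ j) := by
      intro m hm j hj _
      rw [hPd, primesBetween, mem_filter, mem_Ioo] at hm
      apply coprime_prime_lt m (κ j) hm.2 (hκ j hj).1
      have h4 := hκlo j hj
      omega
    have h2 := hgen P hPI hPc hPn'
    rw [← hQ] at e7 e8 ⊢
    have h5 := abs_le.1 h2
    have hδQ : δ * Q ≤ ε / 4 * Q := mul_le_mul_of_nonneg_right hδε e8.le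
    have h6 : R * P.card ≤ R * ((1 + ε / 4) * Q) := mul_le_mul_of_nonneg_left (by linarith) hR0
    have h7 : R * ((1 - ε / 4) * Q) ≤ R * P.card := mul_le_mul_of_nonneg_left (by linarith) hR0
    have h8 : 0 ≤ R * Q := by positivity
    have h9 : ε * ε * (R * Q) ≤ ε * (R * Q) := by
      apply mul_le_mul_of_nonneg_right _ h8
      nlinarith
    have h10 : ε / 2 * (R * P.card) ≤ ε / 2 * (R * ((1 + ε / 4) * Q)) := mul_le_mul_of_nonneg_left h6 (by positivity)
    rw [abs_le]
    constructor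
    · nlinarith [h5.1]
    · nlinarith [h5.2]

lemma allTreesT_mono {d r T T' V C D X : ℕ} {ε : ℝ} {lo hi lo' hi' : ℕ} (hT : T ≤ T') (hL : 1 ≤ Real.log X)
    (hlo : lo' ≤ lo) (hhi : hi ≤ hi')
    (h : AllTreesT d r T' V C D X ε lo' hi') : AllTreesT d r T V C D X ε lo hi := by
  intro u v huv t ht0 ht par hpar q _ hq ι s y hsy κ hκ
  have hm : ∀ e f : ℕ, e ≤ f → Real.log X ^ e ≤ Real.log X ^ f := fun e f hef => pow_le_pow_right₀ hL hef
  have h0 : 0 ≤ (X : ℝ) ^ d / Real.log X ^ T := by positivity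
  have h1 : (X : ℝ) ^ d / Real.log X ^ T' ≤ (X : ℝ) ^ d / Real.log X ^ T :=
    div_le_div_of_nonneg_left (by positivity) (by positivity) (hm _ _ hT)
  have hd : ((v : ℝ) - u) / Real.log X ^ T' ≤ ((v : ℝ) - u) / Real.log X ^ T :=
    div_le_div_of_nonneg_left (by linarith) (by positivity) (hm _ _ hT)
  obtain ⟨h3, h4⟩ := h u v (by linarith) t ht0 (fun j hj => ⟨by have := (ht j hj).1; omega, by have := (ht j hj).2; omega⟩)
    par hpar q hq s y hsy κ (fun j hj => ⟨(hκ j hj).1, (hκ j hj).2.1.trans (hm _ _ hT), (hκ j hj).2.2⟩)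
  exact ⟨fun P hP hPc hPn => h3 P hP hPc (hd.trans hPn), h4⟩

/-- Translated trees of primes in short chains of blocks, unconditional. -/
theorem treeT_unc (d : ℕ) (hd : 1 ≤ d) (r T U : ℕ) (ε : ℝ) (hε : 0 < ε) (hε1 : ε ≤ 1) :
    ∃ V C D X₀ : ℕ, ∀ X : ℕ, X₀ ≤ X → 4 ≤ Real.log X ∧
    ∃ E : Finset ℕ, (E.card : ℝ) ≤ X / Real.log X ^ U ∧ ∀ a b : ℕ, 1 ≤ a → a < b → b ≤ X + 1 →
    (b : ℝ) ≤ a + Real.log X ^ T → (∀ n, a ≤ n → n < b → n ∉ E) → (X : ℝ) ≤ a * Real.log X ^ (U + 1) ∧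
    (∀ u v : ℕ, a ^ (d + 1) ≤ u → v ≤ b ^ (d + 1) → (u : ℝ) + (X : ℝ) ^ d / Real.log X ^ T ≤ v →
      PrimeLaw d X ε u v) ∧ AllTreesT d r T V C D X ε (a ^ (d + 1)) (b ^ (d + 1)) := by
  classical
  obtain ⟨δ₀, hδ₀, hδ₀1, hδ₀2, _⟩ := delta_exists r (ε / 4) (by positivity)
  obtain ⟨δ, hδeq⟩ : ∃ δ : ℝ, δ = min δ₀ (ε / 4) := ⟨_, rfl⟩
  have hδ : 0 < δ := by rw [hδeq]; positivity
  have hδ1 : δ ≤ 1 := by rw [hδeq]; exact (min_le_left _ _).trans hδ₀1
  have hδε : δ ≤ ε / 4 := by rw [hδeq]; exact min_le_right _ _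
  have hδδ : δ ≤ δ₀ := by rw [hδeq]; exact min_le_left _ _
  have hδ2 : (1 + δ) ^ r ≤ 1 + ε / 4 := (pow_le_pow_left₀ (by linarith) (by linarith) r).trans hδ₀2
  obtain ⟨V, C, D, X₀, h⟩ := sub_unc d hd 1 T (U + T + r + 3) δ hδ hδ1
  obtain ⟨X₁, hev⟩ := eventually_atTop.1 (((ev_log_ge (2 * ((d : ℝ) + 1))).and
    (ev_log_ge (4 * (2 * r * (2 * ((d : ℝ) + 1)) ^ r) / ε))).and (ev_log_pow (U + T + r + 4 + T) 1))
  refine ⟨V, C, D, max (max X₀ X₁) 3, fun X hX => ?_⟩
  have hX0' : X₀ ≤ X := le_trans (le_trans (le_max_left _ _) (le_max_left _ _)) hX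
  have hX1' : X₁ ≤ X := le_trans (le_trans (le_max_right _ _) (le_max_left _ _)) hX
  have hX3 : 3 ≤ X := le_trans (le_max_right _ _) hX
  have hX0 : (0 : ℝ) < X := by
    have : (3 : ℝ) ≤ X := by exact_mod_cast hX3
    linarith
  obtain ⟨⟨l1, l2⟩, l3⟩ := hev X hX1'
  obtain ⟨hL4, E, hE, h2⟩ := h X hX0'
  have hL1 : 1 ≤ Real.log X := by linarith
  have hL0 : 0 < Real.log X := by linarith
  refine ⟨hL4, E ∪ (range (⌊(X : ℝ) / Real.log X ^ (U + 1)⌋₊ + 1)), ?_, fun a b ha hab hbX hbT hgood => ?_⟩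
  · have h8 : ((E ∪ (range (⌊(X : ℝ) / Real.log X ^ (U + 1)⌋₊ + 1))).card : ℝ) ≤
        E.card + (⌊(X : ℝ) / Real.log X ^ (U + 1)⌋₊ + 1) := by
      have := card_union_le E (range (⌊(X : ℝ) / Real.log X ^ (U + 1)⌋₊ + 1))
      rw [card_range] at this
      exact_mod_cast this
    have h9 : (⌊(X : ℝ) / Real.log X ^ (U + 1)⌋₊ : ℝ) ≤ X / Real.log X ^ (U + 1) := Nat.floor_le (by positivity)
    have h10 : 1 ≤ (X : ℝ) / Real.log X ^ (U + 1) := by
      rw [le_div_iff₀ (by positivity)]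
      refine le_trans ?_ l3
      exact mul_le_mul_of_nonneg_left (pow_le_pow_right₀ hL1 (by omega)) (by norm_num)
    have h11 : 3 * ((X : ℝ) / Real.log X ^ (U + 1)) ≤ X / Real.log X ^ U := by
      rw [pow_succ, ← div_div, mul_div_assoc', div_le_iff₀ hL0]
      have : 0 ≤ (X : ℝ) / Real.log X ^ U := by positivity
      nlinarith
    have h12 : (E.card : ℝ) ≤ X / Real.log X ^ (U + 1) :=
      hE.trans (div_le_div_of_nonneg_left hX0.le (by positivity) (pow_le_pow_right₀ hL1 (by omega)))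
    linarith
  obtain ⟨h3, h4⟩ := h2 a b ha hab hbX hbT (fun n hn1 hn2 hn3 => hgood n hn1 hn2 (mem_union_left _ hn3))
  have h13 : (X : ℝ) ≤ a * Real.log X ^ (U + 1) := by
    have h14 := hgood a (le_refl a) hab
    rw [mem_union, not_or, mem_range, not_lt] at h14
    have h15 : (X : ℝ) / Real.log X ^ (U + 1) ≤ a := by
      have h16 := Nat.lt_floor_add_one ((X : ℝ) / Real.log X ^ (U + 1))
      have h17 : ((⌊(X : ℝ) / Real.log X ^ (U + 1)⌋₊ + 1 : ℕ) : ℝ) ≤ a := by exact_mod_cast h14.2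
      push_cast at h17
      linarith
    rwa [div_le_iff₀ (by positivity)] at h15
  refine ⟨h13, fun u v hu hv huv => ?_, ?_⟩
  · obtain ⟨h5, h6⟩ := h4 u v hu hv huv
    rw [PrimeLaw] at h5 ⊢
    refine h5.trans (mul_le_mul_of_nonneg_right (by linarith) ?_)
    have h8 : 0 ≤ (X : ℝ) ^ d / Real.log X ^ T := by positivity
    apply div_nonneg (by linarith) (by positivity)
  · apply treesT_of d r T (U + T + r + 3) V C D X ε δ _ _ hε hε1 hδ hδ1 hδε hδ2 hL4 (by omega) _ _ (by omega) _ h4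
    · rw [sq]
      exact mul_le_mul_of_nonneg_right l1 (by linarith)
    · rw [div_le_iff₀ hε] at l2
      linarith
    · have h10 : Real.log X ^ T ≤ a := by
        have h11 : Real.log X ^ T * Real.log X ^ (U + T + r + 4) ≤ a * Real.log X ^ (U + T + r + 4) := by
          calc Real.log X ^ T * Real.log X ^ (U + T + r + 4) = 1 * Real.log X ^ (U + T + r + 4 + T) := by ring
            _ ≤ X := l3
            _ ≤ _ := h3
        exact le_of_mul_le_mul_right h11 (by positivity)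
      have h12 : (a : ℝ) ≤ (a ^ (d + 1) : ℕ) := by
        have h13 : a ≤ a ^ (d + 1) := Nat.le_self_pow (by omega) a
        exact_mod_cast h13
      linarith

end Run7.h337.MK
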