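import Mathlib
import Pool.Agent.Run7.h337.MK.SubU

/-!
# Project MK, piece LOC (helper337), part 15: square roots of the primes with many prime neighbours
-/

set_option autoImplicit false

namespace Run7.h337.MK

open Finset Filter
open Pool.Agent.N384.MQ (Flat ev_log_pow ev_log_ge)

open Classical in
/-- The primes p between a and b for which the number of the (i_1, .., i_r) with all p + kappa_j y_j(i_j) primes between
a and b is (1 +- eps) times the expected number. -/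
noncomputable def goodPrimes {r : ℕ} {ι : Fin r → Type} {q : Fin r → ℕ} (X : ℕ) (ε : ℝ) (a b : ℕ) (κ : Fin r → ℤ)
    (y : ∀ j, ι j → ZMod (q j)) (s : ∀ j, Finset (ι j)) : Finset ℕ :=
  (primesBetween a b).filter fun p => |(tupleCount a b κ y s {p} : ℝ) - expect 1 X κ s| ≤ ε * expect 1 X κ s

lemma isCoprime_of_lt (p : ℕ) (κ : ℤ) (hp : p.Prime) (hκ : κ ≠ 0) (h : κ.natAbs < p) : IsCoprime (p : ℤ) κ := by
  rw [Int.isCoprime_iff_gcd_eq_one]
  have h14 : Int.gcd (p : ℤ) κ = Nat.gcd p κ.natAbs := by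
    rw [Int.gcd_def]
    simp
  rw [h14]
  exact (Nat.Prime.coprime_iff_not_dvd hp).2 fun hdvd =>
    absurd (Nat.le_of_dvd (Int.natAbs_pos.2 hκ) hdvd) (by omega)

/-- Andrica's conjecture for the primes with many prime neighbours, for almost all n. -/
theorem andrica (r T U : ℕ) (ε : ℝ) (hε : 0 < ε) (hε1 : ε ≤ 1 / 2) :
    ∃ V C D X₀ : ℕ, ∀ X : ℕ, X₀ ≤ X →
    ∃ E : Finset ℕ, (E.card : ℝ) ≤ X / Real.log X ^ U ∧ ∀ n : ℕ, 1 ≤ n → n ≤ X → n ∉ E →
    ∀ (q : Fin r → ℕ) [∀ j, NeZero (q j)],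
    (∀ j, (X : ℝ) ^ (2 / 3 : ℝ) * Real.log X ^ C ≤ q j ∧ (q j : ℝ) * Real.log X ^ D ≤ X) →
    ∀ {ι : Fin r → Type} (s : ∀ j, Finset (ι j)) (y : ∀ j, ι j → ZMod (q j)),
    (∀ j, (s j).Nonempty ∧ Flat (q j) (1 / Real.log X ^ V) (s j) (y j)) →
    ∀ κ : Fin r → ℤ, (∀ j, κ j ≠ 0 ∧ ((κ j).natAbs : ℝ) ≤ Real.log X ^ T) →
    (∀ α β : ℝ, (n : ℝ) ≤ α → β ≤ n + 1 → α + 1 / Real.log X ^ T ≤ β →
      |((((goodPrimes X ε (n ^ 2) ((n + 1) ^ 2) κ y s).filter fun p : ℕ => α < √(p : ℝ) ∧ √(p : ℝ) < β).card : ℕ) : ℝ) -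
        (β ^ 2 - α ^ 2) / (2 * Real.log X)| ≤ ε * ((β ^ 2 - α ^ 2) / (2 * Real.log X))) ∧
    (∀ p ∈ goodPrimes X ε (n ^ 2) ((n + 1) ^ 2) κ y s, ∀ p' ∈ goodPrimes X ε (n ^ 2) ((n + 1) ^ 2) κ y s, p < p' →
      (∀ p'' ∈ goodPrimes X ε (n ^ 2) ((n + 1) ^ 2) κ y s, ¬ (p < p'' ∧ p'' < p')) →
      √(p' : ℝ) - √(p : ℝ) < 1 / Real.log X ^ T) := by
  classical
  obtain ⟨V, C, D, X₀, h⟩ := sub_unc 1 (le_refl 1) r (T + (U + T + 3) + 2) (U + T + 3) (ε / 4) (by positivity) (by linarith)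
  obtain ⟨X₁, hev⟩ := eventually_atTop.1 ((ev_log_ge (32 / ε)).and (ev_log_pow (U + 2 * T + 6) (32 / ε)))
  refine ⟨V, C, D, max (max X₀ X₁) 3, fun X hX => ?_⟩
  obtain ⟨l1, l2⟩ := hev X (le_trans (le_trans (le_max_right _ _) (le_max_left _ _)) hX)
  obtain ⟨hL4, E, hE, h2⟩ := h X (le_trans (le_trans (le_max_left _ _) (le_max_left _ _)) hX)
  have hX3 : 3 ≤ X := le_trans (le_max_right _ _) hX
  have hX0 : (0 : ℝ) < X := by
    have : (3 : ℝ) ≤ X := by exact_mod_cast hX3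
    linarith
  obtain ⟨L, hL⟩ : ∃ L, L = Real.log X := ⟨_, rfl⟩
  have hL4' : 4 ≤ L := by rw [hL]; exact hL4
  have hL0 : 0 < L := by linarith
  have hL1 : 1 ≤ L := by linarith
  have hmono : ∀ e f : ℕ, e ≤ f → L ^ e ≤ L ^ f := fun e f hef => pow_le_pow_right₀ hL1 hef
  rw [← hL] at l1 l2 hE
  refine ⟨E, ?_, fun n hn1 hnX hnE q _ hq ι s y hsy κ hκ => ?_⟩
  · rw [← hL]
    exact hE.trans (div_le_div_of_nonneg_left hX0.le (by positivity) (hmono _ _ (by omega)))
  have hn0 : (0 : ℝ) < n := by exact_mod_cast hn1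
  have hblock : (X : ℝ) ≤ n * Real.log X ^ (U + T + 3 + 1) ∧ ∀ u v : ℕ, n ^ (1 + 1) ≤ u → v ≤ (n + 1) ^ (1 + 1) →
      (u : ℝ) + (X : ℝ) ^ 1 / Real.log X ^ (T + (U + T + 3) + 2) ≤ v →
      PrimeLaw 1 X (ε / 4) u v ∧ AllFlat 1 r (T + (U + T + 3) + 2) (U + T + 3) V C D X (ε / 4) u v := by
    apply h2 n (n + 1) hn1 (Nat.lt_succ_self n) (by omega)
    · push_cast
      have : (1 : ℝ) ≤ Real.log X ^ (T + (U + T + 3) + 2) := one_le_pow₀ (by linarith)
      linarith
    · intro k h3 h4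
      rw [show k = n by omega]
      exact hnE
  obtain ⟨hnL, hlaw⟩ := hblock
  rw [← hL] at hnL hlaw
  rw [← hL] at hsy hκ hq ⊢
  rw [pow_one] at hlaw
  -- n is large
  have hn2 : 32 / ε * L ^ (T + 2) ≤ n := by
    have h3 : (32 / ε * L ^ (T + 2)) * L ^ (U + T + 3 + 1) ≤ n * L ^ (U + T + 3 + 1) := by
      calc (32 / ε * L ^ (T + 2)) * L ^ (U + T + 3 + 1) = 32 / ε * L ^ (U + 2 * T + 6) := by ring
        _ ≤ X := l2
        _ ≤ _ := hnL
    exact le_of_mul_le_mul_right h3 (by positivity)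
  have h32 : 64 ≤ 32 / ε := by
    rw [le_div_iff₀ hε]
    linarith
  -- the law for the whole block
  have hfull := (hlaw (n ^ 2) ((n + 1) ^ 2) (le_refl _) (le_refl _) (by
    push_cast
    have h3 : (X : ℝ) / L ^ (T + (U + T + 3) + 2) ≤ n := by
      rw [div_le_iff₀ (by positivity)]
      refine hnL.trans ?_
      exact mul_le_mul_of_nonneg_left (hmono _ _ (by omega)) hn0.le
    nlinarith)).2
  have hq' : ∀ j, (X : ℝ) ^ (((1 + 1 : ℕ) : ℝ) / 3) * Real.log X ^ C ≤ q j ∧ (q j : ℝ) * Real.log X ^ D ≤ (X : ℝ) ^ 1 := by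
    intro j
    rw [pow_one, ← hL]
    have : (((1 + 1 : ℕ) : ℝ) / 3) = 2 / 3 := by norm_num
    rw [this]
    exact hq j
  have hlogT : L ^ T ≤ L ^ (T + (U + T + 3) + 2) := hmono _ _ (by omega)
  obtain ⟨⟨F, hF1, hF2⟩, -, -⟩ := hfull q hq' s y (by rw [← hL]; exact hsy) κ (fun j => ⟨(hκ j).1, by
    rw [← hL]
    exact (hκ j).2.trans hlogT⟩)
  rw [← hL] at hF1
  have hFn : (F.card : ℝ) ≤ 3 * n / L ^ (U + T + 3) := by
    refine hF1.trans ?_
    apply div_le_div_of_nonneg_right _ (by positivity)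
    have : (1 : ℝ) ≤ n := by exact_mod_cast hn1
    push_cast
    nlinarith
  have hgood : ∀ p ∈ primesBetween (n ^ 2) ((n + 1) ^ 2), p ∉ F → p ∈ goodPrimes X ε (n ^ 2) ((n + 1) ^ 2) κ y s := by
    intro p hp hpF
    rw [goodPrimes, mem_filter]
    refine ⟨hp, ?_⟩
    rw [primesBetween, mem_filter] at hp
    have h3 : ∀ j, IsCoprime (p : ℤ) (κ j) := by
      intro j
      apply isCoprime_of_lt p (κ j) hp.2 (hκ j).1
      have h4 := mem_Ioo.1 hp.1
      have h5 : ((κ j).natAbs : ℝ) < p := by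
        have h6 : (n : ℝ) ≤ (n : ℝ) ^ 2 := by
          have : (1 : ℝ) ≤ n := by exact_mod_cast hn1
          nlinarith
        have h7 : (n : ℝ) ^ 2 < p := by exact_mod_cast h4.1
        have h8 := (hκ j).2
        have h9 : L ^ T ≤ L ^ (T + 2) := hmono _ _ (by omega)
        have h10 : L ^ (T + 2) ≤ 32 / ε * L ^ (T + 2) := le_mul_of_one_le_left (by positivity) (by linarith)
        linarith
      exact_mod_cast h5
    refine (hF2 p hp.1 hpF h3).trans ?_
    apply mul_le_mul_of_nonneg_right (by linarith)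
    rw [expect]
    exact prod_nonneg fun j _ => mul_nonneg (div_nonneg (Nat.cast_nonneg _) (Nat.cast_nonneg _))
      (div_nonneg (Nat.cast_nonneg _) (mul_nonneg (by positivity) (by rw [← hL]; exact hL0.le)))
  have part1 : ∀ α β : ℝ, (n : ℝ) ≤ α → β ≤ n + 1 → α + 1 / L ^ T ≤ β →
      |((((goodPrimes X ε (n ^ 2) ((n + 1) ^ 2) κ y s).filter fun p : ℕ => α < √(p : ℝ) ∧ √(p : ℝ) < β).card : ℕ) : ℝ) -
        (β ^ 2 - α ^ 2) / (2 * L)| ≤ ε * ((β ^ 2 - α ^ 2) / (2 * L)) := by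
    intro α β hα hβ hαβ
    have hα0 : 0 < α := by linarith
    have h1L : 0 < 1 / L ^ T := by positivity
    have hβ0 : 0 < β := by linarith
    obtain ⟨w, hw⟩ : ∃ w : ℝ, w = β ^ 2 - α ^ 2 := ⟨_, rfl⟩
    rw [← hw]
    have hw1 : 2 * n / L ^ T ≤ w := by
      have e1 : w = (β - α) * (β + α) := by rw [hw]; ring
      rw [e1]
      calc 2 * n / L ^ T = (1 / L ^ T) * (2 * n) := by ring
        _ ≤ (β - α) * (β + α) := by
            apply mul_le_mul (by linarith) (by linarith) (by positivity) (by linarith)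
    have hw0 : 0 < w := lt_of_lt_of_le (by positivity) hw1
    obtain ⟨u, hu⟩ : ∃ u : ℕ, u = ⌊α ^ 2⌋₊ := ⟨_, rfl⟩
    obtain ⟨v, hv⟩ : ∃ v : ℕ, v = ⌈β ^ 2⌉₊ := ⟨_, rfl⟩
    have hu1 : n ^ 2 ≤ u := by
      rw [hu]
      apply Nat.le_floor
      push_cast
      exact pow_le_pow_left₀ hn0.le hα 2
    have hv1 : v ≤ (n + 1) ^ 2 := by
      rw [hv]
      apply Nat.ceil_le.2
      push_cast
      exact pow_le_pow_left₀ hβ0.le hβ 2
    have hu2 : (u : ℝ) ≤ α ^ 2 := by rw [hu]; exact Nat.floor_le (by positivity)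
    have hu3 : α ^ 2 < u + 1 := by rw [hu]; exact Nat.lt_floor_add_one _
    have hv2 : β ^ 2 ≤ v := by rw [hv]; exact Nat.le_ceil _
    have hv3 : (v : ℝ) < β ^ 2 + 1 := by rw [hv]; exact Nat.ceil_lt_add_one (by positivity)
    have hvu1 : w ≤ (v : ℝ) - u := by rw [hw]; linarith
    have hvu2 : (v : ℝ) - u ≤ w + 2 := by rw [hw]; linarith
    have hprime := (hlaw u v hu1 hv1 (by
      have h3 : (X : ℝ) / L ^ (T + (U + T + 3) + 2) ≤ 2 * n / L ^ T := by
        rw [div_le_div_iff₀ (by positivity) (by positivity)]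
        calc (X : ℝ) * L ^ T ≤ (n * L ^ (U + T + 3 + 1)) * L ^ T := mul_le_mul_of_nonneg_right hnL (by positivity)
          _ = n * L ^ (T + (U + T + 3) + 1) := by ring
          _ ≤ (2 * n) * L ^ (T + (U + T + 3) + 2) := by
              apply mul_le_mul (by linarith) (hmono _ _ (by omega)) (by positivity) (by positivity)
      linarith)).1
    rw [PrimeLaw] at hprime
    have e2 : (((1 : ℕ) : ℝ) + 1) * Real.log X = 2 * L := by
      rw [← hL]
      norm_num
    rw [e2] at hprime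
    -- the sets
    have hsub1 : ((goodPrimes X ε (n ^ 2) ((n + 1) ^ 2) κ y s).filter fun p : ℕ => α < √(p : ℝ) ∧ √(p : ℝ) < β) ⊆
        (Ioo u v).filter Nat.Prime := by
      intro p hp
      rw [mem_filter, goodPrimes, mem_filter, primesBetween, mem_filter] at hp
      rw [mem_filter, mem_Ioo]
      refine ⟨⟨?_, ?_⟩, hp.1.1.2⟩
      · have h3 : α ^ 2 < p := (Real.lt_sqrt hα0.le).1 hp.2.1
        have h4 : (u : ℝ) < p := by linarith
        exact_mod_cast h4
      · have h3 : (p : ℝ) < β ^ 2 := by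
          have := (Real.sqrt_lt' hβ0).1 hp.2.2
          exact this
        have h4 : (p : ℝ) < v := by linarith
        exact_mod_cast h4
    have hsub2 : (Ioo u v).filter Nat.Prime ⊆
        ((goodPrimes X ε (n ^ 2) ((n + 1) ^ 2) κ y s).filter fun p : ℕ => α < √(p : ℝ) ∧ √(p : ℝ) < β) ∪ F := by
      intro p hp
      rw [mem_filter, mem_Ioo] at hp
      rw [mem_union]
      by_cases hpF : p ∈ F
      · exact Or.inr hpF
      · left
        rw [mem_filter]
        refine ⟨hgood p ?_ hpF, ?_, ?_⟩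
        · rw [primesBetween, mem_filter, mem_Ioo]
          exact ⟨⟨by omega, by omega⟩, hp.2⟩
        · rw [Real.lt_sqrt hα0.le]
          have h3 : u < p := hp.1.1
          rw [hu, Nat.floor_lt (by positivity)] at h3
          exact h3
        · rw [Real.sqrt_lt' hβ0]
          have h3 : p < v := hp.1.2
          rw [hv, Nat.lt_ceil] at h3
          exact h3
    have c1 : ((((goodPrimes X ε (n ^ 2) ((n + 1) ^ 2) κ y s).filter fun p : ℕ => α < √(p : ℝ) ∧ √(p : ℝ) < β).card : ℕ) : ℝ) ≤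
        (((Ioo u v).filter Nat.Prime).card : ℝ) := by exact_mod_cast card_le_card hsub1
    have c2 : (((Ioo u v).filter Nat.Prime).card : ℝ) ≤
        ((((goodPrimes X ε (n ^ 2) ((n + 1) ^ 2) κ y s).filter fun p : ℕ => α < √(p : ℝ) ∧ √(p : ℝ) < β).card : ℕ) : ℝ) +
          F.card := by
      have := (card_le_card hsub2).trans (card_union_le _ _)
      exact_mod_cast this
    obtain ⟨G, hG⟩ : ∃ G : ℝ,
      G = ((((goodPrimes X ε (n ^ 2) ((n + 1) ^ 2) κ y s).filter fun p : ℕ => α < √(p : ℝ) ∧ √(p : ℝ) < β).card : ℕ) : ℝ) :=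
      ⟨_, rfl⟩
    obtain ⟨P, hP⟩ : ∃ P : ℝ, P = (((Ioo u v).filter Nat.Prime).card : ℝ) := ⟨_, rfl⟩
    rw [← hG] at c1 c2 ⊢
    rw [← hP] at c1 c2 hprime
    have h3 := abs_le.1 hprime
    -- w / (2 L) is large compared with |F| and 1
    have hF3 : (F.card : ℝ) ≤ ε / 4 * (w / (2 * L)) := by
      calc (F.card : ℝ) ≤ 3 * n / L ^ (U + T + 3) := hFn
        _ ≤ 3 * n / L ^ (T + 2) := div_le_div_of_nonneg_left (by positivity) (by positivity) (hmono _ _ (by omega))
        _ = (2 * n / L ^ T) / (2 * L) * (3 / L) := by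
            rw [show L ^ (T + 2) = L ^ T * L * L by ring]
            field_simp
        _ ≤ w / (2 * L) * (ε / 4) := by
            apply mul_le_mul _ _ (by positivity) (by positivity)
            · exact div_le_div_of_nonneg_right hw1 (by positivity)
            · rw [div_le_iff₀ hL0]
              rw [div_le_iff₀ hε] at l1
              linarith
        _ = ε / 4 * (w / (2 * L)) := by ring
    have h1w : 1 / L ≤ ε / 8 * (w / (2 * L)) := by
      have h4 : 8 / ε * 2 ≤ w := by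
        refine le_trans ?_ hw1
        rw [le_div_iff₀ (by positivity)]
        have h5 : 32 / ε * L ^ T ≤ n := by
          refine le_trans ?_ hn2
          exact mul_le_mul_of_nonneg_left (hmono _ _ (by omega)) (by positivity)
        have h6 : 8 / ε * 2 * L ^ T = (32 / ε * L ^ T) / 2 := by ring
        rw [h6]
        linarith
      rw [div_mul_eq_mul_div, div_le_iff₀ hε] at h4
      rw [div_le_iff₀ hL0]
      have h7 : ε / 8 * (w / (2 * L)) * L = (w * ε) / 16 := by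
        field_simp
        ring
      rw [h7]
      linarith
    have h5 : ((v : ℝ) - u) / (2 * L) ≤ w / (2 * L) + 1 / L := by
      have : w / (2 * L) + 1 / L = (w + 2) / (2 * L) := by
        field_simp
      rw [this]
      exact div_le_div_of_nonneg_right hvu2 (by positivity)
    have h6 : w / (2 * L) ≤ ((v : ℝ) - u) / (2 * L) := div_le_div_of_nonneg_right hvu1 (by positivity)
    have h7 : 0 < w / (2 * L) := by positivity
    obtain ⟨A, hA⟩ : ∃ A : ℝ, A = w / (2 * L) := ⟨_, rfl⟩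
    obtain ⟨B, hB⟩ : ∃ B : ℝ, B = ((v : ℝ) - u) / (2 * L) := ⟨_, rfl⟩
    rw [← hA] at hF3 h1w h5 h6 h7 ⊢
    rw [← hB] at h3 h5 h6
    have h8 : B ≤ (1 + ε / 8) * A := by linarith
    have h9 : ε / 4 * B ≤ ε / 4 * ((1 + ε / 8) * A) := mul_le_mul_of_nonneg_left h8 (by positivity)
    have h10 : ε * ε * A ≤ ε * A := by
      have : ε * ε ≤ ε := by nlinarith
      exact mul_le_mul_of_nonneg_right this h7.le
    rw [abs_le]
    constructor
    · nlinarith [h3.1]
    · nlinarith [h3.2]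
  refine ⟨part1, ?_⟩
  intro p hp p' hp' hpp hno
  by_contra hcon
  rw [not_lt] at hcon
  have hpm := hp
  have hpm' := hp'
  rw [goodPrimes, mem_filter, primesBetween, mem_filter, mem_Ioo] at hpm hpm'
  have a1 : (n : ℝ) ≤ √(p : ℝ) := by
    apply Real.le_sqrt_of_sq_le
    exact_mod_cast hpm.1.1.1.le
  have a2 : √(p' : ℝ) ≤ n + 1 := by
    rw [Real.sqrt_le_left (by positivity)]
    exact_mod_cast hpm'.1.1.2.le
  have a3 := part1 (√(p : ℝ)) (√(p' : ℝ)) a1 a2 (by linarith)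
  have a4 : ((goodPrimes X ε (n ^ 2) ((n + 1) ^ 2) κ y s).filter fun m : ℕ => √(p : ℝ) < √(m : ℝ) ∧ √(m : ℝ) < √(p' : ℝ)) = ∅ := by
    rw [filter_eq_empty_iff]
    intro m hm hc
    apply hno m hm
    constructor
    · have := (Real.sqrt_lt_sqrt_iff (Nat.cast_nonneg p)).1 hc.1
      exact_mod_cast this
    · have := (Real.sqrt_lt_sqrt_iff (Nat.cast_nonneg m)).1 hc.2
      exact_mod_cast this
  rw [a4, card_empty, Nat.cast_zero, zero_sub, abs_neg] at a3
  rw [Real.sq_sqrt (Nat.cast_nonneg _), Real.sq_sqrt (Nat.cast_nonneg _)] at a3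
  have a5 : 0 < ((p' : ℝ) - p) / (2 * L) := by
    have : (p : ℝ) < p' := by exact_mod_cast hpp
    apply div_pos (by linarith) (by positivity)
  rw [abs_of_pos a5] at a3
  nlinarith

end Run7.h337.MK
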