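import Mathlib
import Pool.Agent.Run7.h337.MK.Reflect

/-!
# Project MK, piece LOC (helper337), part 10: the intervals of Oppermann
-/

set_option autoImplicit false

namespace Run7.h337.MK

open Finset Filter
open Pool.Agent.Run7.h794.MK
open Pool.Agent.N384.MQ (Flat ev_log_pow ev_log_ge)

/-- the left end of the first (b = false) or second (b = true) interval of Oppermann -/
def oppLeft (n : ℕ) (b : Bool) : ℕ := if b then n ^ 2 else n ^ 2 - n

lemma opp_left_true (n : ℕ) : oppLeft n true = n ^ 2 := rfl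

lemma opp_left_false (n : ℕ) : oppLeft n false = n ^ 2 - n := rfl

lemma opp_ge (n : ℕ) (b : Bool) : n ^ 2 - n ≤ oppLeft n b := by
  cases b
  · exact le_refl _
  · exact Nat.sub_le _ _

lemma opp_le (n : ℕ) (b : Bool) : oppLeft n b ≤ n ^ 2 := by
  cases b
  · exact Nat.sub_le _ _
  · exact le_refl _

/-- For almost all n, in both intervals of Oppermann: the number of the primes, and the primes near almost every
integer moved by a flat family. -/
theorem opp_all (hMAJ : S_MAJ1) (T U : ℕ) (ε : ℝ) (hε : 0 < ε) (hε1 : ε ≤ 1) :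
    ∃ V C D X₀ : ℕ, ∀ X : ℕ, X₀ ≤ X →
    ∃ E : Finset ℕ, (E.card : ℝ) ≤ X / Real.log X ^ U ∧ ∀ n : ℕ, 1 ≤ n → n ≤ X → n ∉ E → ∀ b : Bool,
    ((X : ℝ) ≤ n * Real.log X ^ (U + 1) ∧ 1 ≤ Real.log n ∧ 2 ≤ n) ∧
    |(((Ioo (oppLeft n b) (oppLeft n b + n)).filter Nat.Prime).card : ℝ) - n / (2 * Real.log n)| ≤
      ε * (n / (2 * Real.log n)) ∧
    ∀ (q : ℕ) [NeZero q], (X : ℝ) ^ (2 / 3 : ℝ) * Real.log X ^ C ≤ q → (q : ℝ) * Real.log X ^ D ≤ n →
    ∀ {ι : Type} (s : Finset ι) (y : ι → ZMod q), s.Nonempty → Flat q (1 / Real.log X ^ V) s y →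
    ∀ κ : ℤ, κ ≠ 0 → (κ.natAbs : ℝ) ≤ Real.log X ^ T → ∃ F : Finset ℕ, (F.card : ℝ) ≤ n / Real.log X ^ U ∧
      ∀ m ∈ Ioo (oppLeft n b) (oppLeft n b + n), m ∉ F →
        (∀ i, (oppLeft n b : ℤ) < m + κ * ((y i).val : ℕ) ∧ m + κ * ((y i).val : ℕ) < ((oppLeft n b + n : ℕ) : ℤ)) ∧
        (IsCoprime (m : ℤ) κ →
        |((s.filter fun i => ((m : ℤ) + κ * ((y i).val : ℕ)).toNat.Prime).card : ℝ) -
          κ.natAbs / (Nat.totient κ.natAbs : ℝ) * (s.card / (2 * Real.log n))| ≤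
          ε * (κ.natAbs / (Nat.totient κ.natAbs : ℝ) * (s.card / (2 * Real.log n)))) := by
  classical
  obtain ⟨a, ha⟩ : ∃ a, a = U + 1 := ⟨_, rfl⟩
  obtain ⟨T₁, hT₁⟩ : ∃ T₁, T₁ = T + a * 2 + 1 := ⟨_, rfl⟩
  obtain ⟨U₁, hU₁⟩ : ∃ U₁, U₁ = a * 2 + 1 := ⟨_, rfl⟩
  obtain ⟨V, C, W, Z₀, h⟩ := loc_all hMAJ T₁ U₁ (ε / 12) (by positivity)
  obtain ⟨c, hc⟩ : ∃ c : ℝ, c = 32 * 4 ^ (V + C + W + 1) + 48 / ε := ⟨_, rfl⟩
  obtain ⟨X₁, hev⟩ := eventually_atTop.1 (((ev_log_ge c).and (ev_pw (C + W + 1 + a) c)).and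
    ((ev_lnz 1 a (ε / 4) (by positivity) (by linarith)).and ((ev_log_pow a c).and (ev_log_ge 2))))
  refine ⟨V + 1, C + 1, W + 1, max X₁ (max Z₀ 2), fun X hX => ?_⟩
  obtain ⟨⟨l1, l2⟩, l3, l4, l5⟩ := hev X (le_trans (le_max_left _ _) hX)
  have hX2 : 2 ≤ X := le_trans (le_trans (le_max_right _ _) (le_max_right _ _)) hX
  have hXZ₀ : Z₀ ≤ X := le_trans (le_trans (le_max_left _ _) (le_max_right _ _)) hX
  have hX2r : (2 : ℝ) ≤ X := by exact_mod_cast hX2
  have hX0 : (0 : ℝ) < X := by linarith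
  obtain ⟨Z, hZ⟩ : ∃ Z : ℕ, Z = (X + 1) ^ (1 + 1) := ⟨_, rfl⟩
  obtain ⟨L, hL⟩ : ∃ L, L = Real.log X := ⟨_, rfl⟩
  obtain ⟨M, hM⟩ : ∃ M, M = Real.log Z := ⟨_, rfl⟩
  rw [← hZ, ← hM] at l3
  rw [← hL] at l1 l2 l3 l4 l5 ⊢
  have h4p : ∀ e : ℕ, e ≤ V + C + W + 1 → 32 * (4 : ℝ) ^ e ≤ c := by
    intro e he
    rw [hc]
    have h1 : (4 : ℝ) ^ e ≤ 4 ^ (V + C + W + 1) := pow_le_pow_right₀ (by norm_num) he
    have h2 : 0 < 48 / ε := by positivity
    linarith
  have hc1 : 32 ≤ c := by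
    have := h4p 0 (by omega)
    linarith
  have hc2 : 48 / ε ≤ c := by
    rw [hc]
    have : (0 : ℝ) < 32 * 4 ^ (V + C + W + 1) := by positivity
    linarith
  have hL0 : 0 < L := by linarith
  have hL1 : 1 ≤ L := by linarith
  have hpow : ∀ e : ℕ, 1 ≤ L ^ e := fun e => one_le_pow₀ hL1
  have hXZ : X ≤ Z := by
    rw [hZ]
    exact (Nat.le_succ X).trans (Nat.le_self_pow (by norm_num) _)
  have hZ0 : (0 : ℝ) < Z := by
    have : (X : ℝ) ≤ Z := by exact_mod_cast hXZ
    linarith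
  have hZle : (Z : ℝ) ≤ 4 * (X : ℝ) ^ 2 := by
    rw [hZ]
    push_cast
    nlinarith
  have hLM : L ≤ M := by
    rw [hL, hM]
    exact Real.log_le_log hX0 (by exact_mod_cast hXZ)
  have hML : M ≤ 4 * L := by
    rw [hM, hL, hZ]
    push_cast
    rw [Real.log_pow]
    push_cast
    have h1 : Real.log ((X : ℝ) + 1) ≤ 2 * Real.log X := by
      rw [two_mul, ← Real.log_mul hX0.ne' hX0.ne']
      apply Real.log_le_log (by linarith)
      nlinarith
    linarith
  have hM0 : 0 < M := by linarith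
  have hMp : ∀ e : ℕ, M ^ e ≤ 4 ^ e * L ^ e := by
    intro e
    rw [← mul_pow]
    exact pow_le_pow_left₀ hM0.le hML e
  have hMp' : ∀ e : ℕ, e ≤ V + C + W + 1 → 32 * M ^ e ≤ L ^ (e + 1) := by
    intro e he
    calc 32 * M ^ e ≤ 32 * (4 ^ e * L ^ e) := mul_le_mul_of_nonneg_left (hMp e) (by positivity)
      _ = (32 * 4 ^ e) * L ^ e := by ring
      _ ≤ L * L ^ e := mul_le_mul_of_nonneg_right ((h4p e he).trans l1) (by positivity)
      _ = L ^ (e + 1) := by rw [pow_succ, mul_comm]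
  have hMp1 : ∀ e : ℕ, e ≤ V + C + W + 1 → M ^ e ≤ L ^ (e + 1) := by
    intro e he
    refine le_trans ?_ (hMp' e he)
    have h2 : 0 ≤ M ^ e := by positivity
    nlinarith
  -- the blocks
  obtain ⟨J, hJ⟩ : ∃ J : Finset (ℕ × Bool), J = ((Icc 1 X).filter (fun n : ℕ => (X : ℝ) ≤ n * L ^ a)) ×ˢ univ := ⟨_, rfl⟩
  have hlarge : ∀ n : ℕ, (X : ℝ) ≤ n * L ^ a → c ≤ n := by
    intro n hn
    have h1 : c * L ^ a ≤ n * L ^ a := l4.trans hn
    exact le_of_mul_le_mul_right h1 (by positivity)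
  have hJm : ∀ p ∈ J, 2 ≤ p.1 ∧ p.1 ≤ X ∧ (X : ℝ) ≤ p.1 * L ^ a := by
    intro p hp
    rw [hJ, mem_product, mem_filter, mem_Icc] at hp
    refine ⟨?_, hp.1.1.2, hp.1.2⟩
    have h1 := hlarge p.1 hp.1.2
    have h2 : (2 : ℝ) ≤ p.1 := by linarith
    exact_mod_cast h2
  have hsq : ∀ n : ℕ, 1 ≤ n → n ^ 2 - n + n = n ^ 2 := fun n hn => Nat.sub_add_cancel (by nlinarith)
  have hleft : ∀ (n : ℕ) (b : Bool), 2 ≤ n → (n : ℝ) ^ 2 ≤ 2 * oppLeft n b := by
    intro n b hn
    have h1 := opp_ge n b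
    have h2 := hsq n (by omega)
    have h3 : 2 * n ≤ n ^ 2 := by nlinarith
    have h4 : n ^ 2 ≤ 2 * oppLeft n b := by omega
    exact_mod_cast h4
  have hhalf : ∀ n : ℕ, 2 ≤ n → (n : ℝ) ≤ 2 * ((n - 1 : ℕ) : ℝ) := by
    intro n hn
    have : n ≤ 2 * (n - 1) := by omega
    exact_mod_cast this
  have hblk : ∀ (n : ℕ) (b : Bool), 2 ≤ n → Ioc (oppLeft n b) (oppLeft n b + (n - 1)) = Ioo (oppLeft n b) (oppLeft n b + n) := by
    intro n b hn
    ext m
    rw [mem_Ioc, mem_Ioo]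
    omega
  have hnd : ∀ p ∈ J, (X : ℝ) ^ 2 ≤ (p.1 : ℝ) ^ 2 * L ^ (a * 2) := by
    intro p hp
    obtain ⟨b1, b2, b3⟩ := hJm p hp
    calc (X : ℝ) ^ 2 ≤ (p.1 * L ^ a) ^ 2 := pow_le_pow_left₀ hX0.le b3 2
      _ = _ := by rw [mul_pow, ← pow_mul]
  have hZ3 : (Z : ℝ) ^ (1 / 3 : ℝ) ≤ 4 * (X : ℝ) ^ (2 / 3 : ℝ) := by
    calc (Z : ℝ) ^ (1 / 3 : ℝ) ≤ (4 * (X : ℝ) ^ 2) ^ (1 / 3 : ℝ) :=
          Real.rpow_le_rpow hZ0.le hZle (by norm_num)
      _ = 4 ^ (1 / 3 : ℝ) * ((X : ℝ) ^ 2) ^ (1 / 3 : ℝ) := Real.mul_rpow (by positivity) (by positivity)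
      _ ≤ 4 * (X : ℝ) ^ (2 / 3 : ℝ) := by
          apply mul_le_mul
          · calc (4 : ℝ) ^ (1 / 3 : ℝ) ≤ 4 ^ (1 : ℝ) :=
                  Real.rpow_le_rpow_of_exponent_le (by norm_num) (by norm_num)
              _ = _ := Real.rpow_one _
          · rw [← Real.rpow_natCast, ← Real.rpow_mul hX0.le]
            apply le_of_eq
            congr 1
            norm_num
          · positivity
          · positivity
  have hX23 : 0 < (X : ℝ) ^ (2 / 3 : ℝ) := by positivity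
  have hX1 : (X : ℝ) ^ (2 / 3 : ℝ) * (X : ℝ) ^ (1 / 3 : ℝ) = X := by
    rw [← Real.rpow_add hX0]
    norm_num
  have hmain := h Z (hXZ₀.trans hXZ) J (fun p => oppLeft p.1 p.2) (fun p => p.1 - 1)
    (fun p hp => by
      obtain ⟨b1, b2, b3⟩ := hJm p hp
      have h1 := opp_le p.1 p.2
      have h2 : (p.1 + 1) ^ 2 ≤ Z := by
        rw [hZ]
        exact Nat.pow_le_pow_left (by omega) _
      have h3 : (p.1 + 1) ^ 2 = p.1 ^ 2 + 2 * p.1 + 1 := by ring
      change oppLeft p.1 p.2 + (p.1 - 1) ≤ Z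
      omega)
    (fun p hp => by
      obtain ⟨b1, b2, b3⟩ := hJm p hp
      rw [← hM]
      change (Z : ℝ) ≤ (oppLeft p.1 p.2 : ℝ) * M ^ T₁
      have h1 := hleft p.1 p.2 b1
      calc (Z : ℝ) ≤ 4 * (X : ℝ) ^ 2 := hZle
        _ ≤ 4 * ((p.1 : ℝ) ^ 2 * L ^ (a * 2)) := by
            have := hnd p hp
            linarith
        _ ≤ 4 * ((2 * (oppLeft p.1 p.2 : ℝ)) * L ^ (a * 2)) := by
            have : 0 ≤ L ^ (a * 2) := by positivity
            have := mul_le_mul_of_nonneg_right h1 this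
            linarith
        _ = (oppLeft p.1 p.2 : ℝ) * (8 * L ^ (a * 2)) := by ring
        _ ≤ (oppLeft p.1 p.2 : ℝ) * (L * L ^ (a * 2)) := by
            apply mul_le_mul_of_nonneg_left _ (Nat.cast_nonneg _)
            apply mul_le_mul_of_nonneg_right _ (by positivity)
            linarith
        _ = (oppLeft p.1 p.2 : ℝ) * L ^ (a * 2 + 1) := by rw [pow_succ]; ring
        _ ≤ (oppLeft p.1 p.2 : ℝ) * M ^ T₁ := by
            apply mul_le_mul_of_nonneg_left _ (Nat.cast_nonneg _)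
            refine (pow_le_pow_left₀ hL0.le hLM _).trans ?_
            exact pow_le_pow_right₀ (by linarith) (by omega))
    (fun p hp => by
      obtain ⟨b1, b2, b3⟩ := hJm p hp
      rw [← hM]
      change (Z : ℝ) ^ (1 / 3 : ℝ) * M ^ (C + W + 1) ≤ ((p.1 - 1 : ℕ) : ℝ)
      have h1 := hhalf p.1 b1
      have h4 := hMp (C + W + 1)
      have h5 : 32 * (4 : ℝ) ^ (C + W + 1) ≤ c := h4p (C + W + 1) (by omega)
      have h7 : ((Z : ℝ) ^ (1 / 3 : ℝ) * M ^ (C + W + 1)) * (2 * L ^ a) ≤ ((p.1 - 1 : ℕ) : ℝ) * (2 * L ^ a) := by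
        calc ((Z : ℝ) ^ (1 / 3 : ℝ) * M ^ (C + W + 1)) * (2 * L ^ a) ≤
            ((4 * (X : ℝ) ^ (2 / 3 : ℝ)) * (4 ^ (C + W + 1) * L ^ (C + W + 1))) * (2 * L ^ a) := by gcongr
          _ = (X : ℝ) ^ (2 / 3 : ℝ) * ((8 * 4 ^ (C + W + 1)) * L ^ (C + W + 1 + a)) := by
              rw [pow_add L (C + W + 1) a]
              ring
          _ ≤ (X : ℝ) ^ (2 / 3 : ℝ) * (c * L ^ (C + W + 1 + a)) := by
              apply mul_le_mul_of_nonneg_left _ hX23.le
              apply mul_le_mul_of_nonneg_right _ (by positivity)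
              have : (0 : ℝ) < 4 ^ (C + W + 1) := by positivity
              linarith
          _ ≤ (X : ℝ) ^ (2 / 3 : ℝ) * (X : ℝ) ^ (1 / 3 : ℝ) := mul_le_mul_of_nonneg_left l2 hX23.le
          _ = X := hX1
          _ ≤ p.1 * L ^ a := b3
          _ ≤ (2 * ((p.1 - 1 : ℕ) : ℝ)) * L ^ a := mul_le_mul_of_nonneg_right h1 (by positivity)
          _ = ((p.1 - 1 : ℕ) : ℝ) * (2 * L ^ a) := by ring
      exact le_of_mul_le_mul_right h7 (by positivity))
    (fun m => by
      have h1 : (J.filter fun p => oppLeft p.1 p.2 < m ∧ m ≤ oppLeft p.1 p.2 + (p.1 - 1)).card ≤ 1 := by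
        rw [card_le_one]
        intro x hx y hy
        rw [mem_filter] at hx hy
        obtain ⟨bx, -, -⟩ := hJm x hx.1
        obtain ⟨by', -, -⟩ := hJm y hy.1
        have key : ∀ n k : ℕ, 2 ≤ n → n < k → n ^ 2 + n ≤ k ^ 2 - k := by
          intro n k _ hk
          have h2 : (n + 1) * n ≤ k * (k - 1) := Nat.mul_le_mul (by omega) (by omega)
          have h3 : k * (k - 1) = k ^ 2 - k := by
            rw [Nat.mul_sub, sq, mul_one]
          have h4 : (n + 1) * n = n ^ 2 + n := by ring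
          omega
        have ux := opp_le x.1 x.2
        have uy := opp_le y.1 y.2
        have vx := opp_ge x.1 x.2
        have vy := opp_ge y.1 y.2
        have h5 : x.1 = y.1 := by
          by_contra hne
          rcases lt_or_gt_of_ne hne with hlt | hlt
          · have := key x.1 y.1 bx hlt
            omega
          · have := key y.1 x.1 by' hlt
            omega
        refine Prod.ext h5 ?_
        by_contra hne
        have h6 := hsq x.1 (by omega)
        have h7 : 1 ≤ x.1 ^ 2 := Nat.one_le_pow _ _ (by omega)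
        have hx1 := hx.2
        have hy1 := hy.2
        rw [← h5] at hy1
        rcases hxb : x.2 with _ | _
        · rcases hyb : y.2 with _ | _
          · exact hne (by rw [hxb, hyb])
          · rw [hxb, opp_left_false] at hx1
            rw [hyb, opp_left_true] at hy1
            omega
        · rcases hyb : y.2 with _ | _
          · rw [hxb, opp_left_true] at hx1
            rw [hyb, opp_left_false] at hy1
            omega
          · exact hne (by rw [hxb, hyb])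
      rw [← hM]
      have h2 : (1 : ℝ) ≤ M ^ T₁ := one_le_pow₀ (by linarith)
      have h3 : ((J.filter fun p => oppLeft p.1 p.2 < m ∧ m ≤ oppLeft p.1 p.2 + (p.1 - 1)).card : ℝ) ≤ 1 := by
        exact_mod_cast h1
      exact h3.trans h2)
  obtain ⟨Bad, hBJ, hBs, hgood⟩ := hmain
  rw [← hM] at hBs hgood
  obtain ⟨S, hS⟩ : ∃ S : Finset ℕ, S = (Icc 1 X).filter (fun n : ℕ => (n : ℝ) * L ^ a < X) := ⟨_, rfl⟩
  refine ⟨Bad.image Prod.fst ∪ S, ?_, fun n hn1 hnX hnE b => ?_⟩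
  · have hBc : (Bad.card : ℝ) ≤ X / L ^ a := by
      have h1 : ∀ p ∈ Bad, (X : ℝ) / (2 * L ^ a) ≤ ((p.1 - 1 : ℕ) : ℝ) := by
        intro p hp
        obtain ⟨b1, b2, b3⟩ := hJm p (hBJ hp)
        rw [div_le_iff₀ (by positivity)]
        have h2 := hhalf p.1 b1
        calc (X : ℝ) ≤ p.1 * L ^ a := b3
          _ ≤ (2 * ((p.1 - 1 : ℕ) : ℝ)) * L ^ a := mul_le_mul_of_nonneg_right h2 (by positivity)
          _ = ((p.1 - 1 : ℕ) : ℝ) * (2 * L ^ a) := by ring
      have h2 := sum_le_sum h1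
      rw [sum_const, nsmul_eq_mul] at h2
      have h3 : (Bad.card : ℝ) * (X / (2 * L ^ a)) ≤ Z / M ^ U₁ := h2.trans hBs
      have h4 : (Z : ℝ) / M ^ U₁ ≤ 4 * (X : ℝ) ^ 2 / L ^ U₁ := by
        apply div_le_div₀ (by positivity) hZle (by positivity)
        exact pow_le_pow_left₀ hL0.le hLM _
      have h5 := h3.trans h4
      rw [le_div_iff₀ (by positivity)]
      rw [mul_div_assoc', div_le_div_iff₀ (by positivity) (by positivity)] at h5
      have h6 : L ^ U₁ = L ^ a * L ^ a * L := by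
        rw [hU₁, ← pow_add, ← pow_succ]
        congr 1
        omega
      have h8 : (Bad.card : ℝ) * L ^ a * (X * L ^ a * L) ≤ X * (X * L ^ a * L) := by
        calc (Bad.card : ℝ) * L ^ a * (X * L ^ a * L) = Bad.card * X * L ^ U₁ := by rw [h6]; ring
          _ ≤ 4 * (X : ℝ) ^ 2 * (2 * L ^ a) := h5
          _ = X * (X * L ^ a * 8) := by ring
          _ ≤ X * (X * L ^ a * L) := by
              apply mul_le_mul_of_nonneg_left _ hX0.le
              apply mul_le_mul_of_nonneg_left (by linarith) (by positivity)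
      exact le_of_mul_le_mul_right h8 (by positivity)
    have hSc : (S.card : ℝ) ≤ X / L ^ a := by
      have h1 : S ⊆ Icc 1 ⌊(X : ℝ) / L ^ a⌋₊ := by
        intro n hn
        rw [hS, mem_filter, mem_Icc] at hn
        rw [mem_Icc]
        refine ⟨hn.1.1, Nat.le_floor ?_⟩
        rw [le_div_iff₀ (by positivity)]
        exact hn.2.le
      have h2 := card_le_card h1
      rw [Nat.card_Icc, Nat.add_sub_cancel] at h2
      exact le_trans (by exact_mod_cast h2) (Nat.floor_le (by positivity))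
    have h0 : ((Bad.image Prod.fst).card : ℝ) ≤ Bad.card := by exact_mod_cast card_image_le
    have h1 : ((Bad.image Prod.fst ∪ S).card : ℝ) ≤ (Bad.image Prod.fst).card + S.card := by
      exact_mod_cast card_union_le _ _
    refine h1.trans ((add_le_add (h0.trans hBc) hSc).trans ?_)
    rw [ha, pow_succ, ← two_mul, mul_div_assoc', div_le_div_iff₀ (by positivity) (by positivity)]
    have h2 : 0 ≤ (X : ℝ) * L ^ U := by positivity
    nlinarith
  · rw [mem_union, not_or] at hnE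
    obtain ⟨hnB, hnS⟩ := hnE
    have hnL : (X : ℝ) ≤ n * L ^ a := by
      by_contra hlt
      apply hnS
      rw [hS, mem_filter, mem_Icc]
      exact ⟨⟨hn1, hnX⟩, not_le.1 hlt⟩
    have hnJ : (n, b) ∈ J := by
      rw [hJ, mem_product, mem_filter, mem_Icc]
      exact ⟨⟨⟨hn1, hnX⟩, hnL⟩, mem_univ _⟩
    have hnB' : (n, b) ∉ Bad := fun h' => hnB (mem_image.2 ⟨(n, b), h', rfl⟩)
    obtain ⟨g1, g2⟩ := hgood (n, b) hnJ hnB'
    obtain ⟨hn2, -, -⟩ := hJm (n, b) hnJ
    change 2 ≤ n at hn2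
    change |(((Ioc (oppLeft n b) (oppLeft n b + (n - 1))).filter Nat.Prime).card : ℝ) - ((n - 1 : ℕ) : ℝ) / M| ≤
      ε / 12 * (((n - 1 : ℕ) : ℝ) / M) at g1
    have hnr : (0 : ℝ) < n := by exact_mod_cast hn1
    have hcn : c ≤ n := hlarge n hnL
    have hlogn : 1 ≤ Real.log n := by
      rw [Real.le_log_iff_exp_le hnr]
      have h1 := Real.exp_one_lt_d9
      linarith
    obtain ⟨Ln, hLn⟩ : ∃ Ln, Ln = 2 * Real.log n := ⟨_, rfl⟩
    rw [← hLn]
    have hLn0 : 0 < Ln := by rw [hLn]; positivity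
    have hLnM : Ln ≤ M := by
      rw [hLn, hM, hZ]
      push_cast
      rw [Real.log_pow]
      push_cast
      have h1 : Real.log n ≤ Real.log ((X : ℝ) + 1) := by
        apply Real.log_le_log hnr
        have : (n : ℝ) ≤ X := by exact_mod_cast hnX
        linarith
      linarith
    have hMLn : (1 - ε / 4) * M ≤ Ln := by
      refine l3.trans ?_
      rw [hLn]
      have h1 : Real.log ((X : ℝ) / L ^ a) ≤ Real.log n := by
        apply Real.log_le_log (by positivity)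
        rw [div_le_iff₀ (by positivity)]
        exact hnL
      push_cast
      linarith
    rw [hblk n b hn2] at g1
    refine ⟨⟨by rw [← ha]; exact hnL, hlogn, hn2⟩, ?_, ?_⟩
    · -- the number of the primes
      have hnm : (((n - 1 : ℕ)) : ℝ) = n - 1 := by
        rw [Nat.cast_sub hn1, Nat.cast_one]
      rw [hnm] at g1
      apply conv _ (n : ℝ) M Ln ε hLn0 hLnM hMLn hnr.le hε
      have h3 : 1 ≤ ε / 24 * n := by
        rw [div_le_iff₀ hε] at hc2
        nlinarith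
      have h4 : |((n : ℝ) - 1) / M - n / M| ≤ ε / 24 * (n / M) := by
        rw [← sub_div, abs_div, abs_of_pos hM0, mul_div_assoc']
        apply div_le_div_of_nonneg_right _ hM0.le
        rw [abs_le]
        constructor <;> linarith
      have h6 : 0 < (n : ℝ) / M := by positivity
      have h5 : ((n : ℝ) - 1) / M ≤ n / M := div_le_div_of_nonneg_right (by linarith) hM0.le
      have h7 : ε / 12 * (((n : ℝ) - 1) / M) ≤ ε / 12 * (n / M) := mul_le_mul_of_nonneg_left h5 (by positivity)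
      have h9 := abs_le.1 h4
      have h10 := abs_le.1 g1
      have h11 : 0 < ε * (n / M) := by positivity
      rw [abs_le]
      constructor <;> linarith [h9.1, h9.2, h10.1, h10.2]
    · intro q _ hqC hqD ι s y hs hf κ hκ hκT
      have hq0 : (0 : ℝ) ≤ q := Nat.cast_nonneg _
      have c1 : (Z : ℝ) ^ (1 / 3 : ℝ) * M ^ C ≤ q := by
        refine le_trans ?_ hqC
        have h3 := hMp' C (by omega)
        calc (Z : ℝ) ^ (1 / 3 : ℝ) * M ^ C ≤ (4 * (X : ℝ) ^ (2 / 3 : ℝ)) * M ^ C := by gcongr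
          _ = (X : ℝ) ^ (2 / 3 : ℝ) * (4 * M ^ C) := by ring
          _ ≤ (X : ℝ) ^ (2 / 3 : ℝ) * L ^ (C + 1) := by
              apply mul_le_mul_of_nonneg_left _ hX23.le
              refine le_trans ?_ h3
              have : (0 : ℝ) ≤ M ^ C := by positivity
              linarith
      have c2 : (q : ℝ) * M ^ W ≤ ((n - 1 : ℕ) : ℝ) := by
        have h1 := hhalf n hn2
        have h2 := hMp' W (by omega)
        have h3 : (q : ℝ) * (32 * M ^ W) ≤ q * L ^ (W + 1) := mul_le_mul_of_nonneg_left h2 hq0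
        have h4 : 0 ≤ (q : ℝ) * M ^ W := by positivity
        linarith
      have c3 : Flat q (1 / M ^ V) s y := by
        intro k hk
        refine (hf k hk).trans ?_
        apply mul_le_mul_of_nonneg_right _ (Nat.cast_nonneg _)
        exact one_div_le_one_div_of_le (by positivity) (hMp1 V (by omega))
      have c4 : (κ.natAbs : ℝ) ≤ M ^ T₁ := by
        refine hκT.trans ((pow_le_pow_left₀ hL0.le hLM _).trans ?_)
        exact pow_le_pow_right₀ (by linarith) (by omega)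
      obtain ⟨F, hF1, hF2⟩ := g2 q c1 c2 s y hs c3 κ hκ c4
      change (F.card : ℝ) ≤ ((n - 1 : ℕ) : ℝ) / M ^ U₁ at hF1
      refine ⟨F, hF1.trans ?_, fun m hm hmF => ?_⟩
      · have h1 : ((n - 1 : ℕ) : ℝ) ≤ n := by exact_mod_cast Nat.sub_le _ _
        apply div_le_div₀ hnr.le h1 (by positivity)
        calc L ^ U ≤ L ^ U₁ := pow_le_pow_right₀ hL1 (by omega)
          _ ≤ M ^ U₁ := pow_le_pow_left₀ hL0.le hLM _
      · rw [← hblk n b hn2, mem_Ioc] at hm
        obtain ⟨f1, f2⟩ := hF2 m hm.1 hm.2 hmF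
        refine ⟨fun i => ⟨(f1 i).1, ?_⟩, fun hco => ?_⟩
        · have f3 := (f1 i).2
          change (m : ℤ) + κ * ((y i).val : ℕ) ≤ (oppLeft n b : ℤ) + ((n - 1 : ℕ) : ℤ) at f3
          rw [Nat.cast_sub hn1] at f3
          push_cast at f3 ⊢
          linarith
        · have f4 := f2 hco
          obtain ⟨g, hg⟩ : ∃ g : ℝ, g = κ.natAbs / (Nat.totient κ.natAbs : ℝ) := ⟨_, rfl⟩
          rw [← hg] at f4 ⊢
          have hg0 : 0 ≤ g := by
            have := g_ge_one κ hκ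
            rw [← hg] at this
            linarith
          have e1 : g * (s.card / M) = (g * s.card) / M := by ring
          have e2 : g * (s.card / Ln) = (g * s.card) / Ln := by ring
          rw [e1] at f4
          rw [e2]
          have hgs : 0 ≤ g * (s.card : ℝ) := mul_nonneg hg0 (Nat.cast_nonneg _)
          apply conv _ (g * s.card) M Ln ε hLn0 hLnM hMLn hgs hε
          refine f4.trans ?_
          apply mul_le_mul_of_nonneg_right (by linarith) (div_nonneg hgs hM0.le)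

end Run7.h337.MK
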