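import Mathlib
import Pool.Agent.Run7.h337.MK.Opp

/-!
# Project MK, piece LOC (helper337), part 11: numbers symmetric about a square
-/

set_option autoImplicit false

namespace Run7.h337.MK

open Finset Filter
open Pool.Agent.Run7.h794.MK
open Pool.Agent.N384.MQ (Flat ev_log_pow ev_log_ge)

/-- n^2 - j (b = false) or n^2 + j (b = true) -/
def mirror (n : ℕ) (b : Bool) (j : ℕ) : ℕ := if b then n ^ 2 + j else n ^ 2 - j

lemma mirror_true (n j : ℕ) : mirror n true j = n ^ 2 + j := rfl

lemma mirror_false (n j : ℕ) : mirror n false j = n ^ 2 - j := rfl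

/-- The number of i in s for which mirror n b j + kappa y_i is a prime strictly inside the first (b = false) or
second (b = true) interval of Oppermann. -/
noncomputable def mirrorCount {ι : Type} {q : ℕ} (n : ℕ) (b : Bool) (j : ℕ) (κ : ℤ) (y : ι → ZMod q) (s : Finset ι) : ℕ :=
  (s.filter fun i => (oppLeft n b : ℤ) < (mirror n b j : ℤ) + κ * ((y i).val : ℕ) ∧
    (mirror n b j : ℤ) + κ * ((y i).val : ℕ) < ((oppLeft n b + n : ℕ) : ℤ) ∧
    ((mirror n b j : ℤ) + κ * ((y i).val : ℕ)).toNat.Prime).card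

lemma mirrorCount_le {ι : Type} {q : ℕ} (n : ℕ) (b : Bool) (j : ℕ) (κ : ℤ) (y : ι → ZMod q) (s : Finset ι) :
    (mirrorCount n b j κ y s : ℝ) ≤ s.card := by
  rw [mirrorCount]
  exact_mod_cast card_filter_le _ _

lemma mirror_mem (n : ℕ) (b : Bool) (j : ℕ) (hn : 2 ≤ n) (hj : j ∈ Icc 1 (n - 1)) :
    mirror n b j ∈ Ioo (oppLeft n b) (oppLeft n b + n) := by
  rw [mem_Icc] at hj
  rw [mem_Ioo]
  have h1 : n ≤ n ^ 2 := Nat.le_self_pow (by norm_num) n
  cases b
  · rw [mirror_false, opp_left_false]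
    omega
  · rw [mirror_true, opp_left_true]
    omega

lemma mirror_inj (n : ℕ) (b : Bool) (hn : 2 ≤ n) : Set.InjOn (mirror n b) (Icc 1 (n - 1) : Finset ℕ) := by
  intro x hx y hy hxy
  have hx' := mem_Icc.1 (mem_coe.1 hx)
  have hy' := mem_Icc.1 (mem_coe.1 hy)
  have h1 : n ≤ n ^ 2 := Nat.le_self_pow (by norm_num) n
  cases b
  · rw [mirror_false, mirror_false] at hxy
    omega
  · rw [mirror_true, mirror_true] at hxy
    omega

lemma mirror_primes (n : ℕ) (b : Bool) (hn : 2 ≤ n) :
    ((Icc 1 (n - 1)).filter fun j => Nat.Prime (mirror n b j)).card =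
      ((Ioo (oppLeft n b) (oppLeft n b + n)).filter Nat.Prime).card := by
  classical
  apply card_bij (fun j _ => mirror n b j)
  · intro j hj
    rw [mem_filter] at hj ⊢
    exact ⟨mirror_mem n b j hn hj.1, hj.2⟩
  · intro x hx y hy hxy
    exact mirror_inj n b hn (mem_coe.2 (mem_filter.1 hx).1) (mem_coe.2 (mem_filter.1 hy).1) hxy
  · intro p hp
    rw [mem_filter, mem_Ioo] at hp
    have h1 : n ≤ n ^ 2 := Nat.le_self_pow (by norm_num) n
    cases b
    · rw [opp_left_false] at hp
      refine ⟨n ^ 2 - p, ?_, ?_⟩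
      · rw [mem_filter, mem_Icc, mirror_false, show n ^ 2 - (n ^ 2 - p) = p by omega]
        exact ⟨by omega, hp.2⟩
      · rw [mirror_false]
        omega
    · rw [opp_left_true] at hp
      refine ⟨p - n ^ 2, ?_, ?_⟩
      · rw [mem_filter, mem_Icc, mirror_true, show n ^ 2 + (p - n ^ 2) = p by omega]
        exact ⟨by omega, hp.2⟩
      · rw [mirror_true]
        omega

/-- Both intervals of Oppermann, numbers symmetric about the square. -/
theorem opp_sym (hMAJ : S_MAJ1) (T U : ℕ) (ε : ℝ) (hε : 0 < ε) (hε1 : ε ≤ 1) :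
    ∃ V C D X₀ : ℕ, ∀ X : ℕ, X₀ ≤ X →
    ∃ E : Finset ℕ, (E.card : ℝ) ≤ X / Real.log X ^ U ∧ ∀ n : ℕ, 1 ≤ n → n ≤ X → n ∉ E →
    (∀ b : Bool, |(((Ioo (oppLeft n b) (oppLeft n b + n)).filter Nat.Prime).card : ℝ) - n / (2 * Real.log n)| ≤
      ε * (n / (2 * Real.log n))) ∧
    ∀ (q : Bool → ℕ) [∀ b, NeZero (q b)],
    (∀ b, (X : ℝ) ^ (2 / 3 : ℝ) * Real.log X ^ C ≤ q b ∧ (q b : ℝ) * Real.log X ^ D ≤ n) →
    ∀ {ι : Bool → Type} (s : ∀ b, Finset (ι b)) (y : ∀ b, ι b → ZMod (q b)),
    (∀ b, (s b).Nonempty ∧ Flat (q b) (1 / Real.log X ^ V) (s b) (y b)) →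
    ∀ κ : Bool → ℤ, (∀ b, κ b ≠ 0 ∧ ((κ b).natAbs : ℝ) ≤ Real.log X ^ T) →
      (∃ F : Finset ℕ, (F.card : ℝ) ≤ n / Real.log X ^ U ∧ ∀ j ∈ Icc 1 (n - 1), j ∉ F →
        IsCoprime ((n ^ 2 - j : ℕ) : ℤ) (κ false) → IsCoprime ((n ^ 2 + j : ℕ) : ℤ) (κ true) →
        |(mirrorCount n false j (κ false) (y false) (s false) : ℝ) * mirrorCount n true j (κ true) (y true) (s true) -
          expd n (κ false) (s false) * expd n (κ true) (s true)| ≤
          ε * (expd n (κ false) (s false) * expd n (κ true) (s true))) ∧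
      (∀ K ⊆ Icc 1 (n - 1), (n : ℝ) / Real.log X ^ T ≤ K.card →
        (∀ j ∈ K, IsCoprime ((n ^ 2 - j : ℕ) : ℤ) (κ false) ∧ IsCoprime ((n ^ 2 + j : ℕ) : ℤ) (κ true)) →
        |(∑ j ∈ K, (mirrorCount n false j (κ false) (y false) (s false) : ℝ) *
            mirrorCount n true j (κ true) (y true) (s true)) -
          K.card * (expd n (κ false) (s false) * expd n (κ true) (s true))| ≤
          ε * (K.card * (expd n (κ false) (s false) * expd n (κ true) (s true)))) ∧
      (∀ b : Bool, (κ b).natAbs = 1 →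
        |(∑ j ∈ (Icc 1 (n - 1)).filter (fun j => Nat.Prime (mirror n (!b) j)), (mirrorCount n b j (κ b) (y b) (s b) : ℝ)) -
          (s b).card * (n / (4 * Real.log n ^ 2))| ≤ ε * ((s b).card * (n / (4 * Real.log n ^ 2)))) := by
  classical
  obtain ⟨V, C, D, X₀, h⟩ := opp_all hMAJ (T + 1) (U + T + 5) (ε / 24) (by positivity) (by linarith)
  obtain ⟨X₁, hev⟩ := eventually_atTop.1 ((ev_log_ge (144 / ε)).and (ev_log_ge 4))
  refine ⟨V, C, D, max (max X₀ X₁) 3, fun X hX => ?_⟩
  have hX0' : X₀ ≤ X := le_trans (le_trans (le_max_left _ _) (le_max_left _ _)) hX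
  have hX1' : X₁ ≤ X := le_trans (le_trans (le_max_right _ _) (le_max_left _ _)) hX
  have hX3 : 3 ≤ X := le_trans (le_max_right _ _) hX
  obtain ⟨l1, l2⟩ := hev X hX1'
  obtain ⟨E, hE, hE2⟩ := h X hX0'
  have hXr : (3 : ℝ) ≤ X := by exact_mod_cast hX3
  obtain ⟨L, hL⟩ : ∃ L, L = Real.log X := ⟨_, rfl⟩
  rw [← hL] at l1 l2 hE hE2 ⊢
  have hL0 : 0 < L := by linarith
  have hL1 : 1 ≤ L := by linarith
  refine ⟨E, hE.trans ?_, fun n hn1 hnX hnE => ⟨fun b => ?_, fun q _ hq ι s y hsy κ hκ => ?_⟩⟩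
  · apply div_le_div_of_nonneg_left (by linarith) (by positivity)
    exact pow_le_pow_right₀ hL1 (by omega)
  · obtain ⟨⟨n1, n2, n3⟩, n4, -⟩ := hE2 n hn1 hnX hnE b
    refine n4.trans ?_
    have hn0 : (0 : ℝ) < n := by exact_mod_cast hn1
    have hln0 : 0 < Real.log n := by linarith
    apply mul_le_mul_of_nonneg_right (by linarith) (by positivity)
  obtain ⟨⟨n1, n2, n3⟩, -, -⟩ := hE2 n hn1 hnX hnE true
  have hn0 : (0 : ℝ) < n := by exact_mod_cast hn1
  have hln : Real.log n ≤ L := by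
    rw [hL]
    exact Real.log_le_log hn0 (by exact_mod_cast hnX)
  have hln0 : 0 < Real.log n := by linarith
  have hκT' : ∀ b, ((κ b).natAbs : ℝ) ≤ L ^ (T + 1) := fun b => (hκ b).2.trans (pow_le_pow_right₀ hL1 (by omega))
  choose F₀ hF1 hF2 using fun b => (hE2 n hn1 hnX hnE b).2.2 (q b) (hq b).1 (hq b).2 (s b) (y b) (hsy b).1 (hsy b).2
    (κ b) (hκ b).1 (hκT' b)
  obtain ⟨F, hF⟩ : ∃ F : Finset ℕ, F = ((Icc 1 (n - 1)).filter fun j => mirror n false j ∈ F₀ false) ∪
      ((Icc 1 (n - 1)).filter fun j => mirror n true j ∈ F₀ true) := ⟨_, rfl⟩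
  have hFb : ∀ b : Bool, (((Icc 1 (n - 1)).filter fun j => mirror n b j ∈ F₀ b).card : ℝ) ≤ n / L ^ (U + T + 5) := by
    intro b
    refine le_trans ?_ (hF1 b)
    have h1 : ((Icc 1 (n - 1)).filter fun j => mirror n b j ∈ F₀ b).card ≤ (F₀ b).card := by
      apply card_le_card_of_injOn (mirror n b)
      · intro j hj
        exact (mem_filter.1 hj).2
      · intro x hx y hy hxy
        exact mirror_inj n b n3 (mem_coe.2 (mem_filter.1 hx).1) (mem_coe.2 (mem_filter.1 hy).1) hxy
    exact_mod_cast h1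
  have hFc : (F.card : ℝ) ≤ 2 * (n / L ^ (U + T + 5)) := by
    have h1 : (F.card : ℝ) ≤ (((Icc 1 (n - 1)).filter fun j => mirror n false j ∈ F₀ false).card : ℝ) +
      (((Icc 1 (n - 1)).filter fun j => mirror n true j ∈ F₀ true).card : ℝ) := by
      rw [hF]
      exact_mod_cast card_union_le _ _
    have h2 := hFb false
    have h3 := hFb true
    linarith
  have hFc2 : (F.card : ℝ) ≤ n / L ^ (U + T + 4) := by
    refine hFc.trans ?_
    have e1 : L ^ (U + T + 5) = L ^ (U + T + 4) * L := by ring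
    rw [e1, ← div_div, mul_div_assoc', div_le_iff₀ hL0]
    have : 0 ≤ (n : ℝ) / L ^ (U + T + 4) := by positivity
    nlinarith
  have hFm : ∀ b j, j ∈ Icc 1 (n - 1) → j ∉ F → mirror n b j ∉ F₀ b := by
    intro b j hj hjF h'
    apply hjF
    rw [hF, mem_union]
    cases b
    · exact Or.inl (mem_filter.2 ⟨hj, h'⟩)
    · exact Or.inr (mem_filter.2 ⟨hj, h'⟩)
  -- one count
  have cb : ∀ b, ∀ j ∈ Icc 1 (n - 1), j ∉ F → IsCoprime ((mirror n b j : ℕ) : ℤ) (κ b) →
      |(mirrorCount n b j (κ b) (y b) (s b) : ℝ) - expd n (κ b) (s b)| ≤ ε / 24 * expd n (κ b) (s b) := by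
    intro b j hj hjF hc
    obtain ⟨h3, h4⟩ := hF2 b (mirror n b j) (mirror_mem n b j n3 hj) (hFm b j hj hjF)
    have h5 := h4 hc
    rw [mirrorCount, expd]
    have h6 : ((s b).filter fun i => (oppLeft n b : ℤ) < (mirror n b j : ℤ) + κ b * ((y b i).val : ℕ) ∧
      (mirror n b j : ℤ) + κ b * ((y b i).val : ℕ) < ((oppLeft n b + n : ℕ) : ℤ) ∧
      ((mirror n b j : ℤ) + κ b * ((y b i).val : ℕ)).toNat.Prime) =
      (s b).filter fun i => ((mirror n b j : ℤ) + κ b * ((y b i).val : ℕ)).toNat.Prime := by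
      apply filter_congr
      intro i _
      constructor
      · exact fun h => h.2.2
      · exact fun h => ⟨(h3 i).1, (h3 i).2, h⟩
    rw [h6]
    exact h5
  have he0 : ∀ b, 0 ≤ expd n (κ b) (s b) := fun b => expd_nonneg n (κ b) (s b) hln0
  have hb1 : ∀ b, ((s b).card : ℝ) ≤ expd n (κ b) (s b) * (2 * L) := fun b =>
    card_le_expd n (κ b) (s b) L (hκ b).1 hln0 hln
  have hef := he0 false
  have het := he0 true
  have h3δ : 3 * (ε / 24) = ε / 4 / 2 := by ring
  have both : ∀ j ∈ Icc 1 (n - 1), j ∉ F → IsCoprime ((n ^ 2 - j : ℕ) : ℤ) (κ false) →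
      IsCoprime ((n ^ 2 + j : ℕ) : ℤ) (κ true) →
      |(mirrorCount n false j (κ false) (y false) (s false) : ℝ) * mirrorCount n true j (κ true) (y true) (s true) -
          expd n (κ false) (s false) * expd n (κ true) (s true)| ≤
          ε / 4 / 2 * (expd n (κ false) (s false) * expd n (κ true) (s true)) := by
    intro j hj hjF hc1 hc2
    have := two_approx _ _ _ _ (ε / 24) (by positivity) (by linarith) (cb false j hj hjF hc1) (cb true j hj hjF hc2) hef het
    rw [h3δ] at this
    exact this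
  have hee : 0 ≤ expd n (κ false) (s false) * expd n (κ true) (s true) := mul_nonneg hef het
  refine ⟨⟨F, hFc2.trans ?_, fun j hj hjF hc1 hc2 => (both j hj hjF hc1 hc2).trans ?_⟩, ?_, ?_⟩
  · apply div_le_div_of_nonneg_left hn0.le (by positivity)
    exact pow_le_pow_right₀ hL1 (by omega)
  · exact mul_le_mul_of_nonneg_right (by linarith) hee
  · intro K hK hKT hc
    refine (sum_approx K F (fun j => (mirrorCount n false j (κ false) (y false) (s false) : ℝ) *
      mirrorCount n true j (κ true) (y true) (s true))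
      (expd n (κ false) (s false) * expd n (κ true) (s true)) ((s false).card * (s true).card) (ε / 4) (by positivity)
      hee (by positivity) ?_ ?_ ?_).trans ?_
    · intro k hk
      refine ⟨by positivity, ?_⟩
      exact mul_le_mul (mirrorCount_le _ _ _ _ _ _) (mirrorCount_le _ _ _ _ _ _) (Nat.cast_nonneg _) (Nat.cast_nonneg _)
    · intro k hk hkF
      exact both k (hK hk) hkF (hc k hk).1 (hc k hk).2
    · have b1 := hb1 false
      have b2 := hb1 true
      obtain ⟨R₁, hR₁⟩ : ∃ R : ℝ, R = expd n (κ false) (s false) := ⟨_, rfl⟩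
      obtain ⟨R₂, hR₂⟩ : ∃ R : ℝ, R = expd n (κ true) (s true) := ⟨_, rfl⟩
      rw [← hR₁] at b1 hef ⊢
      rw [← hR₂] at b2 het ⊢
      obtain ⟨R, hR⟩ : ∃ R : ℝ, R = R₁ * R₂ := ⟨_, rfl⟩
      have hR0 : 0 ≤ R := by rw [hR]; positivity
      have e4 : ((s false).card : ℝ) * (s true).card ≤ R * (4 * L ^ 2) := by
        calc ((s false).card : ℝ) * (s true).card ≤ (R₁ * (2 * L)) * (R₂ * (2 * L)) :=
              mul_le_mul b1 b2 (Nat.cast_nonneg _) (by positivity)
          _ = R * (4 * L ^ 2) := by rw [hR]; ring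
      rw [← hR]
      have e5 : ((s false).card : ℝ) * (s true).card + R ≤ R * (5 * L ^ 2) := by
        have : R ≤ R * L ^ 2 := le_mul_of_one_le_right hR0 (one_le_pow₀ hL1)
        linarith
      calc (F.card : ℝ) * ((s false).card * (s true).card + R) ≤ (n / L ^ (U + T + 4)) * (R * (5 * L ^ 2)) :=
            mul_le_mul hFc2 e5 (by positivity) (by positivity)
        _ ≤ (n / L ^ (T + 3)) * (R * (5 * L ^ 2)) := by
            apply mul_le_mul_of_nonneg_right _ (by positivity)
            apply div_le_div_of_nonneg_left hn0.le (by positivity)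
            exact pow_le_pow_right₀ hL1 (by omega)
        _ = (n / L ^ T) * R * (5 / L) := by
            have : L ^ (T + 3) = L ^ T * L ^ 2 * L := by ring
            rw [this]
            field_simp
        _ ≤ (K.card : ℝ) * R * (ε / 8) := by
            apply mul_le_mul _ _ (by positivity) (by positivity)
            · exact mul_le_mul_of_nonneg_right hKT hR0
            · rw [div_le_iff₀ hL0]
              rw [div_le_iff₀ hε] at l1
              linarith
        _ = ε / 4 / 2 * (K.card * R) := by ring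
    · exact mul_le_mul_of_nonneg_right (by linarith) (mul_nonneg (Nat.cast_nonneg _) hee)
  · intro b hb
    obtain ⟨K, hK⟩ : ∃ K : Finset ℕ, K = (Icc 1 (n - 1)).filter (fun j => Nat.Prime (mirror n (!b) j)) := ⟨_, rfl⟩
    rw [← hK]
    obtain ⟨Q, hQ⟩ : ∃ Q : ℝ, Q = n / (2 * Real.log n) := ⟨_, rfl⟩
    have hQ0 : 0 < Q := by rw [hQ]; positivity
    have hKc : |(K.card : ℝ) - Q| ≤ ε / 24 * Q := by
      obtain ⟨-, n4, -⟩ := hE2 n hn1 hnX hnE (!b)
      rw [hK, mirror_primes n (!b) n3, hQ]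
      exact n4
    have hcop : ∀ a : ℤ, IsCoprime a (κ b) := by
      intro a
      rw [Int.isCoprime_iff_gcd_eq_one, Int.gcd_def, hb]
      simp
    have he : expd n (κ b) (s b) = (s b).card / (2 * Real.log n) := by
      rw [expd, hb]
      simp
    have hKQ : n / L ^ 2 ≤ K.card := by
      have h1 := (abs_le.1 hKc).1
      have h2 : (n : ℝ) / (2 * L) ≤ Q := by
        rw [hQ]
        exact div_le_div_of_nonneg_left hn0.le (by positivity) (by linarith)
      have h3 : (n : ℝ) / L ^ 2 ≤ n / (2 * L) / 2 := by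
        rw [div_div]
        apply div_le_div_of_nonneg_left hn0.le (by positivity)
        nlinarith
      have h4 : 0 ≤ (n : ℝ) / (2 * L) := by positivity
      nlinarith
    have b1 := hb1 b
    have hμe := he0 b
    have hs := sum_approx K F (fun j => (mirrorCount n b j (κ b) (y b) (s b) : ℝ))
      (expd n (κ b) (s b)) (s b).card (ε / 4) (by positivity) hμe (by positivity)
      (fun k hk => ⟨by positivity, mirrorCount_le _ _ _ _ _ _⟩)
      (fun k hk hkF => by
        have hk' : k ∈ Icc 1 (n - 1) := by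
          rw [hK] at hk
          exact (mem_filter.1 hk).1
        refine (cb b k hk' hkF (hcop _)).trans ?_
        exact mul_le_mul_of_nonneg_right (by linarith) hμe) (by
        have e5 : ((s b).card : ℝ) + expd n (κ b) (s b) ≤ expd n (κ b) (s b) * (3 * L) := by nlinarith
        calc (F.card : ℝ) * ((s b).card + expd n (κ b) (s b)) ≤ (n / L ^ (U + T + 4)) * (expd n (κ b) (s b) * (3 * L)) :=
              mul_le_mul hFc2 e5 (by positivity) (by positivity)
          _ ≤ (n / L ^ 4) * (expd n (κ b) (s b) * (3 * L)) := by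
              apply mul_le_mul_of_nonneg_right _ (by positivity)
              apply div_le_div_of_nonneg_left hn0.le (by positivity)
              exact pow_le_pow_right₀ hL1 (by omega)
          _ = (n / L ^ 2) * expd n (κ b) (s b) * (3 / L) := by
              field_simp
          _ ≤ (K.card : ℝ) * expd n (κ b) (s b) * (ε / 8) := by
              apply mul_le_mul _ _ (by positivity) (by positivity)
              · exact mul_le_mul_of_nonneg_right hKQ hμe
              · rw [div_le_iff₀ hL0]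
                rw [div_le_iff₀ hε] at l1
                linarith
          _ = ε / 4 / 2 * (K.card * expd n (κ b) (s b)) := by ring)
    obtain ⟨R, hR⟩ : ∃ R : ℝ, R = expd n (κ b) (s b) := ⟨_, rfl⟩
    have e7 : ((s b).card : ℝ) * (n / (4 * Real.log n ^ 2)) = Q * R := by
      rw [hR, he, hQ]
      field_simp
      ring
    rw [e7]
    rw [← hR] at hs hμe
    have h5 := abs_le.1 hs
    have hKc' := abs_le.1 hKc
    have h6 : R * K.card ≤ R * ((1 + ε / 12) * Q) := mul_le_mul_of_nonneg_left (by nlinarith) hμe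
    have h7 : R * ((1 - ε / 12) * Q) ≤ R * K.card := mul_le_mul_of_nonneg_left (by nlinarith) hμe
    have h8 : 0 ≤ R * Q := by positivity
    have h9 : ε * ε * (R * Q) ≤ ε * (R * Q) := by
      apply mul_le_mul_of_nonneg_right _ h8
      nlinarith
    have h10 : ε / 4 * (R * K.card) ≤ ε / 4 * (R * ((1 + ε / 12) * Q)) := mul_le_mul_of_nonneg_left h6 (by positivity)
    rw [abs_le]
    constructor
    · nlinarith [h5.1]
    · nlinarith [h5.2]

end Run7.h337.MK
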