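import Mathlib
import Pool.Agent.Run7.h337.MK.SubU
import Pool.Agent.Run7.h337.MK.Reflect

/-!
# Project MK, piece LOC (helper337), part 20: matched tuples of primes on the two sides of a square
-/

set_option autoImplicit false

namespace Run7.h337.MK

open Finset Filter
open Pool.Agent.N384.MQ (Flat ev_log_pow ev_log_ge)

lemma tuple_single_le {r : ℕ} {ι : Fin r → Type} {q : Fin r → ℕ} (u v : ℕ) (κ : Fin r → ℤ)
    (y : ∀ j, ι j → ZMod (q j)) (s : ∀ j, Finset (ι j)) (m : ℕ) :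
    (tupleCount u v κ y s {m} : ℝ) ≤ ∏ j, ((s j).card : ℝ) := by
  rw [tupleCount, sum_singleton, tuple_prod]
  push_cast
  apply Finset.prod_le_prod
  · intro j _
    exact Nat.cast_nonneg _
  · intro j _
    exact_mod_cast card_filter_le _ _

lemma prod_le_expect {r : ℕ} {ι : Fin r → Type} (d X : ℕ) (κ : Fin r → ℤ) (s : ∀ j, Finset (ι j)) (L : ℝ)
    (hL : L = Real.log X) (hL0 : 0 < L) (hκ : ∀ j, κ j ≠ 0) :
    ∏ j, ((s j).card : ℝ) ≤ ((d + 1) * L) ^ r * expect d X κ s := by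
  have hM : 0 < ((d : ℝ) + 1) * L := by positivity
  rw [expect, ← hL]
  calc ∏ j, ((s j).card : ℝ) ≤ ∏ j, (((d : ℝ) + 1) * L *
        ((κ j).natAbs / (Nat.totient (κ j).natAbs : ℝ) * ((s j).card / ((d + 1) * L)))) := by
        apply Finset.prod_le_prod
        · intro j _
          exact Nat.cast_nonneg _
        · intro j _
          have h1 := g_ge_one (κ j) (hκ j)
          have h2 : ((d : ℝ) + 1) * L * ((κ j).natAbs / (Nat.totient (κ j).natAbs : ℝ) * ((s j).card / ((d + 1) * L))) =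
              (κ j).natAbs / (Nat.totient (κ j).natAbs : ℝ) * (s j).card := by
            field_simp
          rw [h2]
          exact le_mul_of_one_le_left (Nat.cast_nonneg _) h1
    _ = _ := by
        rw [prod_mul_distrib, prod_const, card_univ, Fintype.card_fin]

/-- Matched tuples on the two sides of n^2: the first ones at m in (n^2 - n, n^2), the second ones at f m in
(n^2, n^2 + n), for every set P of m and every injection f. -/
def TwoSided (r T V C D X : ℕ) (ε : ℝ) (n : ℕ) : Prop :=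
  ∀ (q q' : Fin r → ℕ) [∀ j, NeZero (q j)] [∀ j, NeZero (q' j)],
    (∀ j, (X : ℝ) ^ (2 / 3 : ℝ) * Real.log X ^ C ≤ q j ∧ (q j : ℝ) * Real.log X ^ D ≤ X) →
    (∀ j, (X : ℝ) ^ (2 / 3 : ℝ) * Real.log X ^ C ≤ q' j ∧ (q' j : ℝ) * Real.log X ^ D ≤ X) →
    ∀ {ι ι' : Fin r → Type} (s : ∀ j, Finset (ι j)) (y : ∀ j, ι j → ZMod (q j))
      (s' : ∀ j, Finset (ι' j)) (y' : ∀ j, ι' j → ZMod (q' j)),
    (∀ j, (s j).Nonempty ∧ Flat (q j) (1 / Real.log X ^ V) (s j) (y j)) →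
    (∀ j, (s' j).Nonempty ∧ Flat (q' j) (1 / Real.log X ^ V) (s' j) (y' j)) →
    ∀ κ κ' : Fin r → ℤ, (∀ j, κ j ≠ 0 ∧ ((κ j).natAbs : ℝ) ≤ Real.log X ^ T) →
    (∀ j, κ' j ≠ 0 ∧ ((κ' j).natAbs : ℝ) ≤ Real.log X ^ T) →
    ∀ P ⊆ Ioo (n ^ 2 - n) (n ^ 2), (∀ m ∈ P, ∀ j, IsCoprime (m : ℤ) (κ j)) → (n : ℝ) / Real.log X ^ T ≤ P.card →
    ∀ f : ℕ → ℕ, Set.InjOn f P → (∀ m ∈ P, f m ∈ Ioo (n ^ 2) (n ^ 2 + n) ∧ ∀ j, IsCoprime (f m : ℤ) (κ' j)) →
    |∑ m ∈ P, (tupleCount (n ^ 2 - n) (n ^ 2) κ y s {m} : ℝ) * (tupleCount (n ^ 2) (n ^ 2 + n) κ' y' s' {f m} : ℝ) -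
      P.card * (expect 1 X κ s * expect 1 X κ' s')| ≤ ε * (P.card * (expect 1 X κ s * expect 1 X κ' s'))

theorem two_sided (r T U : ℕ) (ε : ℝ) (hε : 0 < ε) (hε1 : ε ≤ 1) :
    ∃ V C D X₀ : ℕ, ∀ X : ℕ, X₀ ≤ X →
    ∃ E : Finset ℕ, (E.card : ℝ) ≤ X / Real.log X ^ U ∧ ∀ n : ℕ, 1 ≤ n → n ≤ X → n ∉ E →
    PrimeLaw 1 X ε (n ^ 2 - n) (n ^ 2) ∧ PrimeLaw 1 X ε (n ^ 2) (n ^ 2 + n) ∧ TwoSided r T V C D X ε n := by
  classical
  obtain ⟨V, C, D, X₀, h⟩ := sub_unc 1 (le_refl 1) r (T + (U + T + 2 * r + 3) + 2) (U + T + 2 * r + 3) (ε / 6)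
    (by positivity) (by linarith)
  obtain ⟨X₁, hev⟩ := eventually_atTop.1 ((ev_log_ge (16 * 4 ^ r / ε)).and (ev_log_pow (U + 1) 1))
  refine ⟨V, C, D, max (max X₀ X₁) 3, fun X hX => ?_⟩
  have hX0' : X₀ ≤ X := le_trans (le_trans (le_max_left _ _) (le_max_left _ _)) hX
  have hX1' : X₁ ≤ X := le_trans (le_trans (le_max_right _ _) (le_max_left _ _)) hX
  have hX3 : 3 ≤ X := le_trans (le_max_right _ _) hX
  have hX0 : (0 : ℝ) < X := by
    have : (3 : ℝ) ≤ X := by exact_mod_cast hX3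
    linarith
  obtain ⟨l1, l2⟩ := hev X hX1'
  obtain ⟨hL4, E, hE, h2⟩ := h X hX0'
  obtain ⟨L, hL⟩ : ∃ L, L = Real.log X := ⟨_, rfl⟩
  have hL4' : 4 ≤ L := by rw [hL]; exact hL4
  rw [← hL] at l1 l2 hE h2
  have hL1 : 1 ≤ L := by linarith
  have hL0 : 0 < L := by linarith
  have hmono : ∀ e f : ℕ, e ≤ f → L ^ e ≤ L ^ f := fun e f hef => pow_le_pow_right₀ hL1 hef
  refine ⟨insert 1 (E ∪ E.image fun n => n + 1), ?_, fun n hn1 hnX hnE => ?_⟩
  · have e1 : ((insert 1 (E ∪ E.image fun n => n + 1)).card : ℝ) ≤ 2 * E.card + 1 := by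
      have e2 := card_insert_le 1 (E ∪ E.image fun n => n + 1)
      have e3 := card_union_le E (E.image fun n => n + 1)
      have e4 : (E.image fun n => n + 1).card ≤ E.card := card_image_le
      have e5 : (insert 1 (E ∪ E.image fun n => n + 1)).card ≤ 2 * E.card + 1 := by omega
      exact_mod_cast e5
    have e6 : (X : ℝ) / L ^ (U + T + 2 * r + 3) ≤ X / L ^ (U + 1) :=
      div_le_div_of_nonneg_left hX0.le (by positivity) (hmono _ _ (by omega))
    have e7 : 4 * ((X : ℝ) / L ^ (U + 1)) ≤ X / L ^ U := by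
      rw [pow_succ, ← div_div, mul_div_assoc', div_le_iff₀ hL0]
      have : 0 ≤ (X : ℝ) / L ^ U := by positivity
      nlinarith
    have e8 : (1 : ℝ) ≤ X / L ^ (U + 1) := by
      rw [le_div_iff₀ (by positivity)]
      exact l2
    rw [← hL]
    linarith
  rw [mem_insert, not_or, mem_union, not_or, mem_image] at hnE
  obtain ⟨f1, f2, f3⟩ := hnE
  have hn2 : 2 ≤ n := by omega
  obtain ⟨g1, g2⟩ := h2 (n - 1) (n + 1) (by omega) (by omega) (by omega)
    (by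
      have e1 : ((n - 1 : ℕ) : ℝ) = n - 1 := by
        rw [Nat.cast_sub hn1]
        norm_num
      have e2 : L ^ 1 ≤ L ^ (T + (U + T + 2 * r + 3) + 2) := hmono _ _ (by omega)
      push_cast
      rw [e1]
      linarith)
    (by
      intro m h5 h6 h7
      rcases (show m = n ∨ m = n - 1 by omega) with h8 | h8
      · exact f2 (h8 ▸ h7)
      · exact f3 ⟨m, h7, by omega⟩)
  have hnr : (2 : ℝ) ≤ n := by exact_mod_cast hn2
  have hsq : ((n ^ 2 - n : ℕ) : ℝ) = (n : ℝ) ^ 2 - n := by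
    rw [Nat.cast_sub (by nlinarith)]
    push_cast
    ring
  have hlen : (X : ℝ) ^ 1 / L ^ (T + (U + T + 2 * r + 3) + 2) ≤ n := by
    rw [pow_one, div_le_iff₀ (by positivity)]
    have e1 : ((n - 1 : ℕ) : ℝ) ≤ n := by exact_mod_cast Nat.sub_le n 1
    calc (X : ℝ) ≤ ((n - 1 : ℕ) : ℝ) * L ^ (U + T + 2 * r + 3 + 1) := g1
      _ ≤ n * L ^ (T + (U + T + 2 * r + 3) + 2) :=
        mul_le_mul e1 (hmono _ _ (by omega)) (by positivity) (by positivity)
  obtain ⟨k1, k2⟩ := g2 (n ^ 2 - n) (n ^ 2)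
    (by
      obtain ⟨c, rfl⟩ : ∃ c, n = c + 1 := ⟨n - 1, by omega⟩
      rw [Nat.add_sub_cancel]
      have e1 : (c + 1) ^ 2 = c ^ 2 + 2 * c + 1 := by ring
      have e2 : c ^ (1 + 1) = c ^ 2 := rfl
      omega)
    (by
      have e1 : (n + 1) ^ (1 + 1) = n ^ 2 + 2 * n + 1 := by ring
      omega)
    (by
      rw [hsq]
      push_cast
      linarith)
  obtain ⟨k3, k4⟩ := g2 (n ^ 2) (n ^ 2 + n)
    (by
      have e1 : (n - 1) ^ (1 + 1) ≤ n ^ (1 + 1) := Nat.pow_le_pow_left (Nat.sub_le n 1) _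
      exact e1)
    (by
      have e1 : (n + 1) ^ (1 + 1) = n ^ 2 + 2 * n + 1 := by ring
      omega)
    (by
      push_cast
      linarith)
  have hn0 : (0 : ℝ) ≤ n := Nat.cast_nonneg _
  have hw1 : ((n ^ 2 : ℕ) : ℝ) - ((n ^ 2 - n : ℕ) : ℝ) = n := by
    rw [hsq]
    push_cast
    ring
  have hw2 : ((n ^ 2 + n : ℕ) : ℝ) - ((n ^ 2 : ℕ) : ℝ) = n := by
    push_cast
    ring
  have hnn : 0 ≤ (n : ℝ) / (((1 : ℕ) + 1) * L) := by positivity
  refine ⟨?_, ?_, ?_⟩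
  · rw [PrimeLaw, hw1, ← hL] at k1 ⊢
    exact k1.trans (mul_le_mul_of_nonneg_right (by linarith) hnn)
  · rw [PrimeLaw, hw2, ← hL] at k3 ⊢
    exact k3.trans (mul_le_mul_of_nonneg_right (by linarith) hnn)
  intro q q' _ _ hq hq' ι ι' s y s' y' hsy hsy' κ κ' hκ hκ' P hP hPc hPn f hf hfP
  have h23 : (((1 + 1 : ℕ) : ℝ) / 3) = 2 / 3 := by norm_num
  rw [← hL] at hPn
  have hTT : ∀ z : ℤ, (z.natAbs : ℝ) ≤ Real.log X ^ T → (z.natAbs : ℝ) ≤ Real.log X ^ (T + (U + T + 2 * r + 3) + 2) := by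
    intro z hz
    rw [← hL] at hz ⊢
    exact hz.trans (hmono _ _ (by omega))
  obtain ⟨⟨F, hF1, hF2⟩, _, _⟩ := k2 q (fun j => ⟨by rw [h23]; exact (hq j).1, by rw [pow_one]; exact (hq j).2⟩) s y hsy κ
    (fun j => ⟨(hκ j).1, hTT _ (hκ j).2⟩)
  obtain ⟨⟨F', hF1', hF2'⟩, _, _⟩ := k4 q' (fun j => ⟨by rw [h23]; exact (hq' j).1, by rw [pow_one]; exact (hq' j).2⟩)
    s' y' hsy' κ' (fun j => ⟨(hκ' j).1, hTT _ (hκ' j).2⟩)
  rw [hw1, ← hL] at hF1
  rw [hw2, ← hL] at hF1'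
  obtain ⟨e, he⟩ : ∃ e : ℝ, e = expect 1 X κ s := ⟨_, rfl⟩
  obtain ⟨e', he'⟩ : ∃ e' : ℝ, e' = expect 1 X κ' s' := ⟨_, rfl⟩
  rw [← he] at hF2 ⊢
  rw [← he'] at hF2' ⊢
  have hS := prod_le_expect 1 X κ s L hL hL0 (fun j => (hκ j).1)
  have hS' := prod_le_expect 1 X κ' s' L hL hL0 (fun j => (hκ' j).1)
  rw [← he] at hS
  rw [← he'] at hS'
  obtain ⟨Z, hZ⟩ : ∃ Z : ℝ, Z = (((1 : ℕ) + 1) * L) ^ r := ⟨_, rfl⟩
  rw [← hZ] at hS hS'
  have hZ1 : 1 ≤ Z := by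
    rw [hZ]
    apply one_le_pow₀
    push_cast
    linarith
  have he0 : 0 ≤ e := by
    have h1 : (0 : ℝ) ≤ ∏ j, ((s j).card : ℝ) := prod_nonneg fun j _ => Nat.cast_nonneg _
    by_contra h2
    nlinarith
  have he0' : 0 ≤ e' := by
    have h1 : (0 : ℝ) ≤ ∏ j, ((s' j).card : ℝ) := prod_nonneg fun j _ => Nat.cast_nonneg _
    by_contra h2
    nlinarith
  obtain ⟨A, hA⟩ : ∃ A : ℕ → ℝ, A = fun m => (tupleCount (n ^ 2 - n) (n ^ 2) κ y s {m} : ℝ) := ⟨_, rfl⟩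
  obtain ⟨B, hB⟩ : ∃ B : ℕ → ℝ, B = fun m => (tupleCount (n ^ 2) (n ^ 2 + n) κ' y' s' {m} : ℝ) := ⟨_, rfl⟩
  have hAm : ∀ m, (tupleCount (n ^ 2 - n) (n ^ 2) κ y s {m} : ℝ) = A m := fun m => by rw [hA]
  have hBm : ∀ m, (tupleCount (n ^ 2) (n ^ 2 + n) κ' y' s' {m} : ℝ) = B m := fun m => by rw [hB]
  simp only [hAm, hBm] at hF2 hF2' ⊢
  have hA0 : ∀ m, 0 ≤ A m := fun m => by rw [← hAm]; exact Nat.cast_nonneg _
  have hB0 : ∀ m, 0 ≤ B m := fun m => by rw [← hBm]; exact Nat.cast_nonneg _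
  have hAS : ∀ m, A m ≤ Z * e := fun m => by
    rw [← hAm]
    exact (tuple_single_le _ _ κ y s m).trans hS
  have hBS : ∀ m, B m ≤ Z * e' := fun m => by
    rw [← hBm]
    exact (tuple_single_le _ _ κ' y' s' m).trans hS'
  obtain ⟨Q, hQ⟩ : ∃ Q : ℝ, Q = e * e' := ⟨_, rfl⟩
  have hQ0 : 0 ≤ Q := by rw [hQ]; positivity
  obtain ⟨Bad, hBad⟩ : ∃ Bad : Finset ℕ, Bad = P.filter fun m => m ∈ F ∨ f m ∈ F' := ⟨_, rfl⟩
  have hBadc : (Bad.card : ℝ) ≤ 2 * (n / L ^ (U + T + 2 * r + 3)) := by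
    have e1 : Bad.card ≤ F.card + F'.card := by
      have e2 : Bad ⊆ F ∪ P.filter fun m => f m ∈ F' := by
        intro m hm
        rw [hBad, mem_filter] at hm
        rw [mem_union, mem_filter]
        rcases hm.2 with h1 | h1
        · exact Or.inl h1
        · exact Or.inr ⟨hm.1, h1⟩
      have e3 : (P.filter fun m => f m ∈ F').card ≤ F'.card := by
        apply card_le_card_of_injOn f
        · intro m hm
          rw [mem_coe, mem_filter] at hm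
          exact hm.2
        · intro m hm m' hm' hmm
          rw [mem_coe, mem_filter] at hm hm'
          exact hf hm.1 hm'.1 hmm
      have e4 := card_le_card e2
      have e5 := card_union_le F (P.filter fun m => f m ∈ F')
      omega
    have e6 : (Bad.card : ℝ) ≤ F.card + F'.card := by exact_mod_cast e1
    linarith
  have hterm : ∀ m ∈ P, |A m * B (f m) - Q| ≤ ε / 2 * Q + (if m ∈ Bad then 2 * Z ^ 2 * Q else 0) := by
    intro m hm
    by_cases hb : m ∈ Bad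
    · rw [if_pos hb]
      have e1 : A m * B (f m) ≤ (Z * e) * (Z * e') := mul_le_mul (hAS m) (hBS _) (hB0 _) (by positivity)
      have e2 : 0 ≤ A m * B (f m) := mul_nonneg (hA0 _) (hB0 _)
      have e3 : (Z * e) * (Z * e') = Z ^ 2 * Q := by rw [hQ]; ring
      rw [e3] at e1
      have e4 : Q ≤ Z ^ 2 * Q := by
        apply le_mul_of_one_le_left hQ0
        exact one_le_pow₀ hZ1
      have e5 : 0 ≤ ε / 2 * Q := by positivity
      rw [abs_le]
      constructor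
      · linarith
      · linarith
    · rw [if_neg hb, add_zero]
      have hmF : m ∉ F := fun h' => hb (by rw [hBad, mem_filter]; exact ⟨hm, Or.inl h'⟩)
      have hmF' : f m ∉ F' := fun h' => hb (by rw [hBad, mem_filter]; exact ⟨hm, Or.inr h'⟩)
      have e1 := hF2 m (hP hm) hmF (hPc m hm)
      have e2 := hF2' (f m) (hfP m hm).1 hmF' (hfP m hm).2
      have e3 := two_approx (A m) (B (f m)) e e' (ε / 6) (by positivity) (by linarith) e1 e2 he0 he0'
      rw [hQ]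
      calc |A m * B (f m) - e * e'| ≤ 3 * (ε / 6) * (e * e') := e3
        _ = ε / 2 * (e * e') := by ring
  have hlast : 2 * (n / L ^ (U + T + 2 * r + 3)) * (2 * Z ^ 2 * Q) ≤ ε / 2 * (P.card * Q) := by
    have e1 : Z ^ 2 = 4 ^ r * L ^ (2 * r) := by
      rw [hZ]
      push_cast
      rw [← pow_mul, mul_pow, mul_comm r 2, pow_mul]
      norm_num
    have e2 : 8 * (4 ^ r : ℝ) ≤ ε * L := by
      rw [div_le_iff₀ hε] at l1
      have : (0 : ℝ) < 4 ^ r := by positivity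
      nlinarith
    have e3 : (n : ℝ) / L ^ (U + T + 2 * r + 3) ≤ n / L ^ T / (L ^ (2 * r) * L) := by
      rw [div_div]
      apply div_le_div_of_nonneg_left hn0 (by positivity)
      calc L ^ T * (L ^ (2 * r) * L) = L ^ (T + 2 * r + 1) := by ring
        _ ≤ _ := hmono _ _ (by omega)
    calc 2 * (n / L ^ (U + T + 2 * r + 3)) * (2 * Z ^ 2 * Q)
        ≤ 2 * (n / L ^ T / (L ^ (2 * r) * L)) * (2 * Z ^ 2 * Q) := by
          apply mul_le_mul_of_nonneg_right _ (by positivity)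
          linarith
      _ = n / L ^ T * Q * (4 * 4 ^ r / L) := by
          rw [e1]
          field_simp
          ring
      _ ≤ P.card * Q * (ε / 2) := by
          apply mul_le_mul
          · exact mul_le_mul_of_nonneg_right hPn hQ0
          · rw [div_le_iff₀ hL0]
            linarith
          · positivity
          · exact mul_nonneg (Nat.cast_nonneg _) hQ0
      _ = _ := by ring
  have hsum : |∑ m ∈ P, A m * B (f m) - P.card * Q| ≤ ∑ m ∈ P, |A m * B (f m) - Q| := by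
    have e1 : ∑ m ∈ P, A m * B (f m) - P.card * Q = ∑ m ∈ P, (A m * B (f m) - Q) := by
      rw [sum_sub_distrib, sum_const, nsmul_eq_mul]
    rw [e1]
    exact abs_sum_le_sum_abs _ _
  have hbadsum : ∑ m ∈ P, (if m ∈ Bad then 2 * Z ^ 2 * Q else 0) = Bad.card * (2 * Z ^ 2 * Q) := by
    have e1 : (P.filter fun m => m ∈ Bad) = Bad := by
      rw [hBad]
      ext m
      simp only [mem_filter]
      tauto
    rw [← sum_filter, e1, sum_const, nsmul_eq_mul]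
  rw [← hQ]
  refine hsum.trans ((sum_le_sum hterm).trans ?_)
  rw [sum_add_distrib, sum_const, nsmul_eq_mul, hbadsum]
  have e9 : (Bad.card : ℝ) * (2 * Z ^ 2 * Q) ≤ 2 * (n / L ^ (U + T + 2 * r + 3)) * (2 * Z ^ 2 * Q) :=
    mul_le_mul_of_nonneg_right hBadc (by positivity)
  have e10 : (P.card : ℝ) * (ε / 2 * Q) = ε / 2 * (P.card * Q) := by ring
  rw [e10]
  linarith

end Run7.h337.MK
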